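import Pool.Agent.Lib.MP_d439b2_co.OP.SpecE

/-!
# MP_d439b2_co, OP: few exceptional components (helper12)
-/

set_option autoImplicit false

namespace Pool.Agent.MPd439b2.OP

open Pool.Agent.MPd439b2 Pool.Agent.MPd439b2.W Pool.Agent.MPd439b2.SA

/-- a union of `ℓ` sets with at most `C` elements -/
private theorem unAux {α : Type} (C : ℕ) (f : ℕ → Set α) (h : ∀ i, (f i).encard ≤ (C : ℕ∞)) (l : ℕ) :
    ∀ ℓ : ℕ, {K | ∃ i, l ≤ i ∧ i < l + ℓ ∧ K ∈ f i}.encard ≤ ((ℓ * C : ℕ) : ℕ∞) := by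
  intro ℓ
  induction ℓ with
  | zero =>
    have h1 : {K | ∃ i, l ≤ i ∧ i < l + 0 ∧ K ∈ f i} = ∅ := by
      ext K
      simp only [Set.mem_ofPred_eq, Set.mem_empty_iff_false, iff_false]
      rintro ⟨i, h1, h2, -⟩
      omega
    rw [h1, Set.encard_empty]
    exact zero_le
  | succ ℓ ih =>
    have h1 : {K | ∃ i, l ≤ i ∧ i < l + (ℓ + 1) ∧ K ∈ f i} ⊆
        {K | ∃ i, l ≤ i ∧ i < l + ℓ ∧ K ∈ f i} ∪ f (l + ℓ) := by
      rintro K ⟨i, h1, h2, h3⟩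
      by_cases h4 : i = l + ℓ
      · exact Or.inr (h4 ▸ h3)
      · exact Or.inl ⟨i, h1, by omega, h3⟩
    refine (Set.encard_le_encard h1).trans ((Set.encard_union_le _ _).trans ?_)
    refine (add_le_add ih (h _)).trans ?_
    have h2 : ((ℓ * C : ℕ) : ℕ∞) + (C : ℕ∞) = (((ℓ + 1) * C : ℕ) : ℕ∞) := by
      push_cast
      ring
    rw [h2]

theorem pCnt : S_Crs → S_Ovl → S_KD → S_Cmp → S_Cnt := by
  intro hCrs hOvl hKD hCmp V D m₀ L r R ℓ l₁ h₁ l₂ h₂ C S₁ S₂ hE hX hW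
  have hC := hE.ctx
  have ho := hC.ol
  have hlo := hE.w₁.lo
  have hhi := hE.w₂.hi
  have hhi1 := hE.w₁.hi
  have hlo2 := hE.w₂.lo
  have hlen1 := hE.w₁.len
  have hlen2 := hE.w₂.len
  have hgap := hE.gap
  have hR := hE.hR
  have hs1 := hE.s₁
  have hs2 := hE.s₂
  have htt : tt L.k = 6 * L.k + 60 := rfl
  obtain ⟨-, -, -, c4, -⟩ := hCmp V D (Lg D L)
  have hMd : ∀ i, tt L.k ≤ i + 3 → i + tt L.k ≤ L.N + 3 → Md L i := by
    intro i h1 h2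
    unfold Md
    omega
  -- the crossing positions are impossible
  have hcr : ∀ K p q, Kp D L K → LX D L p K → LW D L q K → q + L.k + 5 ≤ p → False := by
    rintro K p q hK ⟨hp1, hp2, ⟨v, hv, hvp⟩, -⟩ ⟨hq1, hq2, ⟨u', hu', huq⟩, -⟩ hqp
    have hTp : TX D L p (L.x p) := TX_x ho (by omega) (by omega)
    have hTq : TW D L q (L.w q) := TW_w ho (by omega) (by omega)
    have hMp : Md L p := hMd p (by omega) (by omega)
    have hMq : Md L q := hMd q (by omega) (by omega)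
    obtain ⟨u, hu, hvu⟩ := c4 K hK.1 hK.2 v hv
    have h1 := hKD V D m₀ L hC K (L.x p) (L.w q) p q hK hTp hMp hTq hMq ⟨v, hv, hvp.symm⟩
      ⟨u', hu', huq.symm⟩ u hu
    have h2 : ¬ D.Adj (L.x p) u := fun h => hC.tri (L.x p) v u hvp.symm h hvu
    have h3 : D.Adj (L.w q) u := by
      by_contra h
      exact h2 (h1.2 h)
    exact hOvl V D m₀ L hC u v (L.x p) (L.w q) p q (hK.1.1 hu) (hK.1.1 hv) hvu.symm hTp hTq hvp
      h3.symm hqp (Or.inl hMp)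
  -- the extreme positions exist
  have hexW : ∀ K j, tt L.k ≤ j → j + tt L.k < L.N → sw D L j K → ∃ q, LW D L q K ∧ q ≤ j := by
    classical
    intro K j h1 h2 h3
    have hex : ∃ q, tt L.k ≤ q ∧ sw D L q K := ⟨j, h1, h3⟩
    refine ⟨Nat.find hex, ⟨(Nat.find_spec hex).1, ?_, (Nat.find_spec hex).2, ?_⟩, ?_⟩
    · have := Nat.find_min' hex ⟨h1, h3⟩
      omega
    · intro i hi hlt hsw
      exact Nat.find_min hex hlt ⟨hi, hsw⟩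
    · exact Nat.find_min' hex ⟨h1, h3⟩
  have hexX : ∀ K j, tt L.k ≤ j → j + tt L.k < L.N → sx D L j K → ∃ p, LX D L p K ∧ j ≤ p := by
    classical
    intro K j h1 h2 h3
    obtain ⟨p, hp, hmax⟩ := Finset.exists_max_image ((Finset.range L.N).filter fun p =>
      p + tt L.k < L.N ∧ sx D L p K) id ⟨j, by
        rw [Finset.mem_filter, Finset.mem_range]
        exact ⟨by omega, h2, h3⟩⟩
    rw [Finset.mem_filter, Finset.mem_range] at hp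
    have hjp : j ≤ p := hmax j (by
      rw [Finset.mem_filter, Finset.mem_range]
      exact ⟨by omega, h2, h3⟩)
    refine ⟨p, ⟨by omega, hp.2.1, hp.2.2, ?_⟩, hjp⟩
    intro i hpi hi hsx
    have h4 : i ≤ p := hmax i (by
      rw [Finset.mem_filter, Finset.mem_range]
      exact ⟨by omega, hi, hsx⟩)
    omega
  obtain ⟨FX, hFX⟩ : ∃ FX : ℕ → ℕ → Set (Set V), ∀ h i K, K ∈ FX h i ↔
      (i ≤ h ∧ Kp D L K ∧ sx D L i K ∧ ¬ sx D L (i + 1) K) :=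
    ⟨fun h i => {K | i ≤ h ∧ Kp D L K ∧ sx D L i K ∧ ¬ sx D L (i + 1) K}, fun h i K => Iff.rfl⟩
  obtain ⟨FW, hFW⟩ : ∃ FW : ℕ → ℕ → ℕ → Set (Set V), ∀ l h i K, K ∈ FW l h i ↔
      (l ≤ i ∧ i ≤ h ∧ Kp D L K ∧ sw D L i K ∧ ¬ sw D L (i - 1) K) :=
    ⟨fun l h i => {K | l ≤ i ∧ i ≤ h ∧ Kp D L K ∧ sw D L i K ∧ ¬ sw D L (i - 1) K},
      fun l h i K => Iff.rfl⟩
  have bX : ∀ l h ℓ', tt L.k < l → h + tt L.k + 1 < L.N →
      {K | ∃ i, l ≤ i ∧ i < l + ℓ' ∧ K ∈ {K | l ≤ i ∧ K ∈ FX h i}}.encard ≤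
        ((ℓ' * C : ℕ) : ℕ∞) := by
    intro l h ℓ' hl hh
    refine unAux C (fun i => {K | l ≤ i ∧ K ∈ FX h i}) (fun i => ?_) l ℓ'
    by_cases hi : l ≤ i ∧ i ≤ h
    · refine (Set.encard_le_encard ?_).trans (hX i (hMd i (by omega) (by omega))
        (hMd (i + 3) (by omega) (by omega)))
      rintro K ⟨-, hK⟩
      exact ((hFX h i K).1 hK).2
    · have h1 : {K | l ≤ i ∧ K ∈ FX h i} = ∅ := by
        rw [Set.eq_empty_iff_forall_notMem]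
        rintro K ⟨h1, hK⟩
        exact hi ⟨h1, ((hFX h i K).1 hK).1⟩
      rw [h1, Set.encard_empty]
      exact zero_le
  have bW : ∀ l h ℓ', tt L.k < l → h + tt L.k + 1 < L.N →
      {K | ∃ i, l ≤ i ∧ i < l + ℓ' ∧ K ∈ FW l h i}.encard ≤ ((ℓ' * C : ℕ) : ℕ∞) := by
    intro l h ℓ' hl hh
    refine unAux C (FW l h) (fun i => ?_) l ℓ'
    by_cases hi : l ≤ i ∧ i ≤ h
    · refine (Set.encard_le_encard ?_).trans (hW i (hMd i (by omega) (by omega))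
        (hMd (i - 3) (by omega) (by omega)))
      intro K hK
      exact ((hFW l h i K).1 hK).2.2
    · have h1 : FW l h i = ∅ := by
        rw [Set.eq_empty_iff_forall_notMem]
        intro K hK
        exact hi ⟨((hFW l h i K).1 hK).1, ((hFW l h i K).1 hK).2.1⟩
      rw [h1, Set.encard_empty]
      exact zero_le
  have b1 := hCrs V D m₀ L hC l₂ (l₂ + 2) (hMd _ (by omega) (by omega))
    (hMd _ (by omega) (by omega)) le_rfl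
  have b2 := hCrs V D m₀ L hC (h₁ - 2) h₁ (hMd _ (by omega) (by omega))
    (hMd _ (by omega) (by omega)) (by omega)
  have hsub : {K : Set V | Kp D L K ∧ ¬ KM D L h₁ l₂ K ∧ ¬ Rg D L l₁ h₂ K} ⊆
      ((({K | ∃ i, l₁ ≤ i ∧ i < l₁ + ℓ ∧ K ∈ {K | l₁ ≤ i ∧ K ∈ FX h₁ i}} ∪
        {K | ∃ i, l₂ ≤ i ∧ i < l₂ + ℓ ∧ K ∈ {K | l₂ ≤ i ∧ K ∈ FX h₂ i}}) ∪
        ({K | ∃ i, l₁ ≤ i ∧ i < l₁ + ℓ ∧ K ∈ FW l₁ h₁ i} ∪
        {K | ∃ i, l₂ ≤ i ∧ i < l₂ + ℓ ∧ K ∈ FW l₂ h₂ i})) ∪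
        ({K : Set V | Kp D L K ∧ ¬ sx D L l₂ K ∧ ¬ sw D L (l₂ + 2) K} ∪
        {K : Set V | Kp D L K ∧ ¬ sx D L (h₁ - 2) K ∧ ¬ sw D L h₁ K})) := by
    rintro K ⟨hK, hM, hRg⟩
    -- positions in the windows
    have pX : ∀ p, LX D L p K → ((l₁ ≤ p ∧ p ≤ h₁) ∨ (l₂ ≤ p ∧ p ≤ h₂)) →
        K ∈ {K | ∃ i, l₁ ≤ i ∧ i < l₁ + ℓ ∧ K ∈ {K | l₁ ≤ i ∧ K ∈ FX h₁ i}} ∪
        {K | ∃ i, l₂ ≤ i ∧ i < l₂ + ℓ ∧ K ∈ {K | l₂ ≤ i ∧ K ∈ FX h₂ i}} := by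
      rintro p ⟨hp1, hp2, hp3, hp4⟩ (⟨h1, h2⟩ | ⟨h1, h2⟩)
      · exact Or.inl ⟨p, h1, by omega, h1, (hFX _ _ _).2 ⟨h2, hK, hp3,
          hp4 (p + 1) (by omega) (by omega)⟩⟩
      · exact Or.inr ⟨p, h1, by omega, h1, (hFX _ _ _).2 ⟨h2, hK, hp3,
          hp4 (p + 1) (by omega) (by omega)⟩⟩
    have pW : ∀ q, LW D L q K → ((l₁ ≤ q ∧ q ≤ h₁) ∨ (l₂ ≤ q ∧ q ≤ h₂)) →
        K ∈ {K | ∃ i, l₁ ≤ i ∧ i < l₁ + ℓ ∧ K ∈ FW l₁ h₁ i} ∪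
        {K | ∃ i, l₂ ≤ i ∧ i < l₂ + ℓ ∧ K ∈ FW l₂ h₂ i} := by
      rintro q ⟨hq1, hq2, hq3, hq4⟩ (⟨h1, h2⟩ | ⟨h1, h2⟩)
      · exact Or.inl ⟨q, h1, by omega, (hFW _ _ _ _).2 ⟨h1, h2, hK, hq3,
          hq4 (q - 1) (by omega) (by omega)⟩⟩
      · exact Or.inr ⟨q, h1, by omega, (hFW _ _ _ _).2 ⟨h1, h2, hK, hq3,
          hq4 (q - 1) (by omega) (by omega)⟩⟩
    by_cases hP : ∃ p, LX D L p K ∧ l₁ ≤ p ∧ p ≤ h₂
    · obtain ⟨p, hp, hp1, hp2⟩ := hP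
      by_cases hpw : (l₁ ≤ p ∧ p ≤ h₁) ∨ (l₂ ≤ p ∧ p ≤ h₂)
      · exact Or.inl (Or.inl (pX p hp hpw))
      · have hp3 : h₁ < p ∧ p < l₂ := by omega
        have hsx : ¬ sx D L l₂ K := hp.2.2.2 l₂ hp3.2 (by omega)
        by_cases hsw : sw D L (l₂ + 2) K
        · obtain ⟨q, hq, hq2⟩ := hexW K (l₂ + 2) (by omega) (by omega) hsw
          by_cases hql : q < l₁
          · exact (hcr K p q hK hp hq (by omega)).elim
          · by_cases hqw : (l₁ ≤ q ∧ q ≤ h₁) ∨ (l₂ ≤ q ∧ q ≤ h₂)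
            · exact Or.inl (Or.inr (pW q hq hqw))
            · exact (hM ⟨⟨p, hp3.1, hp3.2, hp⟩, q, by omega, by omega, hq⟩).elim
        · exact Or.inr (Or.inl ⟨hK, hsx, hsw⟩)
    · have hQ : ∃ q, LW D L q K ∧ l₁ ≤ q ∧ q ≤ h₂ := by
        by_contra hcon
        apply hRg
        refine ⟨fun p hp => ?_, fun q hq => ?_⟩
        · by_contra h
          exact hP ⟨p, hp, by omega, by omega⟩
        · by_contra h
          exact hcon ⟨q, hq, by omega, by omega⟩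
      obtain ⟨q, hq, hq1, hq2⟩ := hQ
      by_cases hqw : (l₁ ≤ q ∧ q ≤ h₁) ∨ (l₂ ≤ q ∧ q ≤ h₂)
      · exact Or.inl (Or.inr (pW q hq hqw))
      · have hq3 : h₁ < q ∧ q < l₂ := by omega
        have hsw : ¬ sw D L h₁ K := hq.2.2.2 h₁ (by omega) hq3.1
        by_cases hsx : sx D L (h₁ - 2) K
        · obtain ⟨p, hp, hp2⟩ := hexX K (h₁ - 2) (by omega) (by omega) hsx
          by_cases hpl : h₂ < p
          · exact (hcr K p q hK hp hq (by omega)).elim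
          · exact (hP ⟨p, hp, by omega, by omega⟩).elim
        · exact Or.inr (Or.inr ⟨hK, hsx, hsw⟩)
  refine (Set.encard_le_encard hsub).trans ?_
  have t1 := bX l₁ h₁ ℓ hlo hhi1
  have t2 := bX l₂ h₂ ℓ hlo2 hhi
  have t3 := bW l₁ h₁ ℓ hlo hhi1
  have t4 := bW l₂ h₂ ℓ hlo2 hhi
  refine (Set.encard_union_le _ _).trans ?_
  refine (add_le_add ((Set.encard_union_le _ _).trans (add_le_add
    ((Set.encard_union_le _ _).trans (add_le_add t1 t2))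
    ((Set.encard_union_le _ _).trans (add_le_add t3 t4))))
    ((Set.encard_union_le _ _).trans (add_le_add b1 b2))).trans ?_
  have h9 : (((ℓ * C : ℕ) : ℕ∞) + ((ℓ * C : ℕ) : ℕ∞) + (((ℓ * C : ℕ) : ℕ∞) + ((ℓ * C : ℕ) : ℕ∞)) +
      (((L.k + 3 : ℕ) : ℕ∞) + ((L.k + 3 : ℕ) : ℕ∞))) =
      ((4 * ℓ * C + 2 * (L.k + 3) : ℕ) : ℕ∞) := by
    push_cast
    ring
  rw [h9]

end Pool.Agent.MPd439b2.OP
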