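import Pool.Agent.Lib.MP_d439b2_co.OP.SpecE

/-!
# MP_d439b2_co, OP: far parts have bounded rank (helper12)
-/

set_option autoImplicit false

namespace Pool.Agent.MPd439b2.OP

open Pool.Agent.MPd439b2 Pool.Agent.MPd439b2.W Pool.Agent.MPd439b2.SA

private theorem posLt {V : Type} {D : SimpleGraph V} {L : LD V} {i : ℕ} {v : V}
    (h : Pos D L i v) : i < L.N := by
  rcases h with h | h | h | h
  · have := h.le
    omega
  · exact h.1
  · have := h.2.2.2.1
    omega
  · have := h.2.2.2.1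
    omega

theorem pFar : S_RkH → S_Ex → S_Gap → S_FR1 → S_NoW → S_Bpt → S_Far := by
  intro hRkH hEx hGap hFR hNoW _ k m₀ hk
  obtain ⟨n₂, ρ₀, hrk⟩ := hRkH k m₀ hk
  refine ⟨n₂ + k + 20, ρ₀ + 2, by omega, ?_⟩
  intro V _ D L hC hLk
  have key : ∀ L : LD V, Ctx D m₀ L → L.k = k → ∀ (c : ℕ) (A B : Set V), tt L.k ≤ c →
      c + (n₂ + k + 20) + tt L.k < L.N → A ⊆ D3 D L 0 c →
      B ⊆ D3 D L (c + (n₂ + k + 20)) (L.N - 1 - tt L.k) → LK.rk D A B ≤ ρ₀ + 2 := by
    intro L hC hLk c A B hc hcN hA hB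
    have ho := hC.ol
    have hk1 := hC.hk
    have htt : tt L.k = 6 * L.k + 60 := rfl
    have hMd : ∀ i, tt L.k ≤ i → i + tt L.k < L.N → Md L i := by
      intro i h1 h2
      unfold Md
      omega
    have fx : ∀ (v z z' : V) (i i' : ℕ), v ∈ Lg D L → TX D L i z → TX D L i' z' → i + 5 ≤ i' →
        2 * L.k + 9 ≤ i' → D.Adj v z' → D.Adj v z := (hFR V D m₀ L hC).1
    have fw : ∀ (v z z' : V) (i i' : ℕ), v ∈ Lg D L → TW D L i z → TW D L i' z' → i' + 5 ≤ i →
        i' + 2 * L.k + 10 ≤ L.N → D.Adj v z' → D.Adj v z := (hFR V D m₀ L hC).2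
    -- light vertices with a position see only one type
    have pbW : ∀ p v, PB D L p v → ∀ i z, TW D L i z → ¬ D.Adj v z := by
      rintro p v ⟨h1, h2, h3, h4, -⟩ i z hz
      exact (hNoW V D m₀ L hC).1 v (L.x p) z p i h1 (TX_x ho (by omega) (by omega))
        (hMd p h2 h3) h4 hz
    have paX : ∀ q v, PA D L q v → ∀ i z, TX D L i z → ¬ D.Adj v z := by
      rintro q v ⟨h1, h2, h3, h4, -⟩ i z hz
      exact (hNoW V D m₀ L hC).2 v (L.w q) z q i h1 (TW_w ho (by omega) (by omega))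
        (hMd q h2 h3) h4 hz
    obtain ⟨P, hP⟩ : ∃ P : Fin 4 → Set V, P = ![{v | v ∈ A ∧ ∃ i ≤ c, TX D L i v},
      {v | v ∈ A ∧ ∃ i ≤ c, TW D L i v}, {v | v ∈ A ∧ ∃ i ≤ c, Iso D L v ∧ PB D L i v},
      {v | v ∈ A ∧ ∃ i ≤ c, Iso D L v ∧ PA D L i v}] := ⟨_, rfl⟩
    obtain ⟨Q, hQ⟩ : ∃ Q : Fin 4 → Set V, Q =
      ![{v | ∃ i, c + (n₂ + k + 20) ≤ i ∧ i + tt L.k < L.N ∧ TX D L i v},
      {v | ∃ i, c + (n₂ + k + 20) ≤ i ∧ i + tt L.k < L.N ∧ TW D L i v},
      {v | ∃ i, c + (n₂ + k + 20) ≤ i ∧ i + tt L.k < L.N ∧ Iso D L v ∧ PB D L i v},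
      {v | ∃ i, c + (n₂ + k + 20) ≤ i ∧ i + tt L.k < L.N ∧ Iso D L v ∧ PA D L i v}] := ⟨_, rfl⟩
    have hAP : A ⊆ ⋃ i, P i := by
      intro v hv
      obtain ⟨i, -, hi, hp⟩ := hA hv
      rw [Set.mem_iUnion]
      rcases hp with hp | hp | hp | hp
      · exact ⟨0, by rw [hP]; exact ⟨hv, i, hi, hp⟩⟩
      · exact ⟨1, by rw [hP]; exact ⟨hv, i, hi, hp⟩⟩
      · exact ⟨2, by rw [hP]; exact ⟨hv, i, hi, hp⟩⟩
      · exact ⟨3, by rw [hP]; exact ⟨hv, i, hi, hp⟩⟩
    have hBQ : B ⊆ ⋃ i, Q i := by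
      intro v hv
      obtain ⟨i, hi, hi', hp⟩ := hB hv
      rw [Set.mem_iUnion]
      rcases hp with hp | hp | hp | hp
      · exact ⟨0, by rw [hQ]; exact ⟨i, hi, by omega, hp⟩⟩
      · exact ⟨1, by rw [hQ]; exact ⟨i, hi, by omega, hp⟩⟩
      · exact ⟨2, by rw [hQ]; exact ⟨i, hi, by omega, hp⟩⟩
      · exact ⟨3, by rw [hQ]; exact ⟨i, hi, by omega, hp⟩⟩
    have hmain := Rep.rk_blocks D P Q
      ![![0, ρ₀, 1, 0], ![0, 0, 0, 0], ![0, 0, 0, 0], ![0, 1, 0, 0]] hAP hBQ ?_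
    · refine hmain.trans ?_
      simp [Fin.sum_univ_succ]
    · intro i j
      rw [hP, hQ]
      fin_cases i <;> fin_cases j
      · -- X, X
        refine (Rep.rk_anti D ?_).le
        rintro u ⟨-, i, -, hu⟩ v ⟨j, -, -, hv⟩
        exact TX_TX hC.tri hu hv
      · -- X, W
        show LK.rk D {v | v ∈ A ∧ ∃ i ≤ c, TX D L i v}
          {v | ∃ i, c + (n₂ + k + 20) ≤ i ∧ i + tt L.k < L.N ∧ TW D L i v} ≤ ρ₀
        refine hrk V D _ _ (fun j => L.x (c + 2 + j)) (fun j => L.b (c + 2 + j)) hC.tri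
          (hLk ▸ hC.ns) hC.com ?_ ?_ ?_
        · intro i hi j hj
          rw [OLxb ho (by omega) (by omega)]
          omega
        · rintro p ⟨-, i, hi, hp⟩ j hj
          exact hp.adj (by omega) (by omega) (by omega)
        · rintro q ⟨i, hi, hiN, hq⟩ J hJ
          have h1 := (hEx V D m₀ L hC).1 q i (J.image fun j => c + 2 + j) L.x hq (by omega) ?_
          · rw [Finset.card_image_of_injective _ (fun s t h => by
              have h' : c + 2 + s = c + 2 + t := h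
              omega)] at h1
            omega
          · intro j hj
            rw [Finset.mem_image] at hj
            obtain ⟨s, hs, rfl⟩ := hj
            obtain ⟨h2, h3⟩ := hJ s hs
            exact ⟨by omega, by omega, TX_x ho (by omega) (by omega), fun h => h3 h.symm⟩
      · -- X, PB
        refine Rep.rk_comp D ?_
        rintro u ⟨-, i, hi, hu⟩ v ⟨j, hj, hjN, hvI, hv⟩
        exact (fx v u (L.x j) i j hvI.1 hu (TX_x ho (by omega) (by omega)) (by omega) (by omega)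
          hv.2.2.2.1).symm
      · -- X, PA
        refine (Rep.rk_anti D ?_).le
        rintro u ⟨-, i, -, hu⟩ v ⟨j, -, -, -, hv⟩ huv
        exact paX j v hv i u hu huv.symm
      · -- W, X
        refine (Rep.rk_anti D ?_).le
        rintro u ⟨-, i, hi, hu⟩ v ⟨j, hj, hjN, hv⟩ huv
        exact hGap V D m₀ L hC v u j i hv hu (by omega) (Or.inl (by omega)) huv.symm
      · -- W, W
        refine (Rep.rk_anti D ?_).le
        rintro u ⟨-, i, -, hu⟩ v ⟨j, -, -, hv⟩
        exact TW_TW hC.tri hu hv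
      · -- W, PB
        refine (Rep.rk_anti D ?_).le
        rintro u ⟨-, i, -, hu⟩ v ⟨j, -, -, -, hv⟩ huv
        exact pbW j v hv i u hu huv.symm
      · -- W, PA
        refine (Rep.rk_anti D ?_).le
        rintro u ⟨-, i, hi, hu⟩ v ⟨j, hj, hjN, hvI, hv⟩ huv
        have h1 := fw v (L.w (j - 1)) u (j - 1) i hvI.1 (TW_w ho (by omega) (by omega)) hu
          (by omega) (by omega) huv.symm
        exact hv.2.2.2.2 (j - 1) (by omega) (by omega) h1
      · -- PB, X
        refine (Rep.rk_anti D ?_).le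
        rintro u ⟨-, i, hi, huI, hu⟩ v ⟨j, hj, hjN, hv⟩ huv
        have h1 := fx u (L.x (i + 1)) v (i + 1) j huI.1 (TX_x ho (by
          have := hu.2.1
          omega) (by omega)) hv (by omega) (by omega) huv
        exact hu.2.2.2.2 (i + 1) (by omega) (by omega) h1
      · -- PB, W
        refine (Rep.rk_anti D ?_).le
        rintro u ⟨-, i, -, -, hu⟩ v ⟨j, -, -, hv⟩
        exact pbW i u hu j v hv
      · refine (Rep.rk_anti D ?_).le
        rintro u ⟨-, i, -, hu, -⟩ v ⟨j, -, -, hv, -⟩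
        exact hu.2 v hv.1
      · refine (Rep.rk_anti D ?_).le
        rintro u ⟨-, i, -, hu, -⟩ v ⟨j, -, -, hv, -⟩
        exact hu.2 v hv.1
      · -- PA, X
        refine (Rep.rk_anti D ?_).le
        rintro u ⟨-, i, -, -, hu⟩ v ⟨j, -, -, hv⟩
        exact paX i u hu j v hv
      · -- PA, W
        refine Rep.rk_comp D ?_
        rintro u ⟨-, i, hi, huI, hu⟩ v ⟨j, hj, hjN, hv⟩
        exact fw u v (L.w i) j i huI.1 hv (TW_w ho (by
          have := hu.2.1
          omega) (by omega)) (by omega) (by omega) hu.2.2.2.1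
      · refine (Rep.rk_anti D ?_).le
        rintro u ⟨-, i, -, hu, -⟩ v ⟨j, -, -, hv, -⟩
        exact hu.2 v hv.1
      · refine (Rep.rk_anti D ?_).le
        rintro u ⟨-, i, -, hu, -⟩ v ⟨j, -, -, hv, -⟩
        exact hu.2 v hv.1
  intro c A B hc hcN hA hB hor
  rcases hor.symm with h | h
  · exact key L hC hLk c A B hc hcN hA h
  · rw [Rep.rk_symm]
    refine key L.rev hC.rev hLk (L.N - 1 - (c + (n₂ + k + 20))) B A ?_ ?_ ?_ ?_
    · rw [rev_k]
      omega
    · rw [rev_k, rev_N]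
      omega
    · intro v hv
      obtain ⟨i, hi1, hi2, hi⟩ := hB hv
      have hiN := posLt hi
      refine ⟨L.N - 1 - i, by omega, by omega, ?_⟩
      rw [Pos_rev (by omega), Nat.sub_sub_self (by omega)]
      exact hi
    · intro v hv
      obtain ⟨i, hi1, hi2, hi⟩ := h hv
      have hiN := posLt hi
      refine ⟨L.N - 1 - i, by omega, ?_, ?_⟩
      · rw [rev_k, rev_N]
        omega
      · rw [Pos_rev (by omega), Nat.sub_sub_self (by omega)]
        exact hi

end Pool.Agent.MPd439b2.OP
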