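import Pool.Agent.Lib.MP_d439b2_co.OP.SpecF
import Pool.Agent.Lib.MP_d439b2_co.B.FD

/-!
# MP_d439b2_co, OP: the base class is hereditary
-/

set_option autoImplicit false

namespace Pool.Agent.MPd439b2.OP

open Pool.Agent.MPd439b2 Pool.Agent.MPd439b2.W Pool.Agent.MPd439b2.SA

theorem pHer : S_Her := by
  intro s n F V _ D X h
  obtain ⟨h1, h2⟩ := h
  refine ⟨fun x y z hxy hxz hyz => h1 x.1 y.1 z.1 hxy hxz hyz, fun h3 => h2 ?_⟩
  refine FDAux.indMinor_trans h3 (FDAux.indMinor_of_indSub ⟨Subtype.val, Subtype.val_injective,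
    fun x y => ?_⟩)
  show (D.induce X)ᶜ.Adj x y ↔ Dᶜ.Adj x.1 y.1
  rw [SimpleGraph.compl_adj, SimpleGraph.compl_adj, SimpleGraph.comap_adj]
  exact and_congr_left fun _ => not_congr Subtype.ext_iff

end Pool.Agent.MPd439b2.OP
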