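import Pool.Agent.Lib.MP_d439b2_co.OP.SpecF

/-!
# MP_d439b2_co, OP: layouts give balanced cuts (helper84)
-/

set_option autoImplicit false

namespace Pool.Agent.MPd439b2.OP

open Pool.Agent.MPd439b2 Pool.Agent.MPd439b2.W Pool.Agent.MPd439b2.SA

namespace LcAux

private theorem lay_ty {W : Type} {G : SimpleGraph W} {r : ℕ} {A : Set W} (h : Lay G r A) :
    (Types G A).encard ≤ r := by
  cases h with
  | empty =>
    have : Types G (∅ : Set W) = ∅ := by
      ext T
      constructor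
      · rintro ⟨-, a, ha, -⟩
        exact absurd ha (Set.notMem_empty a)
      · exact fun h => absurd h (Set.notMem_empty T)
    rw [this, Set.encard_empty]
    exact zero_le
  | single v hv => exact hv
  | union h1 h2 h3 h4 => exact h4

private theorem split {W : Type} [Finite W] (G : SimpleGraph W) (r : ℕ) (M : Set W)
    (hM : 2 ≤ M.ncard) {A : Set W} (h : Lay G r A) : 2 * M.ncard < 3 * (M ∩ A).ncard →
    ∃ S : Set W, (Types G S).encard ≤ r ∧ M.ncard ≤ 3 * (M ∩ S).ncard ∧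
      M.ncard ≤ 3 * (M \ S).ncard := by
  have key : ∀ B : Set W, Lay G r B → 3 * (M ∩ B).ncard ≤ 2 * M.ncard →
      M.ncard ≤ 3 * (M ∩ B).ncard → ∃ S : Set W, (Types G S).encard ≤ r ∧
        M.ncard ≤ 3 * (M ∩ S).ncard ∧ M.ncard ≤ 3 * (M \ S).ncard := by
    intro B hB h1 h2
    refine ⟨B, lay_ty hB, h2, ?_⟩
    have h3 := Set.ncard_inter_add_ncard_sdiff_eq_ncard M B (Set.toFinite M)
    omega
  induction h with
  | empty =>
    intro h0
    rw [Set.inter_empty, Set.ncard_empty] at h0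
    omega
  | single v hv =>
    intro h0
    have h1 : (M ∩ {v}).ncard ≤ 1 := by
      have := Set.ncard_le_ncard (Set.inter_subset_right : M ∩ {v} ⊆ {v}) (Set.toFinite _)
      rwa [Set.ncard_singleton] at this
    omega
  | @union A B hA hB hd hAB ihA ihB =>
    intro h0
    by_cases hA' : 2 * M.ncard < 3 * (M ∩ A).ncard
    · exact ihA hA'
    by_cases hB' : 2 * M.ncard < 3 * (M ∩ B).ncard
    · exact ihB hB'
    have h1 : (M ∩ (A ∪ B)).ncard ≤ (M ∩ A).ncard + (M ∩ B).ncard := by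
      rw [Set.inter_union_distrib_left]
      exact Set.ncard_union_le _ _
    by_cases h2 : (M ∩ B).ncard ≤ (M ∩ A).ncard
    · exact key A hA (by omega) (by omega)
    · exact key B hB (by omega) (by omega)

end LcAux

theorem pLc : S_Lc := by
  intro V _ D X r hlay M hMX hM
  obtain ⟨M', hM'⟩ : ∃ M' : Set X, M' = {x : X | (x : V) ∈ M} := ⟨_, rfl⟩
  have himg : ∀ T : Set X, (M' ∩ T).ncard = (M ∩ ((fun x : X => (x : V)) '' T)).ncard := by
    intro T
    rw [← Set.ncard_image_of_injective (M' ∩ T) Subtype.val_injective]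
    congr 1
    ext v
    constructor
    · rintro ⟨x, ⟨h1, h2⟩, rfl⟩
      rw [hM'] at h1
      exact ⟨h1, x, h2, rfl⟩
    · rintro ⟨h1, x, h2, rfl⟩
      refine ⟨x, ⟨?_, h2⟩, rfl⟩
      rw [hM']
      exact h1
  have hcard : M'.ncard = M.ncard := by
    have h1 := himg Set.univ
    rw [Set.inter_univ] at h1
    rw [h1]
    congr 1
    ext v
    constructor
    · exact fun h => h.1
    · exact fun h => ⟨h, ⟨v, hMX h⟩, trivial, rfl⟩
  obtain ⟨S, s1, s2, s3⟩ := LcAux.split (D.induce X) r M' (by omega) hlay (by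
    rw [Set.inter_univ]
    omega)
  have hdiff : (M' \ S).ncard = (M \ ((fun x : X => (x : V)) '' S)).ncard := by
    have h1 := Set.ncard_inter_add_ncard_sdiff_eq_ncard M' S (Set.toFinite M')
    have h2 := Set.ncard_inter_add_ncard_sdiff_eq_ncard M ((fun x : X => (x : V)) '' S)
      (Set.toFinite M)
    rw [himg, hcard] at h1
    omega
  refine ⟨(fun x : X => (x : V)) '' S, ?_, ?_, ?_, ?_⟩
  · rintro v ⟨x, -, rfl⟩
    exact x.2
  · have hfin : (Types (D.induce X) S).Finite := Set.finite_of_encard_le_coe s1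
    have hle : (Types (D.induce X) S).ncard ≤ r := by
      rw [← hfin.cast_ncard_eq] at s1
      exact_mod_cast s1
    refine le_trans ((LK.a1 V D).2.2.2.2.2 _ _
      ((fun T : Set X => (fun x : X => (x : V)) '' T) '' Types (D.induce X) S) ?_)
      ((Set.ncard_image_le hfin).trans hle)
    rintro a ⟨s, hs, rfl⟩
    by_cases h2 : ∃ b ∈ X \ ((fun x : X => (x : V)) '' S), D.Adj (s : V) b
    · left
      obtain ⟨b, ⟨hbX, hbS⟩, hab⟩ := h2
      refine ⟨(D.induce X).neighborSet s \ S, ⟨⟨⟨b, hbX⟩, hab, ?_⟩, s, hs, rfl⟩, ?_⟩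
      · exact fun h => hbS ⟨⟨b, hbX⟩, h, rfl⟩
      · ext v
        constructor
        · rintro ⟨y, ⟨h3, h4⟩, rfl⟩
          refine ⟨⟨y.2, ?_⟩, h3⟩
          rintro ⟨z, hz, hzy⟩
          exact h4 (Subtype.val_injective hzy ▸ hz)
        · rintro ⟨⟨h3, h4⟩, h5⟩
          exact ⟨⟨v, h3⟩, ⟨h5, fun h6 => h4 ⟨⟨v, h3⟩, h6, rfl⟩⟩, rfl⟩
    · right
      push Not at h2
      exact h2
  · rw [← himg, ← hcard]
    exact s2
  · rw [← hdiff, ← hcard]
    exact s3

end Pool.Agent.MPd439b2.OP
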