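import Pool.Agent.Lib.MP_d439b2_co.OP.SpecF

/-!
# MP_d439b2_co, OP, NOc: the graphs without a large opposite ladder form a finite-state class (helper91)
-/

set_option autoImplicit false

namespace Pool.Agent.MPd439b2.OP

open Pool.Agent.MPd439b2 Pool.Agent.MPd439b2.W Pool.Agent.MPd439b2.SA

namespace PNOcAux

theorem tr {V V' : Type} {D : SimpleGraph V} {D' : SimpleGraph V'} {n : ℕ} {a b x w : ℕ → V}
    {a' b' x' w' : ℕ → V'} (h : OL D n a b x w)
    (hab : ∀ i < n, ∀ j < n, (D'.Adj (a' i) (b' j) ↔ D.Adj (a i) (b j)))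
    (haa : ∀ i < n, ∀ j < n, (D'.Adj (a' i) (a' j) ↔ D.Adj (a i) (a j)))
    (hbb : ∀ i < n, ∀ j < n, (D'.Adj (b' i) (b' j) ↔ D.Adj (b i) (b j)))
    (hxb : ∀ i < n, ∀ j < n, (D'.Adj (x' i) (b' j) ↔ D.Adj (x i) (b j)))
    (hxa : ∀ i < n, ∀ j < n, (D'.Adj (x' i) (a' j) ↔ D.Adj (x i) (a j)))
    (hwa : ∀ i < n, ∀ j < n, (D'.Adj (w' i) (a' j) ↔ D.Adj (w i) (a j)))
    (hwb : ∀ i < n, ∀ j < n, (D'.Adj (w' i) (b' j) ↔ D.Adj (w i) (b j))) :
    OL D' n a' b' x' w' where
  lad :=
    { im := fun i hi j hj => ⟨(hab i hi j hj).trans (h.lad.im i hi j hj).1,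
        fun h1 => (h.lad.im i hi j hj).2.1 ((haa i hi j hj).1 h1),
        fun h1 => (h.lad.im i hi j hj).2.2 ((hbb i hi j hj).1 h1)⟩
      xb := fun i hi j hj => (hxb i hi j hj).trans (h.lad.xb i hi j hj)
      xa := fun i hi j hj h1 => h.lad.xa i hi j hj ((hxa i hi j hj).1 h1) }
  wa := fun i hi j hj => (hwa i hi j hj).trans (h.wa i hi j hj)
  wb := fun i hi j hj h1 => h.wb i hi j hj ((hwb i hi j hj).1 h1)

/-- images under a map which preserves adjacency in both directions -/
theorem push {V V' : Type} {D : SimpleGraph V} {D' : SimpleGraph V'} (f : V → V')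
    (hf : ∀ u v, D'.Adj (f u) (f v) ↔ D.Adj u v) {n : ℕ} {a b x w : ℕ → V}
    (h : OL D n a b x w) :
    OL D' n (fun i => f (a i)) (fun i => f (b i)) (fun i => f (x i)) fun i => f (w i) :=
  tr h (fun _ _ _ _ => hf _ _) (fun _ _ _ _ => hf _ _) (fun _ _ _ _ => hf _ _)
    (fun _ _ _ _ => hf _ _) (fun _ _ _ _ => hf _ _) (fun _ _ _ _ => hf _ _)
    fun _ _ _ _ => hf _ _

/-- restriction of a sequence to a subset -/
theorem restrS {V : Type} {S : Set V} (s₀ : S) {n : ℕ} {c : ℕ → V} (h : ∀ i < n, c i ∈ S) :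
    ∃ c' : ℕ → S, ∀ i < n, (c' i : V) = c i := by
  classical
  refine ⟨fun i => if h' : i < n then ⟨c i, h i h'⟩ else s₀, fun i hi => ?_⟩
  dsimp only
  rw [dif_pos hi]

end PNOcAux

open PNOcAux Pool.Agent.MPd439b2.Rep in
/-- **NOc.** -/
theorem pNOc : S_NOc := by
  classical
  intro n hn
  have hInv : Inv (fun _ D => NoOLn D n) := by
    intro V V' _ _ G G' e he h a b x w hO
    refine h _ _ _ _ (push (D := G') (D' := G) e.symm (fun u v => ?_) hO)
    rw [he, Equiv.apply_symm_apply, Equiv.apply_symm_apply]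
  refine ⟨hInv, fsLoc_holds (4 * n) _ hInv ?_⟩
  intro V _ G
  constructor
  · intro h S _ a b x w hO
    exact h _ _ _ _ (push (D := G.induce S) (D' := G) Subtype.val (fun u v => Iff.rfl) hO)
  · intro h a b x w hO
    obtain ⟨F, hF⟩ : ∃ F : Finset V, F = (Finset.range n).image a ∪ (Finset.range n).image b ∪
        ((Finset.range n).image x ∪ (Finset.range n).image w) := ⟨_, rfl⟩
    have hc : F.card ≤ 4 * n := by
      have e1 : ∀ c : ℕ → V, ((Finset.range n).image c).card ≤ n := fun c =>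
        Finset.card_image_le.trans (Finset.card_range n).le
      have e2 := e1 a
      have e3 := e1 b
      have e4 := e1 x
      have e5 := e1 w
      have e6 := Finset.card_union_le ((Finset.range n).image a ∪ (Finset.range n).image b)
        ((Finset.range n).image x ∪ (Finset.range n).image w)
      have e7 := Finset.card_union_le ((Finset.range n).image a) ((Finset.range n).image b)
      have e8 := Finset.card_union_le ((Finset.range n).image x) ((Finset.range n).image w)
      rw [hF]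
      omega
    have ma : ∀ i < n, a i ∈ (F : Set V) := fun i hi => by
      rw [Finset.mem_coe, hF]
      exact Finset.mem_union_left _ (Finset.mem_union_left _
        (Finset.mem_image_of_mem a (Finset.mem_range.2 hi)))
    have mb : ∀ i < n, b i ∈ (F : Set V) := fun i hi => by
      rw [Finset.mem_coe, hF]
      exact Finset.mem_union_left _ (Finset.mem_union_right _
        (Finset.mem_image_of_mem b (Finset.mem_range.2 hi)))
    have mx : ∀ i < n, x i ∈ (F : Set V) := fun i hi => by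
      rw [Finset.mem_coe, hF]
      exact Finset.mem_union_right _ (Finset.mem_union_left _
        (Finset.mem_image_of_mem x (Finset.mem_range.2 hi)))
    have mw : ∀ i < n, w i ∈ (F : Set V) := fun i hi => by
      rw [Finset.mem_coe, hF]
      exact Finset.mem_union_right _ (Finset.mem_union_right _
        (Finset.mem_image_of_mem w (Finset.mem_range.2 hi)))
    have s₀ : (F : Set V) := ⟨a 0, ma 0 (by omega)⟩
    obtain ⟨a', ha⟩ := restrS s₀ ma
    obtain ⟨b', hb⟩ := restrS s₀ mb
    obtain ⟨x', hx⟩ := restrS s₀ mx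
    obtain ⟨w', hw⟩ := restrS s₀ mw
    have key : ∀ (c d : ℕ → V) (c' d' : ℕ → (F : Set V)), (∀ i < n, (c' i : V) = c i) →
        (∀ i < n, (d' i : V) = d i) → ∀ i < n, ∀ j < n,
        ((G.induce (F : Set V)).Adj (c' i) (d' j) ↔ G.Adj (c i) (d j)) := by
      intro c d c' d' hc' hd' i hi j hj
      rw [← hc' i hi, ← hd' j hj]
      exact Iff.rfl
    refine h (F : Set V) (by rw [Set.ncard_coe_finset]; exact hc) a' b' x' w' (tr hO
      (key _ _ _ _ ha hb) (key _ _ _ _ ha ha) (key _ _ _ _ hb hb) (key _ _ _ _ hx hb)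
      (key _ _ _ _ hx ha) (key _ _ _ _ hw ha) (key _ _ _ _ hw hb))

end Pool.Agent.MPd439b2.OP
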