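import Pool.Agent.Lib.MP_d439b2_co.OP.All
import Pool.Agent.Lib.MP_d439b2_co.OP.PFar
import Pool.Agent.Lib.MP_d439b2_co.OP.PCnt
import Pool.Agent.Lib.MP_d439b2_co.OP.PNOc
import Pool.Agent.Lib.MP_d439b2_co.OP.PLc
import Pool.Agent.Lib.MP_d439b2_co.OP.PHer
import Pool.Agent.Lib.MP_d439b2_co.SA.AllNO

/-!
# MP_d439b2_co, OP: the rows `S_{1,2,3} + 3 P_2` and `S_{2,2,3} + 2 P_2` of the column `3 P_1`

`rowF2F`, `rowF3F`: for every `s` the class of the finite graphs without the induced minors `3 P_1` and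
`K_s ∨ co(S_{1,2,3} + 3 P_2)` (resp. `K_s ∨ co(S_{2,2,3} + 2 P_2)`) has bounded clique-width.
-/

set_option autoImplicit false

namespace Pool.Agent.MPd439b2.OP

open Pool.Agent.MPd439b2 Pool.Agent.MPd439b2.W Pool.Agent.MPd439b2.SA Pool.Agent.MPd439b2.Rep

theorem okOpp : S_Opp := oppOf pFar pCnt

theorem rowsF : (∀ s : ℕ, BoundedCW (⊥ : SimpleGraph (Fin 3)) (KCo s F2)) ∧
    ∀ s : ℕ, BoundedCW (⊥ : SimpleGraph (Fin 3)) (KCo s F3) :=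
  rows okNO pNOc pLc pHer okOpp

/-- `(3 P_1, K_s ∨ co(S_{1,2,3} + 3 P_2))` is bounded. -/
theorem rowF2F : ∀ s : ℕ, BoundedCW (⊥ : SimpleGraph (Fin 3)) (KCo s F2) := rowsF.1

/-- `(3 P_1, K_s ∨ co(S_{2,2,3} + 2 P_2))` is bounded. -/
theorem rowF3F : ∀ s : ℕ, BoundedCW (⊥ : SimpleGraph (Fin 3)) (KCo s F3) := rowsF.2

end Pool.Agent.MPd439b2.OP
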