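import Pool.Agent.Lib.MP_d439b2_co.OP.SpecE

/-!
# MP_d439b2_co, OP/BadR: many differently coloured pairs at different places give a large rank (helper63)

Proof of `S_BadR`, following the docstring in `SpecE`.
-/

set_option autoImplicit false

namespace Pool.Agent.MPd439b2.OP

open Pool.Agent.MPd439b2 Pool.Agent.MPd439b2.W Pool.Agent.MPd439b2.SA

namespace PBadRAux

/-- pigeonhole with an increasing enumeration -/
private theorem pig (α : Type) [Fintype α] [Nonempty α] (n : ℕ) (C : α → ℕ → Prop)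
    (h : ∀ i < Fintype.card α * n, ∃ c, C c i) :
    ∃ c, ∃ f : ℕ → ℕ, (∀ i j, i < j → j < n → f i < f j) ∧
      (∀ i < n, f i < Fintype.card α * n) ∧ ∀ i < n, C c (f i) := by
  classical
  have hcol : ∃ col : ℕ → α, ∀ i < Fintype.card α * n, C (col i) i := by
    refine ⟨fun i => if hi : i < Fintype.card α * n then (h i hi).choose
      else Classical.arbitrary α, fun i hi => ?_⟩
    simp only [hi, dif_pos]
    exact (h i hi).choose_spec
  obtain ⟨col, hcol⟩ := hcol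
  obtain ⟨c, -, hc⟩ := Finset.exists_le_card_fiber_of_mul_le_card_of_maps_to
    (s := Finset.range (Fintype.card α * n)) (t := (Finset.univ : Finset α)) (f := col) (n := n)
    (fun a _ => Finset.mem_univ _) Finset.univ_nonempty (by simp)
  obtain ⟨F, hF, hFc⟩ := Finset.exists_subset_card_eq hc
  have hmem : ∀ i : Fin n, F.orderEmbOfFin hFc i ∈ F := fun i => Finset.orderEmbOfFin_mem F hFc i
  refine ⟨c, fun i => if hi : i < n then F.orderEmbOfFin hFc ⟨i, hi⟩ else 0, ?_, ?_, ?_⟩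
  · intro i j hij hj
    have hi : i < n := hij.trans hj
    simp only [hi, hj, dif_pos]
    exact (F.orderEmbOfFin hFc).strictMono hij
  · intro i hi
    simp only [hi, dif_pos]
    have h1 := hF (hmem ⟨i, hi⟩)
    rw [Finset.mem_filter, Finset.mem_range] at h1
    exact h1.1
  · intro i hi
    simp only [hi, dif_pos]
    have h1 := hF (hmem ⟨i, hi⟩)
    rw [Finset.mem_filter, Finset.mem_range] at h1
    have h2 := hcol _ h1.1
    rw [h1.2] at h2
    exact h2

/-- selection and the half graph -/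
private theorem core (hHG : S_HG) (hSel : S_Sel) {V : Type} [Finite V] {D : SimpleGraph V}
    {k r : ℕ} {S T : Set V} {s t : ℕ → V} (hs : ∀ i < (k + 1) * (2 * (r + 1)), s i ∈ S)
    (ht : ∀ i < (k + 1) * (2 * (r + 1)), t i ∈ T)
    (ha : ∀ j < (k + 1) * (2 * (r + 1)), ∀ J : Finset ℕ,
      (∀ i ∈ J, i < j ∧ ¬ D.Adj (s i) (t j)) → J.card ≤ k)
    (hb : ∀ i j, j < i → i < (k + 1) * (2 * (r + 1)) → ¬ D.Adj (s i) (t j)) :
    r < LK.rk D S T := by
  obtain ⟨f, h1, h2, h3⟩ := hSel k (2 * (r + 1)) (fun i j => ¬ D.Adj (s i) (t j)) ha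
  have h4 := hHG V D S T (r + 1) (fun p => s (f (2 * p))) (fun q => t (f (2 * q + 1)))
    (fun i hi => hs _ (h2 _ (by omega))) (fun i hi => ht _ (h2 _ (by omega))) (by
      intro i hi j hj
      constructor
      · intro h5
        by_contra h6
        exact hb _ _ (h1 (2 * j + 1) (2 * i) (by omega) (by omega)) (h2 _ (by omega)) h5
      · intro h5
        exact not_not.mp (h3 (2 * i) (2 * j + 1) (by omega) (by omega)))
  omega

section

variable {V : Type} {D : SimpleGraph V} {m₀ : ℕ} {L : LD V} {k n : ℕ} {s t : ℕ → V} {P Q : ℕ → ℕ}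

/-- positions -/
private def PosOK (L : LD V) (k n : ℕ) (P Q : ℕ → ℕ) : Prop :=
  (∀ i < n, tt k ≤ P i ∧ P i + tt k < L.N ∧ tt k ≤ Q i ∧ Q i + tt k < L.N) ∧
  ∀ i j, i < j → j < n → P i + k + 10 ≤ P j ∧ P i + k + 10 ≤ Q j ∧ Q i + k + 10 ≤ P j ∧
    Q i + k + 10 ≤ Q j

private theorem xw_a (hEx : S_Ex) (hC : Ctx D m₀ L) (hk : L.k = k) (hP : PosOK L k n P Q)
    (h1 : ∀ i < n, TX D L (P i) (s i)) (h2 : ∀ i < n, TW D L (Q i) (t i)) :
    ∀ j < n, ∀ J : Finset ℕ, (∀ i ∈ J, i < j ∧ ¬ D.Adj (s i) (t j)) → J.card ≤ k := by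
  classical
  intro j hj J hJ
  have hinj : Set.InjOn P (J : Set ℕ) := by
    intro a ha b hb hab
    have ha' := (hJ a (Finset.mem_coe.mp ha)).1
    have hb' := (hJ b (Finset.mem_coe.mp hb)).1
    rcases lt_trichotomy a b with h | h | h
    · have := (hP.2 a b h (hb'.trans hj)).1
      omega
    · exact h
    · have := (hP.2 b a h (ha'.trans hj)).1
      omega
  obtain ⟨ζ, hζ⟩ : ∃ ζ : ℕ → V, ∀ p, (∃ i ∈ J, P i = p) → ∃ i ∈ J, P i = p ∧ ζ p = s i := by
    refine ⟨fun p => if h : ∃ i ∈ J, P i = p then s h.choose else s 0, fun p hp => ?_⟩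
    refine ⟨hp.choose, hp.choose_spec.1, hp.choose_spec.2, ?_⟩
    simp only [hp, dif_pos]
  have hj2 := hP.1 j hj
  have h3 := (hEx V D m₀ L hC).1 (t j) (Q j) (J.image P) ζ (h2 j hj)
    (by unfold tt at hj2; omega) (by
      intro p hp
      rw [Finset.mem_image] at hp
      obtain ⟨i, hi, hip, hiz⟩ := hζ p hp
      have hi2 := hJ i hi
      have hi3 := hP.2 i j hi2.1 hj
      have hi4 := hP.1 i (hi2.1.trans hj)
      rw [hiz]
      refine ⟨?_, ?_, ?_, hi2.2⟩
      · unfold tt at hi4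
        omega
      · omega
      · rw [← hip]
        exact h1 i (hi2.1.trans hj))
  rw [Finset.card_image_of_injOn hinj, hk] at h3
  exact h3

private theorem xw_b (hGap : S_Gap) (hC : Ctx D m₀ L) (hk : L.k = k) (hP : PosOK L k n P Q)
    (h1 : ∀ i < n, TX D L (P i) (s i)) (h2 : ∀ i < n, TW D L (Q i) (t i)) :
    ∀ i j, j < i → i < n → ¬ D.Adj (s i) (t j) := by
  intro i j hji hi
  have h3 := hP.2 j i hji hi
  have h4 := hP.1 i hi
  unfold tt at h4
  exact hGap V D m₀ L hC (s i) (t j) (P i) (Q j) (h1 i hi) (h2 j (hji.trans hi)) (by omega)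
    (Or.inl (by omega))

private theorem xb_a (hFR : S_FR1) (hC : Ctx D m₀ L) (hk : L.k = k) (hP : PosOK L k n P Q)
    (h1 : ∀ i < n, TX D L (P i) (s i)) (h2 : ∀ i < n, PB D L (Q i) (t i)) :
    ∀ j < n, ∀ J : Finset ℕ, (∀ i ∈ J, i < j ∧ ¬ D.Adj (s i) (t j)) → J.card ≤ k := by
  intro j hj J hJ
  have h3 : J = ∅ := by
    rw [Finset.eq_empty_iff_forall_notMem]
    intro i hi
    obtain ⟨hij, hna⟩ := hJ i hi
    have h4 := hP.1 j hj
    have h5 := hP.2 i j hij hj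
    unfold tt at h4
    obtain ⟨l1, l2, l3, l4, l5⟩ := h2 j hj
    exact hna ((hFR V D m₀ L hC).1 (t j) (s i) (L.x (Q j)) (P i) (Q j) l1
      (h1 i (hij.trans hj)) (TX_x hC.ol (by omega) (by omega)) (by omega) (by omega) l4).symm
  rw [h3, Finset.card_empty]
  exact Nat.zero_le _

private theorem xb_b (hFR : S_FR1) (hC : Ctx D m₀ L) (hk : L.k = k) (hP : PosOK L k n P Q)
    (h1 : ∀ i < n, TX D L (P i) (s i)) (h2 : ∀ i < n, PB D L (Q i) (t i)) :
    ∀ i j, j < i → i < n → ¬ D.Adj (s i) (t j) := by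
  intro i j hji hi hadj
  have h3 := hP.2 j i hji hi
  have h4 := hP.1 i hi
  have h5 := hP.1 j (hji.trans hi)
  obtain ⟨l1, l2, l3, l4, l5⟩ := h2 j (hji.trans hi)
  rw [hk] at l5
  unfold tt at h4 h5 l5
  exact l5 (Q j + 1) (by omega) (by omega) ((hFR V D m₀ L hC).1 (t j) (L.x (Q j + 1)) (s i)
    (Q j + 1) (P i) l1 (TX_x hC.ol (by omega) (by omega)) (h1 i hi) (by omega) (by omega)
    hadj.symm)

private theorem aw_a (hFR : S_FR1) (hC : Ctx D m₀ L) (hk : L.k = k) (hP : PosOK L k n P Q)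
    (h1 : ∀ i < n, PA D L (P i) (s i)) (h2 : ∀ i < n, TW D L (Q i) (t i)) :
    ∀ j < n, ∀ J : Finset ℕ, (∀ i ∈ J, i < j ∧ ¬ D.Adj (s i) (t j)) → J.card ≤ k := by
  intro j hj J hJ
  have h3 : J = ∅ := by
    rw [Finset.eq_empty_iff_forall_notMem]
    intro i hi
    obtain ⟨hij, hna⟩ := hJ i hi
    have h4 := hP.1 i (hij.trans hj)
    have h5 := hP.2 i j hij hj
    unfold tt at h4
    obtain ⟨l1, l2, l3, l4, l5⟩ := h1 i (hij.trans hj)
    exact hna ((hFR V D m₀ L hC).2 (s i) (t j) (L.w (P i)) (Q j) (P i) l1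
      (h2 j hj) (TW_w hC.ol (by omega) (by omega)) (by omega) (by omega) l4)
  rw [h3, Finset.card_empty]
  exact Nat.zero_le _

private theorem aw_b (hFR : S_FR1) (hC : Ctx D m₀ L) (hk : L.k = k) (hP : PosOK L k n P Q)
    (h1 : ∀ i < n, PA D L (P i) (s i)) (h2 : ∀ i < n, TW D L (Q i) (t i)) :
    ∀ i j, j < i → i < n → ¬ D.Adj (s i) (t j) := by
  intro i j hji hi hadj
  have h3 := hP.2 j i hji hi
  have h4 := hP.1 i hi
  have h5 := hP.1 j (hji.trans hi)
  obtain ⟨l1, l2, l3, l4, l5⟩ := h1 i hi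
  rw [hk] at l5
  unfold tt at h4 h5 l5
  exact l5 (P i - 1) (by omega) (by omega) ((hFR V D m₀ L hC).2 (s i) (L.w (P i - 1)) (t j)
    (P i - 1) (Q j) l1 (TW_w hC.ol (by omega) (by omega)) (h2 j (hji.trans hi)) (by omega)
    (by omega) hadj)

end

/-- one type, one colouring -/
private theorem one (hHG : S_HG) (hSel : S_Sel) (hEx : S_Ex) (hGap : S_Gap) (hFR : S_FR1)
    {V : Type} [Finite V] {D : SimpleGraph V} {m₀ : ℕ} {L : LD V} {k r : ℕ} (hC : Ctx D m₀ L)
    (hk : L.k = k) {S T : Set V} {s t : ℕ → V} {P Q : ℕ → ℕ}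
    (hs : ∀ i < (k + 1) * (2 * (r + 1)), s i ∈ S) (ht : ∀ i < (k + 1) * (2 * (r + 1)), t i ∈ T)
    (hP : PosOK L k ((k + 1) * (2 * (r + 1))) P Q)
    (hty : (∀ i < (k + 1) * (2 * (r + 1)), TX D L (P i) (s i) ∧ TW D L (Q i) (t i)) ∨
      (∀ i < (k + 1) * (2 * (r + 1)), TX D L (P i) (s i) ∧ PB D L (Q i) (t i)) ∨
      ∀ i < (k + 1) * (2 * (r + 1)), PA D L (P i) (s i) ∧ TW D L (Q i) (t i)) :
    r < LK.rk D S T := by
  rcases hty with h | h | h
  · exact core hHG hSel hs ht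
      (xw_a hEx hC hk hP (fun i hi => (h i hi).1) (fun i hi => (h i hi).2))
      (xw_b hGap hC hk hP (fun i hi => (h i hi).1) (fun i hi => (h i hi).2))
  · exact core hHG hSel hs ht
      (xb_a hFR hC hk hP (fun i hi => (h i hi).1) (fun i hi => (h i hi).2))
      (xb_b hFR hC hk hP (fun i hi => (h i hi).1) (fun i hi => (h i hi).2))
  · exact core hHG hSel hs ht
      (aw_a hFR hC hk hP (fun i hi => (h i hi).1) (fun i hi => (h i hi).2))
      (aw_b hFR hC hk hP (fun i hi => (h i hi).1) (fun i hi => (h i hi).2))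

end PBadRAux

open PBadRAux in
/-- **BadR** -/
theorem pBadR : S_HG → S_Sel → S_Ex → S_Gap → S_FR1 → S_BadR := by
  intro hHG hSel hEx hGap hFR k r _
  refine ⟨6 * ((k + 1) * (2 * (r + 1))), ?_⟩
  intro V _ D m₀ L hC hk S T s t P Q hST hTyp hsp
  have hcard : Fintype.card (Bool × Fin 3) = 6 := by
    simp
  obtain ⟨⟨bo, τ⟩, f, hf1, hf2, hf3⟩ := pig (Bool × Fin 3) ((k + 1) * (2 * (r + 1)))
    (fun c i => ((c.1 = true → s i ∈ S ∧ t i ∈ T) ∧ (c.1 = false → s i ∈ T ∧ t i ∈ S)) ∧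
      (c.2 = 0 → TX D L (P i) (s i) ∧ TW D L (Q i) (t i)) ∧
      (c.2 = 1 → TX D L (P i) (s i) ∧ PB D L (Q i) (t i)) ∧
      (c.2 = 2 → PA D L (P i) (s i) ∧ TW D L (Q i) (t i))) (by
      intro i hi
      rw [hcard] at hi
      have hτ : ∃ τ : Fin 3, (τ = 0 → TX D L (P i) (s i) ∧ TW D L (Q i) (t i)) ∧
          (τ = 1 → TX D L (P i) (s i) ∧ PB D L (Q i) (t i)) ∧
          (τ = 2 → PA D L (P i) (s i) ∧ TW D L (Q i) (t i)) := by
        rcases (hTyp i hi).1 with h | h | h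
        · exact ⟨0, fun _ => h, fun h0 => absurd h0 (by decide), fun h0 => absurd h0 (by decide)⟩
        · exact ⟨1, fun h0 => absurd h0 (by decide), fun _ => ⟨h.1, h.2.2⟩,
            fun h0 => absurd h0 (by decide)⟩
        · exact ⟨2, fun h0 => absurd h0 (by decide), fun h0 => absurd h0 (by decide),
            fun _ => ⟨h.2.1, h.2.2⟩⟩
      obtain ⟨τ, hτ⟩ := hτ
      rcases hST i hi with h | h
      · exact ⟨(true, τ), ⟨fun _ => h, fun h0 => absurd h0 (by simp)⟩, hτ⟩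
      · exact ⟨(false, τ), ⟨fun h0 => absurd h0 (by simp), fun _ => h⟩, hτ⟩)
  rw [hcard] at hf2
  have hP : PosOK L k ((k + 1) * (2 * (r + 1))) (fun i => P (f i)) (fun i => Q (f i)) :=
    ⟨fun i hi => (hTyp (f i) (hf2 i hi)).2, fun i j hij hj =>
      hsp (f i) (f j) (hf1 i j hij hj) (hf2 j hj)⟩
  have hty : (∀ i < (k + 1) * (2 * (r + 1)), TX D L (P (f i)) (s (f i)) ∧
        TW D L (Q (f i)) (t (f i))) ∨
      (∀ i < (k + 1) * (2 * (r + 1)), TX D L (P (f i)) (s (f i)) ∧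
        PB D L (Q (f i)) (t (f i))) ∨
      ∀ i < (k + 1) * (2 * (r + 1)), PA D L (P (f i)) (s (f i)) ∧
        TW D L (Q (f i)) (t (f i)) := by
    have hτ : τ = 0 ∨ τ = 1 ∨ τ = 2 := by
      fin_cases τ <;> simp
    rcases hτ with h | h | h
    · exact Or.inl fun i hi => (hf3 i hi).2.1 h
    · exact Or.inr (Or.inl fun i hi => (hf3 i hi).2.2.1 h)
    · exact Or.inr (Or.inr fun i hi => (hf3 i hi).2.2.2 h)
  cases bo with
  | true =>
    exact one hHG hSel hEx hGap hFR hC hk (s := fun i => s (f i)) (t := fun i => t (f i))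
      (fun i hi => ((hf3 i hi).1.1 rfl).1) (fun i hi => ((hf3 i hi).1.1 rfl).2) hP hty
  | false =>
    rw [Rep.rk_symm]
    exact one hHG hSel hEx hGap hFR hC hk (s := fun i => s (f i)) (t := fun i => t (f i))
      (fun i hi => ((hf3 i hi).1.2 rfl).1) (fun i hi => ((hf3 i hi).1.2 rfl).2) hP hty

end Pool.Agent.MPd439b2.OP
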