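import Pool.Agent.Lib.MP_d439b2_co.OP.SpecB

/-!
# MP_d439b2_co, OP: blocks are small
-/

set_option autoImplicit false

namespace Pool.Agent.MPd439b2.OP

open Pool.Agent.MPd439b2 Pool.Agent.MPd439b2.W Pool.Agent.MPd439b2.SA

namespace BlkU

/-- `n` different members of a set with at least `n` elements -/
theorem pick {α : Type} [Inhabited α] {S : Set α} {n : ℕ} (h : (n : ℕ∞) ≤ S.encard) :
    ∃ f : ℕ → α, (∀ t < n, f t ∈ S) ∧ ∀ t < n, ∀ u < n, f t = f u → t = u := by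
  classical
  obtain ⟨T, hT, hc⟩ := Set.exists_subset_encard_eq h
  have hfin : T.Finite := Set.finite_of_encard_eq_coe hc
  obtain ⟨s, hs⟩ : ∃ s : Finset α, (s : Set α) = T := ⟨hfin.toFinset, hfin.coe_toFinset⟩
  have hsc : s.card = n := by
    rw [← hs, Set.encard_coe_eq_coe_finsetCard] at hc
    exact_mod_cast hc
  have e := (Finset.equivFinOfCardEq hsc).symm
  refine ⟨fun t => if h : t < n then (e ⟨t, h⟩ : α) else default, ?_, ?_⟩
  · intro t ht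
    show (if h : t < n then (e ⟨t, h⟩ : α) else default) ∈ S
    rw [dif_pos ht]
    have h8 : (e ⟨t, ht⟩ : α) ∈ T := by
      rw [← hs]
      exact (e ⟨t, ht⟩).2
    exact hT h8
  · intro t ht u hu he
    have he2 : (if h : t < n then (e ⟨t, h⟩ : α) else default) =
      (if h : u < n then (e ⟨u, h⟩ : α) else default) := he
    rw [dif_pos ht, dif_pos hu] at he2
    exact congrArg Fin.val (e.injective (Subtype.ext he2))

/-- the exceptional indices -/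
def ex (N k i : ℕ) : Finset ℕ := (Finset.range (3 * k + 20) ∪ Finset.Ico (N - (3 * k + 20)) N) ∪ {i}

theorem ex_card (N k i : ℕ) : (ex N k i).card ≤ 6 * k + 41 := by
  unfold ex
  have h1 := Finset.card_union_le (Finset.range (3 * k + 20) ∪ Finset.Ico (N - (3 * k + 20)) N) {i}
  have h2 := Finset.card_union_le (Finset.range (3 * k + 20)) (Finset.Ico (N - (3 * k + 20)) N)
  rw [Finset.card_range, Nat.card_Ico] at h2
  rw [Finset.card_singleton] at h1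
  omega

theorem ex_mem {N k i j : ℕ} (h : j < 3 * k + 20 ∨ (N ≤ j + 3 * k + 20 ∧ j < N) ∨ j = i) :
    j ∈ ex N k i := by
  unfold ex
  rw [Finset.mem_union, Finset.mem_union, Finset.mem_range, Finset.mem_Ico, Finset.mem_singleton]
  rcases h with h | h | h
  · exact Or.inl (Or.inl h)
  · exact Or.inl (Or.inr ⟨by omega, h.2⟩)
  · exact Or.inr h

/-- the first part -/
theorem one (hIns : S_Ins) (hCrs : S_Crs) (hKB : S_KB) (hKD : S_KD) (hC : S_Cmp) {V : Type}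
    {D : SimpleGraph V} {m₀ : ℕ} {L : LD V} {n₁ : ℕ} (hL : Ctx D m₀ L) (hN : NoOLn D (L.N + 1))
    (hH : HNO D (4 * L.k + 32) n₁) (i : ℕ) (hi : Md L i) (hi3 : Md L (i + 3)) :
    {K : Set V | Kp D L K ∧ sx D L i K ∧ ¬ sx D L (i + 1) K}.encard ≤
      ((n₁ + 7 * L.k + 50 : ℕ) : ℕ∞) := by
  classical
  obtain ⟨c1, c2, c3, c4, c5⟩ := hC V D (Lg D L)
  have hk := hL.hk
  have O := hL.ol
  have ha1 := hi.1
  have ha2 := hi3.2
  have hi1 : Md L (i + 1) := ⟨by omega, by omega⟩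
  have b1 := hCrs V D m₀ L hL (i + 1) (i + 3) hi1 hi3 (by omega)
  have txi : TX D L i (L.x i) := TX_x O (by omega) (by omega)
  have twi : TW D L (i + 3) (L.w (i + 3)) := TW_w O (by omega) (by omega)
  -- the components with an edge of the ladder
  have hb : ∀ K j, Kp D L K → j < L.N → (L.a j ∈ K ∨ L.b j ∈ K) → L.b j ∈ K := by
    intro K j hK hj h
    rcases h with h | h
    · by_contra hb
      exact hK.1.2.2 (L.b j) (Lg_b hk O hj) ⟨hb, L.a j, h, (OLab O hj hj).2 rfl⟩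
    · exact h
  have b2 : {K : Set V | (Kp D L K ∧ sx D L i K ∧ ¬ sx D L (i + 1) K) ∧
      ∃ j < L.N, L.a j ∈ K ∨ L.b j ∈ K}.encard ≤ ((6 * L.k + 41 : ℕ) : ℕ∞) := by
    have hch : ∀ K : Set V, ∃ j : ℕ, (∃ j < L.N, L.a j ∈ K ∨ L.b j ∈ K) →
        j < L.N ∧ (L.a j ∈ K ∨ L.b j ∈ K) := by
      intro K
      by_cases h : ∃ j < L.N, L.a j ∈ K ∨ L.b j ∈ K
      · obtain ⟨j, h1, h2⟩ := h
        exact ⟨j, fun _ => ⟨h1, h2⟩⟩
      · exact ⟨0, fun h1 => absurd h1 h⟩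
    choose F hF using hch
    have h1 := Set.encard_le_encard_of_injOn (f := F)
      (s := {K : Set V | (Kp D L K ∧ sx D L i K ∧ ¬ sx D L (i + 1) K) ∧
        ∃ j < L.N, L.a j ∈ K ∨ L.b j ∈ K}) (t := (ex L.N L.k i : Set ℕ)) ?_ ?_
    · rw [Set.encard_coe_eq_coe_finsetCard] at h1
      refine h1.trans ?_
      exact_mod_cast ex_card L.N L.k i
    · rintro K ⟨⟨hK, hsx, hnx⟩, hj⟩
      obtain ⟨hj1, hj2⟩ := hF K hj
      have hbK := hb K _ hK hj1 hj2
      apply Finset.mem_coe.2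
      apply ex_mem
      by_cases hMd : Md L (F K)
      · right
        right
        have hm1 := hMd.1
        have hm2 := hMd.2
        have txj : TX D L (F K) (L.x (F K)) := TX_x O (by omega) (by omega)
        have xb : D.Adj (L.x (F K)) (L.b (F K)) := (OLxb O hj1 hj1).2 le_rfl
        obtain ⟨v, hv, hvx⟩ := hsx
        have h3 := (hKB V D m₀ L hL).1 K (L.x i) (L.x (F K)) i (F K) hK.1 txi hi txj hMd
          ⟨v, hv, hvx.symm⟩ ⟨_, hbK, xb⟩ _ hbK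
        have h4 := (OLxb O (by omega) hj1).1 (h3.2 xb)
        have h5 : ¬ D.Adj (L.x (i + 1)) (L.b (F K)) := fun h => hnx ⟨_, hbK, h.symm⟩
        rw [OLxb O (by omega) hj1] at h5
        omega
      · unfold Md at hMd
        omega
    · rintro K ⟨⟨hK, -, -⟩, hj⟩ K' ⟨⟨hK', -, -⟩, hj'⟩ he
      obtain ⟨hj1, hj2⟩ := hF K hj
      obtain ⟨hj1', hj2'⟩ := hF K' hj'
      have hbK := hb K _ hK hj1 hj2
      have hbK' := hb K' _ hK' hj1' hj2'
      rw [← he] at hbK'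
      exact c2 K K' hK.1 hK'.1 _ hbK hbK'
  by_contra hbig
  rw [not_le] at hbig
  -- the remaining components
  have b3 : (n₁ : ℕ∞) ≤ {K : Set V | (Kp D L K ∧ sx D L i K ∧ ¬ sx D L (i + 1) K) ∧
      sw D L (i + 3) K ∧ ∀ j < L.N, L.a j ∉ K ∧ L.b j ∉ K}.encard := by
    by_contra h
    rw [not_le] at h
    have hsub : {K : Set V | Kp D L K ∧ sx D L i K ∧ ¬ sx D L (i + 1) K} ⊆
        ({K : Set V | Kp D L K ∧ ¬ sx D L (i + 1) K ∧ ¬ sw D L (i + 3) K} ∪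
          {K : Set V | (Kp D L K ∧ sx D L i K ∧ ¬ sx D L (i + 1) K) ∧
            ∃ j < L.N, L.a j ∈ K ∨ L.b j ∈ K}) ∪
          {K : Set V | (Kp D L K ∧ sx D L i K ∧ ¬ sx D L (i + 1) K) ∧
            sw D L (i + 3) K ∧ ∀ j < L.N, L.a j ∉ K ∧ L.b j ∉ K} := by
      rintro K ⟨hK, hsx, hnx⟩
      by_cases hsw : sw D L (i + 3) K
      · by_cases hj : ∃ j < L.N, L.a j ∈ K ∨ L.b j ∈ K
        · exact Or.inl (Or.inr ⟨⟨hK, hsx, hnx⟩, hj⟩)
        · refine Or.inr ⟨⟨hK, hsx, hnx⟩, hsw, fun j hjN => ⟨fun h1 => hj ⟨j, hjN, Or.inl h1⟩,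
            fun h1 => hj ⟨j, hjN, Or.inr h1⟩⟩⟩
      · exact Or.inl (Or.inl ⟨hK, hnx, hsw⟩)
    have h1 := (Set.encard_le_encard hsub).trans ((Set.encard_union_le _ _).trans
      (add_le_add (Set.encard_union_le _ _) le_rfl))
    have h2 : ((n₁ + 7 * L.k + 50 : ℕ) : ℕ∞) < ((L.k + 3 : ℕ) : ℕ∞) + ((6 * L.k + 41 : ℕ) : ℕ∞) +
        (n₁ : ℕ∞) :=
      lt_of_lt_of_le hbig (h1.trans (add_le_add (add_le_add b1 b2) h.le))
    have h3 : n₁ + 7 * L.k + 50 < (L.k + 3) + (6 * L.k + 41) + n₁ := by exact_mod_cast h2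
    omega
  obtain ⟨K, hK, hinj⟩ := pick b3
  have hch : ∀ s : ℕ, ∃ v u : V, s < n₁ → v ∈ K s ∧ u ∈ K s ∧ D.Adj v (L.x i) ∧ D.Adj v u := by
    intro s
    by_cases hs : s < n₁
    · obtain ⟨v, hv, hvx⟩ := (hK s hs).1.2.1
      obtain ⟨u, hu, hvu⟩ := c4 (K s) (hK s hs).1.1.1 (hK s hs).1.1.2 v hv
      exact ⟨v, u, fun _ => ⟨hv, hu, hvx, hvu⟩⟩
    · exact ⟨L.a 0, L.a 0, fun h => absurd h hs⟩
  choose v u huv using hch
  have far : ∀ s < n₁, ∀ t < n₁, s ≠ t → ∀ y ∈ K s, ∀ z ∈ K t, ¬ D.Adj y z := by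
    intro s hs t ht hst
    exact c3 (K s) (K t) (hK s hs).1.1.1 (hK t ht).1.1.1 (fun h => hst (hinj s hs t ht h))
  have him : IM D n₁ u v := by
    intro s hs t ht
    obtain ⟨h1, h2, h3, h4⟩ := huv s hs
    obtain ⟨g1, g2, g3, g4⟩ := huv t ht
    by_cases hst : s = t
    · subst hst
      exact ⟨⟨fun _ => rfl, fun _ => h4.symm⟩, D.irrefl, D.irrefl⟩
    · exact ⟨⟨fun h => absurd h (far s hs t ht hst _ h2 _ g1), fun h => absurd h hst⟩,
        far s hs t ht hst _ h2 _ g2, far s hs t ht hst _ h1 _ g1⟩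
  obtain ⟨σ, x', w', hσ, hσi, hol⟩ := hH u v him
  have hNB : NB D m₀ L i (4 * L.k + 32) (fun s => u (σ s)) (fun s => v (σ s)) x' w'
      (fun s => K (σ s)) := by
    refine
      { ctx := hL
        mi := hi
        mi' := hi3
        ol' := hol
        ku := fun s hs => ⟨(hK _ (hσ s hs)).1.1.1, (huv _ (hσ s hs)).2.1, (huv _ (hσ s hs)).1⟩
        kn := fun s hs t ht hst he => hst (hσi s hs t ht (hinj _ (hσ s hs) _ (hσ t ht) he))
        vx := fun s hs => (huv _ (hσ s hs)).2.2.1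
        nvx := fun s hs h => (hK _ (hσ s hs)).1.2.2 ⟨_, (huv _ (hσ s hs)).1, h⟩
        uw := fun s hs => ?_
        na := fun s hs => (hK _ (hσ s hs)).2.2 }
    obtain ⟨h1, h2, h3, h4⟩ := huv _ (hσ s hs)
    obtain ⟨y, hy, hyw⟩ := (hK _ (hσ s hs)).2.1
    have h5 := hKD V D m₀ L hL (K (σ s)) (L.x i) (L.w (i + 3)) i (i + 3) (hK _ (hσ s hs)).1.1 txi hi
      twi hi3 ⟨_, h1, h3.symm⟩ ⟨y, hy, hyw.symm⟩ _ h2
    have h6 : ¬ D.Adj (L.x i) (u (σ s)) := fun h => hL.tri (v (σ s)) (L.x i) (u (σ s)) h3 h4 h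
    by_contra h7
    exact h6 (h5.2 fun h => h7 h.symm)
  obtain ⟨a'', b'', x'', w'', hO⟩ := hIns V D m₀ L i _ _ _ _ _ hNB
  exact hN a'' b'' x'' w'' hO

end BlkU

theorem pBlk : S_Ins → S_Crs → S_KB → S_KD → S_Cmp → S_Blk := by
  intro hIns hCrs hKB hKD hC V D m₀ L n₁ hL hN hH
  refine ⟨BlkU.one hIns hCrs hKB hKD hC hL hN hH, fun i hi hi3 => ?_⟩
  have h1 := hi.1
  have h2 := hi.2
  have h3 := hi3.1
  have g1 : Md L.rev (L.N - 1 - i) := by
    constructor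
    · show 3 * L.k + 20 ≤ L.N - 1 - i
      omega
    · show L.N - 1 - i + 3 * L.k + 20 < L.N
      omega
  have g2 : Md L.rev (L.N - 1 - i + 3) := by
    constructor
    · show 3 * L.k + 20 ≤ L.N - 1 - i + 3
      omega
    · show L.N - 1 - i + 3 + 3 * L.k + 20 < L.N
      omega
  have key := BlkU.one (L := L.rev) hIns hCrs hKB hKD hC hL.rev hN hH (L.N - 1 - i) g1 g2
  have e1 : L.N - 1 - (L.N - 1 - i) = i := by omega
  have e2 : L.N - 1 - (L.N - 1 - i + 1) = i - 1 := by omega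
  refine le_trans (Set.encard_le_encard ?_) key
  rintro K ⟨hK, hs, hn⟩
  refine ⟨Kp_rev.2 hK, sx_rev.2 ?_, fun h => hn ?_⟩
  · rw [e1]
    exact hs
  · have h4 := sx_rev.1 h
    rw [e2] at h4
    exact h4

end Pool.Agent.MPd439b2.OP
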