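import Pool.Agent.Lib.MP_d439b2_co.OP.SpecB

/-!
# MP_d439b2_co, OP: the positioned vertices form a bipartite graph (helper25)
-/

set_option autoImplicit false

namespace Pool.Agent.MPd439b2.OP

open Pool.Agent.MPd439b2 Pool.Agent.MPd439b2.W Pool.Agent.MPd439b2.SA

private theorem bpt_x {V : Type} {D : SimpleGraph V} {m₀ : ℕ} {L : LD V} (hC : Ctx D m₀ L)
    {p : ℕ} {v : V} (h : PB D L p v) : TX D L p (L.x p) ∧ Md L p := by
  obtain ⟨_, h1, h2, _⟩ := h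
  unfold tt at h1 h2
  exact ⟨TX_x hC.ol (by omega) (by omega), by omega, by omega⟩

private theorem bpt_w {V : Type} {D : SimpleGraph V} {m₀ : ℕ} {L : LD V} (hC : Ctx D m₀ L)
    {q : ℕ} {v : V} (h : PA D L q v) : TW D L q (L.w q) ∧ Md L q := by
  obtain ⟨_, h1, h2, _⟩ := h
  unfold tt at h1 h2
  exact ⟨TW_w hC.ol (by omega) (by omega), by omega, by omega⟩

/-- **Bpt.** -/
theorem pBpt : S_TXa → S_NoW → S_Bpt := by
  intro hTXa hNoW V D m₀ L hC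
  -- a light vertex with `PB` sees no vertex of type `W`
  have hB : ∀ {p i : ℕ} {v z : V}, PB D L p v → TW D L i z → ¬ D.Adj v z := by
    intro p i v z h h'
    obtain ⟨h1, h2⟩ := bpt_x hC h
    exact (hNoW V D m₀ L hC).1 v (L.x p) z p i h.1 h1 h2 h.2.2.2.1 h'
  -- a light vertex with `PA` sees no vertex of type `X`
  have hA : ∀ {q i : ℕ} {v z : V}, PA D L q v → TX D L i z → ¬ D.Adj v z := by
    intro q i v z h h'
    obtain ⟨h1, h2⟩ := bpt_w hC h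
    exact (hNoW V D m₀ L hC).2 v (L.w q) z q i h.1 h1 h2 h.2.2.2.1 h'
  have ht := hC.tri
  constructor
  · rintro v ⟨h1 | ⟨h1, q, h2⟩, h3 | ⟨h3, p, h4⟩⟩
    · obtain ⟨i, hi⟩ := h1
      obtain ⟨j, hj⟩ := h3
      exact (hTXa V D m₀ L hC).1 v i 0 hi (by have := hi.le; have := hC.hk; omega) hj.first
    · obtain ⟨i, hi⟩ := h1
      exact notX_of_Lg h3.1 hi
    · obtain ⟨j, hj⟩ := h3
      exact notW_of_Lg h1.1 hj
    · obtain ⟨h5, _⟩ := bpt_w hC h2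
      exact hB h4 h5 h2.2.2.2.1
  · rintro u v ⟨i, hi⟩ ⟨j, hj⟩ huv
    rcases hi with hi | hi | ⟨hi, hi'⟩ | ⟨hi, hi'⟩
    · rcases hj with hj | hj | ⟨hj, hj'⟩ | ⟨hj, hj'⟩
      · exact absurd huv (TX_TX ht hi hj)
      · exact Or.inl (Or.inl ⟨⟨i, hi⟩, ⟨j, hj⟩⟩)
      · exact Or.inl (Or.inr (Or.inl ⟨⟨i, hi⟩, hj, j, hj'⟩))
      · exact absurd huv.symm (hA hj' hi)
    · rcases hj with hj | hj | ⟨hj, hj'⟩ | ⟨hj, hj'⟩
      · exact Or.inr (Or.inl ⟨⟨j, hj⟩, ⟨i, hi⟩⟩)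
      · exact absurd huv (TW_TW ht hi hj)
      · exact absurd huv.symm (hB hj' hi)
      · exact Or.inr (Or.inr (Or.inr ⟨hj, ⟨j, hj'⟩, ⟨i, hi⟩⟩))
    · rcases hj with hj | hj | ⟨hj, hj'⟩ | ⟨hj, hj'⟩
      · exact Or.inr (Or.inr (Or.inl ⟨⟨j, hj⟩, hi, i, hi'⟩))
      · exact absurd huv (hB hi' hj)
      · exact absurd huv (hi.2 v hj.1)
      · exact absurd huv (hi.2 v hj.1)
    · rcases hj with hj | hj | ⟨hj, hj'⟩ | ⟨hj, hj'⟩
      · exact absurd huv (hA hi' hj)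
      · exact Or.inl (Or.inr (Or.inr ⟨hi, ⟨i, hi'⟩, ⟨j, hj⟩⟩))
      · exact absurd huv (hi.2 v hj.1)
      · exact absurd huv (hi.2 v hj.1)

end Pool.Agent.MPd439b2.OP
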