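import Pool.Agent.Lib.MP_d439b2_co.OP.SpecA

/-!
# MP_d439b2_co, OP: components (helper12)
-/

set_option autoImplicit false

namespace Pool.Agent.MPd439b2.OP

open Pool.Agent.MPd439b2 Pool.Agent.MPd439b2.W Pool.Agent.MPd439b2.SA

private theorem toW {V : Type} {D : SimpleGraph V} {U K : Set V} (h : IsComp D U K) :
    W.IsComp D U K :=
  ⟨h.2.1, h.1, fun v hv w hw hvw => by
    by_contra hwK
    exact h.2.2 w hw ⟨hwK, v, hv, hvw⟩⟩

private theorem ofW {V : Type} {D : SimpleGraph V} {U K : Set V} (h : W.IsComp D U K) :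
    IsComp D U K :=
  ⟨h.2.1, h.1, fun u hu hn => by
    obtain ⟨h1, a, ha, hau⟩ := hn
    exact h1 (h.2.2 a ha u hu hau)⟩

theorem pCmp : S_Cmp := by
  intro V D U
  refine ⟨fun v hv => ?_, fun K K' h h' v hv hv' => (toW h).eq (toW h') hv hv', ?_, ?_, ?_⟩
  · obtain ⟨K, h1, h2⟩ := exists_isComp D hv
    exact ⟨K, ofW h1, h2⟩
  · intro K K' h h' hne u hu v hv huv
    exact hne ((toW h).eq (toW h') ((toW h).2.2 u hu v (h'.1 hv) huv) hv)
  · rintro K h ⟨p, hp, q, hq, hpq⟩ v hv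
    by_contra hcon
    have h1 : {v} = K := by
      refine h.2.1.eq_of_nb (Set.singleton_subset_iff.mpr hv) ⟨v, rfl⟩ ?_
      rintro z hz ⟨-, z', hz', hzz⟩
      rw [Set.mem_singleton_iff] at hz'
      exact hcon ⟨z, hz, hz' ▸ hzz⟩
    rw [← h1, Set.mem_singleton_iff] at hp hq
    rw [hp, hq] at hpq
    exact hpq.ne rfl
  · intro K h E hne hcl
    obtain ⟨v, hv, hvE⟩ := hne
    have h1 : K ∩ E = K := by
      refine h.2.1.eq_of_nb Set.inter_subset_left ⟨v, hv, hvE⟩ ?_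
      rintro z hz ⟨hz1, z', hz', hzz⟩
      exact hz1 ⟨hz, hcl z' hz'.1 z hz hzz hz'.2⟩
    rw [← h1]
    exact Set.inter_subset_right

end Pool.Agent.MPd439b2.OP
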