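import Pool.Agent.Lib.MP_d439b2_co.OP.SpecA

/-!
# MP_d439b2_co, OP: few components cross
-/

set_option autoImplicit false

namespace Pool.Agent.MPd439b2.OP

open Pool.Agent.MPd439b2 Pool.Agent.MPd439b2.W Pool.Agent.MPd439b2.SA

namespace CrsU

variable {V : Type}

/-- `k` different members of a large set of sets, avoiding four given ones -/
theorem pick {S : Set (Set V)} {k : ℕ} (h : ¬ S.encard ≤ ((k + 3 : ℕ) : ℕ∞)) (K₁ K₂ K₃ K₄ : Set V) :
    ∃ f : ℕ → Set V, (∀ t < k, f t ∈ S ∧ f t ≠ K₁ ∧ f t ≠ K₂ ∧ f t ≠ K₃ ∧ f t ≠ K₄) ∧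
      ∀ t < k, ∀ u < k, f t = f u → t = u := by
  classical
  have h1 : ((k + 4 : ℕ) : ℕ∞) ≤ S.encard := by
    rw [not_le] at h
    have h2 := Order.add_one_le_of_lt h
    have h3 : (((k + 3 : ℕ) : ℕ∞) + 1) = ((k + 4 : ℕ) : ℕ∞) := by
      push_cast
      ring
    rw [h3] at h2
    exact h2
  obtain ⟨T, hT, hc⟩ := Set.exists_subset_encard_eq h1
  have hfin : T.Finite := Set.finite_of_encard_eq_coe hc
  obtain ⟨s, hs⟩ : ∃ s : Finset (Set V), (s : Set (Set V)) = T := ⟨hfin.toFinset, hfin.coe_toFinset⟩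
  have hsc : s.card = k + 4 := by
    rw [← hs, Set.encard_coe_eq_coe_finsetCard] at hc
    exact_mod_cast hc
  have hb : ({K₁, K₂, K₃, K₄} : Finset (Set V)).card ≤ 4 := Finset.card_le_four
  have hd : k ≤ (s \ {K₁, K₂, K₃, K₄}).card := by
    have h5 := Finset.le_card_sdiff ({K₁, K₂, K₃, K₄} : Finset (Set V)) s
    omega
  obtain ⟨r, hr, hrc⟩ := Finset.exists_subset_card_eq hd
  have e := (Finset.equivFinOfCardEq hrc).symm
  refine ⟨fun t => if h : t < k then (e ⟨t, h⟩ : Set V) else ∅, ?_, ?_⟩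
  · intro t ht
    have h6 : (if h : t < k then (e ⟨t, h⟩ : Set V) else ∅) = (e ⟨t, ht⟩ : Set V) := dif_pos ht
    have h7 : (e ⟨t, ht⟩ : Set V) ∈ s \ {K₁, K₂, K₃, K₄} := hr (e ⟨t, ht⟩).2
    rw [Finset.mem_sdiff, Finset.mem_insert, Finset.mem_insert, Finset.mem_insert,
      Finset.mem_singleton] at h7
    have h8 : (e ⟨t, ht⟩ : Set V) ∈ T := by
      rw [← hs]
      exact h7.1
    show (if h : t < k then (e ⟨t, h⟩ : Set V) else ∅) ∈ S ∧
      (if h : t < k then (e ⟨t, h⟩ : Set V) else ∅) ≠ K₁ ∧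
      (if h : t < k then (e ⟨t, h⟩ : Set V) else ∅) ≠ K₂ ∧
      (if h : t < k then (e ⟨t, h⟩ : Set V) else ∅) ≠ K₃ ∧
      (if h : t < k then (e ⟨t, h⟩ : Set V) else ∅) ≠ K₄
    rw [h6]
    exact ⟨hT h8, fun h => h7.2 (Or.inl h), fun h => h7.2 (Or.inr (Or.inl h)),
      fun h => h7.2 (Or.inr (Or.inr (Or.inl h))), fun h => h7.2 (Or.inr (Or.inr (Or.inr h)))⟩
  · intro t ht u hu he
    have he2 : (if h : t < k then (e ⟨t, h⟩ : Set V) else ∅) =
      (if h : u < k then (e ⟨u, h⟩ : Set V) else ∅) := he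
    rw [dif_pos ht, dif_pos hu] at he2
    have h6 := e.injective (Subtype.ext he2)
    exact congrArg Fin.val h6

end CrsU

theorem pCrs : S_Cmp → S_Crs := by
  intro hC V D m₀ L hL i j hi hj hij
  obtain ⟨c1, c2, c3, c4, c5⟩ := hC V D (Lg D L)
  have hk := hL.hk
  have hN : 3 * L.k + 20 ≤ i ∧ j + 3 * L.k + 20 < L.N := ⟨hi.1, hj.2⟩
  have hN1 := hN.1
  have hN2 := hN.2
  by_contra hbig
  -- the component of the edge r
  have comp : ∀ r, r < L.N → ∃ K, IsComp D (Lg D L) K ∧ L.a r ∈ K ∧ L.b r ∈ K := by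
    intro r hr
    obtain ⟨K, hK, ha⟩ := c1 (L.a r) (Lg_a hk hL.ol hr)
    refine ⟨K, hK, ha, ?_⟩
    by_contra hb
    exact hK.2.2 (L.b r) (Lg_b hk hL.ol hr) ⟨hb, L.a r, ha, (OLab hL.ol hr hr).2 rfl⟩
  obtain ⟨K₁, hK1, a1, b1⟩ := comp (i - 1) (by omega)
  obtain ⟨K₂, hK2, a2, b2⟩ := comp i (by omega)
  obtain ⟨K₃, hK3, a3, b3⟩ := comp (j + 1) (by omega)
  obtain ⟨K₄, hK4, a4, b4⟩ := comp (j + 2) (by omega)
  obtain ⟨f, hf, finj⟩ := CrsU.pick hbig K₁ K₂ K₃ K₄
  have hch : ∀ t : ℕ, ∃ u v : V, t < L.k → u ∈ f t ∧ v ∈ f t ∧ D.Adj u v := by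
    intro t
    by_cases ht : t < L.k
    · obtain ⟨u, hu, v, hv, huv⟩ := (hf t ht).1.1.2
      exact ⟨u, v, fun _ => ⟨hu, hv, huv⟩⟩
    · exact ⟨L.a 0, L.a 0, fun h => absurd h ht⟩
  choose p q hpq using hch
  have na : ∀ t < L.k, ∀ K, IsComp D (Lg D L) K → f t ≠ K → ∀ v ∈ K,
      ¬ D.Adj v (p t) ∧ ¬ D.Adj v (q t) := by
    intro t ht K hK hne v hv
    obtain ⟨h1, h2, h3⟩ := hpq t ht
    exact ⟨c3 K (f t) hK (hf t ht).1.1.1 (Ne.symm hne) v hv _ h1,
      c3 K (f t) hK (hf t ht).1.1.1 (Ne.symm hne) v hv _ h2⟩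
  have him : IM D L.k p q := by
    intro t ht u hu
    obtain ⟨h1, h2, h3⟩ := hpq t ht
    obtain ⟨g1, g2, g3⟩ := hpq u hu
    by_cases htu : t = u
    · subst htu
      exact ⟨⟨fun _ => rfl, fun _ => h3⟩, D.irrefl, D.irrefl⟩
    · have hne : f u ≠ f t := fun h => htu (finj t ht u hu h.symm)
      have n1 := na u hu (f t) (hf t ht).1.1.1 hne (p t) h1
      have n2 := na u hu (f t) (hf t ht).1.1.1 hne (q t) h2
      exact ⟨⟨fun h => absurd h n1.2, fun h => absurd h htu⟩, n1.1, n2.2⟩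
  have nx : ∀ t < L.k, ¬ D.Adj (L.x i) (p t) ∧ ¬ D.Adj (L.x i) (q t) := by
    intro t ht
    obtain ⟨h1, h2, h3⟩ := hpq t ht
    exact ⟨fun h => (hf t ht).1.2.1 ⟨_, h1, h.symm⟩, fun h => (hf t ht).1.2.1 ⟨_, h2, h.symm⟩⟩
  have nw : ∀ t < L.k, ¬ D.Adj (L.w j) (p t) ∧ ¬ D.Adj (L.w j) (q t) := by
    intro t ht
    obtain ⟨h1, h2, h3⟩ := hpq t ht
    exact ⟨fun h => (hf t ht).1.2.2 ⟨_, h1, h.symm⟩, fun h => (hf t ht).1.2.2 ⟨_, h2, h.symm⟩⟩
  have n1 : ∀ t < L.k, ∀ v ∈ K₁, ¬ D.Adj v (p t) ∧ ¬ D.Adj v (q t) :=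
    fun t ht => na t ht K₁ hK1 (hf t ht).2.1
  have n2 : ∀ t < L.k, ∀ v ∈ K₂, ¬ D.Adj v (p t) ∧ ¬ D.Adj v (q t) :=
    fun t ht => na t ht K₂ hK2 (hf t ht).2.2.1
  have n3 : ∀ t < L.k, ∀ v ∈ K₃, ¬ D.Adj v (p t) ∧ ¬ D.Adj v (q t) :=
    fun t ht => na t ht K₃ hK3 (hf t ht).2.2.2.1
  have n4 : ∀ t < L.k, ∀ v ∈ K₄, ¬ D.Adj v (p t) ∧ ¬ D.Adj v (q t) :=
    fun t ht => na t ht K₄ hK4 (hf t ht).2.2.2.2
  have O := hL.ol
  have ab : ∀ r s, r < L.N → s < L.N → r ≠ s → ¬ D.Adj (L.a r) (L.b s) :=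
    fun r s hr hs h h1 => h ((OLab O hr hs).1 h1)
  have ba : ∀ r s, r < L.N → s < L.N → r ≠ s → ¬ D.Adj (L.b r) (L.a s) :=
    fun r s hr hs h h1 => h ((OLba O hr hs).1 h1)
  by_cases hxw : D.Adj (L.x i) (L.w j)
  · refine eng1 hL.tri hL.ns (L.x i) (L.b (j + 1)) (L.a (j + 1)) (L.b (j + 2)) (L.a (j + 2))
      (L.w j) (L.a (i - 1)) (L.b (i - 1)) p q
      ((OLxb O (by omega) (by omega)).2 (by omega)) ((OLba O (by omega) (by omega)).2 rfl)
      ((OLxb O (by omega) (by omega)).2 (by omega)) ((OLba O (by omega) (by omega)).2 rfl)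
      hxw ((OLwa O (by omega) (by omega)).2 (by omega)) ((OLab O (by omega) (by omega)).2 rfl)
      (fun h => ?_) (ba _ _ (by omega) (by omega) (by omega)) (ba _ _ (by omega) (by omega) (by omega))
      (OLbb O (by omega) (by omega)) (ba _ _ (by omega) (by omega) (by omega))
      (ba _ _ (by omega) (by omega) (by omega)) (OLbb O (by omega) (by omega))
      (fun h => ?_) (fun h => ?_) (OLaa O (by omega) (by omega)) (OLaa O (by omega) (by omega))
      (ab _ _ (by omega) (by omega) (by omega)) (OLaa O (by omega) (by omega))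
      (ab _ _ (by omega) (by omega) (by omega)) him ?_
    · have := (OLxb O (by omega) (by omega)).1 h
      omega
    · have := (OLwa O (by omega) (by omega)).1 h
      omega
    · have := (OLwa O (by omega) (by omega)).1 h
      omega
    · intro t ht v hv
      rcases List.mem_cons.1 hv with h | hv
      · rw [h]; exact nx t ht
      rcases List.mem_cons.1 hv with h | hv
      · rw [h]; exact n3 t ht _ b3
      rcases List.mem_cons.1 hv with h | hv
      · rw [h]; exact n3 t ht _ a3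
      rcases List.mem_cons.1 hv with h | hv
      · rw [h]; exact n4 t ht _ b4
      rcases List.mem_cons.1 hv with h | hv
      · rw [h]; exact n4 t ht _ a4
      rcases List.mem_cons.1 hv with h | hv
      · rw [h]; exact nw t ht
      rcases List.mem_cons.1 hv with h | hv
      · rw [h]; exact n1 t ht _ a1
      rcases List.mem_cons.1 hv with h | hv
      · rw [h]; exact n1 t ht _ b1
      · cases hv
  · refine eng1 hL.tri hL.ns (L.x i) (L.b (j + 1)) (L.a (j + 1)) (L.b (j + 2)) (L.a (j + 2))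
      (L.b i) (L.a i) (L.w j) p q
      ((OLxb O (by omega) (by omega)).2 (by omega)) ((OLba O (by omega) (by omega)).2 rfl)
      ((OLxb O (by omega) (by omega)).2 (by omega)) ((OLba O (by omega) (by omega)).2 rfl)
      ((OLxb O (by omega) (by omega)).2 (le_refl i)) ((OLba O (by omega) (by omega)).2 rfl)
      ((OLwa O (by omega) (by omega)).2 (by omega)).symm
      hxw (ba _ _ (by omega) (by omega) (by omega)) (ba _ _ (by omega) (by omega) (by omega))
      (fun h => OLwb O (by omega) (by omega) h.symm) (ba _ _ (by omega) (by omega) (by omega))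
      (ba _ _ (by omega) (by omega) (by omega)) (fun h => OLwb O (by omega) (by omega) h.symm)
      (ba _ _ (by omega) (by omega) (by omega)) (ba _ _ (by omega) (by omega) (by omega))
      (OLaa O (by omega) (by omega)) (OLaa O (by omega) (by omega))
      (fun h => ?_) (OLaa O (by omega) (by omega)) (fun h => ?_) him ?_
    · have := (OLwa O (by omega) (by omega)).1 h.symm
      omega
    · have := (OLwa O (by omega) (by omega)).1 h.symm
      omega
    · intro t ht v hv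
      rcases List.mem_cons.1 hv with h | hv
      · rw [h]; exact nx t ht
      rcases List.mem_cons.1 hv with h | hv
      · rw [h]; exact n3 t ht _ b3
      rcases List.mem_cons.1 hv with h | hv
      · rw [h]; exact n3 t ht _ a3
      rcases List.mem_cons.1 hv with h | hv
      · rw [h]; exact n4 t ht _ b4
      rcases List.mem_cons.1 hv with h | hv
      · rw [h]; exact n4 t ht _ a4
      rcases List.mem_cons.1 hv with h | hv
      · rw [h]; exact n2 t ht _ b2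
      rcases List.mem_cons.1 hv with h | hv
      · rw [h]; exact n2 t ht _ a2
      rcases List.mem_cons.1 hv with h | hv
      · rw [h]; exact nw t ht
      · cases hv

end Pool.Agent.MPd439b2.OP
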