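import Pool.Agent.Lib.MP_d439b2_co.OP.SpecA

/-!
# MP_d439b2_co, OP: exceptions between the types X and W (Ex) (helper24)
-/

set_option autoImplicit false

namespace Pool.Agent.MPd439b2.OP

open Pool.Agent.MPd439b2 Pool.Agent.MPd439b2.W Pool.Agent.MPd439b2.SA

private theorem e1 {V : Type} {D : SimpleGraph V} {u w : V} (h1 : u ≠ w) (h2 : ¬ D.Adj u w) :
    Nd D {u} {w} := nd_sing.mpr ⟨h1, h2⟩

private theorem e2l {V : Type} [DecidableEq V] {D : SimpleGraph V} {u w w' : V} (h1 : u ≠ w)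
    (h2 : u ≠ w') (h3 : ¬ D.Adj u w) : Nd D {u} {w, w'} := by
  refine nd_of ?_ (Finset.mem_singleton_self u) (by simp) h3
  rw [Finset.disjoint_singleton_left]
  simp [h1, h2]

private theorem e2r {V : Type} [DecidableEq V] {D : SimpleGraph V} {u w w' : V} (h1 : u ≠ w)
    (h2 : u ≠ w') (h3 : ¬ D.Adj u w') : Nd D {u} {w, w'} := by
  refine nd_of ?_ (Finset.mem_singleton_self u) (by simp) h3
  rw [Finset.disjoint_singleton_left]
  simp [h1, h2]

private theorem first {V : Type} {D : SimpleGraph V} {m₀ : ℕ} {L : LD V} (hC : Ctx D m₀ L)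
    (hT : (∀ (v : V) (i j : ℕ), TX D L i v → j + 2 < L.N → ¬ D.Adj v (L.a j)) ∧
      ∀ (v : V) (i j : ℕ), TW D L i v → 2 ≤ j → j < L.N → ¬ D.Adj v (L.b j))
    (z : V) (i : ℕ) (J : Finset ℕ) (ζ : ℕ → V) (hz : TW D L i z) (hi : i + L.k + 4 ≤ L.N)
    (hJ : ∀ j ∈ J, L.k + 2 ≤ j ∧ j + 2 ≤ i ∧ TX D L j (ζ j) ∧ ¬ D.Adj (ζ j) z) :
    J.card ≤ L.k := by
  classical
  by_contra hcard
  push Not at hcard
  have ht := hC.tri
  have hL := hC.ol
  have hk := hC.hk
  have sy : ∀ {u v : V}, ¬ D.Adj u v → ¬ D.Adj v u := fun h h' => h h'.symm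
  have hne : J.Nonempty := Finset.card_pos.mp (by omega)
  obtain ⟨j₀, hj₀, hmax⟩ : ∃ j₀ ∈ J, ∀ j ∈ J, j ≤ j₀ :=
    ⟨J.max' hne, J.max'_mem hne, fun j hj => J.le_max' j hj⟩
  obtain ⟨S, hS, hSc⟩ := Finset.exists_subset_card_eq
    (show L.k ≤ (J.erase j₀).card by rw [Finset.card_erase_of_mem hj₀]; omega)
  obtain ⟨q, hq, hqinj⟩ : ∃ q : ℕ → ℕ, (∀ t < L.k, q t ∈ S) ∧
      ∀ t < L.k, ∀ u < L.k, t ≠ u → q t ≠ q u := by
    refine ⟨fun t => if h : t < L.k then S.orderEmbOfFin hSc ⟨t, h⟩ else 0, fun t h => ?_,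
      fun t h u h' hne he => hne ?_⟩
    · simp only [h, dif_pos]
      exact Finset.orderEmbOfFin_mem S hSc _
    · simp only [h, h', dif_pos] at he
      have := (S.orderEmbOfFin hSc).injective he
      exact congrArg Fin.val this
  set k := L.k with hkdef
  set N := L.N with hNdef
  have hqJ : ∀ t < k, q t ∈ J ∧ q t < j₀ := by
    intro t h
    have h1 := Finset.mem_erase.mp (hS (hq t h))
    have h2 := hmax _ h1.2
    exact ⟨h1.2, lt_of_le_of_ne h2 h1.1⟩
  obtain ⟨hj1, hj2, hj3, hj4⟩ := hJ j₀ hj₀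
  have hzi := hz.self
  have ba : ∀ i < N, ∀ j < N, i ≠ j → Nd D {L.b i} {L.a j} := fun i hi j hj h =>
    e1 (OLnab hL hj hi).symm fun h' => h ((OLba hL hi hj).mp h')
  have ab : ∀ i < N, ∀ j < N, i ≠ j → Nd D {L.a i} {L.b j} := fun i hi j hj h =>
    e1 (OLnab hL hi hj) fun h' => h ((OLab hL hi hj).mp h')
  have bb : ∀ i < N, ∀ j < N, i ≠ j → Nd D {L.b i} {L.b j} := fun i hi j hj h =>
    e1 (OLnbb hL hi hj h) (OLbb hL hi hj)
  have aa : ∀ i < N, ∀ j < N, i ≠ j → Nd D {L.a i} {L.a j} := fun i hi j hj h =>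
    e1 (OLnaa hL hi hj h) (OLaa hL hi hj)
  have edge : ∀ i < N, Cmp D {L.b i} {L.a i} := fun i hi => cmp_sing.mpr ((OLba hL hi hi).mpr rfl)
  have hjN : j₀ < N := by omega
  -- differences
  have zna : ∀ j < N, z ≠ L.a j := fun j hj => ne_of hzi (OLaa hL hj (by omega))
  have znb : ∀ j < N, j ≠ i → z ≠ L.b j := fun j hj h =>
    ne_of hzi fun h' => h ((OLba hL hj (by omega)).mp h')
  have zb : ∀ j, 2 ≤ j → j < N → ¬ D.Adj z (L.b j) := fun j h1 h2 => hT.2 z i j hz h1 h2
  have xna : ∀ j v, TX D L j v → ∀ l < N, v ≠ L.a l := by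
    intro j v hv l hl h
    have h1 := hv.self
    have h2 := hv.last
    have h3 := hv.le
    rw [h] at h1 h2
    have h4 := (OLab hL hl (by omega)).mp h1
    have h5 := (OLab hL hl (by omega)).mp h2
    omega
  have xnb : ∀ j v, TX D L j v → ∀ l < N, v ≠ L.b l := by
    intro j v hv l hl
    have h3 := hv.le
    exact ne_of hv.self (OLbb hL hl (by omega))
  have xz : ∀ j v, 2 ≤ j → TX D L j v → v ≠ z := by
    intro j v h2 hv
    have h3 := hv.le
    exact ne_of hv.self (zb j h2 (by omega))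
  have hζ : ∀ t < k, TX D L (q t) (ζ (q t)) ∧ ¬ D.Adj (ζ (q t)) z ∧ k + 2 ≤ q t ∧ q t + 2 ≤ i := by
    intro t h
    obtain ⟨h1, h2, h3, h4⟩ := hJ _ (hqJ t h).1
    exact ⟨h3, h4, h1, h2⟩
  -- single vertices of the matching against the separate edges
  have bP : ∀ j < N, ∀ t < k, j ≠ q t →
      Nd D {L.b j} {L.a (q t), ζ (q t)} ∧ Nd D {L.b j} {L.b (q t)} := by
    intro j hj t ht' hne
    obtain ⟨h1, h2, h3, h4⟩ := hζ t ht'
    exact ⟨e2l (OLnab hL (by omega) hj).symm (xnb _ _ h1 j hj).symm (fun h => hne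
      ((OLba hL hj (by omega)).mp h)), bb j hj _ (by omega) hne⟩
  have aP : ∀ j < N, ∀ t < k, j ≠ q t →
      Nd D {L.a j} {L.a (q t), ζ (q t)} ∧ Nd D {L.a j} {L.b (q t)} := by
    intro j hj t ht' hne
    obtain ⟨h1, h2, h3, h4⟩ := hζ t ht'
    exact ⟨e2l (OLnaa hL hj (by omega) hne) (xna _ _ h1 j hj).symm (OLaa hL hj (by omega)),
      ab j hj _ (by omega) hne⟩
  refine eng ht hC.ns {ζ j₀} {L.b (i + 1)} {L.a (i + 1)} {L.b (i + 2)} {L.a (i + 2)} {L.b j₀}
    {L.a j₀} {z} (fun t => {L.a (q t), ζ (q t)}) (fun t => {L.b (q t)})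
    (by simp) (by simp) (by simp) (by simp) (by simp) (by simp) (by simp) (by simp)
    (fun _ _ => by simp) (fun _ _ => by simp)
    (cmp_sing.mpr (hj3.adj (by omega) (by omega) (by omega))) (edge _ (by omega))
    (cmp_sing.mpr (hj3.adj (by omega) (by omega) (by omega))) (edge _ (by omega))
    (cmp_sing.mpr hj3.self) (edge _ (by omega))
    (cmp_sing.mpr (hz.adj (by omega) (by omega)).symm)
    (Finset.disjoint_singleton.mpr (xna _ _ hj3 _ (by omega)))
    (Finset.disjoint_singleton.mpr (xna _ _ hj3 _ (by omega)))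
    (Finset.disjoint_singleton.mpr (xna _ _ hj3 _ (by omega)))
    (bb _ (by omega) _ (by omega) (by omega)).1 (bb _ (by omega) _ (by omega) (by omega)).1
    (bb _ (by omega) _ (by omega) (by omega)).1
    (Finset.disjoint_singleton.mpr (znb j₀ (by omega) (by omega)).symm)
    (e1 (xz _ _ (by omega) hj3) hj4)
    (ba _ (by omega) _ (by omega) (by omega)) (ba _ (by omega) _ (by omega) (by omega))
    (e1 (znb _ (by omega) (by omega)).symm (sy (zb _ (by omega) (by omega))))
    (ba _ (by omega) _ (by omega) (by omega)) (ba _ (by omega) _ (by omega) (by omega))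
    (e1 (znb _ (by omega) (by omega)).symm (sy (zb _ (by omega) (by omega))))
    (ba _ (by omega) _ (by omega) (by omega)) (ba _ (by omega) _ (by omega) (by omega))
    (aa _ (by omega) _ (by omega) (by omega)) (aa _ (by omega) _ (by omega) (by omega))
    (e1 (zna _ (by omega)).symm (sy (hz.nadj (by omega) (by omega))))
    (aa _ (by omega) _ (by omega) (by omega))
    (e1 (zna _ (by omega)).symm (sy (hz.nadj (by omega) (by omega))))
    ?_ ?_ ?_ ?_ ?_
    (fun t h => bP _ (by omega) t h (by have := hζ t h; omega))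
    (fun t h => aP _ (by omega) t h (by have := hζ t h; omega))
    (fun t h => bP _ (by omega) t h (by have := hζ t h; omega))
    (fun t h => aP _ (by omega) t h (by have := hζ t h; omega))
    (fun t h => bP _ (by omega) t h (by have := hqJ t h; omega))
    (fun t h => aP _ (by omega) t h (by have := hqJ t h; omega))
    ?_
  · intro t h u hu y hy
    rw [Finset.mem_insert, Finset.mem_singleton] at hu
    rw [Finset.mem_singleton] at hy
    obtain ⟨h1, h2, h3, h4⟩ := hζ t h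
    subst hy
    rcases hu with rfl | rfl
    · exact (OLab hL (by omega) (by omega)).mpr rfl
    · exact h1.self
  · intro t h t' h' hne
    obtain ⟨h1, h2, h3, h4⟩ := hζ t h
    obtain ⟨h1', h2', h3', h4'⟩ := hζ t' h'
    have hqq := hqinj t h t' h' hne
    refine nd_of ?_ (u := L.a (q t)) (v := L.a (q t')) (by simp) (by simp)
      (OLaa hL (by omega) (by omega))
    rw [Finset.disjoint_left]
    intro y hy hy'
    rw [Finset.mem_insert, Finset.mem_singleton] at hy hy'
    rcases hy with rfl | rfl <;> rcases hy' with h5 | h5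
    · exact OLnaa hL (by omega) (by omega) hqq h5
    · exact xna _ _ h1' _ (by omega) h5.symm
    · exact xna _ _ h1 _ (by omega) h5
    · rw [h5] at h1
      exact hqq (h1.uniq h1')
  · intro t h t' h' hne
    obtain ⟨h1', h2', h3', h4'⟩ := hζ t' h'
    exact (bP (q t') (by omega) t h (hqinj t' h' t h hne.symm)).1.symm
  · intro t h t' h' hne
    obtain ⟨h1, h2, h3, h4⟩ := hζ t h
    obtain ⟨h1', h2', h3', h4'⟩ := hζ t' h'
    exact bb _ (by omega) _ (by omega) (hqinj t h t' h' hne)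
  · intro t h
    obtain ⟨h1, h2, h3, h4⟩ := hζ t h
    have h5 := (hqJ t h).2
    refine ⟨e2l (xna _ _ hj3 _ (by omega)) ?_ (hT.1 _ _ _ hj3 (by omega)),
      e1 (xnb _ _ hj3 _ (by omega)) (hj3.nadj (by omega) h5)⟩
    intro h6
    rw [h6] at hj3
    exact absurd (hj3.uniq h1) (by omega)
  · intro t h
    obtain ⟨h1, h2, h3, h4⟩ := hζ t h
    exact ⟨e2r (zna _ (by omega)) (xz _ _ (by omega) h1).symm (sy h2),
      e1 (znb _ (by omega) (by omega)) (zb _ (by omega) (by omega))⟩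

theorem pEx (hTXa : S_TXa) : S_Ex := by
  classical
  intro V D m₀ L hC
  refine ⟨fun z i J ζ hz hi hJ => first hC (hTXa V D m₀ L hC) z i J ζ hz hi hJ,
    fun z i J ζ hz hi hJ => ?_⟩
  have hle := hz.le
  have hiN : i < L.N := by omega
  have h1 := first hC.rev (hTXa V D m₀ L.rev hC.rev) z (L.N - 1 - i)
    (J.image fun j => L.N - 1 - j) (fun j => ζ (L.N - 1 - j))
    ((TW_rev (L := L) (by omega)).mpr (by rw [Nat.sub_sub_self (by omega)]; exact hz))
    (by rw [rev_N, rev_k]; omega) (by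
      intro j hj
      rw [Finset.mem_image] at hj
      obtain ⟨j', hj', rfl⟩ := hj
      obtain ⟨h2, h3, h4, h5⟩ := hJ j' hj'
      have h6 := h4.1
      have h7 : L.N - 1 - (L.N - 1 - j') = j' := by omega
      rw [rev_k]
      refine ⟨by omega, by omega, (TX_rev (L := L) (by omega)).mpr ?_, ?_⟩
      · rw [h7]
        exact h4
      · rw [h7]
        exact h5)
  rw [Finset.card_image_of_injOn, rev_k] at h1
  · exact h1
  · intro j hj j' hj' h
    have h2 := (hJ j hj).2.2.1.1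
    have h3 := (hJ j' hj').2.2.1.1
    simp only at h
    omega

end Pool.Agent.MPd439b2.OP
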