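import Pool.Agent.Lib.MP_d439b2_co.OP.SpecE

/-!
# MP_d439b2_co, OP: the cut-rank of the extended cut (helper12)
-/

set_option autoImplicit false

namespace Pool.Agent.MPd439b2.OP

open Pool.Agent.MPd439b2 Pool.Agent.MPd439b2.W Pool.Agent.MPd439b2.SA

theorem pExt : S_Cmp → S_Ext := by
  intro hCmp V _ D m₀ L r R ρ ℓ l₁ h₁ l₂ h₂ e S₁ S₂ hE hr1 hr2 hr3
  obtain ⟨Y, hY⟩ : ∃ Y, Y = YS D L h₁ l₂ h₂ S₁ S₂ := ⟨_, rfl⟩
  obtain ⟨Z, hZ⟩ : ∃ Z, Z = YK D L h₁ l₂ := ⟨_, rfl⟩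
  rw [← hY] at hr1 hr2 hr3
  rw [← hZ] at hr2
  rw [← hY, ← hZ]
  obtain ⟨c1, c2, c3, c4, c5⟩ := hCmp V D (Lg D L)
  obtain ⟨A₂, hA₂⟩ : ∃ A₂ : Set V, A₂ = {v | ∃ K, Kp D L K ∧ v ∈ K ∧ ¬ KM D L h₁ l₂ K} := ⟨_, rfl⟩
  rw [← hA₂] at hr3
  have hcov : ∀ v, v ∉ Z → v ∈ XX D L ∪ WW D L ∨ Iso D L v ∨ v ∈ A₂ := by
    intro v hv
    by_cases h : v ∈ XX D L ∪ WW D L
    · exact Or.inl h
    · right
      have hvL : v ∈ Lg D L := h
      by_cases hi : ∃ u ∈ Lg D L, D.Adj v u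
      · right
        obtain ⟨u, hu, hvu⟩ := hi
        obtain ⟨K, hK, hvK⟩ := c1 v hvL
        have huK : u ∈ K := by
          by_contra huK
          exact hK.2.2 u hu ⟨huK, v, hvK, hvu⟩
        have hKp : Kp D L K := ⟨hK, v, hvK, u, huK, hvu⟩
        rw [hA₂]
        refine ⟨K, hKp, hvK, fun hM => hv ?_⟩
        rw [hZ]
        exact ⟨K, hKp, hvK, hM⟩
      · left
        exact ⟨hvL, fun u hu hvu => hi ⟨u, hu, hvu⟩⟩
  have hZL : ∀ v ∈ Z, v ∈ Lg D L := by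
    rw [hZ]
    rintro v ⟨K, hK, hv, -⟩
    exact hK.1.1 hv
  have e1 : LK.rk D Y (Y ∪ Z)ᶜ ≤ (2 * r + 10 * ρ) + (2 + 2 * (e + 1)) := by
    refine (Rep.rk_mono D (Set.Subset.refl Y) ?_).trans ((Rep.rk_union_right D Y
      ((XX D L ∪ WW D L ∪ {v | Iso D L v}) \ Y) A₂).trans (Nat.add_le_add hr1 hr3))
    intro v hv
    have hvY : v ∉ Y := fun h => hv (Or.inl h)
    have hvZ : v ∉ Z := fun h => hv (Or.inr h)
    rcases hcov v hvZ with h | h | h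
    · exact Or.inl ⟨Or.inl h, hvY⟩
    · exact Or.inl ⟨Or.inr h, hvY⟩
    · exact Or.inr h
  have e2 : LK.rk D Z (Y ∪ Z)ᶜ ≤ 2 := by
    have h0 : LK.rk D Z ({v | Iso D L v} ∪ A₂) = 0 := by
      apply Rep.rk_anti
      rintro u hu v (hv | hv) huv
      · exact hv.2 u (hZL u hu) huv.symm
      · rw [hZ] at hu
        rw [hA₂] at hv
        obtain ⟨K, hK, huK, hM⟩ := hu
        obtain ⟨K', hK', hvK', hM'⟩ := hv
        refine c3 K K' hK.1 hK'.1 (fun h => hM' (h ▸ hM)) u huK v hvK' huv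
    have h1 : LK.rk D Z (Y ∪ Z)ᶜ ≤ 2 + 0 := by
      refine (Rep.rk_mono D (Set.Subset.refl Z) ?_).trans ((Rep.rk_union_right D Z
        ((XX D L ∪ WW D L) \ Y) ({v | Iso D L v} ∪ A₂)).trans (Nat.add_le_add hr2 h0.le))
      intro v hv
      have hvY : v ∉ Y := fun h => hv (Or.inl h)
      have hvZ : v ∉ Z := fun h => hv (Or.inr h)
      rcases hcov v hvZ with h | h | h
      · exact Or.inl ⟨h, hvY⟩
      · exact Or.inr (Or.inl h)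
      · exact Or.inr (Or.inr h)
    exact h1
  have e3 : LK.cr D (Y ∪ Z) ≤ LK.rk D Y (Y ∪ Z)ᶜ + LK.rk D Z (Y ∪ Z)ᶜ := Rep.rk_union D Y Z _
  omega

end Pool.Agent.MPd439b2.OP
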