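import Pool.Agent.Lib.MP_d439b2_co.OP.Defs

/-!
# MP_d439b2_co, OP: basic lemmas on opposite ladders, reversal, the engine (helper99)
-/

set_option autoImplicit false

namespace Pool.Agent.MPd439b2.OP

open Pool.Agent.MPd439b2 Pool.Agent.MPd439b2.W Pool.Agent.MPd439b2.SA

variable {V : Type}

/-! ### blocks -/

theorem cmp_symm {D : SimpleGraph V} {A B : Finset V} (h : Cmp D A B) : Cmp D B A :=
  fun b hb a ha => (h a ha b hb).symm

theorem Nd.symm {D : SimpleGraph V} {A B : Finset V} (h : Nd D A B) : Nd D B A :=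
  ⟨h.1.symm, fun h1 => h.2 (cmp_symm h1)⟩

/-- complete blocks are disjoint -/
theorem cmp_disj {D : SimpleGraph V} {A B : Finset V} (h : Cmp D A B) : Disjoint A B := by
  rw [Finset.disjoint_left]
  intro v hA hB
  exact (h v hA v hB).ne rfl

theorem nd_of {D : SimpleGraph V} {A B : Finset V} (hd : Disjoint A B) {u v : V} (hu : u ∈ A)
    (hv : v ∈ B) (h : ¬ D.Adj u v) : Nd D A B := ⟨hd, fun h1 => h (h1 u hu v hv)⟩

theorem cmp_sing {D : SimpleGraph V} {u v : V} : Cmp D {u} {v} ↔ D.Adj u v := by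
  unfold Cmp
  simp

theorem nd_sing {D : SimpleGraph V} {u v : V} : Nd D {u} {v} ↔ u ≠ v ∧ ¬ D.Adj u v := by
  unfold Nd
  rw [cmp_sing]
  simp

/-- two blocks with a common neighbour block are not complete to each other -/
theorem ncmp_of_common {D : SimpleGraph V} (ht : TriFree D) {A B C : Finset V} (hA : A.Nonempty)
    (hB : B.Nonempty) (hC : C.Nonempty) (h1 : Cmp D C A) (h2 : Cmp D C B) : ¬ Cmp D A B := by
  obtain ⟨a, ha⟩ := hA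
  obtain ⟨b, hb⟩ := hB
  obtain ⟨c, hc⟩ := hC
  exact fun h => ht c a b (h1 c hc a ha) (h2 c hc b hb) (h a ha b hb)

/-- **The engine.** Spider `C; (X₁, Y₁), (X₂, Y₂), (X₃, Y₃, Z₃)`, separate edges `(P t, Q t)`, `t < k`. -/
theorem eng {D : SimpleGraph V} {k : ℕ} (ht : TriFree D) (hn : NoSpi k D)
    (C X₁ Y₁ X₂ Y₂ X₃ Y₃ Z₃ : Finset V) (P Q : ℕ → Finset V)
    (nC : C.Nonempty) (nX₁ : X₁.Nonempty) (nY₁ : Y₁.Nonempty) (nX₂ : X₂.Nonempty)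
    (nY₂ : Y₂.Nonempty) (nX₃ : X₃.Nonempty) (nY₃ : Y₃.Nonempty) (nZ₃ : Z₃.Nonempty)
    (nP : ∀ t < k, (P t).Nonempty) (nQ : ∀ t < k, (Q t).Nonempty)
    (CX₁ : Cmp D C X₁) (XY₁ : Cmp D X₁ Y₁) (CX₂ : Cmp D C X₂) (XY₂ : Cmp D X₂ Y₂)
    (CX₃ : Cmp D C X₃) (XY₃ : Cmp D X₃ Y₃) (YZ₃ : Cmp D Y₃ Z₃)
    (dCY₁ : Disjoint C Y₁) (dCY₂ : Disjoint C Y₂) (dCY₃ : Disjoint C Y₃)
    (dX₁X₂ : Disjoint X₁ X₂) (dX₁X₃ : Disjoint X₁ X₃) (dX₂X₃ : Disjoint X₂ X₃)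
    (dX₃Z₃ : Disjoint X₃ Z₃)
    (CZ₃ : Nd D C Z₃) (X₁Y₂ : Nd D X₁ Y₂) (X₁Y₃ : Nd D X₁ Y₃) (X₁Z₃ : Nd D X₁ Z₃)
    (X₂Y₁ : Nd D X₂ Y₁) (X₂Y₃ : Nd D X₂ Y₃) (X₂Z₃ : Nd D X₂ Z₃) (X₃Y₁ : Nd D X₃ Y₁)
    (X₃Y₂ : Nd D X₃ Y₂) (Y₁Y₂ : Nd D Y₁ Y₂) (Y₁Y₃ : Nd D Y₁ Y₃) (Y₁Z₃ : Nd D Y₁ Z₃)
    (Y₂Y₃ : Nd D Y₂ Y₃) (Y₂Z₃ : Nd D Y₂ Z₃)
    (PQ : ∀ t < k, Cmp D (P t) (Q t))
    (PP : ∀ t < k, ∀ u < k, t ≠ u → Nd D (P t) (P u))
    (PX : ∀ t < k, ∀ u < k, t ≠ u → Nd D (P t) (Q u))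
    (QQ : ∀ t < k, ∀ u < k, t ≠ u → Nd D (Q t) (Q u))
    (CP : ∀ t < k, Nd D C (P t) ∧ Nd D C (Q t))
    (X₁P : ∀ t < k, Nd D X₁ (P t) ∧ Nd D X₁ (Q t)) (Y₁P : ∀ t < k, Nd D Y₁ (P t) ∧ Nd D Y₁ (Q t))
    (X₂P : ∀ t < k, Nd D X₂ (P t) ∧ Nd D X₂ (Q t)) (Y₂P : ∀ t < k, Nd D Y₂ (P t) ∧ Nd D Y₂ (Q t))
    (X₃P : ∀ t < k, Nd D X₃ (P t) ∧ Nd D X₃ (Q t)) (Y₃P : ∀ t < k, Nd D Y₃ (P t) ∧ Nd D Y₃ (Q t))
    (Z₃P : ∀ t < k, Nd D Z₃ (P t) ∧ Nd D Z₃ (Q t)) : False := by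
  have n1 : Nd D C Y₁ := ⟨dCY₁, ncmp_of_common ht nC nY₁ nX₁ (cmp_symm CX₁) XY₁⟩
  have n2 : Nd D C Y₂ := ⟨dCY₂, ncmp_of_common ht nC nY₂ nX₂ (cmp_symm CX₂) XY₂⟩
  have n3 : Nd D C Y₃ := ⟨dCY₃, ncmp_of_common ht nC nY₃ nX₃ (cmp_symm CX₃) XY₃⟩
  have n4 : Nd D X₁ X₂ := ⟨dX₁X₂, ncmp_of_common ht nX₁ nX₂ nC CX₁ CX₂⟩
  have n5 : Nd D X₁ X₃ := ⟨dX₁X₃, ncmp_of_common ht nX₁ nX₃ nC CX₁ CX₃⟩
  have n6 : Nd D X₂ X₃ := ⟨dX₂X₃, ncmp_of_common ht nX₂ nX₃ nC CX₂ CX₃⟩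
  have n7 : Nd D X₃ Z₃ := ⟨dX₃Z₃, ncmp_of_common ht nX₃ nZ₃ nY₃ (cmp_symm XY₃) YZ₃⟩
  have n8 : Nd D Y₂ X₃ := X₃Y₂.symm
  have n9 : Nd D Y₁ X₃ := X₃Y₁.symm
  have n10 : Nd D Y₁ X₂ := X₂Y₁.symm
  have hall : ∀ i j : Fin 8, i < j →
      (spE i j → Cmp D (![C, X₁, Y₁, X₂, Y₂, X₃, Y₃, Z₃] i) (![C, X₁, Y₁, X₂, Y₂, X₃, Y₃, Z₃] j)) ∧
      (¬ spE i j → Nd D (![C, X₁, Y₁, X₂, Y₂, X₃, Y₃, Z₃] i)
        (![C, X₁, Y₁, X₂, Y₂, X₃, Y₃, Z₃] j)) := by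
    intro i j hij
    fin_cases i <;> fin_cases j <;>
      first
      | exact absurd hij (by decide)
      | exact ⟨fun _ => by assumption, fun h => absurd (by decide) h⟩
      | exact ⟨fun h => absurd h (by decide), fun _ => by assumption⟩
  have hsy : ∀ i j : Fin 8, spE i j → spE j i := fun i j h => h.symm
  apply hn (![C, X₁, Y₁, X₂, Y₂, X₃, Y₃, Z₃]) P Q
  refine ⟨?_, nP, nQ, ?_, ?_, ?_, ?_, ?_, ?_, ?_, ?_⟩
  · intro i
    fin_cases i <;> assumption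
  · intro i j hij
    rcases lt_or_gt_of_ne hij with h | h
    · by_cases h1 : spE i j
      · exact cmp_disj ((hall i j h).1 h1)
      · exact ((hall i j h).2 h1).1
    · by_cases h1 : spE j i
      · exact (cmp_disj ((hall j i h).1 h1)).symm
      · exact ((hall j i h).2 h1).1.symm
  · intro i j hij
    rcases lt_or_gt_of_ne hij with h | h
    · constructor
      · intro h1
        by_contra h2
        exact ((hall i j h).2 h2).2 h1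
      · exact (hall i j h).1
    · constructor
      · intro h1
        by_contra h2
        exact ((hall j i h).2 (fun h3 => h2 (hsy _ _ h3))).2 (cmp_symm h1)
      · intro h1
        exact cmp_symm ((hall j i h).1 (hsy _ _ h1))
  · intro i t ht'
    fin_cases i
    · exact (CP t ht').1
    · exact (X₁P t ht').1
    · exact (Y₁P t ht').1
    · exact (X₂P t ht').1
    · exact (Y₂P t ht').1
    · exact (X₃P t ht').1
    · exact (Y₃P t ht').1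
    · exact (Z₃P t ht').1
  · intro i t ht'
    fin_cases i
    · exact (CP t ht').2
    · exact (X₁P t ht').2
    · exact (Y₁P t ht').2
    · exact (X₂P t ht').2
    · exact (Y₂P t ht').2
    · exact (X₃P t ht').2
    · exact (Y₃P t ht').2
    · exact (Z₃P t ht').2
  · exact fun t ht' => ⟨cmp_disj (PQ t ht'), PQ t ht'⟩
  · exact PP
  · exact PX
  · exact QQ

/-- vertices with different neighbourhoods are different -/
theorem ne_of {D : SimpleGraph V} {u v r : V} (h1 : D.Adj u r) (h2 : ¬ D.Adj v r) : u ≠ v := by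
  rintro rfl
  exact h2 h1

/-- **The engine for single vertices.** -/
theorem eng1 {D : SimpleGraph V} {k : ℕ} (ht : TriFree D) (hn : NoSpi k D)
    (c x₁ y₁ x₂ y₂ x₃ y₃ z₃ : V) (p q : ℕ → V)
    (cx₁ : D.Adj c x₁) (xy₁ : D.Adj x₁ y₁) (cx₂ : D.Adj c x₂) (xy₂ : D.Adj x₂ y₂)
    (cx₃ : D.Adj c x₃) (xy₃ : D.Adj x₃ y₃) (yz₃ : D.Adj y₃ z₃)
    (cz₃ : ¬ D.Adj c z₃) (x₁y₂ : ¬ D.Adj x₁ y₂) (x₁y₃ : ¬ D.Adj x₁ y₃) (x₁z₃ : ¬ D.Adj x₁ z₃)
    (x₂y₁ : ¬ D.Adj x₂ y₁) (x₂y₃ : ¬ D.Adj x₂ y₃) (x₂z₃ : ¬ D.Adj x₂ z₃)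
    (x₃y₁ : ¬ D.Adj x₃ y₁) (x₃y₂ : ¬ D.Adj x₃ y₂) (y₁y₂ : ¬ D.Adj y₁ y₂)
    (y₁y₃ : ¬ D.Adj y₁ y₃) (y₁z₃ : ¬ D.Adj y₁ z₃) (y₂y₃ : ¬ D.Adj y₂ y₃)
    (y₂z₃ : ¬ D.Adj y₂ z₃) (him : IM D k p q)
    (low : ∀ t < k, ∀ v ∈ ([c, x₁, y₁, x₂, y₂, x₃, y₃, z₃] : List V),
      ¬ D.Adj v (p t) ∧ ¬ D.Adj v (q t)) : False := by
  have hpq : ∀ t < k, D.Adj (p t) (q t) := fun t h => (him t h t h).1.mpr rfl
  have hpqn : ∀ t < k, ∀ u < k, t ≠ u → ¬ D.Adj (p t) (q u) := fun t h u h' hne h1 =>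
    hne ((him t h u h').1.mp h1)
  have hpp : ∀ t < k, ∀ u < k, ¬ D.Adj (p t) (p u) := fun t h u h' => (him t h u h').2.1
  have hqq : ∀ t < k, ∀ u < k, ¬ D.Adj (q t) (q u) := fun t h u h' => (him t h u h').2.2
  have hlow : ∀ v ∈ ([c, x₁, y₁, x₂, y₂, x₃, y₃, z₃] : List V), ∀ t < k,
      Nd D {v} {p t} ∧ Nd D {v} {q t} := by
    intro v hv t ht'
    rw [nd_sing, nd_sing]
    obtain ⟨h1, h2⟩ := low t ht' v hv
    exact ⟨⟨(ne_of (hpq t ht') h2).symm, h1⟩, (ne_of (hpq t ht').symm h1).symm, h2⟩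
  have sy : ∀ {u v : V}, ¬ D.Adj u v → ¬ D.Adj v u := fun h h' => h h'.symm
  refine eng ht hn {c} {x₁} {y₁} {x₂} {y₂} {x₃} {y₃} {z₃} (fun t => {p t}) (fun t => {q t})
    (Finset.singleton_nonempty _) (Finset.singleton_nonempty _) (Finset.singleton_nonempty _)
    (Finset.singleton_nonempty _) (Finset.singleton_nonempty _) (Finset.singleton_nonempty _)
    (Finset.singleton_nonempty _) (Finset.singleton_nonempty _)
    (fun t _ => Finset.singleton_nonempty _) (fun t _ => Finset.singleton_nonempty _)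
    (cmp_sing.mpr cx₁) (cmp_sing.mpr xy₁) (cmp_sing.mpr cx₂) (cmp_sing.mpr xy₂)
    (cmp_sing.mpr cx₃) (cmp_sing.mpr xy₃) (cmp_sing.mpr yz₃)
    (Finset.disjoint_singleton.mpr (ne_of cx₂ (sy x₂y₁)))
    (Finset.disjoint_singleton.mpr (ne_of cx₁ (sy x₁y₂)))
    (Finset.disjoint_singleton.mpr (ne_of cx₁ (sy x₁y₃)))
    (Finset.disjoint_singleton.mpr (ne_of xy₁ x₂y₁))
    (Finset.disjoint_singleton.mpr (ne_of xy₁ x₃y₁))
    (Finset.disjoint_singleton.mpr (ne_of xy₂ x₃y₂))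
    (Finset.disjoint_singleton.mpr (ne_of cx₃.symm (sy cz₃)))
    (nd_sing.mpr ⟨ne_of cx₁ (sy x₁z₃), cz₃⟩)
    (nd_sing.mpr ⟨ne_of xy₁ (sy y₁y₂), x₁y₂⟩)
    (nd_sing.mpr ⟨ne_of xy₁ (sy y₁y₃), x₁y₃⟩)
    (nd_sing.mpr ⟨ne_of cx₁.symm (sy cz₃), x₁z₃⟩)
    (nd_sing.mpr ⟨ne_of xy₂ y₁y₂, x₂y₁⟩)
    (nd_sing.mpr ⟨ne_of xy₂ (sy y₂y₃), x₂y₃⟩)
    (nd_sing.mpr ⟨ne_of cx₂.symm (sy cz₃), x₂z₃⟩)
    (nd_sing.mpr ⟨ne_of xy₃ y₁y₃, x₃y₁⟩)
    (nd_sing.mpr ⟨ne_of xy₃ y₂y₃, x₃y₂⟩)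
    (nd_sing.mpr ⟨ne_of xy₁.symm (sy x₁y₂), y₁y₂⟩)
    (nd_sing.mpr ⟨ne_of xy₁.symm (sy x₁y₃), y₁y₃⟩)
    (nd_sing.mpr ⟨ne_of xy₁.symm (sy x₁z₃), y₁z₃⟩)
    (nd_sing.mpr ⟨ne_of xy₂.symm (sy x₂y₃), y₂y₃⟩)
    (nd_sing.mpr ⟨ne_of xy₂.symm (sy x₂z₃), y₂z₃⟩)
    (fun t h => cmp_sing.mpr (hpq t h)) ?_ ?_ ?_
    (hlow c (by simp)) (hlow x₁ (by simp)) (hlow y₁ (by simp)) (hlow x₂ (by simp))
    (hlow y₂ (by simp)) (hlow x₃ (by simp)) (hlow y₃ (by simp)) (hlow z₃ (by simp))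
  · intro t h u h' hne
    exact nd_sing.mpr ⟨ne_of (hpq t h) (hpqn u h' t h hne.symm), hpp t h u h'⟩
  · intro t h u h' hne
    exact nd_sing.mpr ⟨ne_of (hpq t h) (hqq u h' t h), hpqn t h u h' hne⟩
  · intro t h u h' hne
    exact nd_sing.mpr ⟨ne_of (hpq t h).symm (sy (hpqn t h u h' hne)), hqq t h u h'⟩

/-! ### opposite ladders -/

section ol

variable {D : SimpleGraph V} {N : ℕ} {a b x w : ℕ → V}

theorem OLab (h : OL D N a b x w) {i j : ℕ} (hi : i < N) (hj : j < N) :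
    D.Adj (a i) (b j) ↔ i = j := (h.lad.im i hi j hj).1

theorem OLba (h : OL D N a b x w) {i j : ℕ} (hi : i < N) (hj : j < N) :
    D.Adj (b i) (a j) ↔ i = j := by
  rw [D.adj_comm, OLab h hj hi, eq_comm]

theorem OLaa (h : OL D N a b x w) {i j : ℕ} (hi : i < N) (hj : j < N) : ¬ D.Adj (a i) (a j) :=
  (h.lad.im i hi j hj).2.1

theorem OLbb (h : OL D N a b x w) {i j : ℕ} (hi : i < N) (hj : j < N) : ¬ D.Adj (b i) (b j) :=
  (h.lad.im i hi j hj).2.2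

theorem OLxb (h : OL D N a b x w) {i j : ℕ} (hi : i < N) (hj : j < N) :
    D.Adj (x i) (b j) ↔ i ≤ j := h.lad.xb i hi j hj

theorem OLxa (h : OL D N a b x w) {i j : ℕ} (hi : i < N) (hj : j < N) : ¬ D.Adj (x i) (a j) :=
  h.lad.xa i hi j hj

theorem OLwa (h : OL D N a b x w) {i j : ℕ} (hi : i < N) (hj : j < N) :
    D.Adj (w i) (a j) ↔ j ≤ i := h.wa i hi j hj

theorem OLwb (h : OL D N a b x w) {i j : ℕ} (hi : i < N) (hj : j < N) : ¬ D.Adj (w i) (b j) :=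
  h.wb i hi j hj

theorem OLxx (ht : TriFree D) (h : OL D N a b x w) {i j : ℕ} (hi : i < N) (hj : j < N) :
    ¬ D.Adj (x i) (x j) := by
  have hN : N - 1 < N := by omega
  exact ht (b (N - 1)) (x i) (x j) ((OLxb h hi hN).mpr (by omega)).symm
    ((OLxb h hj hN).mpr (by omega)).symm

theorem OLww (ht : TriFree D) (h : OL D N a b x w) {i j : ℕ} (hi : i < N) (hj : j < N) :
    ¬ D.Adj (w i) (w j) := by
  have hN : 0 < N := by omega
  exact ht (a 0) (w i) (w j) ((OLwa h hi hN).mpr (by omega)).symm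
    ((OLwa h hj hN).mpr (by omega)).symm

theorem OLnab (h : OL D N a b x w) {i j : ℕ} (hi : i < N) (hj : j < N) : a i ≠ b j :=
  ne_of ((OLab h hi hi).mpr rfl) (OLbb h hj hi)

theorem OLnaa (h : OL D N a b x w) {i j : ℕ} (hi : i < N) (hj : j < N) (hij : i ≠ j) :
    a i ≠ a j :=
  ne_of ((OLab h hi hi).mpr rfl) (fun h1 => hij ((OLab h hj hi).mp h1).symm)

theorem OLnbb (h : OL D N a b x w) {i j : ℕ} (hi : i < N) (hj : j < N) (hij : i ≠ j) :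
    b i ≠ b j :=
  ne_of ((OLba h hi hi).mpr rfl) (fun h1 => hij ((OLba h hj hi).mp h1).symm)

theorem OLnxb (h : OL D N a b x w) {i j : ℕ} (hi : i < N) (hj : j < N) : x i ≠ b j :=
  ne_of ((OLxb h hi hi).mpr le_rfl) (OLbb h hj hi)

theorem OLnwa (h : OL D N a b x w) {i j : ℕ} (hi : i < N) (hj : j < N) : w i ≠ a j :=
  ne_of ((OLwa h hi hi).mpr le_rfl) (OLaa h hj hi)

theorem OLnxa (h : OL D N a b x w) {i j : ℕ} (hi : i + 1 < N) (hj : j < N) : x i ≠ a j := by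
  by_cases hij : i = j
  · subst hij
    exact ne_of ((OLxb h hj hi).mpr (by omega)) (fun h1 => by
      have := (OLab h hj hi).mp h1
      omega)
  · exact ne_of ((OLxb h (by omega) (by omega)).mpr (le_refl i))
      (fun h1 => hij ((OLab h hj (by omega)).mp h1).symm)

theorem OLnwb (h : OL D N a b x w) {i j : ℕ} (h0 : 1 ≤ i) (hi : i < N) (hj : j < N) :
    w i ≠ b j := by
  by_cases hij : i = j
  · subst hij
    have h1 : i - 1 < N := by omega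
    exact ne_of ((OLwa h hi h1).mpr (by omega)) (fun h2 => by
      have := (OLba h hj h1).mp h2
      omega)
  · exact ne_of ((OLwa h hi hi).mpr (le_refl i))
      (fun h1 => hij ((OLba h hj hi).mp h1).symm)

theorem OLnxw (h : OL D N a b x w) {i j : ℕ} (hi : i < N) (hj : j < N) : x i ≠ w j :=
  ne_of ((OLxb h hi hi).mpr le_rfl) (OLwb h hj hi)

theorem OLnxx (h : OL D N a b x w) {i j : ℕ} (hi : i < N) (hj : j < N) (hij : i ≠ j) :
    x i ≠ x j := by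
  rcases lt_or_gt_of_ne hij with h1 | h1
  · exact ne_of ((OLxb h hi hi).mpr le_rfl) (fun h2 => by
      have := (OLxb h hj hi).mp h2
      omega)
  · exact (ne_of ((OLxb h hj hj).mpr le_rfl) (fun h2 => by
      have := (OLxb h hi hj).mp h2
      omega)).symm

theorem OLnww (h : OL D N a b x w) {i j : ℕ} (hi : i < N) (hj : j < N) (hij : i ≠ j) :
    w i ≠ w j := by
  rcases lt_or_gt_of_ne hij with h1 | h1
  · exact (ne_of ((OLwa h hj hj).mpr le_rfl) (fun h2 => by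
      have := (OLwa h hi hj).mp h2
      omega)).symm
  · exact ne_of ((OLwa h hi hi).mpr le_rfl) (fun h2 => by
      have := (OLwa h hj hi).mp h2
      omega)

/-- reversal -/
theorem OLrev (h : OL D N a b x w) : OL D N (rv N b) (rv N a) (rv N w) (rv N x) := by
  refine ⟨⟨?_, ?_, ?_⟩, ?_, ?_⟩
  · intro i hi j hj
    have h1 : N - 1 - i < N := by omega
    have h2 : N - 1 - j < N := by omega
    refine ⟨?_, OLbb h h1 h2, OLaa h h1 h2⟩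
    show D.Adj (b (N - 1 - i)) (a (N - 1 - j)) ↔ i = j
    rw [OLba h h1 h2]
    omega
  · intro i hi j hj
    have h1 : N - 1 - i < N := by omega
    have h2 : N - 1 - j < N := by omega
    show D.Adj (w (N - 1 - i)) (a (N - 1 - j)) ↔ i ≤ j
    rw [OLwa h h1 h2]
    omega
  · intro i hi j hj
    exact OLwb h (by omega) (by omega)
  · intro i hi j hj
    have h1 : N - 1 - i < N := by omega
    have h2 : N - 1 - j < N := by omega
    show D.Adj (x (N - 1 - i)) (b (N - 1 - j)) ↔ j ≤ i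
    rw [OLxb h h1 h2]
    omega
  · intro i hi j hj
    exact OLxa h (by omega) (by omega)

end ol

theorem Ctx.rev {D : SimpleGraph V} {m₀ : ℕ} {L : LD V} (h : Ctx D m₀ L) : Ctx D m₀ L.rev :=
  ⟨h.hk, h.tri, h.ns, h.com, OLrev h.ol⟩

theorem rv_rv {N : ℕ} {f : ℕ → V} {j : ℕ} (hj : j < N) : rv N (rv N f) j = f j := by
  unfold rv
  rw [Nat.sub_sub_self (by omega)]

@[simp] theorem rev_k (L : LD V) : L.rev.k = L.k := rfl

@[simp] theorem rev_N (L : LD V) : L.rev.N = L.N := rfl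

theorem rev_a (L : LD V) (j : ℕ) : L.rev.a j = L.b (L.N - 1 - j) := rfl

theorem rev_b (L : LD V) (j : ℕ) : L.rev.b j = L.a (L.N - 1 - j) := rfl

theorem rev_x (L : LD V) (j : ℕ) : L.rev.x j = L.w (L.N - 1 - j) := rfl

theorem rev_w (L : LD V) (j : ℕ) : L.rev.w j = L.x (L.N - 1 - j) := rfl

/-! ### thresholds -/

section thr

variable {D : SimpleGraph V} {L : LD V}

theorem TXb_congr {N k : ℕ} {b b' : ℕ → V} (h : ∀ j < N, b j = b' j) {i : ℕ} {v : V} :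
    TXb D N k b i v ↔ TXb D N k b' i v := by
  have h1 : ∀ b b' : ℕ → V, (∀ j < N, b j = b' j) → TXb D N k b i v → TXb D N k b' i v := by
    rintro b b' h ⟨h2, h3, h4⟩
    refine ⟨h2, h3, h4.imp (fun h5 j hj hj' => ?_) fun h5 j hj hj' => ?_⟩
    · rw [← h j hj']
      exact h5 j hj hj'
    · rw [← h j hj']
      exact h5 j hj hj'
  exact ⟨h1 b b' h, h1 b' b fun j hj => (h j hj).symm⟩

theorem TX.ge {i : ℕ} {v : V} (h : TX D L i v) : L.k ≤ i := h.1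

theorem TX.le {i : ℕ} {v : V} (h : TX D L i v) : i + L.k + 3 ≤ L.N := h.2.1

/-- seen -/
theorem TX.adj {i : ℕ} {v : V} (h : TX D L i v) {j : ℕ} (h1 : i ≤ j) (h2 : j < L.N)
    (h3 : j ≠ i + 1) : D.Adj v (L.b j) := by
  have hk := h.1
  rcases h.2.2 with h4 | h4
  · exact (h4 j (by omega) h2).mpr h1
  · exact (h4 j (by omega) h2).mpr ⟨h1, h3⟩

/-- not seen -/
theorem TX.nadj {i : ℕ} {v : V} (h : TX D L i v) {j : ℕ} (h1 : L.k ≤ j) (h2 : j < i) :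
    ¬ D.Adj v (L.b j) := by
  have hk := h.2.1
  intro h5
  rcases h.2.2 with h4 | h4
  · exact absurd ((h4 j h1 (by omega)).mp h5) (by omega)
  · exact absurd ((h4 j h1 (by omega)).mp h5).1 (by omega)

theorem TX.self {i : ℕ} {v : V} (h : TX D L i v) : D.Adj v (L.b i) := by
  have := h.le
  exact h.adj le_rfl (by omega) (by omega)

theorem TX.last {i : ℕ} {v : V} (h : TX D L i v) : D.Adj v (L.b (L.N - 1)) := by
  have := h.le
  exact h.adj (by omega) (by omega) (by omega)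

/-- the threshold is unique -/
theorem TX.uniq {i j : ℕ} {v : V} (h : TX D L i v) (h' : TX D L j v) : i = j := by
  rcases lt_trichotomy i j with h1 | h1 | h1
  · exact absurd h.self (h'.nadj h.ge h1)
  · exact h1
  · exact absurd h'.self (h.nadj h'.ge h1)

theorem TW.ge {i : ℕ} {v : V} (h : TW D L i v) : L.k + 2 ≤ i := by
  have h1 := h.2.2.1
  have h2 := h.1
  have h3 := h.2.1
  omega

theorem TW.le {i : ℕ} {v : V} (h : TW D L i v) : i + L.k + 1 ≤ L.N := by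
  have h1 := h.2.2.1
  have h2 := h.1
  have h3 := h.2.1
  omega

/-- seen -/
theorem TW.adj {i : ℕ} {v : V} (h : TW D L i v) {j : ℕ} (h1 : j ≤ i) (h3 : j + 1 ≠ i) :
    D.Adj v (L.a j) := by
  have hlt := h.1
  have h4 := TX.adj (L := L.rev) (show TX D L.rev (L.N - 1 - i) v from h.2)
    (j := L.N - 1 - j) (by omega) (by rw [rev_N]; omega) (by omega)
  rw [rev_b, Nat.sub_sub_self (by omega)] at h4
  exact h4

/-- not seen -/
theorem TW.nadj {i : ℕ} {v : V} (h : TW D L i v) {j : ℕ} (h1 : i < j) (h2 : j + L.k + 1 ≤ L.N) :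
    ¬ D.Adj v (L.a j) := by
  have hlt := h.1
  have h4 := TX.nadj (L := L.rev) (show TX D L.rev (L.N - 1 - i) v from h.2)
    (j := L.N - 1 - j) (by rw [rev_k]; omega) (by omega)
  rw [rev_b, Nat.sub_sub_self (by omega)] at h4
  exact h4

theorem TW.self {i : ℕ} {v : V} (h : TW D L i v) : D.Adj v (L.a i) := h.adj le_rfl (by omega)

theorem TW.first {i : ℕ} {v : V} (h : TW D L i v) : D.Adj v (L.a 0) := by
  have := h.ge
  exact h.adj (by omega) (by omega)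

theorem TX_rev {i : ℕ} (hi : i < L.N) {v : V} : TX D L.rev i v ↔ TW D L (L.N - 1 - i) v := by
  unfold TW TX
  rw [Nat.sub_sub_self (by omega)]
  exact ⟨fun h => ⟨by omega, h⟩, fun h => h.2⟩

theorem TX_rev' {i : ℕ} {v : V} (h : TX D L.rev i v) : i < L.N := by
  have h1 := h.le
  simp only [rev_N, rev_k] at h1
  omega

theorem TW_rev {i : ℕ} (hi : i < L.N) {v : V} : TW D L.rev i v ↔ TX D L (L.N - 1 - i) v := by
  unfold TW TX
  have h1 : TXb D L.N L.k (rv L.N (rv L.N L.b)) (L.N - 1 - i) v ↔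
      TXb D L.N L.k L.b (L.N - 1 - i) v := TXb_congr fun j hj => rv_rv hj
  exact ⟨fun h => h1.mp h.2, fun h => ⟨hi, h1.mpr h⟩⟩

theorem XX_rev : XX D L.rev = WW D L := by
  ext v
  constructor
  · rintro ⟨i, hi⟩
    exact ⟨_, (TX_rev (TX_rev' hi)).mp hi⟩
  · rintro ⟨i, hi⟩
    have h1 := hi.1
    refine ⟨L.N - 1 - i, (TX_rev (by omega)).mpr ?_⟩
    rw [Nat.sub_sub_self (by omega)]
    exact hi

theorem WW_rev : WW D L.rev = XX D L := by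
  ext v
  constructor
  · rintro ⟨i, hi⟩
    exact ⟨_, (TW_rev (L := L) hi.1).mp hi⟩
  · rintro ⟨i, hi⟩
    have h1 := hi.le
    refine ⟨L.N - 1 - i, (TW_rev (by omega)).mpr ?_⟩
    rw [Nat.sub_sub_self (by omega)]
    exact hi

theorem Lg_rev : Lg D L.rev = Lg D L := by
  unfold Lg
  rw [XX_rev, WW_rev, Set.union_comm]

theorem Iso_rev {v : V} : Iso D L.rev v ↔ Iso D L v := by
  unfold Iso
  rw [Lg_rev]

theorem PB_rev {p : ℕ} (hp : p < L.N) {v : V} : PB D L.rev p v ↔ PA D L (L.N - 1 - p) v := by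
  unfold PB PA
  rw [Lg_rev]
  simp only [rev_N, rev_k, rev_x]
  constructor
  · rintro ⟨h1, h2, h3, h4, h5⟩
    refine ⟨h1, by omega, by omega, h4, fun j hj hj' => ?_⟩
    have h6 := h5 (L.N - 1 - j) (by omega) (by omega)
    rw [Nat.sub_sub_self (by omega)] at h6
    exact h6
  · rintro ⟨h1, h2, h3, h4, h5⟩
    exact ⟨h1, by omega, by omega, h4, fun j hj hj' => h5 _ (by omega) (by omega)⟩

theorem PA_rev {q : ℕ} (hq : q < L.N) {v : V} : PA D L.rev q v ↔ PB D L (L.N - 1 - q) v := by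
  unfold PB PA
  rw [Lg_rev]
  simp only [rev_N, rev_k, rev_w]
  constructor
  · rintro ⟨h1, h2, h3, h4, h5⟩
    refine ⟨h1, by omega, by omega, h4, fun j hj hj' => ?_⟩
    have h6 := h5 (L.N - 1 - j) (by omega) (by omega)
    rw [Nat.sub_sub_self (by omega)] at h6
    exact h6
  · rintro ⟨h1, h2, h3, h4, h5⟩
    exact ⟨h1, by omega, by omega, h4, fun j hj hj' => h5 _ (by omega) (by omega)⟩

theorem Pos_rev {i : ℕ} (hi : i < L.N) {v : V} : Pos D L.rev i v ↔ Pos D L (L.N - 1 - i) v := by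
  unfold Pos
  rw [TX_rev hi, TW_rev hi, Iso_rev, PB_rev hi, PA_rev hi]
  tauto

theorem D3_rev {l h : ℕ} (hl : l < L.N) (hh : h < L.N) :
    D3 D L.rev l h = D3 D L (L.N - 1 - h) (L.N - 1 - l) := by
  ext v
  constructor
  · rintro ⟨i, h1, h2, h3⟩
    exact ⟨L.N - 1 - i, by omega, by omega, (Pos_rev (by omega)).mp h3⟩
  · rintro ⟨i, h1, h2, h3⟩
    refine ⟨L.N - 1 - i, by omega, by omega, (Pos_rev (by omega)).mpr ?_⟩
    rw [Nat.sub_sub_self (by omega)]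
    exact h3

theorem D3_mono {l h l' h' : ℕ} (h1 : l' ≤ l) (h2 : h ≤ h') : D3 D L l h ⊆ D3 D L l' h' :=
  fun _ ⟨i, h3, h4, h5⟩ => ⟨i, by omega, by omega, h5⟩

theorem Kp_rev {K : Set V} : Kp D L.rev K ↔ Kp D L K := by
  unfold Kp
  rw [Lg_rev]

theorem sx_rev {i : ℕ} {K : Set V} : sx D L.rev i K ↔ sw D L (L.N - 1 - i) K := Iff.rfl

theorem sw_rev {i : ℕ} {K : Set V} : sw D L.rev i K ↔ sx D L (L.N - 1 - i) K := Iff.rfl

/-- `x i` has type `X` with threshold `i` -/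
theorem TX_x (h : OL D L.N L.a L.b L.x L.w) {i : ℕ} (h1 : L.k ≤ i) (h2 : i + L.k + 3 ≤ L.N) :
    TX D L i (L.x i) :=
  ⟨h1, h2, Or.inl fun j _ hj' => OLxb h (by omega) hj'⟩

/-- `w i` has type `W` with threshold `i` -/
theorem TW_w (h : OL D L.N L.a L.b L.x L.w) {i : ℕ} (h1 : L.k + 2 ≤ i) (h2 : i + L.k + 1 ≤ L.N) :
    TW D L i (L.w i) := by
  refine ⟨by omega, by omega, by omega, Or.inl fun j _ hj' => ?_⟩
  show D.Adj (L.w i) (L.a (L.N - 1 - j)) ↔ L.N - 1 - i ≤ j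
  rw [OLwa h (by omega) (by omega)]
  omega

/-- vertices of type `X` are not adjacent -/
theorem TX_TX (ht : TriFree D) {i j : ℕ} {u v : V} (hu : TX D L i u) (hv : TX D L j v) :
    ¬ D.Adj u v :=
  ht _ _ _ hu.last.symm hv.last.symm

/-- vertices of type `W` are not adjacent -/
theorem TW_TW (ht : TriFree D) {i j : ℕ} {u v : V} (hu : TW D L i u) (hv : TW D L j v) :
    ¬ D.Adj u v :=
  ht _ _ _ hu.first.symm hv.first.symm

theorem notX_of_Lg {v : V} (h : v ∈ Lg D L) {i : ℕ} : ¬ TX D L i v := fun h1 => h (Or.inl ⟨i, h1⟩)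

theorem notW_of_Lg {v : V} (h : v ∈ Lg D L) {i : ℕ} : ¬ TW D L i v := fun h1 => h (Or.inr ⟨i, h1⟩)

/-- the vertices `a j` are light -/
theorem Lg_a (hk : 1 ≤ L.k) (h : OL D L.N L.a L.b L.x L.w) {j : ℕ} (hj : j < L.N) :
    L.a j ∈ Lg D L := by
  rintro (⟨i, hi⟩ | ⟨i, hi⟩)
  · have h1 := hi.le
    have h2 := (OLab h hj (by omega)).mp hi.self
    have h3 := (OLab h hj (by omega)).mp hi.last
    omega
  · exact OLaa h hj (by have := hi.1; omega) hi.self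

/-- the vertices `b j` are light -/
theorem Lg_b (hk : 1 ≤ L.k) (h : OL D L.N L.a L.b L.x L.w) {j : ℕ} (hj : j < L.N) :
    L.b j ∈ Lg D L := by
  rintro (⟨i, hi⟩ | ⟨i, hi⟩)
  · have h1 := hi.le
    exact OLbb h hj (by omega) hi.self
  · have h1 := hi.ge
    have h2 := hi.1
    have h3 := (OLba h hj (by omega)).mp hi.self
    have h4 := (OLba h hj (by omega)).mp hi.first
    omega

/-- isolated light vertices are not adjacent to the `a j`, `b j` -/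
theorem Iso.na (hk : 1 ≤ L.k) (h : OL D L.N L.a L.b L.x L.w) {v : V} (hv : Iso D L v) {j : ℕ}
    (hj : j < L.N) : ¬ D.Adj v (L.a j) ∧ ¬ D.Adj v (L.b j) :=
  ⟨hv.2 _ (Lg_a hk h hj), hv.2 _ (Lg_b hk h hj)⟩

end thr

end Pool.Agent.MPd439b2.OP
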