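import Pool.Agent.Lib.MP_d439b2_co.OP.SpecE
import Pool.Agent.Lib.MP_d439b2_co.OP.Base

/-!
# MP_d439b2_co, OP, ExtP: the rank between the positioned vertices (helper91)
-/

set_option autoImplicit false

namespace Pool.Agent.MPd439b2.OP

open Pool.Agent.MPd439b2 Pool.Agent.MPd439b2.W Pool.Agent.MPd439b2.SA

namespace PExtPAux

variable {V : Type} {D : SimpleGraph V} {L : LD V}

theorem pos_lt {i : ℕ} {v : V} (h : Pos D L i v) : i < L.N := by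
  rcases h with h | h | ⟨_, h⟩ | ⟨_, h⟩
  · have := h.le
    omega
  · exact h.1
  · have := h.2.2.1
    omega
  · have := h.2.2.1
    omega

/-- the last middle `x p` seen by `v` -/
theorem last_x {v : V} (hv : v ∈ Lg D L) {j : ℕ} (h1 : tt L.k ≤ j) (h2 : j + tt L.k < L.N)
    (h3 : D.Adj v (L.x j)) : ∃ p, PB D L p v := by
  have key : ∀ n j, L.N ≤ j + n → tt L.k ≤ j → j + tt L.k < L.N → D.Adj v (L.x j) →
      ∃ p, PB D L p v := by
    intro n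
    induction n with
    | zero =>
      intro j hj _ hj2 _
      omega
    | succ n ih =>
      intro j hj hj1 hj2 hj3
      by_cases h : ∃ j', j < j' ∧ j' + tt L.k < L.N ∧ D.Adj v (L.x j')
      · obtain ⟨j', e1, e2, e3⟩ := h
        exact ih j' (by omega) (by omega) e2 e3
      · refine ⟨j, hv, hj1, hj2, hj3, fun j' e1 e2 e3 => h ⟨j', e1, e2, e3⟩⟩
  exact key L.N j (by omega) h1 h2 h3

/-- the first middle `w q` seen by `v` -/
theorem first_w {v : V} (hv : v ∈ Lg D L) {j : ℕ} (h1 : tt L.k ≤ j) (h2 : j + tt L.k < L.N)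
    (h3 : D.Adj v (L.w j)) : ∃ q, PA D L q v := by
  classical
  have hex : ∃ q, tt L.k ≤ q ∧ D.Adj v (L.w q) := ⟨j, h1, h3⟩
  have e1 := Nat.find_spec hex
  have e2 : Nat.find hex ≤ j := Nat.find_min' hex ⟨h1, h3⟩
  refine ⟨Nat.find hex, hv, e1.1, by omega, e1.2, fun j' hj' hlt hadj => ?_⟩
  exact Nat.find_min hex hlt ⟨hj', hadj⟩

end PExtPAux

open PExtPAux Pool.Agent.MPd439b2.Rep in
/-- **ExtP.** -/
theorem pExtP : S_FR1 → S_Unq → S_ExtP := by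
  intro hFR _ V _ D m₀ L r R ρ ℓ l₁ h₁ l₂ h₂ S₁ S₂ hE hF
  have hC := hE.ctx
  have hR := hE.hR
  obtain ⟨lo₁, hi₁, len₁, sub₁, rk₁, fst₁, lst₁⟩ := hE.w₁
  obtain ⟨lo₂, hi₂, len₂, sub₂, rk₂, fst₂, lst₂⟩ := hE.w₂
  have gap := hE.gap
  have htt : tt L.k = 6 * L.k + 60 := rfl
  -- positions in the windows
  have pS₁ : S₁ ⊆ D3 D L (l₁ + R) h₁ := by
    intro v hv
    obtain ⟨i, e1, e2, e3⟩ := sub₁ hv
    refine ⟨i, ?_, e2, e3⟩
    by_contra hlt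
    exact fst₁ v ⟨i, e1, by omega, e3⟩ hv
  have pS₂ : S₂ ⊆ D3 D L (l₂ + R) h₂ := by
    intro v hv
    obtain ⟨i, e1, e2, e3⟩ := sub₂ hv
    refine ⟨i, ?_, e2, e3⟩
    by_contra hlt
    exact fst₂ v ⟨i, e1, by omega, e3⟩ hv
  have pT₁ : D3 D L l₁ h₁ \ S₁ ⊆ D3 D L l₁ (h₁ - R) := by
    rintro v ⟨⟨i, e1, e2, e3⟩, hv⟩
    refine ⟨i, e1, ?_, e3⟩
    by_contra hlt
    exact hv (lst₁ v ⟨i, by omega, e2, e3⟩)
  have pT₂ : D3 D L l₂ h₂ \ S₂ ⊆ D3 D L l₂ (h₂ - R) := by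
    rintro v ⟨⟨i, e1, e2, e3⟩, hv⟩
    refine ⟨i, e1, ?_, e3⟩
    by_contra hlt
    exact hv (lst₂ v ⟨i, by omega, e2, e3⟩)
  obtain ⟨M, hM⟩ : ∃ M, M = D3 D L (h₁ + 1) (l₂ - 1) := ⟨_, rfl⟩
  obtain ⟨T₁, hT₁⟩ : ∃ T₁, T₁ = D3 D L l₁ h₁ \ S₁ := ⟨_, rfl⟩
  obtain ⟨T₂, hT₂⟩ : ∃ T₂, T₂ = D3 D L l₂ h₂ \ S₂ := ⟨_, rfl⟩
  obtain ⟨Lo, hLo⟩ : ∃ Lo, Lo = D3 D L 0 (l₁ - 1) := ⟨_, rfl⟩
  obtain ⟨Hi, hHi⟩ : ∃ Hi, Hi = D3 D L (h₂ + 1) L.N := ⟨_, rfl⟩
  obtain ⟨Nu, hNu⟩ : ∃ Nu : Set V, Nu = {v | Iso D L v ∧ ∀ i, ¬ Pos D L i v} := ⟨_, rfl⟩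
  rw [← hT₁] at pT₁ rk₁
  rw [← hT₂] at pT₂ rk₂
  have hYS : YS D L h₁ l₂ h₂ S₁ S₂ = S₁ ∪ M ∪ T₂ := by
    rw [hM, hT₂]
    rfl
  have hYS' : S₁ ∪ M ∪ T₂ ⊆ D3 D L (l₁ + R) (h₂ - R) := by
    rintro v ((hv | hv) | hv)
    · exact D3_mono le_rfl (by omega) (pS₁ hv)
    · rw [hM] at hv
      exact D3_mono (by omega) (by omega) hv
    · exact D3_mono (by omega) le_rfl (pT₂ hv)
  rw [hYS]
  -- the vertices without position
  have nul : ∀ z ∈ S₁ ∪ M ∪ T₂, ∀ v ∈ Nu, ¬ D.Adj z v := by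
    intro z hz v hv hzv
    obtain ⟨j, e1, e2, e3⟩ := hYS' hz
    rw [hNu] at hv
    obtain ⟨hv1, hv2⟩ := hv
    rcases e3 with e3 | e3 | ⟨e3, _⟩ | ⟨e3, _⟩
    · have e4 : D.Adj v (L.x (j - 5)) :=
        (hFR V D m₀ L hC).1 v (L.x (j - 5)) z (j - 5) j hv1.1
          (TX_x hC.ol (by omega) (by omega)) e3 (by omega) (by omega) hzv.symm
      obtain ⟨p, hp⟩ := last_x hv1.1 (by omega) (by omega) e4
      exact hv2 p (Or.inr (Or.inr (Or.inl ⟨hv1, hp⟩)))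
    · have e4 : D.Adj v (L.w (j + 5)) :=
        (hFR V D m₀ L hC).2 v (L.w (j + 5)) z (j + 5) j hv1.1
          (TW_w hC.ol (by omega) (by omega)) e3 (by omega) (by omega) hzv.symm
      obtain ⟨q, hq⟩ := first_w hv1.1 (by omega) (by omega) e4
      exact hv2 q (Or.inr (Or.inr (Or.inr ⟨hv1, hq⟩)))
    · exact e3.2 v hv1.1 hzv
    · exact e3.2 v hv1.1 hzv
  have hA : S₁ ∪ M ∪ T₂ ⊆ ⋃ i, (![S₁, M, T₂] : Fin 3 → Set V) i := by
    rintro v ((hv | hv) | hv)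
    · exact Set.mem_iUnion.2 ⟨0, hv⟩
    · exact Set.mem_iUnion.2 ⟨1, hv⟩
    · exact Set.mem_iUnion.2 ⟨2, hv⟩
  have hB : (XX D L ∪ WW D L ∪ {v | Iso D L v}) \ (S₁ ∪ M ∪ T₂) ⊆
      ⋃ j, (![Lo, T₁, S₂, Hi, Nu] : Fin 5 → Set V) j := by
    rintro v ⟨hv, hvY⟩
    have hpos : (∃ i, Pos D L i v) ∨ v ∈ Nu := by
      rcases hv with (⟨i, hi⟩ | ⟨i, hi⟩) | hi
      · exact Or.inl ⟨i, Or.inl hi⟩
      · exact Or.inl ⟨i, Or.inr (Or.inl hi)⟩
      · by_cases h : ∃ i, Pos D L i v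
        · exact Or.inl h
        · right
          rw [hNu]
          exact ⟨hi, fun i h' => h ⟨i, h'⟩⟩
    rcases hpos with ⟨i, hi⟩ | hv'
    · have hiN := pos_lt hi
      rcases Nat.lt_or_ge i l₁ with h1 | h1
      · refine Set.mem_iUnion.2 ⟨0, ?_⟩
        show v ∈ Lo
        rw [hLo]
        exact ⟨i, by omega, by omega, hi⟩
      rcases Nat.lt_or_ge h₁ i with h2 | h2
      · rcases Nat.lt_or_ge i l₂ with h3 | h3
        · exfalso
          apply hvY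
          left
          right
          rw [hM]
          exact ⟨i, by omega, by omega, hi⟩
        · rcases Nat.lt_or_ge h₂ i with h4 | h4
          · refine Set.mem_iUnion.2 ⟨3, ?_⟩
            show v ∈ Hi
            rw [hHi]
            exact ⟨i, by omega, by omega, hi⟩
          · refine Set.mem_iUnion.2 ⟨2, ?_⟩
            show v ∈ S₂
            by_contra h5
            apply hvY
            right
            rw [hT₂]
            exact ⟨⟨i, h3, h4, hi⟩, h5⟩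
      · refine Set.mem_iUnion.2 ⟨1, ?_⟩
        show v ∈ T₁
        rw [hT₁]
        exact ⟨⟨i, h1, h2, hi⟩, fun h5 => hvY (Or.inl (Or.inl h5))⟩
    · exact Set.mem_iUnion.2 ⟨4, hv'⟩
  -- the sets in terms of positions
  have qLo : Lo ⊆ D3 D L 0 l₁ := by
    rw [hLo]
    exact D3_mono le_rfl (by omega)
  have qHi : ∀ c, c ≤ h₂ + 1 → Hi ⊆ D3 D L c L.N := by
    intro c hc
    rw [hHi]
    exact D3_mono hc le_rfl
  have qM : M ⊆ D3 D L (h₁ + 1) (l₂ - 1) := by rw [hM]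
  have f1 : LK.rk D S₁ Lo ≤ ρ := by
    rw [rk_symm]
    exact hF l₁ Lo S₁ (by omega) (by omega) qLo (pS₁.trans (D3_mono le_rfl (by omega)))
      (Or.inr (pS₁.trans (D3_mono le_rfl (by omega))))
  have f2 : LK.rk D S₁ S₂ ≤ ρ :=
    hF h₁ S₁ S₂ (by omega) (by omega) (pS₁.trans (D3_mono (by omega) le_rfl))
      (pS₂.trans (D3_mono (by omega) (by omega))) (Or.inl (pS₁.trans (D3_mono (by omega) le_rfl)))
  have f3 : LK.rk D S₁ Hi ≤ ρ :=
    hF h₁ S₁ Hi (by omega) (by omega) (pS₁.trans (D3_mono (by omega) le_rfl))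
      (qHi _ (by omega)) (Or.inl (pS₁.trans (D3_mono (by omega) le_rfl)))
  have f4 : LK.rk D M Lo ≤ ρ := by
    rw [rk_symm]
    exact hF l₁ Lo M (by omega) (by omega) qLo (qM.trans (D3_mono (by omega) (by omega)))
      (Or.inr (qM.trans (D3_mono (by omega) (by omega))))
  have f5 : LK.rk D M T₁ ≤ ρ := by
    rw [rk_symm]
    exact hF (h₁ - R) T₁ M (by omega) (by omega) (pT₁.trans (D3_mono (by omega) le_rfl))
      (qM.trans (D3_mono (by omega) (by omega))) (Or.inl (pT₁.trans (D3_mono (by omega) le_rfl)))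
  have f6 : LK.rk D M S₂ ≤ ρ :=
    hF (l₂ - 1) M S₂ (by omega) (by omega) (qM.trans (D3_mono (by omega) le_rfl))
      (pS₂.trans (D3_mono (by omega) (by omega))) (Or.inl (qM.trans (D3_mono (by omega) le_rfl)))
  have f7 : LK.rk D M Hi ≤ ρ :=
    hF (l₂ - 1) M Hi (by omega) (by omega) (qM.trans (D3_mono (by omega) le_rfl))
      (qHi _ (by omega)) (Or.inl (qM.trans (D3_mono (by omega) le_rfl)))
  have f8 : LK.rk D T₂ Lo ≤ ρ := by
    rw [rk_symm]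
    exact hF l₁ Lo T₂ (by omega) (by omega) qLo (pT₂.trans (D3_mono (by omega) (by omega)))
      (Or.inr (pT₂.trans (D3_mono (by omega) (by omega))))
  have f9 : LK.rk D T₂ T₁ ≤ ρ := by
    rw [rk_symm]
    exact hF (h₁ - R) T₁ T₂ (by omega) (by omega) (pT₁.trans (D3_mono (by omega) le_rfl))
      (pT₂.trans (D3_mono (by omega) (by omega))) (Or.inl (pT₁.trans (D3_mono (by omega) le_rfl)))
  have f10 : LK.rk D T₂ Hi ≤ ρ :=
    hF (h₂ - R) T₂ Hi (by omega) (by omega) (pT₂.trans (D3_mono (by omega) le_rfl))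
      (qHi _ (by omega)) (Or.inl (pT₂.trans (D3_mono (by omega) le_rfl)))
  have f11 : LK.rk D T₂ S₂ ≤ r := by
    rw [rk_symm]
    exact rk₂
  have f12 : LK.rk D S₁ Nu ≤ 0 :=
    (rk_anti D fun z hz v hv => nul z (Or.inl (Or.inl hz)) v hv).le
  have f13 : LK.rk D M Nu ≤ 0 :=
    (rk_anti D fun z hz v hv => nul z (Or.inl (Or.inr hz)) v hv).le
  have f14 : LK.rk D T₂ Nu ≤ 0 :=
    (rk_anti D fun z hz v hv => nul z (Or.inr hz) v hv).le
  have hall : ∀ i j, LK.rk D ((![S₁, M, T₂] : Fin 3 → Set V) i)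
      ((![Lo, T₁, S₂, Hi, Nu] : Fin 5 → Set V) j) ≤
      (![![ρ, r, ρ, ρ, 0], ![ρ, ρ, ρ, ρ, 0], ![ρ, ρ, r, ρ, 0]] : Fin 3 → Fin 5 → ℕ) i j := by
    intro i j
    fin_cases i <;> fin_cases j
    exacts [f1, rk₁, f2, f3, f12, f4, f5, f6, f7, f13, f8, f9, f11, f10, f14]
  refine (rk_blocks D _ _ _ hA hB hall).trans (le_of_eq ?_)
  simp only [Fin.sum_univ_succ, Fin.sum_univ_zero, Matrix.cons_val_zero, Matrix.cons_val_succ,
    Matrix.cons_val_fin_one, Fin.succ_zero_eq_one]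
  simp
  ring

end Pool.Agent.MPd439b2.OP
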