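import Pool.Agent.Lib.MP_d439b2_co.OP.SpecE

/-!
# MP_d439b2_co, OP: the rank of the components between the windows (helper25)
-/

set_option autoImplicit false

namespace Pool.Agent.MPd439b2.OP

open Pool.Agent.MPd439b2 Pool.Agent.MPd439b2.W Pool.Agent.MPd439b2.SA

/-- a positioned vertex outside `YS` has a position `≤ h₁ - R` or `≥ l₂ + R` -/
private theorem extQ_pos {V : Type} {D : SimpleGraph V} {m₀ : ℕ} {L : LD V}
    {r R ℓ l₁ h₁ l₂ h₂ : ℕ} {S₁ S₂ : Set V} (hE : EX D m₀ L r R ℓ l₁ h₁ l₂ h₂ S₁ S₂) {z : V}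
    {t : ℕ} (hz : Pos D L t z) (hn : z ∉ YS D L h₁ l₂ h₂ S₁ S₂) : t + R ≤ h₁ ∨ l₂ + R ≤ t := by
  have hlen1 := hE.w₁.len
  have hlen2 := hE.w₂.len
  have hgap := hE.gap
  have hR := hE.hR
  by_contra hcon
  push Not at hcon
  obtain ⟨c1, c2⟩ := hcon
  apply hn
  by_cases d1 : t ≤ h₁
  · exact Or.inl (Or.inl (hE.w₁.lst z ⟨t, by omega, d1, hz⟩))
  · by_cases d2 : t < l₂
    · exact Or.inl (Or.inr ⟨t, by omega, by omega, hz⟩)
    · exact Or.inr ⟨⟨t, by omega, by omega, hz⟩, hE.w₂.fst z ⟨t, by omega, by omega, hz⟩⟩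

private theorem extQ_uniq {V : Type} {D : SimpleGraph V} {L : LD V} {i j : ℕ} {v : V}
    (h : TW D L i v) (h' : TW D L j v) : i = j := by
  have h1 := TX.uniq (L := L.rev) (show TX D L.rev (L.N - 1 - i) v from h.2)
    (show TX D L.rev (L.N - 1 - j) v from h'.2)
  have h2 := h.1
  have h3 := h'.1
  omega

/-- the data of a vertex of `YK` -/
private theorem extQ_v {V : Type} {D : SimpleGraph V} {m₀ : ℕ} {L : LD V} (hKD : S_KD)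
    {r R ℓ l₁ h₁ l₂ h₂ : ℕ} {S₁ S₂ : Set V} (hE : EX D m₀ L r R ℓ l₁ h₁ l₂ h₂ S₁ S₂) {v : V}
    (hv : v ∈ YK D L h₁ l₂) : v ∈ Lg D L ∧
      ((∃ p, h₁ < p ∧ p < l₂ ∧ TX D L p (L.x p) ∧ Md L p ∧ D.Adj v (L.x p) ∧
        ∀ j, p < j → j + tt L.k < L.N → ¬ D.Adj v (L.x j)) ∨
      ∃ q, h₁ < q ∧ q < l₂ ∧ TW D L q (L.w q) ∧ Md L q ∧ D.Adj v (L.w q) ∧
        ∀ j, tt L.k ≤ j → j < q → ¬ D.Adj v (L.w j)) := by
  obtain ⟨K, hK, hvK, ⟨p, hp1, hp2, hp⟩, q, hq1, hq2, hq⟩ := hv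
  have hmid : ∀ i, tt L.k ≤ i → i + tt L.k < L.N → Md L i := by
    intro i h1 h2
    unfold tt at h1 h2
    exact ⟨by omega, by omega⟩
  have hMp := hmid p hp.1 hp.2.1
  have hMq := hmid q hq.1 hq.2.1
  have hTp : TX D L p (L.x p) := TX_x hE.ctx.ol (by have := hMp.1; omega) (by have := hMp.2; omega)
  have hTq : TW D L q (L.w q) := TW_w hE.ctx.ol (by have := hMq.1; omega) (by have := hMq.2; omega)
  obtain ⟨s, hs, hs'⟩ := hp.2.2.1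
  obtain ⟨s1, hs1, hs1'⟩ := hq.2.2.1
  have hkd := hKD V D m₀ L hE.ctx K (L.x p) (L.w q) p q hK hTp hMp hTq hMq ⟨s, hs, hs'.symm⟩
    ⟨s1, hs1, hs1'.symm⟩ v hvK
  refine ⟨hK.1.1 hvK, ?_⟩
  by_cases h1 : D.Adj v (L.x p)
  · exact Or.inl ⟨p, hp1, hp2, hTp, hMp, h1, fun j hj hj' h2 => hp.2.2.2 j hj hj' ⟨v, hvK, h2⟩⟩
  · have h2 : D.Adj (L.w q) v := by
      by_contra h3
      exact h1 (hkd.mpr h3).symm
    exact Or.inr ⟨q, hq1, hq2, hTq, hMq, h2.symm, fun j hj hj' h3 =>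
      hq.2.2.2 j hj hj' ⟨v, hvK, h3⟩⟩

/-- **ExtQ.** -/
theorem pExtQ : S_FR1 → S_NoW → S_KD → S_ExtQ := by
  intro hFR hNoW hKD V _ D m₀ L r R ℓ l₁ h₁ l₂ h₂ S₁ S₂ hE
  have hC := hE.ctx
  have hR := hE.hR
  have hlen1 := hE.w₁.len
  have hlen2 := hE.w₂.len
  have hlo1 := hE.w₁.lo
  have hhi2 := hE.w₂.hi
  have hgap := hE.gap
  have htt : tt L.k = 6 * L.k + 60 := rfl
  have hX : LK.rk D (YK D L h₁ l₂) (XX D L \ YS D L h₁ l₂ h₂ S₁ S₂) ≤ 1 := by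
    refine Rep.rk_one D {z | ∃ t, TX D L t z ∧ t + R ≤ h₁} fun v hv => ?_
    obtain ⟨hvL, ⟨p, hp1, hp2, hTp, hMp, hvp, hpn⟩ | ⟨q, hq1, hq2, hTq, hMq, hvq, hqn⟩⟩ :=
      extQ_v hKD hE hv
    · refine Or.inl ?_
      rintro z ⟨⟨t, ht⟩, hzn⟩
      rcases extQ_pos hE (Or.inl ht) hzn with h1 | h1
      · refine iff_of_true ?_ ⟨t, ht, h1⟩
        exact (hFR V D m₀ L hC).1 v z (L.x p) t p hvL ht hTp (by omega) (by omega) hvp
      · refine iff_of_false ?_ ?_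
        · intro h2
          have h3 : TX D L (p + 1) (L.x (p + 1)) := TX_x hC.ol (by omega) (by omega)
          exact hpn (p + 1) (by omega) (by omega)
            ((hFR V D m₀ L hC).1 v (L.x (p + 1)) z (p + 1) t hvL h3 ht (by omega) (by omega) h2)
        · rintro ⟨t', ht', h2⟩
          have h3 := ht.uniq ht'
          omega
    · refine Or.inr ?_
      rintro z ⟨⟨t, ht⟩, hzn⟩
      exact (hNoW V D m₀ L hC).2 v (L.w q) z q t hvL hTq hMq hvq ht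
  have hW : LK.rk D (YK D L h₁ l₂) (WW D L \ YS D L h₁ l₂ h₂ S₁ S₂) ≤ 1 := by
    refine Rep.rk_one D {z | ∃ t, TW D L t z ∧ l₂ + R ≤ t} fun v hv => ?_
    obtain ⟨hvL, ⟨p, hp1, hp2, hTp, hMp, hvp, hpn⟩ | ⟨q, hq1, hq2, hTq, hMq, hvq, hqn⟩⟩ :=
      extQ_v hKD hE hv
    · refine Or.inr ?_
      rintro z ⟨⟨t, ht⟩, hzn⟩
      exact (hNoW V D m₀ L hC).1 v (L.x p) z p t hvL hTp hMp hvp ht
    · refine Or.inl ?_
      rintro z ⟨⟨t, ht⟩, hzn⟩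
      rcases extQ_pos hE (Or.inr (Or.inl ht)) hzn with h1 | h1
      · refine iff_of_false ?_ ?_
        · intro h2
          have h3 : TW D L (q - 1) (L.w (q - 1)) := TW_w hC.ol (by omega) (by omega)
          exact hqn (q - 1) (by omega) (by omega)
            ((hFR V D m₀ L hC).2 v (L.w (q - 1)) z (q - 1) t hvL h3 ht (by omega) (by omega) h2)
        · rintro ⟨t', ht', h2⟩
          have h3 := extQ_uniq ht ht'
          omega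
      · refine iff_of_true ?_ ⟨t, ht, h1⟩
        exact (hFR V D m₀ L hC).2 v z (L.w q) t q hvL ht hTq (by omega) (by omega) hvq
  have hsub : (XX D L ∪ WW D L) \ YS D L h₁ l₂ h₂ S₁ S₂ ⊆
      (XX D L \ YS D L h₁ l₂ h₂ S₁ S₂) ∪ (WW D L \ YS D L h₁ l₂ h₂ S₁ S₂) := by
    rintro z ⟨hz | hz, hn⟩
    · exact Or.inl ⟨hz, hn⟩
    · exact Or.inr ⟨hz, hn⟩
  have h1 := Rep.rk_mono D (Set.Subset.refl (YK D L h₁ l₂)) hsub
  have h2 := Rep.rk_union_right D (YK D L h₁ l₂) (XX D L \ YS D L h₁ l₂ h₂ S₁ S₂)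
    (WW D L \ YS D L h₁ l₂ h₂ S₁ S₂)
  omega

end Pool.Agent.MPd439b2.OP
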