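import Pool.Agent.Lib.MP_d439b2_co.OP.SpecE

/-!
# MP_d439b2_co, OP: ExtR, the rank of the positioned part and the components outside (helper77, after helper99's
docstring)
-/

set_option autoImplicit false

namespace Pool.Agent.MPd439b2.OP

open Pool.Agent.MPd439b2 Pool.Agent.MPd439b2.W Pool.Agent.MPd439b2.SA

namespace ExtRAux

variable {V : Type} {D : SimpleGraph V} {m₀ : ℕ} {L : LD V} {r R ℓ l₁ h₁ l₂ h₂ : ℕ}
  {S₁ S₂ : Set V}

/-- the positions of the elements of `YS` -/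
theorem posYS (hU : S_Unq) (hE : EX D m₀ L r R ℓ l₁ h₁ l₂ h₂ S₁ S₂) {z : V}
    (hz : z ∈ YS D L h₁ l₂ h₂ S₁ S₂) {t : ℕ} (ht : Pos D L t z) : l₁ + R ≤ t ∧ t + R ≤ h₂ := by
  have hu := hU V D m₀ L hE.ctx
  have g1 := hE.w₁.len
  have g2 := hE.w₂.len
  have g3 := hE.gap
  have g4 := hE.hR
  rcases hz with (hz | hz) | ⟨hz, hz'⟩
  · obtain ⟨i, hi1, hi2, hi3⟩ := hE.w₁.sub hz
    have hit := hu z i t hi3 ht
    subst hit
    have h1 : l₁ + R ≤ i := by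
      by_contra h1
      exact hE.w₁.fst z ⟨i, hi1, by omega, hi3⟩ hz
    exact ⟨h1, by omega⟩
  · obtain ⟨i, hi1, hi2, hi3⟩ := hz
    have hit := hu z i t hi3 ht
    subst hit
    exact ⟨by omega, by omega⟩
  · obtain ⟨i, hi1, hi2, hi3⟩ := hz
    have hit := hu z i t hi3 ht
    subst hit
    have h1 : i + R ≤ h₂ := by
      by_contra h1
      exact hz' (hE.w₂.lst z ⟨i, by omega, hi2, hi3⟩)
    exact ⟨by omega, h1⟩

/-- the last index with a property -/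
theorem last_of {P : ℕ → Prop} {b t : ℕ} (ht : t < b) (hP : P t) :
    ∃ p, t ≤ p ∧ p < b ∧ P p ∧ ∀ j, p < j → j < b → ¬ P j := by
  classical
  have h1 : ((Finset.range b).filter P).Nonempty :=
    ⟨t, Finset.mem_filter.mpr ⟨Finset.mem_range.mpr ht, hP⟩⟩
  obtain ⟨h2, h3⟩ := Finset.mem_filter.mp (Finset.max'_mem _ h1)
  refine ⟨((Finset.range b).filter P).max' h1,
    Finset.le_max' _ _ (Finset.mem_filter.mpr ⟨Finset.mem_range.mpr ht, hP⟩),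
    Finset.mem_range.mp h2, h3, fun j hj hjb hPj => ?_⟩
  have h4 := Finset.le_max' _ _ (Finset.mem_filter.mpr ⟨Finset.mem_range.mpr hjb, hPj⟩)
  omega

/-- the first index with a property -/
theorem first_of {P : ℕ → Prop} {a t : ℕ} (ht : a ≤ t) (hP : P t) :
    ∃ q, q ≤ t ∧ a ≤ q ∧ P q ∧ ∀ j, a ≤ j → j < q → ¬ P j := by
  classical
  have hex : ∃ j, a ≤ j ∧ P j := ⟨t, ht, hP⟩
  refine ⟨Nat.find hex, Nat.find_min' hex ⟨ht, hP⟩, (Nat.find_spec hex).1,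
    (Nat.find_spec hex).2, fun j hj hjq hPj => ?_⟩
  exact Nat.find_min hex hjq ⟨hj, hPj⟩

/-- type `X` -/
theorem colX (hF : S_FR1) (hB : S_KB) (hU : S_Unq)
    (hE : EX D m₀ L r R ℓ l₁ h₁ l₂ h₂ S₁ S₂) {K : Set V} (hK : Kp D L K)
    (hRg : Rg D L l₁ h₂ K) {u z z' : V} (hu : u ∈ K)
    (hz : z ∈ YS D L h₁ l₂ h₂ S₁ S₂ ∩ XX D L) (hz' : z' ∈ YS D L h₁ l₂ h₂ S₁ S₂ ∩ XX D L)
    (h : D.Adj z u) : D.Adj z' u := by
  obtain ⟨hz, t, ht⟩ := hz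
  obtain ⟨hz', t', ht'⟩ := hz'
  obtain ⟨p1, p2⟩ := posYS hU hE hz (Or.inl ht)
  obtain ⟨p3, p4⟩ := posYS hU hE hz' (Or.inl ht')
  have ol := hE.ctx.ol
  have hul : u ∈ Lg D L := hK.1.1 hu
  have g1 := hE.w₁.lo
  have g2 := hE.w₂.hi
  have g4 := hE.hR
  unfold tt at g1 g2
  have hx : TX D L (t - 5) (L.x (t - 5)) := TX_x ol (by omega) (by omega)
  have h1 := (hF V D m₀ L hE.ctx).1 u (L.x (t - 5)) z (t - 5) t hul hx ht (by omega) (by omega)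
    h.symm
  have hs : sx D L (t - 5) K := ⟨u, hu, h1⟩
  obtain ⟨p, hp1, hp2, hp3, hp4⟩ := last_of (P := fun j => sx D L j K) (b := L.N - tt L.k)
    (by unfold tt; omega) hs
  have hLX : LX D L p K := by
    refine ⟨?_, ?_, hp3, fun j hj hj' => hp4 j hj ?_⟩
    · unfold tt
      omega
    · omega
    · omega
  unfold tt at hp2
  have hp5 : h₂ < p := by
    rcases hRg.1 p hLX with h2 | h2
    · omega
    · exact h2
  have hxp : TX D L p (L.x p) := TX_x ol (by omega) (by omega)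
  have h3 := (hB V D m₀ L hE.ctx).1 K z (L.x p) t p hK.1 ht
    ⟨by omega, by omega⟩ hxp ⟨by omega, by omega⟩ ⟨u, hu, h⟩
    (by obtain ⟨v, hv, hv'⟩ := hp3; exact ⟨v, hv, hv'.symm⟩) u hu
  exact ((hF V D m₀ L hE.ctx).1 u z' (L.x p) t' p hul ht' hxp (by omega) (by omega)
    (h3.mp h).symm).symm

/-- type `W` -/
theorem colW (hF : S_FR1) (hB : S_KB) (hU : S_Unq)
    (hE : EX D m₀ L r R ℓ l₁ h₁ l₂ h₂ S₁ S₂) {K : Set V} (hK : Kp D L K)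
    (hRg : Rg D L l₁ h₂ K) {u z z' : V} (hu : u ∈ K)
    (hz : z ∈ YS D L h₁ l₂ h₂ S₁ S₂ ∩ WW D L) (hz' : z' ∈ YS D L h₁ l₂ h₂ S₁ S₂ ∩ WW D L)
    (h : D.Adj z u) : D.Adj z' u := by
  obtain ⟨hz, t, ht⟩ := hz
  obtain ⟨hz', t', ht'⟩ := hz'
  obtain ⟨p1, p2⟩ := posYS hU hE hz (Or.inr (Or.inl ht))
  obtain ⟨p3, p4⟩ := posYS hU hE hz' (Or.inr (Or.inl ht'))
  have ol := hE.ctx.ol
  have hul : u ∈ Lg D L := hK.1.1 hu
  have g1 := hE.w₁.lo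
  have g2 := hE.w₂.hi
  have g4 := hE.hR
  unfold tt at g1 g2
  have hx : TW D L (t + 5) (L.w (t + 5)) := TW_w ol (by omega) (by omega)
  have h1 := (hF V D m₀ L hE.ctx).2 u (L.w (t + 5)) z (t + 5) t hul hx ht (by omega) (by omega)
    h.symm
  have hs : sw D L (t + 5) K := ⟨u, hu, h1⟩
  obtain ⟨q, hq1, hq2, hq3, hq4⟩ := first_of (P := fun j => sw D L j K) (a := tt L.k)
    (t := t + 5) (by unfold tt; omega) hs
  have hLW : LW D L q K := ⟨hq2, by unfold tt; omega, hq3, hq4⟩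
  unfold tt at hq2
  have hq5 : q < l₁ := by
    rcases hRg.2 q hLW with h2 | h2
    · exact h2
    · omega
  have hwq : TW D L q (L.w q) := TW_w ol (by omega) (by omega)
  have h3 := (hB V D m₀ L hE.ctx).2 K z (L.w q) t q hK.1 ht
    ⟨by omega, by omega⟩ hwq ⟨by omega, by omega⟩ ⟨u, hu, h⟩
    (by obtain ⟨v, hv, hv'⟩ := hq3; exact ⟨v, hv, hv'.symm⟩) u hu
  exact ((hF V D m₀ L hE.ctx).2 u z' (L.w q) t' q hul ht' hwq (by omega) (by omega)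
    (h3.mp h).symm).symm

/-- few traces -/
theorem few_tr [Finite V] (B : Set V) (FF : Set (Set V)) (e : ℕ) (hcard : FF.encard ≤ (e : ℕ∞))
    (hk : ∀ K ∈ FF, ∀ u ∈ K, ∀ z ∈ B, ∀ z' ∈ B, (∃ v ∈ K, D.Adj z' v) → D.Adj z u →
      D.Adj z' u) :
    LK.rk D B {v | ∃ K ∈ FF, v ∈ K} ≤ e + 1 := by
  rw [Rep.rk_symm]
  apply Rep.rk_tr
  have h1 : Rep.Tr D {v | ∃ K ∈ FF, v ∈ K} B ⊆
      insert ∅ ((fun K : Set V => {z | z ∈ B ∧ ∃ v ∈ K, D.Adj z v}) '' FF) := by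
    rintro T ⟨u, ⟨K, hK, hu⟩, rfl⟩
    by_cases h : ∃ z ∈ B, D.Adj u z
    · right
      obtain ⟨z, hz, huz⟩ := h
      refine ⟨K, hK, ?_⟩
      ext z'
      constructor
      · rintro ⟨hz', hv⟩
        exact ⟨hz', (hk K hK u hu z hz z' hz' hv huz.symm).symm⟩
      · rintro ⟨hz', hv⟩
        exact ⟨hz', u, hu, hv.symm⟩
    · left
      push Not at h
      ext z'
      constructor
      · rintro ⟨hz', hv⟩
        exact absurd hv (h z' hz')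
      · intro hh
        exact absurd hh (Set.notMem_empty _)
  calc (Rep.Tr D {v | ∃ K ∈ FF, v ∈ K} B).encard
      ≤ (insert ∅ ((fun K : Set V => {z | z ∈ B ∧ ∃ v ∈ K, D.Adj z v}) '' FF)).encard :=
        Set.encard_le_encard h1
    _ ≤ ((fun K : Set V => {z | z ∈ B ∧ ∃ v ∈ K, D.Adj z v}) '' FF).encard + 1 :=
        Set.encard_insert_le _ _
    _ ≤ FF.encard + 1 := add_le_add (Set.encard_image_le _ _) le_rfl
    _ ≤ (e : ℕ∞) + 1 := add_le_add hcard le_rfl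
    _ = ((e + 1 : ℕ) : ℕ∞) := by push_cast; rfl

end ExtRAux

open ExtRAux in
theorem pExtR : S_FR1 → S_KB → S_Unq → S_ExtR := by
  intro hF hB hU V _ D m₀ L r R ℓ l₁ h₁ l₂ h₂ e S₁ S₂ hE hcard
  set Y := YS D L h₁ l₂ h₂ S₁ S₂ with hY
  set FF := {K : Set V | Kp D L K ∧ ¬ KM D L h₁ l₂ K ∧ ¬ Rg D L l₁ h₂ K} with hFF
  have g1 := hE.w₁.lo
  have g2 := hE.w₂.hi
  have g3 := hE.hR
  unfold tt at g1 g2
  have hblocks := Rep.rk_blocks D (A := Y)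
    (B := {v | ∃ K, Kp D L K ∧ v ∈ K ∧ ¬ KM D L h₁ l₂ K})
    (P := ![Y ∩ XX D L, Y ∩ WW D L, Y ∩ {v | Iso D L v}])
    (Q := ![{v | ∃ K, Kp D L K ∧ v ∈ K ∧ Rg D L l₁ h₂ K}, {v | ∃ K ∈ FF, v ∈ K}])
    (r := ![![1, e + 1], ![1, e + 1], ![0, 0]]) ?_ ?_ ?_
  · refine hblocks.trans (le_of_eq ?_)
    simp only [Fin.sum_univ_succ, Matrix.cons_val_zero, Matrix.cons_val_succ,
      Finset.univ_eq_empty, Finset.sum_empty]
    ring
  · intro z hz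
    have hpos : ∃ i, Pos D L i z := by
      rcases hz with (hz | hz) | ⟨hz, -⟩
      · obtain ⟨i, -, -, hi⟩ := hE.w₁.sub hz
        exact ⟨i, hi⟩
      · obtain ⟨i, -, -, hi⟩ := hz
        exact ⟨i, hi⟩
      · obtain ⟨i, -, -, hi⟩ := hz
        exact ⟨i, hi⟩
    obtain ⟨i, hi⟩ := hpos
    rw [Set.mem_iUnion]
    rcases hi with hi | hi | ⟨hi, -⟩ | ⟨hi, -⟩
    · exact ⟨0, hz, i, hi⟩
    · exact ⟨1, hz, i, hi⟩
    · exact ⟨2, hz, hi⟩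
    · exact ⟨2, hz, hi⟩
  · rintro v ⟨K, hK, hv, hKM⟩
    rw [Set.mem_iUnion]
    by_cases h : Rg D L l₁ h₂ K
    · exact ⟨0, K, hK, hv, h⟩
    · exact ⟨1, K, ⟨hK, hKM, h⟩, hv⟩
  · have b1 : LK.rk D (Y ∩ XX D L) {v | ∃ K, Kp D L K ∧ v ∈ K ∧ Rg D L l₁ h₂ K} ≤ 1 := by
      apply Rep.rk_col
      rintro u ⟨K, hK, hu, hRg⟩
      by_cases h : ∃ z ∈ Y ∩ XX D L, D.Adj z u
      · left
        obtain ⟨z, hz, hzu⟩ := h
        exact fun z' hz' => colX hF hB hU hE hK hRg hu hz hz' hzu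
      · right
        push Not at h
        exact h
    have b2 : LK.rk D (Y ∩ WW D L) {v | ∃ K, Kp D L K ∧ v ∈ K ∧ Rg D L l₁ h₂ K} ≤ 1 := by
      apply Rep.rk_col
      rintro u ⟨K, hK, hu, hRg⟩
      by_cases h : ∃ z ∈ Y ∩ WW D L, D.Adj z u
      · left
        obtain ⟨z, hz, hzu⟩ := h
        exact fun z' hz' => colW hF hB hU hE hK hRg hu hz hz' hzu
      · right
        push Not at h
        exact h
    have b3 : LK.rk D (Y ∩ {v | Iso D L v}) {v | ∃ K, Kp D L K ∧ v ∈ K ∧ Rg D L l₁ h₂ K} ≤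
        0 := by
      apply le_of_eq
      apply Rep.rk_anti
      rintro z ⟨-, hz⟩ u ⟨K, hK, hu, -⟩
      exact hz.2 u (hK.1.1 hu)
    have b4 : LK.rk D (Y ∩ {v | Iso D L v}) {v | ∃ K ∈ FF, v ∈ K} ≤ 0 := by
      apply le_of_eq
      apply Rep.rk_anti
      rintro z ⟨-, hz⟩ u ⟨K, hK, hu⟩
      exact hz.2 u (hK.1.1.1 hu)
    have b5 : LK.rk D (Y ∩ XX D L) {v | ∃ K ∈ FF, v ∈ K} ≤ e + 1 := by
      apply few_tr _ _ _ hcard
      rintro K hK u hu z ⟨hz, t, ht⟩ z' ⟨hz', t', ht'⟩ hv hzu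
      obtain ⟨p1, p2⟩ := posYS hU hE hz (Or.inl ht)
      obtain ⟨p3, p4⟩ := posYS hU hE hz' (Or.inl ht')
      exact ((hB V D m₀ L hE.ctx).1 K z z' t t' hK.1.1 ht ⟨by omega, by omega⟩ ht'
        ⟨by omega, by omega⟩ ⟨u, hu, hzu⟩ hv u hu).mp hzu
    have b6 : LK.rk D (Y ∩ WW D L) {v | ∃ K ∈ FF, v ∈ K} ≤ e + 1 := by
      apply few_tr _ _ _ hcard
      rintro K hK u hu z ⟨hz, t, ht⟩ z' ⟨hz', t', ht'⟩ hv hzu
      obtain ⟨p1, p2⟩ := posYS hU hE hz (Or.inr (Or.inl ht))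
      obtain ⟨p3, p4⟩ := posYS hU hE hz' (Or.inr (Or.inl ht'))
      exact ((hB V D m₀ L hE.ctx).2 K z z' t t' hK.1.1 ht ⟨by omega, by omega⟩ ht'
        ⟨by omega, by omega⟩ ⟨u, hu, hzu⟩ hv u hu).mp hzu
    intro i j
    fin_cases i <;> fin_cases j
    · exact b1
    · exact b5
    · exact b2
    · exact b6
    · exact b3
    · exact b4

end Pool.Agent.MPd439b2.OP
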