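import Pool.Agent.Lib.MP_d439b2_co.OP.SpecA

/-!
# MP_d439b2_co, OP, FR1: light vertices and thresholds
-/

set_option autoImplicit false

namespace Pool.Agent.MPd439b2.OP

open Pool.Agent.MPd439b2 Pool.Agent.MPd439b2.W Pool.Agent.MPd439b2.SA

namespace PFR1

variable {V : Type}

/-- `k` different elements of a finite set -/
theorem pick (A : Finset ℕ) (k : ℕ) (h : k ≤ A.card) : ∃ m : ℕ → ℕ, (∀ t < k, m t ∈ A) ∧
    ∀ t < k, ∀ u < k, m t = m u → t = u := by
  obtain ⟨B, hB, hc⟩ := Finset.exists_subset_card_eq h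
  refine ⟨fun t => if ht : t < k then B.orderEmbOfFin hc ⟨t, ht⟩ else 0, fun t ht => ?_,
    fun t ht u hu htu => ?_⟩
  · dsimp only
    rw [dif_pos ht]
    exact hB (B.orderEmbOfFin_mem hc _)
  · dsimp only at htu
    rw [dif_pos ht, dif_pos hu] at htu
    have h1 := (B.orderEmbOfFin hc).injective htu
    exact congrArg Fin.val h1

section

variable [DecidableEq V]

theorem pcmp {D : SimpleGraph V} {y z u : V} (h1 : D.Adj y u) (h2 : D.Adj z u) :
    Cmp D {y, z} {u} := by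
  intro a ha b hb
  rw [Finset.mem_singleton] at hb
  rw [Finset.mem_insert, Finset.mem_singleton] at ha
  subst hb
  rcases ha with rfl | rfl
  · exact h1
  · exact h2

theorem pdis {y z u : V} (h1 : y ≠ u) (h2 : z ≠ u) : Disjoint ({y, z} : Finset V) {u} := by
  rw [Finset.disjoint_singleton_right, Finset.mem_insert, Finset.mem_singleton]
  rintro (h | h)
  · exact h1 h.symm
  · exact h2 h.symm

theorem pnd1 {D : SimpleGraph V} {y z u : V} (h1 : y ≠ u) (h2 : z ≠ u) (h : ¬ D.Adj y u) :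
    Nd D {y, z} {u} :=
  nd_of (pdis h1 h2) (by simp) (Finset.mem_singleton_self u) h

theorem pnd2 {D : SimpleGraph V} {y z u : V} (h1 : y ≠ u) (h2 : z ≠ u) (h : ¬ D.Adj z u) :
    Nd D {y, z} {u} :=
  nd_of (pdis h1 h2) (by simp) (Finset.mem_singleton_self u) h

end

/-- the index touched by a light vertex -/
theorem exS (hLtt : S_Ltt) {D : SimpleGraph V} {m₀ : ℕ} {L : LD V} (hC : Ctx D m₀ L) {v : V}
    (hv : v ∈ Lg D L) : ∃ s, ∀ m, L.k + 3 ≤ m → m + L.k + 3 < L.N → tc D L v m → m = s := by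
  by_cases h : ∃ s, L.k + 3 ≤ s ∧ s + L.k + 3 < L.N ∧ tc D L v s
  · obtain ⟨s, h1, h2, h3⟩ := h
    exact ⟨s, fun m hm1 hm2 hm3 => hLtt V D m₀ L hC v m s hv hm1 hm2 h1 h2 hm3 h3⟩
  · exact ⟨0, fun m hm1 hm2 hm3 => absurd ⟨m, hm1, hm2, hm3⟩ h⟩

theorem first (hTXa : S_TXa) (hLtt : S_Ltt) {D : SimpleGraph V} {m₀ : ℕ} {L : LD V}
    (hC : Ctx D m₀ L) {v z z' : V} {i i' : ℕ} (hv : v ∈ Lg D L) (hz : TX D L i z)
    (hz' : TX D L i' z') (hii : i + 5 ≤ i') (hi' : 2 * L.k + 9 ≤ i') (hvz' : D.Adj v z') :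
    D.Adj v z := by
  classical
  by_contra hvz
  have hk := hC.hk
  have hN := hz'.le
  have hkz := hz.ge
  obtain ⟨s, hs⟩ := exS hLtt hC hv
  obtain ⟨j, hj1, hj2, hj3⟩ : ∃ j, i ≤ j ∧ 2 * L.k + 4 ≤ j ∧ j + 5 ≤ i' :=
    ⟨max i (2 * L.k + 4), le_max_left _ _, le_max_right _ _, by omega⟩
  -- the legs
  obtain ⟨mr, hmr, hmri⟩ := pick (Finset.Icc j (j + 4) \ {i + 1, s}) 2 (by
    have h1 := Finset.le_card_sdiff ({i + 1, s} : Finset ℕ) (Finset.Icc j (j + 4))
    have h2 : (Finset.Icc j (j + 4)).card = 5 := by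
      rw [Nat.card_Icc]
      omega
    have h3 : ({i + 1, s} : Finset ℕ).card ≤ 2 := Finset.card_le_two
    omega)
  have hrr : mr 0 ≠ mr 1 := fun h => by
    have := hmri 0 (by omega) 1 (by omega) h
    omega
  have hr0 := hmr 0 (by omega)
  have hr1 := hmr 1 (by omega)
  generalize mr 0 = r at hr0 hrr
  generalize mr 1 = r' at hr1 hrr
  simp only [Finset.mem_sdiff, Finset.mem_Icc, Finset.mem_insert, Finset.mem_singleton,
    not_or] at hr0 hr1
  obtain ⟨⟨hr1', hr2⟩, hr3, hr4⟩ := hr0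
  obtain ⟨⟨hr'1, hr'2⟩, hr'3, hr'4⟩ := hr1
  -- the separate edges
  obtain ⟨q, hq, hqi⟩ := pick (Finset.Ico (L.k + 3) j \ {s}) L.k (by
    have h1 := Finset.le_card_sdiff ({s} : Finset ℕ) (Finset.Ico (L.k + 3) j)
    have h2 : (Finset.Ico (L.k + 3) j).card = j - (L.k + 3) := Nat.card_Ico _ _
    have h3 : ({s} : Finset ℕ).card = 1 := Finset.card_singleton _
    omega)
  have hq' : ∀ t < L.k, L.k + 3 ≤ q t ∧ q t < j ∧ q t ≠ s := by
    intro t ht
    have h := hq t ht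
    simp only [Finset.mem_sdiff, Finset.mem_Ico, Finset.mem_singleton] at h
    exact ⟨h.1.1, h.1.2, h.2⟩
  have hol := hC.ol
  -- untouched indices
  have unt : ∀ m, L.k + 3 ≤ m → m + L.k + 3 < L.N → m ≠ s →
      ¬ D.Adj v (L.a m) ∧ ¬ D.Adj v (L.b m) := by
    intro m h1 h2 h3
    exact ⟨fun h => h3 (hs m h1 h2 (Or.inl h)), fun h => h3 (hs m h1 h2 (Or.inr h))⟩
  have vna : ∀ m, L.k + 3 ≤ m → m + L.k + 3 < L.N → m ≠ s → v ≠ L.a m := by
    intro m h1 h2 h3
    exact (ne_of ((OLab hol (by omega) (by omega)).mpr rfl) (unt m h1 h2 h3).2).symm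
  have vnb : ∀ m, L.k + 3 ≤ m → m + L.k + 3 < L.N → m ≠ s → v ≠ L.b m := by
    intro m h1 h2 h3
    exact (ne_of ((OLba hol (by omega) (by omega)).mpr rfl) (unt m h1 h2 h3).1).symm
  -- vertices of type X are different from the light ones
  have xna : ∀ {y : V} {l : ℕ}, TX D L l y → ∀ m < L.N, y ≠ L.a m := by
    intro y l hy m hm h
    rw [h] at hy
    exact notX_of_Lg (Lg_a hk hol hm) hy
  have xnb : ∀ {y : V} {l : ℕ}, TX D L l y → ∀ m < L.N, y ≠ L.b m := by
    intro y l hy m hm h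
    rw [h] at hy
    exact notX_of_Lg (Lg_b hk hol hm) hy
  have xnv : ∀ {y : V} {l : ℕ}, TX D L l y → y ≠ v := by
    intro y l hy h
    rw [h] at hy
    exact notX_of_Lg hv hy
  have xa : ∀ {y : V} {l : ℕ}, TX D L l y → ∀ m, m + 2 < L.N → ¬ D.Adj y (L.a m) := by
    intro y l hy m hm
    exact (hTXa V D m₀ L hC).1 y l m hy hm
  have hxj : TX D L j (L.x j) := TX_x hol (by omega) (by omega)
  have sy : ∀ {a b : V}, ¬ D.Adj a b → ¬ D.Adj b a := fun h h' => h h'.symm
  have zr : D.Adj z (L.b r) := hz.adj (by omega) (by omega) hr3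
  have zr' : D.Adj z (L.b r') := hz.adj (by omega) (by omega) hr'3
  have z'r : ¬ D.Adj z' (L.b r) := hz'.nadj (by omega) (by omega)
  have z'r' : ¬ D.Adj z' (L.b r') := hz'.nadj (by omega) (by omega)
  have xr : D.Adj (L.x j) (L.b r) := (OLxb hol (by omega) (by omega)).mpr hr1'
  have xr' : D.Adj (L.x j) (L.b r') := (OLxb hol (by omega) (by omega)).mpr hr'1
  have zz' : z ≠ z' := ne_of zr z'r
  have xz' : L.x j ≠ z' := ne_of xr z'r
  refine eng hC.tri hC.ns {z, L.x j} {L.b r} {L.a r} {L.b r'} {L.a r'} {L.b (L.N - 1)} {z'} {v}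
    (fun t => {L.a (q t)}) (fun t => {L.b (q t)})
    (Finset.insert_nonempty _ _) (Finset.singleton_nonempty _) (Finset.singleton_nonempty _)
    (Finset.singleton_nonempty _) (Finset.singleton_nonempty _) (Finset.singleton_nonempty _)
    (Finset.singleton_nonempty _) (Finset.singleton_nonempty _)
    (fun t _ => Finset.singleton_nonempty _) (fun t _ => Finset.singleton_nonempty _)
    (pcmp zr xr) (cmp_sing.mpr ((OLba hol (by omega) (by omega)).mpr rfl))
    (pcmp zr' xr') (cmp_sing.mpr ((OLba hol (by omega) (by omega)).mpr rfl))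
    (pcmp hz.last ((OLxb hol (by omega) (by omega)).mpr (by omega)))
    (cmp_sing.mpr hz'.last.symm) (cmp_sing.mpr hvz'.symm)
    (pdis (xna hz r (by omega)) (xna hxj r (by omega)))
    (pdis (xna hz r' (by omega)) (xna hxj r' (by omega)))
    (pdis zz' xz')
    (Finset.disjoint_singleton.mpr (OLnbb hol (by omega) (by omega) hrr))
    (Finset.disjoint_singleton.mpr (OLnbb hol (by omega) (by omega) (by omega)))
    (Finset.disjoint_singleton.mpr (OLnbb hol (by omega) (by omega) (by omega)))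
    (Finset.disjoint_singleton.mpr (ne_of hz.last.symm hvz))
    (pnd1 (xnv hz) (xnv hxj) (sy hvz))
    (nd_sing.mpr ⟨(OLnab hol (by omega) (by omega)).symm,
      fun h => hrr ((OLba hol (by omega) (by omega)).mp h)⟩)
    (nd_sing.mpr ⟨(xnb hz' r (by omega)).symm, sy z'r⟩)
    (nd_sing.mpr ⟨(vnb r (by omega) (by omega) hr4).symm, sy (unt r (by omega) (by omega) hr4).2⟩)
    (nd_sing.mpr ⟨(OLnab hol (by omega) (by omega)).symm,
      fun h => hrr ((OLba hol (by omega) (by omega)).mp h).symm⟩)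
    (nd_sing.mpr ⟨(xnb hz' r' (by omega)).symm, sy z'r'⟩)
    (nd_sing.mpr ⟨(vnb r' (by omega) (by omega) hr'4).symm,
      sy (unt r' (by omega) (by omega) hr'4).2⟩)
    (nd_sing.mpr ⟨(OLnab hol (by omega) (by omega)).symm,
      fun h => by have := (OLba hol (by omega) (by omega)).mp h; omega⟩)
    (nd_sing.mpr ⟨(OLnab hol (by omega) (by omega)).symm,
      fun h => by have := (OLba hol (by omega) (by omega)).mp h; omega⟩)
    (nd_sing.mpr ⟨OLnaa hol (by omega) (by omega) hrr, OLaa hol (by omega) (by omega)⟩)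
    (nd_sing.mpr ⟨(xna hz' r (by omega)).symm, sy (xa hz' r (by omega))⟩)
    (nd_sing.mpr ⟨(vna r (by omega) (by omega) hr4).symm, sy (unt r (by omega) (by omega) hr4).1⟩)
    (nd_sing.mpr ⟨(xna hz' r' (by omega)).symm, sy (xa hz' r' (by omega))⟩)
    (nd_sing.mpr ⟨(vna r' (by omega) (by omega) hr'4).symm,
      sy (unt r' (by omega) (by omega) hr'4).1⟩)
    (fun t ht => cmp_sing.mpr ((OLab hol (by have := hq' t ht; omega) (by have := hq' t ht; omega)).mpr rfl))
    ?_ ?_ ?_ ?_ ?_ ?_ ?_ ?_ ?_ ?_ ?_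
  · intro t ht u hu htu
    obtain ⟨h1, h2, h3⟩ := hq' t ht
    obtain ⟨h4, h5, h6⟩ := hq' u hu
    exact nd_sing.mpr ⟨OLnaa hol (by omega) (by omega) fun h => htu (hqi t ht u hu h),
      OLaa hol (by omega) (by omega)⟩
  · intro t ht u hu htu
    obtain ⟨h1, h2, h3⟩ := hq' t ht
    obtain ⟨h4, h5, h6⟩ := hq' u hu
    exact nd_sing.mpr ⟨OLnab hol (by omega) (by omega),
      fun h => htu (hqi t ht u hu ((OLab hol (by omega) (by omega)).mp h))⟩
  · intro t ht u hu htu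
    obtain ⟨h1, h2, h3⟩ := hq' t ht
    obtain ⟨h4, h5, h6⟩ := hq' u hu
    exact nd_sing.mpr ⟨OLnbb hol (by omega) (by omega) fun h => htu (hqi t ht u hu h),
      OLbb hol (by omega) (by omega)⟩
  · intro t ht
    obtain ⟨h1, h2, h3⟩ := hq' t ht
    exact ⟨pnd1 (xna hz _ (by omega)) (xna hxj _ (by omega)) (xa hz _ (by omega)),
      pnd2 (xnb hz _ (by omega)) (xnb hxj _ (by omega)) (hxj.nadj (by omega) (by omega))⟩
  · intro t ht
    obtain ⟨h1, h2, h3⟩ := hq' t ht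
    exact ⟨nd_sing.mpr ⟨(OLnab hol (by omega) (by omega)).symm,
      fun h => by have := (OLba hol (by omega) (by omega)).mp h; omega⟩,
      nd_sing.mpr ⟨OLnbb hol (by omega) (by omega) (by omega), OLbb hol (by omega) (by omega)⟩⟩
  · intro t ht
    obtain ⟨h1, h2, h3⟩ := hq' t ht
    exact ⟨nd_sing.mpr ⟨OLnaa hol (by omega) (by omega) (by omega), OLaa hol (by omega) (by omega)⟩,
      nd_sing.mpr ⟨OLnab hol (by omega) (by omega),
      fun h => by have := (OLab hol (by omega) (by omega)).mp h; omega⟩⟩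
  · intro t ht
    obtain ⟨h1, h2, h3⟩ := hq' t ht
    exact ⟨nd_sing.mpr ⟨(OLnab hol (by omega) (by omega)).symm,
      fun h => by have := (OLba hol (by omega) (by omega)).mp h; omega⟩,
      nd_sing.mpr ⟨OLnbb hol (by omega) (by omega) (by omega), OLbb hol (by omega) (by omega)⟩⟩
  · intro t ht
    obtain ⟨h1, h2, h3⟩ := hq' t ht
    exact ⟨nd_sing.mpr ⟨OLnaa hol (by omega) (by omega) (by omega), OLaa hol (by omega) (by omega)⟩,
      nd_sing.mpr ⟨OLnab hol (by omega) (by omega),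
      fun h => by have := (OLab hol (by omega) (by omega)).mp h; omega⟩⟩
  · intro t ht
    obtain ⟨h1, h2, h3⟩ := hq' t ht
    exact ⟨nd_sing.mpr ⟨(OLnab hol (by omega) (by omega)).symm,
      fun h => by have := (OLba hol (by omega) (by omega)).mp h; omega⟩,
      nd_sing.mpr ⟨OLnbb hol (by omega) (by omega) (by omega), OLbb hol (by omega) (by omega)⟩⟩
  · intro t ht
    obtain ⟨h1, h2, h3⟩ := hq' t ht
    exact ⟨nd_sing.mpr ⟨xna hz' _ (by omega), xa hz' _ (by omega)⟩,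
      nd_sing.mpr ⟨xnb hz' _ (by omega), hz'.nadj (by omega) (by omega)⟩⟩
  · intro t ht
    obtain ⟨h1, h2, h3⟩ := hq' t ht
    exact ⟨nd_sing.mpr ⟨vna _ (by omega) (by omega) h3, (unt _ (by omega) (by omega) h3).1⟩,
      nd_sing.mpr ⟨vnb _ (by omega) (by omega) h3, (unt _ (by omega) (by omega) h3).2⟩⟩

end PFR1

theorem pFR1 : S_TXa → S_Ltt → S_FR1 := by
  intro hTXa hLtt V D m₀ L hC
  refine ⟨fun v z z' i i' hv hz hz' hii hi' h => PFR1.first hTXa hLtt hC hv hz hz' hii hi' h, ?_⟩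
  intro v z z' i i' hv hz hz' hii hi' h
  have h1 := hz.1
  have h2 := hz'.1
  refine PFR1.first (L := L.rev) hTXa hLtt hC.rev (by rw [Lg_rev]; exact hv)
    (show TX D L.rev (L.N - 1 - i) z from hz.2) (show TX D L.rev (L.N - 1 - i') z' from hz'.2)
    ?_ ?_ h
  · omega
  · rw [rev_k]
    omega

end Pool.Agent.MPd439b2.OP
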