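import Pool.Agent.Lib.MP_d439b2_co.OP.SpecA

/-!
# MP_d439b2_co, OP: type X to the right of type W, not adjacent (helper12)
-/

set_option autoImplicit false

namespace Pool.Agent.MPd439b2.OP

open Pool.Agent.MPd439b2 Pool.Agent.MPd439b2.W Pool.Agent.MPd439b2.SA

theorem pGap : S_TXa → S_Gap := by
  intro hTXa V D m₀ L hC z z' i i' hz hz' hii hor
  have key : ∀ L : LD V, Ctx D m₀ L → ∀ (z z' : V) (i i' : ℕ), TX D L i z → TW D L i' z' →
      i' + L.k + 3 ≤ i → i + L.k + 8 ≤ L.N → ¬ D.Adj z z' := by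
    intro L hC z z' i i' hz hz' hii hiN hzz
    obtain ⟨hXa, hWb⟩ := hTXa V D m₀ L hC
    have hk := hC.hk
    have hge := hz'.ge
    have ho := hC.ol
    have aa : ∀ i < L.N, ∀ j < L.N, ¬ D.Adj (L.a i) (L.a j) := fun i hi j hj => OLaa ho hi hj
    have bb : ∀ i < L.N, ∀ j < L.N, ¬ D.Adj (L.b i) (L.b j) := fun i hi j hj => OLbb ho hi hj
    have ab : ∀ i < L.N, ∀ j < L.N, i ≠ j → ¬ D.Adj (L.a i) (L.b j) := fun i hi j hj hij h =>
      hij ((OLab ho hi hj).mp h)
    have ba : ∀ i < L.N, ∀ j < L.N, i ≠ j → ¬ D.Adj (L.b i) (L.a j) := fun i hi j hj hij h =>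
      hij ((OLba ho hi hj).mp h)
    have za : ∀ j, j + 2 < L.N → ¬ D.Adj z (L.a j) := fun j hj => hXa z i j hz hj
    have zb' : ∀ j, 2 ≤ j → j < L.N → ¬ D.Adj z' (L.b j) := fun j h1 h2 => hWb z' i' j hz' h1 h2
    refine eng1 hC.tri hC.ns z (L.b (i + 2)) (L.a (i + 2)) (L.b (i + 3)) (L.a (i + 3)) z' (L.a i')
      (L.b i') (fun t => L.a (i' + 1 + t)) (fun t => L.b (i' + 1 + t))
      (hz.adj (by omega) (by omega) (by omega)) ((OLba ho (by omega) (by omega)).mpr rfl)
      (hz.adj (by omega) (by omega) (by omega)) ((OLba ho (by omega) (by omega)).mpr rfl) hzz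
      hz'.self ((OLab ho (by omega) (by omega)).mpr rfl) (hz.nadj (by omega) (by omega))
      (ba _ (by omega) _ (by omega) (by omega)) (ba _ (by omega) _ (by omega) (by omega))
      (bb _ (by omega) _ (by omega)) (ba _ (by omega) _ (by omega) (by omega))
      (ba _ (by omega) _ (by omega) (by omega)) (bb _ (by omega) _ (by omega))
      (hz'.nadj (by omega) (by omega)) (hz'.nadj (by omega) (by omega))
      (aa _ (by omega) _ (by omega)) (aa _ (by omega) _ (by omega))
      (ab _ (by omega) _ (by omega) (by omega)) (aa _ (by omega) _ (by omega))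
      (ab _ (by omega) _ (by omega) (by omega))
      (ho.lad.im.comp (fun t => i' + 1 + t) (fun t ht => by omega) (fun s _ t _ h => by
        have h1 : i' + 1 + s = i' + 1 + t := h
        omega)) ?_
    intro t ht v hv
    simp only [List.mem_cons, List.not_mem_nil, or_false] at hv
    rcases hv with rfl | rfl | rfl | rfl | rfl | rfl | rfl | rfl
    · exact ⟨za _ (by omega), hz.nadj (by omega) (by omega)⟩
    · exact ⟨ba _ (by omega) _ (by omega) (by omega), bb _ (by omega) _ (by omega)⟩
    · exact ⟨aa _ (by omega) _ (by omega), ab _ (by omega) _ (by omega) (by omega)⟩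
    · exact ⟨ba _ (by omega) _ (by omega) (by omega), bb _ (by omega) _ (by omega)⟩
    · exact ⟨aa _ (by omega) _ (by omega), ab _ (by omega) _ (by omega) (by omega)⟩
    · exact ⟨hz'.nadj (by omega) (by omega), zb' _ (by omega) (by omega)⟩
    · exact ⟨aa _ (by omega) _ (by omega), ab _ (by omega) _ (by omega) (by omega)⟩
    · exact ⟨ba _ (by omega) _ (by omega) (by omega), bb _ (by omega) _ (by omega)⟩
  rcases hor with h | h
  · exact key L hC z z' i i' hz hz' hii h
  · have hle := hz.le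
    intro hzz
    refine key L.rev hC.rev z' z (L.N - 1 - i') (L.N - 1 - i) hz'.2 ?_ ?_ ?_ hzz.symm
    · rw [TW_rev (by omega), Nat.sub_sub_self (by omega)]
      exact hz
    · rw [rev_k]
      omega
    · rw [rev_k, rev_N]
      omega

end Pool.Agent.MPd439b2.OP
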