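import Pool.Agent.Lib.MP_d439b2_co.OP.SpecE

/-!
# MP_d439b2_co, OP, HG: the rank of a half graph
-/

set_option autoImplicit false

namespace Pool.Agent.MPd439b2.OP

open Pool.Agent.MPd439b2 Pool.Agent.MPd439b2.W Pool.Agent.MPd439b2.SA

theorem pHG : S_HG := by
  classical
  intro V _ D A B m a b ha hb hab
  have hli : LinearIndependent (ZMod 2) (fun i : Fin m => LK.row D B (a i.val)) := by
    rw [Fintype.linearIndependent_iff]
    intro g hg
    have key : ∀ n : ℕ, ∀ i : Fin m, i.val = n → g i = 0 := by
      intro n
      induction n using Nat.strong_induction_on with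
      | _ n ih =>
        intro i hi
        have h1 := congrFun hg (b i.val)
        rw [Finset.sum_apply] at h1
        have h2 : ∀ j : Fin m, j ≠ i → (g j • LK.row D B (a j.val)) (b i.val) = 0 := by
          intro j hj
          have hji : j.val ≠ i.val := fun h => hj (Fin.ext h)
          rcases lt_or_gt_of_ne hji with h | h
          · rw [ih j.val (by omega) j rfl, zero_smul]; rfl
          · have h3 : LK.row D B (a j.val) (b i.val) = 0 := by
              unfold LK.row
              rw [if_neg]
              rintro ⟨_, h4⟩
              have := (hab j.val j.2 i.val i.2).1 h4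
              omega
            rw [Pi.smul_apply, h3, smul_zero]
        rw [Finset.sum_eq_single i (fun j _ hj => h2 j hj) (fun h => absurd (Finset.mem_univ i) h)] at h1
        have h3 : LK.row D B (a i.val) (b i.val) = 1 := by
          unfold LK.row
          rw [if_pos ⟨hb i.val i.2, (hab i.val i.2 i.val i.2).2 le_rfl⟩]
        rw [Pi.smul_apply, h3, smul_eq_mul, mul_one] at h1
        exact h1
    exact fun i => key i.val i rfl
  have h1 := finrank_span_eq_card hli
  rw [Fintype.card_fin] at h1
  unfold LK.rk
  calc m = Module.finrank (ZMod 2) (Submodule.span (ZMod 2)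
        (Set.range fun i : Fin m => LK.row D B (a i.val))) := h1.symm
    _ ≤ _ := by
        apply Submodule.finrank_mono
        apply Submodule.span_mono
        rintro x ⟨i, rfl⟩
        exact ⟨a i.val, ha i.val i.2, rfl⟩

end Pool.Agent.MPd439b2.OP
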