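import Pool.Agent.Lib.MP_d439b2_co.OP.SpecB

/-!
# MP_d439b2_co, OP, Ins: insertion of a ladder
-/

set_option autoImplicit false

namespace Pool.Agent.MPd439b2.OP

open Pool.Agent.MPd439b2 Pool.Agent.MPd439b2.W Pool.Agent.MPd439b2.SA

namespace PIns

variable {V : Type}

/-- two opposite ladders are merged: `New s` means that the index `s` belongs to the new one -/
theorem merge {D : SimpleGraph V} {N n M : ℕ} {a b x w u v x' w' : ℕ → V} (jj mm : ℕ → ℕ)
    (New : ℕ → Prop) [DecidablePred New]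
    (hO : ∀ s < M, ¬ New s → jj s < N) (hN : ∀ s < M, New s → mm s < n)
    (hOO : ∀ s < M, ∀ t < M, ¬ New s → ¬ New t → (jj s ≤ jj t ↔ s ≤ t))
    (hNN : ∀ s < M, ∀ t < M, New s → New t → (mm s ≤ mm t ↔ s ≤ t))
    (hol : OL D N a b x w) (hol' : OL D n u v x' w')
    (e1 : ∀ s < M, ∀ t < M, ¬ New s → New t → ¬ D.Adj (a (jj s)) (u (mm t)) ∧
      ¬ D.Adj (a (jj s)) (v (mm t)) ∧ ¬ D.Adj (b (jj s)) (u (mm t)) ∧
      ¬ D.Adj (b (jj s)) (v (mm t)))
    (e2 : ∀ s < M, ∀ t < M, ¬ New s → New t → (D.Adj (x (jj s)) (v (mm t)) ↔ s ≤ t) ∧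
      ¬ D.Adj (x (jj s)) (u (mm t)) ∧ (D.Adj (w (jj s)) (u (mm t)) ↔ t ≤ s) ∧
      ¬ D.Adj (w (jj s)) (v (mm t)))
    (e3 : ∀ s < M, ∀ t < M, New s → ¬ New t → (D.Adj (x' (mm s)) (b (jj t)) ↔ s ≤ t) ∧
      ¬ D.Adj (x' (mm s)) (a (jj t)) ∧ (D.Adj (w' (mm s)) (a (jj t)) ↔ t ≤ s) ∧
      ¬ D.Adj (w' (mm s)) (b (jj t))) :
    OL D M (fun t => if New t then u (mm t) else a (jj t))
      (fun t => if New t then v (mm t) else b (jj t))
      (fun t => if New t then x' (mm t) else x (jj t))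
      (fun t => if New t then w' (mm t) else w (jj t)) := by
  have sy : ∀ {a b : V}, ¬ D.Adj a b → ¬ D.Adj b a := fun h h' => h h'.symm
  have ex : ∀ s, s < M → New s ∨ ¬ New s := fun s _ => em _
  refine ⟨⟨?_, ?_, ?_⟩, ?_, ?_⟩
  · intro s hs t ht
    try dsimp only
    rcases ex s hs with hs' | hs' <;> rcases ex t ht with ht' | ht'
    · rw [if_pos hs', if_pos hs', if_pos ht', if_pos ht']
      have h1 := hN s hs hs'
      have h2 := hN t ht ht'
      have h3 := hNN s hs t ht hs' ht'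
      have h4 := hNN t ht s hs ht' hs'
      refine ⟨?_, OLaa hol' h1 h2, OLbb hol' h1 h2⟩
      rw [OLab hol' h1 h2]
      omega
    · rw [if_pos hs', if_pos hs', if_neg ht', if_neg ht']
      obtain ⟨h1, h2, h3, h4⟩ := e1 t ht s hs ht' hs'
      refine ⟨iff_of_false (sy h3) ?_, sy h1, sy h4⟩
      rintro rfl
      exact ht' hs'
    · rw [if_neg hs', if_neg hs', if_pos ht', if_pos ht']
      obtain ⟨h1, h2, h3, h4⟩ := e1 s hs t ht hs' ht'
      refine ⟨iff_of_false h2 ?_, h1, h4⟩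
      rintro rfl
      exact hs' ht'
    · rw [if_neg hs', if_neg hs', if_neg ht', if_neg ht']
      have h1 := hO s hs hs'
      have h2 := hO t ht ht'
      have h3 := hOO s hs t ht hs' ht'
      have h4 := hOO t ht s hs ht' hs'
      refine ⟨?_, OLaa hol h1 h2, OLbb hol h1 h2⟩
      rw [OLab hol h1 h2]
      omega
  · intro s hs t ht
    try dsimp only
    rcases ex s hs with hs' | hs' <;> rcases ex t ht with ht' | ht'
    · rw [if_pos hs', if_pos ht', OLxb hol' (hN s hs hs') (hN t ht ht')]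
      exact hNN s hs t ht hs' ht'
    · rw [if_pos hs', if_neg ht']
      exact (e3 s hs t ht hs' ht').1
    · rw [if_neg hs', if_pos ht']
      exact (e2 s hs t ht hs' ht').1
    · rw [if_neg hs', if_neg ht', OLxb hol (hO s hs hs') (hO t ht ht')]
      exact hOO s hs t ht hs' ht'
  · intro s hs t ht
    try dsimp only
    rcases ex s hs with hs' | hs' <;> rcases ex t ht with ht' | ht'
    · rw [if_pos hs', if_pos ht']
      exact OLxa hol' (hN s hs hs') (hN t ht ht')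
    · rw [if_pos hs', if_neg ht']
      exact (e3 s hs t ht hs' ht').2.1
    · rw [if_neg hs', if_pos ht']
      exact (e2 s hs t ht hs' ht').2.1
    · rw [if_neg hs', if_neg ht']
      exact OLxa hol (hO s hs hs') (hO t ht ht')
  · intro s hs t ht
    try dsimp only
    rcases ex s hs with hs' | hs' <;> rcases ex t ht with ht' | ht'
    · rw [if_pos hs', if_pos ht', OLwa hol' (hN s hs hs') (hN t ht ht')]
      exact hNN t ht s hs ht' hs'
    · rw [if_pos hs', if_neg ht']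
      exact (e3 s hs t ht hs' ht').2.2.1
    · rw [if_neg hs', if_pos ht']
      exact (e2 s hs t ht hs' ht').2.2.1
    · rw [if_neg hs', if_neg ht', OLwa hol (hO s hs hs') (hO t ht ht')]
      exact hOO t ht s hs ht' hs'
  · intro s hs t ht
    try dsimp only
    rcases ex s hs with hs' | hs' <;> rcases ex t ht with ht' | ht'
    · rw [if_pos hs', if_pos ht']
      exact OLwb hol' (hN s hs hs') (hN t ht ht')
    · rw [if_pos hs', if_neg ht']
      exact (e3 s hs t ht hs' ht').2.2.2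
    · rw [if_neg hs', if_pos ht']
      exact (e2 s hs t ht hs' ht').2.2.2
    · rw [if_neg hs', if_neg ht']
      exact OLwb hol (hO s hs hs') (hO t ht ht')

section

variable {D : SimpleGraph V} {m₀ : ℕ} {L : LD V} {i n : ℕ} {u v x' w' : ℕ → V} {Ks : ℕ → Set V}

theorem lgu (h : NB D m₀ L i n u v x' w' Ks) {m : ℕ} (hm : m < n) :
    u m ∈ Lg D L ∧ v m ∈ Lg D L :=
  ⟨(h.ku m hm).1.1 (h.ku m hm).2.1, (h.ku m hm).1.1 (h.ku m hm).2.2⟩

/-- no edges between the old and the new matching -/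
theorem f1 (h : NB D m₀ L i n u v x' w' Ks) {m j : ℕ} (hm : m < n) (hj : j < L.N) :
    ¬ D.Adj (L.a j) (u m) ∧ ¬ D.Adj (L.a j) (v m) ∧ ¬ D.Adj (L.b j) (u m) ∧
      ¬ D.Adj (L.b j) (v m) := by
  have hol := h.ctx.ol
  have hk := h.ctx.hk
  obtain ⟨⟨_, _, h3'⟩, h4, h5⟩ := h.ku m hm
  have h3 : ∀ y ∈ Ks m, ∀ z ∈ Lg D L, D.Adj y z → z ∈ Ks m := by
    intro y hy z hz hyz
    by_contra hzK
    exact h3' z hz ⟨hzK, y, hy, hyz⟩
  obtain ⟨h6, h7⟩ := h.na m hm j hj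
  exact ⟨fun h8 => h6 (h3 _ h4 _ (Lg_a hk hol hj) h8.symm),
    fun h8 => h6 (h3 _ h5 _ (Lg_a hk hol hj) h8.symm),
    fun h8 => h7 (h3 _ h4 _ (Lg_b hk hol hj) h8.symm),
    fun h8 => h7 (h3 _ h5 _ (Lg_b hk hol hj) h8.symm)⟩

/-- old left index -/
theorem fL (hFR : S_FR1) (hNW : S_NoW) (hOv : S_Ovl) (h : NB D m₀ L i n u v x' w' Ks) {m j : ℕ}
    (hm : m < n) (hj1 : L.k + 2 ≤ j) (hj2 : j + L.k + 12 ≤ i) :
    D.Adj (L.x j) (v m) ∧ ¬ D.Adj (L.x j) (u m) ∧ ¬ D.Adj (L.w j) (u m) ∧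
      ¬ D.Adj (L.w j) (v m) := by
  have hC := h.ctx
  have hol := hC.ol
  obtain ⟨hi1, hi2⟩ := h.mi
  obtain ⟨hu, hv⟩ := lgu h hm
  have hxi : TX D L i (L.x i) := TX_x hol (by omega) (by omega)
  have hxj : TX D L j (L.x j) := TX_x hol (by omega) (by omega)
  have hwj : TW D L j (L.w j) := TW_w hol (by omega) (by omega)
  have h1 : D.Adj (v m) (L.x j) :=
    (hFR V D m₀ L hC).1 (v m) (L.x j) (L.x i) j i hv hxj hxi (by omega) (by omega) (h.vx m hm)
  refine ⟨h1.symm, ?_, ?_, ?_⟩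
  · intro h2
    exact hC.tri (L.x j) (u m) (v m) h2 h1.symm ((OLab h.ol' hm hm).mpr rfl)
  · intro h2
    exact hOv V D m₀ L hC (u m) (v m) (L.x i) (L.w j) i j hu hv ((OLab h.ol' hm hm).mpr rfl) hxi hwj
      (h.vx m hm) h2.symm (by omega) (Or.inl h.mi)
  · intro h2
    exact (hNW V D m₀ L hC).1 (v m) (L.x i) (L.w j) i j hv hxi h.mi (h.vx m hm) hwj h2.symm

/-- old right index -/
theorem fR (hFR : S_FR1) (hNW : S_NoW) (h : NB D m₀ L i n u v x' w' Ks) {m j : ℕ}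
    (hm : m < n) (hj1 : i + 13 ≤ j) (hj2 : j + L.k + 3 ≤ L.N) :
    ¬ D.Adj (L.x j) (v m) ∧ ¬ D.Adj (L.x j) (u m) ∧ D.Adj (L.w j) (u m) ∧
      ¬ D.Adj (L.w j) (v m) := by
  have hC := h.ctx
  have hol := hC.ol
  obtain ⟨hi1, hi2⟩ := h.mi
  obtain ⟨hi3, hi4⟩ := h.mi'
  obtain ⟨hu, hv⟩ := lgu h hm
  have hxi : TX D L i (L.x i) := TX_x hol (by omega) (by omega)
  have hxi1 : TX D L (i + 1) (L.x (i + 1)) := TX_x hol (by omega) (by omega)
  have hxi5 : TX D L (i - 5) (L.x (i - 5)) := TX_x hol (by omega) (by omega)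
  have hwi3 : TW D L (i + 3) (L.w (i + 3)) := TW_w hol (by omega) (by omega)
  have hxj : TX D L j (L.x j) := TX_x hol (by omega) (by omega)
  have hwj : TW D L j (L.w j) := TW_w hol (by omega) (by omega)
  have h5 : D.Adj (v m) (L.x (i - 5)) :=
    (hFR V D m₀ L hC).1 (v m) (L.x (i - 5)) (L.x i) (i - 5) i hv hxi5 hxi (by omega) (by omega)
      (h.vx m hm)
  refine ⟨?_, ?_, ?_, ?_⟩
  · intro h2
    exact h.nvx m hm ((hFR V D m₀ L hC).1 (v m) (L.x (i + 1)) (L.x j) (i + 1) j hv hxi1 hxj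
      (by omega) (by omega) h2.symm)
  · intro h2
    have h6 := (hFR V D m₀ L hC).1 (u m) (L.x (i - 5)) (L.x j) (i - 5) j hu hxi5 hxj
      (by omega) (by omega) h2.symm
    exact hC.tri (L.x (i - 5)) (u m) (v m) h6.symm h5.symm ((OLab h.ol' hm hm).mpr rfl)
  · exact ((hFR V D m₀ L hC).2 (u m) (L.w j) (L.w (i + 3)) j (i + 3) hu hwj hwi3
      (by omega) (by omega) (h.uw m hm)).symm
  · intro h2
    exact (hNW V D m₀ L hC).1 (v m) (L.x i) (L.w j) i j hv hxi h.mi (h.vx m hm) hwj h2.symm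

/-- the new ladder vertices and an old index -/
theorem fN (hIT : S_InsT) (hTXa : S_TXa) (h : NB D m₀ L i n u v x' w' Ks) {m j : ℕ}
    (hm1 : 1 ≤ m) (hm2 : m + L.k + 3 ≤ n) (hj1 : L.k + 2 ≤ j) (hj2 : j + L.k + 3 ≤ L.N)
    (hj3 : j + L.k + 12 ≤ i ∨ i + 13 ≤ j) :
    (D.Adj (x' m) (L.b j) ↔ i < j) ∧ ¬ D.Adj (x' m) (L.a j) ∧ (D.Adj (w' m) (L.a j) ↔ j < i) ∧
      ¬ D.Adj (w' m) (L.b j) := by
  have hC := h.ctx
  have hk := hC.hk
  obtain ⟨⟨t, ht1, ht2, ht3⟩, s, hs1, hs2, hs3⟩ := hIT V D m₀ L i n u v x' w' Ks h m hm1 hm2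
  refine ⟨?_, (hTXa V D m₀ L hC).1 _ t j ht3 (by omega), ?_,
    (hTXa V D m₀ L hC).2 _ s j hs3 (by omega) (by omega)⟩
  · rcases hj3 with hj3 | hj3
    · exact iff_of_false (ht3.nadj (by omega) (by omega)) (by omega)
    · exact iff_of_true (ht3.adj (by omega) (by omega) (by omega)) (by omega)
  · rcases hj3 with hj3 | hj3
    · exact iff_of_true (hs3.adj (by omega) (by omega)) (by omega)
    · exact iff_of_false (hs3.nadj (by omega) (by omega)) (by omega)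

end

end PIns

theorem pIns : S_InsT → S_FR1 → S_NoW → S_Ovl → S_TXa → S_Ins := by
  intro hIT hFR hNW hOv hTXa V D m₀ L i u v x' w' Ks h
  obtain ⟨hi1, hi2⟩ := h.mi
  obtain ⟨hi3, hi4⟩ := h.mi'
  obtain ⟨c₁, hc₁⟩ : ∃ c₁, c₁ + 2 * L.k + 13 = i := ⟨i - (2 * L.k + 13), by omega⟩
  obtain ⟨c₂, hc₂⟩ : ∃ c₂, c₂ = c₁ + 3 * L.k + 29 := ⟨_, rfl⟩
  refine ⟨_, _, _, _, PIns.merge (N := L.N) (n := 4 * L.k + 32) (M := L.N + 1) (a := L.a) (b := L.b)
    (x := L.x) (w := L.w) (u := u) (v := v) (x' := x') (w' := w')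
    (fun t => if t < c₁ then L.k + 2 + t else i + 13 + (t - c₂)) (fun t => 1 + (t - c₁))
    (fun t => c₁ ≤ t ∧ t < c₂) ?_ ?_ ?_ ?_ h.ctx.ol h.ol' ?_ ?_ ?_⟩
  · intro s hs hn
    try dsimp only
    split_ifs <;> omega
  · intro s hs hn
    try dsimp only
    omega
  · intro s hs t ht hs' ht'
    try dsimp only
    split_ifs <;> omega
  · intro s hs t ht hs' ht'
    try dsimp only
    omega
  · intro s hs t ht hs' ht'
    try dsimp only
    refine PIns.f1 h (by omega) ?_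
    split_ifs <;> omega
  · intro s hs t ht hs' ht'
    try dsimp only
    by_cases h1 : s < c₁
    · rw [if_pos h1]
      obtain ⟨h2, h3, h4, h5⟩ := PIns.fL hFR hNW hOv h (m := 1 + (t - c₁)) (j := L.k + 2 + s)
        (by omega) (by omega) (by omega)
      exact ⟨iff_of_true h2 (by omega), h3, iff_of_false h4 (by omega), h5⟩
    · rw [if_neg h1]
      obtain ⟨h2, h3, h4, h5⟩ := PIns.fR hFR hNW h (m := 1 + (t - c₁)) (j := i + 13 + (s - c₂))
        (by omega) (by omega) (by omega)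
      exact ⟨iff_of_false h2 (by omega), h3, iff_of_true h4 (by omega), h5⟩
  · intro s hs t ht hs' ht'
    try dsimp only
    by_cases h1 : t < c₁
    · rw [if_pos h1]
      obtain ⟨h2, h3, h4, h5⟩ := PIns.fN hIT hTXa h (m := 1 + (s - c₁)) (j := L.k + 2 + t)
        (by omega) (by omega) (by omega) (by omega) (by omega)
      exact ⟨h2.trans (by omega), h3, h4.trans (by omega), h5⟩
    · rw [if_neg h1]
      obtain ⟨h2, h3, h4, h5⟩ := PIns.fN hIT hTXa h (m := 1 + (s - c₁)) (j := i + 13 + (t - c₂))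
        (by omega) (by omega) (by omega) (by omega) (by omega)
      exact ⟨h2.trans (by omega), h3, h4.trans (by omega), h5⟩

end Pool.Agent.MPd439b2.OP
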