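import Pool.Agent.Lib.MP_d439b2_co.OP.SpecB

/-!
# MP_d439b2_co, OP: InsT, the thresholds of the new ladder (helper77, after helper99's docstring)
-/

set_option autoImplicit false

namespace Pool.Agent.MPd439b2.OP

open Pool.Agent.MPd439b2 Pool.Agent.MPd439b2.W Pool.Agent.MPd439b2.SA

theorem pInsT : S_InsX → S_FR1 → S_NoW → S_Ovl → S_Cmp → S_InsT := by
  intro hX hF hN hO hC V D m₀ L i n u v x' w' Ks h
  have C := h.ctx
  have ol := C.ol
  have hMi := h.mi
  have hMi3 := h.mi'
  have hlu : ∀ s < n, u s ∈ Lg D L := fun s hs => (h.ku s hs).1.1 (h.ku s hs).2.1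
  have hlv : ∀ s < n, v s ∈ Lg D L := fun s hs => (h.ku s hs).1.1 (h.ku s hs).2.2
  -- a light vertex does not see two components
  have hno : ∀ s < n, ∀ t < n, s ≠ t → ∀ z ∈ Lg D L, ∀ p ∈ Ks s, ∀ q ∈ Ks t, D.Adj z p →
      D.Adj z q → False := by
    intro s hs t ht hst z hz p hp q hq hzp hzq
    have h1 : z ∈ Ks s := by
      by_contra h1
      exact (h.ku s hs).1.2.2 z hz ⟨h1, p, hp, hzp.symm⟩
    have h2 : z ∈ Ks t := by
      by_contra h2
      exact (h.ku t ht).1.2.2 z hz ⟨h2, q, hq, hzq.symm⟩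
    exact h.kn s hs t ht hst ((hC V D (Lg D L)).2.1 _ _ (h.ku s hs).1 (h.ku t ht).1 z h1 h2)
  have hxi : TX D L i (L.x i) := by
    apply TX_x ol
    · have := hMi.1
      omega
    · have := hMi.2
      omega
  have hxi1 : TX D L (i + 1) (L.x (i + 1)) := by
    apply TX_x ol
    · have := hMi.1
      omega
    · have := hMi.2
      omega
  have hwi3 : TW D L (i + 3) (L.w (i + 3)) := by
    apply TW_w ol
    · have := hMi3.1
      omega
    · have := hMi3.2
      omega
  have hxt : ∀ m, 1 ≤ m → m + 1 < n → ∃ t, i < t + 5 ∧ t ≤ i + 5 ∧ TX D L t (x' m) := by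
    intro m hm hmn
    have hvm : D.Adj (x' m) (v m) := (OLxb h.ol' (by omega) (by omega)).mpr le_rfl
    have hvm1 : D.Adj (x' m) (v (m + 1)) := (OLxb h.ol' (by omega) (by omega)).mpr (by omega)
    have hnl : x' m ∉ Lg D L := fun hl =>
      hno m (by omega) (m + 1) hmn (by omega) _ hl _ (h.ku m (by omega)).2.2 _
        (h.ku (m + 1) hmn).2.2 hvm hvm1
    have hcase : x' m ∈ XX D L ∪ WW D L := by
      by_contra h1
      exact hnl h1
    rcases hcase with ⟨t, ht⟩ | ⟨t, ht⟩
    · refine ⟨t, ?_, ?_, ht⟩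
      · by_contra h1
        have h2 := (hF V D m₀ L C).1 (v 0) (x' m) (L.x i) t i (hlv 0 (by omega)) ht hxi
          (by omega) (by have := hMi.1; omega) (h.vx 0 (by omega))
        have h3 := (OLxb h.ol' (i := m) (j := 0) (by omega) (by omega)).mp h2.symm
        omega
      · by_contra h1
        have h2 := (hF V D m₀ L C).1 (v m) (L.x (i + 1)) (x' m) (i + 1) t (hlv m (by omega))
          hxi1 ht (by omega) (by have := hMi.1; omega) hvm.symm
        exact h.nvx m (by omega) h2
    · exfalso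
      exact (hN V D m₀ L C).1 (v m) (L.x i) (x' m) i t (hlv m (by omega)) hxi hMi
        (h.vx m (by omega)) ht hvm.symm
  intro m hm hmn
  refine ⟨hxt m hm (by omega), ?_⟩
  have hu0 : D.Adj (w' m) (u 0) := (OLwa h.ol' (by omega) (by omega)).mpr (by omega)
  have hu1 : D.Adj (w' m) (u 1) := (OLwa h.ol' (by omega) (by omega)).mpr (by omega)
  have hnl : w' m ∉ Lg D L := fun hl =>
    hno 0 (by omega) 1 (by omega) (by omega) _ hl _ (h.ku 0 (by omega)).2.1 _
      (h.ku 1 (by omega)).2.1 hu0 hu1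
  have hcase : w' m ∈ XX D L ∪ WW D L := by
    by_contra h1
    exact hnl h1
  rcases hcase with hw | ⟨t, ht⟩
  · exfalso
    obtain ⟨t, -, -, ht⟩ := hxt (m + L.k + 1) (by omega) (by omega)
    exact hX V D m₀ L i n u v x' w' Ks h m (m + L.k + 1) hm le_rfl (by omega) hw ⟨t, ht⟩
  · refine ⟨t, ?_, ?_, ht⟩
    · by_contra h1
      have huv : D.Adj (u 0) (v 0) := (OLab h.ol' (by omega) (by omega)).mpr rfl
      exact hO V D m₀ L C (u 0) (v 0) (L.x i) (w' m) i t (hlu 0 (by omega)) (hlv 0 (by omega))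
        huv hxi ht (h.vx 0 (by omega)) hu0.symm (by omega) (Or.inl hMi)
    · by_contra h1
      have h2 := (hF V D m₀ L C).2 (u (m + 1)) (w' m) (L.w (i + 3)) t (i + 3)
        (hlu (m + 1) (by omega)) ht hwi3 (by omega) (by have := hMi3.2; omega)
        (h.uw (m + 1) (by omega))
      have h3 := (OLwa h.ol' (i := m) (j := m + 1) (by omega) (by omega)).mp h2.symm
      omega

end Pool.Agent.MPd439b2.OP
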