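import Pool.Agent.Lib.MP_d439b2_co.OP.SpecB

/-!
# MP_d439b2_co, OP: one model in a block (helper18)
-/

set_option autoImplicit false

namespace Pool.Agent.MPd439b2.OP

open Pool.Agent.MPd439b2 Pool.Agent.MPd439b2.W Pool.Agent.MPd439b2.SA

theorem pInsX : S_InsX := by
  intro V D m₀ L i n u v x' w' Ks hNB q p hq hqp hpn hwq hxp
  obtain ⟨t1, ht1⟩ := hwq
  obtain ⟨t2, ht2⟩ := hxp
  have hC := hNB.ctx
  have hk := hC.hk
  have ho := hNB.ol'
  have hN : L.N - 1 < L.N := by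
    have := ht1.le
    omega
  have hβL : L.b (L.N - 1) ∈ Lg D L := Lg_b hk hC.ol hN
  have hβu : ∀ s < n, ¬ D.Adj (L.b (L.N - 1)) (u s) := by
    intro s hs h
    have h1 := hNB.ku s hs
    exact h1.1.2.2 _ hβL ⟨(hNB.na s hs _ hN).2, u s, h1.2.1, h.symm⟩
  have hβv : ∀ s < n, ¬ D.Adj (L.b (L.N - 1)) (v s) := by
    intro s hs h
    have h1 := hNB.ku s hs
    exact h1.1.2.2 _ hβL ⟨(hNB.na s hs _ hN).2, v s, h1.2.2, h.symm⟩
  have uv : ∀ s < n, ∀ t < n, s ≠ t → ¬ D.Adj (u s) (v t) := fun s hs t ht hst h =>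
    hst ((OLab ho hs ht).1 h)
  have vu : ∀ s < n, ∀ t < n, s ≠ t → ¬ D.Adj (v s) (u t) := fun s hs t ht hst h =>
    hst ((OLba ho hs ht).1 h)
  have xv : ∀ s < n, s < p → ¬ D.Adj (x' p) (v s) := fun s hs hsp h => by
    have := (OLxb ho hpn hs).1 h
    omega
  refine eng1 hC.tri hC.ns (w' q) (u 0) (v 0) (u 1) (v 1) (L.b (L.N - 1)) (x' p) (v p)
    (fun t => u (q + 1 + t)) (fun t => v (q + 1 + t))
    ((OLwa ho (by omega) (by omega)).2 (by omega)) ((OLab ho (by omega) (by omega)).2 rfl)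
    ((OLwa ho (by omega) (by omega)).2 (by omega)) ((OLab ho (by omega) (by omega)).2 rfl)
    ht1.last ht2.last.symm ((OLxb ho hpn hpn).2 le_rfl)
    (OLwb ho (by omega) hpn) (uv 0 (by omega) 1 (by omega) (by omega))
    (fun h => OLxa ho hpn (by omega) h.symm) (uv 0 (by omega) p hpn (by omega))
    (uv 1 (by omega) 0 (by omega) (by omega)) (fun h => OLxa ho hpn (by omega) h.symm)
    (uv 1 (by omega) p hpn (by omega)) (hβv 0 (by omega)) (hβv 1 (by omega))
    (OLbb ho (by omega) (by omega)) (fun h => xv 0 (by omega) (by omega) h.symm)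
    (OLbb ho (by omega) hpn) (fun h => xv 1 (by omega) (by omega) h.symm)
    (OLbb ho (by omega) hpn)
    (ho.lad.im.comp (fun t => q + 1 + t) (fun t ht => by omega) (fun s hs t ht h => by
      have : q + 1 + s = q + 1 + t := h
      omega)) ?_
  intro t ht y hy
  have hm1 : q < q + 1 + t := by omega
  have hm2 : q + 1 + t < p := by omega
  have hm3 : q + 1 + t < n := by omega
  show ¬ D.Adj y (u (q + 1 + t)) ∧ ¬ D.Adj y (v (q + 1 + t))
  simp only [List.mem_cons, List.not_mem_nil, or_false] at hy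
  rcases hy with rfl | rfl | rfl | rfl | rfl | rfl | rfl | rfl
  · exact ⟨fun h => by
      have := (OLwa ho (by omega) hm3).1 h
      omega, OLwb ho (by omega) hm3⟩
  · exact ⟨OLaa ho (by omega) hm3, uv 0 (by omega) _ hm3 (by omega)⟩
  · exact ⟨vu 0 (by omega) _ hm3 (by omega), OLbb ho (by omega) hm3⟩
  · exact ⟨OLaa ho (by omega) hm3, uv 1 (by omega) _ hm3 (by omega)⟩
  · exact ⟨vu 1 (by omega) _ hm3 (by omega), OLbb ho (by omega) hm3⟩
  · exact ⟨hβu _ hm3, hβv _ hm3⟩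
  · exact ⟨OLxa ho hpn hm3, xv _ hm3 hm2⟩
  · exact ⟨vu p hpn _ hm3 (by omega), OLbb ho hpn hm3⟩

end Pool.Agent.MPd439b2.OP
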