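import Pool.Agent.Lib.MP_d439b2_co.OP.SpecA

/-!
# MP_d439b2_co, OP: two middle vertices of type X see the same in a component (helper12)
-/

set_option autoImplicit false

namespace Pool.Agent.MPd439b2.OP

open Pool.Agent.MPd439b2 Pool.Agent.MPd439b2.W Pool.Agent.MPd439b2.SA

theorem pKB : S_KE → S_FR1 → S_Cmp → S_KB := by
  intro hKE hFR hCmp V D m₀ L hC
  have key : ∀ L : LD V, Ctx D m₀ L → ∀ (K : Set V) (z z' : V) (i i' : ℕ), IsComp D (Lg D L) K →
      TX D L i z → Md L i → TX D L i' z' → Md L i' → (∃ v ∈ K, D.Adj z v) →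
      (∃ v ∈ K, D.Adj z' v) → ∀ u ∈ K, (D.Adj z u ↔ D.Adj z' u) := by
    intro L hC K z z' i i' hK hz hM hz' hM' hv hv' u₀ hu₀
    have hclo := (hCmp V D (Lg D L)).2.2.2.2 K hK
    by_cases hed : ∃ u ∈ K, ∃ u' ∈ K, D.Adj u u'
    · have k1 := (hKE V D m₀ L hC).1 K z i hK hz hM hv
      have k2 := (hKE V D m₀ L hC).1 K z' i' hK hz' hM' hv'
      by_cases hex : ∃ v ∈ K, v ∈ {u | D.Adj z u ↔ D.Adj z' u}
      · refine hclo _ hex ?_ hu₀
        intro u hu u' hu' huu h
        have h1 := k1 u hu u' hu' huu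
        have h2 := k2 u hu u' hu' huu
        have h3 : D.Adj z u ↔ D.Adj z' u := h
        show D.Adj z u' ↔ D.Adj z' u'
        tauto
      · exfalso
        have hno : ∀ u ∈ K, ¬ (D.Adj z u ↔ D.Adj z' u) := fun u hu h => hex ⟨u, hu, h⟩
        obtain ⟨hM1, hM2⟩ := hM
        obtain ⟨hM1', hM2'⟩ := hM'
        obtain ⟨j, hj⟩ : ∃ j, j = min i i' - 5 := ⟨_, rfl⟩
        have hj1 : j + 5 ≤ i := by omega
        have hj2 : j + 5 ≤ i' := by omega
        have hxj : TX D L j (L.x j) := TX_x hC.ol (by omega) (by omega)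
        have pull : ∀ u ∈ K, D.Adj z u ∨ D.Adj z' u → D.Adj u (L.x j) := by
          intro u hu h
          rcases h with h | h
          · exact (hFR V D m₀ L hC).1 u (L.x j) z j i (hK.1 hu) hxj hz hj1 (by omega) h.symm
          · exact (hFR V D m₀ L hC).1 u (L.x j) z' j i' (hK.1 hu) hxj hz' hj2 (by omega) h.symm
        have hall : ∀ u ∈ K, D.Adj u (L.x j) := by
          intro u hu
          apply pull u hu
          by_contra h
          rw [not_or] at h
          exact hno u hu ⟨fun h1 => absurd h1 h.1, fun h1 => absurd h1 h.2⟩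
        obtain ⟨u, hu, u', hu', huu⟩ := hed
        exact hC.tri (L.x j) u u' (hall u hu).symm (hall u' hu').symm huu
    · obtain ⟨v, hv, hzv⟩ := hv
      obtain ⟨v', hv', hzv'⟩ := hv'
      have h1 : K ⊆ {v} := by
        refine hclo _ ⟨v, hv, rfl⟩ ?_
        intro u hu u' hu' huu _
        exact absurd ⟨u, hu, u', hu', huu⟩ hed
      have h2 : v' = v := h1 hv'
      have h3 : u₀ = v := h1 hu₀
      rw [h3]
      exact ⟨fun _ => h2 ▸ hzv', fun _ => hzv⟩
  refine ⟨fun K z z' i i' hK hz hM hz' hM' hv hv' => key L hC K z z' i i' hK hz hM hz' hM' hv hv',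
    fun K z z' i i' hK hz hM hz' hM' hv hv' => ?_⟩
  refine key L.rev hC.rev K z z' (L.N - 1 - i) (L.N - 1 - i') (by rw [Lg_rev]; exact hK) hz.2 ?_
    hz'.2 ?_ hv hv'
  · obtain ⟨h1, h2⟩ := hM
    unfold Md
    rw [rev_k, rev_N]
    omega
  · obtain ⟨h1, h2⟩ := hM'
    unfold Md
    rw [rev_k, rev_N]
    omega

end Pool.Agent.MPd439b2.OP
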