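import Pool.Agent.Lib.MP_d439b2_co.OP.SpecA

/-!
# MP_d439b2_co, OP: doubly seen components (helper18)
-/

set_option autoImplicit false

namespace Pool.Agent.MPd439b2.OP

open Pool.Agent.MPd439b2 Pool.Agent.MPd439b2.W Pool.Agent.MPd439b2.SA

theorem pKD : S_KE → S_NoW → S_Cmp → S_KD := by
  intro h1 h2 h3 V D m₀ L hL K z z' i i' hK hz hi hz' hi' hs hs' u hu
  obtain ⟨u', hu', huu⟩ := (h3 V D (Lg D L)).2.2.2.1 K hK.1 hK.2 u hu
  have e1 := (h1 V D m₀ L hL).1 K z i hK.1 hz hi hs u hu u' hu' huu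
  have e2 := (h1 V D m₀ L hL).2 K z' i' hK.1 hz' hi' hs' u hu u' hu' huu
  have hw : ∀ v ∈ K, D.Adj z v → ¬ D.Adj z' v := by
    intro v hv hzv hzv'
    have hvL : v ∈ Lg D L := hK.1.1 hv
    exact (h2 V D m₀ L hL).1 v z z' i i' hvL hz hi hzv.symm hz' hzv'.symm
  constructor
  · exact hw u hu
  · intro h
    by_contra hzu
    have h4 : D.Adj z u' := by
      by_contra h5
      exact hzu (e1.2 h5)
    exact h (e2.2 (hw u' hu' h4))

end Pool.Agent.MPd439b2.OP
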