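import Pool.Agent.Lib.MP_d439b2_co.OP.SpecA

/-!
# MP_d439b2_co, OP: a middle vertex of type X sees exactly one end of each edge of a component (helper12)
-/

set_option autoImplicit false

namespace Pool.Agent.MPd439b2.OP

open Pool.Agent.MPd439b2 Pool.Agent.MPd439b2.W Pool.Agent.MPd439b2.SA

theorem pKE : S_Pur → S_Cmp → S_KE := by
  intro hPur hCmp V D m₀ L hC
  have key : ∀ L : LD V, Ctx D m₀ L → ∀ (K : Set V) (z : V) (i : ℕ), IsComp D (Lg D L) K →
      TX D L i z → Md L i → (∃ v ∈ K, D.Adj z v) →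
      ∀ u ∈ K, ∀ u' ∈ K, D.Adj u u' → (D.Adj z u ↔ ¬ D.Adj z u') := by
    intro L hC K z i hK hz hM hv u hu u' hu' huu
    obtain ⟨hM1, hM2⟩ := hM
    have star : ∀ u ∈ K, ∀ y ∈ K, ∀ y' ∈ K, D.Adj u y → D.Adj u y' → D.Adj z y → D.Adj z y' := by
      intro u hu y hy y' hy' h1 h2 h3
      exact (hPur V D m₀ L hC).1 z u y y' i hz (by omega) (by omega) (hK.1 hu) (hK.1 hy)
        (hK.1 hy') h1 h2 h3
    have hE : K ⊆ {u | D.Adj z u ∨ ∃ s ∈ K, D.Adj u s ∧ D.Adj z s} := by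
      obtain ⟨v, hv, hzv⟩ := hv
      refine (hCmp V D (Lg D L)).2.2.2.2 K hK _ ⟨v, hv, Or.inl hzv⟩ ?_
      rintro u hu u' hu' huu (h | ⟨s, hs, hus, hzs⟩)
      · exact Or.inr ⟨u, hu, huu.symm, h⟩
      · exact Or.inl (star u hu s hs u' hu' hus huu hzs)
    constructor
    · intro h h'
      exact hC.tri z u u' h h' huu
    · intro h
      rcases hE hu' with h1 | ⟨s, hs, hus, hzs⟩
      · exact absurd h1 h
      · exact star u' hu' s hs u hu hus huu.symm hzs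
  refine ⟨fun K z i hK hz hM hv => key L hC K z i hK hz hM hv, fun K z i hK hz hM hv => ?_⟩
  refine key L.rev hC.rev K z (L.N - 1 - i) (by rw [Lg_rev]; exact hK) hz.2 ?_ hv
  obtain ⟨h1, h2⟩ := hM
  unfold Md
  rw [rev_k, rev_N]
  omega

end Pool.Agent.MPd439b2.OP
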