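import Pool.Agent.Lib.MP_d439b2_co.OP.SpecA

/-!
# MP_d439b2_co, OP: light vertices touch at most one index in the middle (helper12)
-/

set_option autoImplicit false

namespace Pool.Agent.MPd439b2.OP

open Pool.Agent.MPd439b2 Pool.Agent.MPd439b2.W Pool.Agent.MPd439b2.SA

theorem pLtt : S_Tb → S_Mix → S_Ltt := by
  intro hTb hMix V D m₀ L hC v j j' hv hj1 hj2 hj1' hj2' ht ht'
  have key : ∀ L : LD V, Ctx D m₀ L → v ∈ Lg D L → ∀ j j' : ℕ, L.k + 3 ≤ j → j + L.k + 3 < L.N →
      L.k + 3 ≤ j' → j' + L.k + 3 < L.N → D.Adj v (L.b j) → D.Adj v (L.b j') → j = j' := by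
    intro L hC hv j j' hj1 hj2 hj1' hj2' hb hb'
    rcases hTb V D m₀ L hC v with ⟨i, hi1, hi2, hi⟩ | h
    · have h1 : ¬ i + L.k + 3 ≤ L.N := fun h2 => notX_of_Lg hv ⟨hi1, h2, hi⟩
      have h2 : i ≤ j := by
        rcases hi with h | h
        · exact (h j (by omega) (by omega)).mp hb
        · exact ((h j (by omega) (by omega)).mp hb).1
      omega
    · by_contra hne
      rcases Nat.lt_or_gt_of_ne hne with h3 | h3
      · have := h j j' (by omega) h3 (by omega) hb hb'
        omega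
      · have := h j' j (by omega) h3 (by omega) hb' hb
        omega
  have keya : ∀ j j' : ℕ, L.k + 3 ≤ j → j + L.k + 3 < L.N →
      L.k + 3 ≤ j' → j' + L.k + 3 < L.N → D.Adj v (L.a j) → D.Adj v (L.a j') → j = j' := by
    intro j j' hj1 hj2 hj1' hj2' ha ha'
    have h1 := key L.rev hC.rev (by rw [Lg_rev]; exact hv) (L.N - 1 - j) (L.N - 1 - j')
      (by rw [rev_k]; omega) (by rw [rev_k, rev_N]; omega) (by rw [rev_k]; omega)
      (by rw [rev_k, rev_N]; omega) (by rw [rev_b, Nat.sub_sub_self (by omega)]; exact ha)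
      (by rw [rev_b, Nat.sub_sub_self (by omega)]; exact ha')
    omega
  have mix : ∀ j l : ℕ, L.k + 3 ≤ j → j + L.k + 3 < L.N → L.k + 3 ≤ l → l + L.k + 3 < L.N →
      D.Adj v (L.a j) → D.Adj v (L.b l) → False := fun j l h1 h2 h3 h4 h5 h6 =>
    hMix V D m₀ L hC v j l (by omega) (by omega) (by omega) (by omega) h5 h6
  rcases ht with h | h <;> rcases ht' with h' | h'
  · exact keya j j' hj1 hj2 hj1' hj2' h h'
  · exact (mix j j' hj1 hj2 hj1' hj2' h h').elim
  · exact (mix j' j hj1' hj2' hj1 hj2 h' h).elim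
  · exact key L hC hv j j' hj1 hj2 hj1' hj2' h h'

end Pool.Agent.MPd439b2.OP
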