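import Pool.Agent.Lib.MP_d439b2_co.OP.SpecA

/-!
# MP_d439b2_co, OP: no mixed traces (Mix) (helper24)
-/

set_option autoImplicit false

namespace Pool.Agent.MPd439b2.OP

open Pool.Agent.MPd439b2 Pool.Agent.MPd439b2.W Pool.Agent.MPd439b2.SA

theorem pMix : S_Mix := by
  classical
  intro V D m₀ L hC v j l hj1 hj2 hl1 hl2 hvj hvl
  have ht := hC.tri
  have hL := hC.ol
  have hk := hC.hk
  set k := L.k with hkdef
  set N := L.N with hNdef
  have sy : ∀ {u v : V}, ¬ D.Adj u v → ¬ D.Adj v u := fun h h' => h h'.symm
  -- facts on `v`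
  have vna : ∀ i < N, v ≠ L.a i := fun i hi => ne_of hvj (OLaa hL hi (by omega))
  have vnb : ∀ i < N, v ≠ L.b i := fun i hi => ne_of hvl (OLbb hL hi hl2)
  have vnx : ∀ i < N, v ≠ L.x i := fun i hi => ne_of hvj (OLxa hL hi (by omega))
  have vnw : ∀ i < N, v ≠ L.w i := fun i hi => ne_of hvl (OLwb hL hi hl2)
  have vx : ∀ i ≤ k, ¬ D.Adj v (L.x i) := fun i hi h =>
    ht (L.b l) v (L.x i) hvl.symm ((OLxb hL (by omega) hl2).mpr (by omega)).symm h
  have vb : ∀ i < N, ∀ (_ : i = j), ¬ D.Adj v (L.b i) := fun i hi hij h => by
    subst hij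
    exact ht (L.a i) v (L.b i) hvj.symm ((OLab hL hi hi).mpr rfl) h
  have n1 : ∀ {u w : V}, u ≠ w → ¬ D.Adj u w → Nd D {u} {w} := fun h1 h2 => nd_sing.mpr ⟨h1, h2⟩
  -- single vertex against `{v, w j}`
  have nZ : ∀ {u : V}, u ≠ v → u ≠ L.w j → ¬ D.Adj u (L.w j) → Nd D {u} {v, L.w j} := by
    intro u h1 h2 h3
    refine nd_of ?_ (Finset.mem_singleton_self u) (by simp) h3
    rw [Finset.disjoint_singleton_left]
    simp [h1, h2]
  have nZ' : ∀ {u : V}, u ≠ v → u ≠ L.w j → ¬ D.Adj u v → Nd D {u} {v, L.w j} := by
    intro u h1 h2 h3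
    refine nd_of ?_ (Finset.mem_singleton_self u) (by simp) h3
    rw [Finset.disjoint_singleton_left]
    simp [h1, h2]
  -- single vertex against `{a q, x q}`
  have nP : ∀ {u : V} {q : ℕ}, u ≠ L.a q → u ≠ L.x q → ¬ D.Adj u (L.a q) →
      Nd D {u} {L.a q, L.x q} := by
    intro u q h1 h2 h3
    refine nd_of ?_ (Finset.mem_singleton_self u) (by simp) h3
    rw [Finset.disjoint_singleton_left]
    simp [h1, h2]
  have hkN : k < N := by omega
  refine eng ht hC.ns {L.x k} {L.b (j + 1)} {L.a (j + 1)} {L.b (j + 2)} {L.a (j + 2)} {L.b j}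
    {L.a j} {v, L.w j} (fun q => {L.a q, L.x q}) (fun q => {L.b q})
    (by simp) (by simp) (by simp) (by simp) (by simp) (by simp) (by simp) (by simp)
    (fun _ _ => by simp) (fun _ _ => by simp)
    (cmp_sing.mpr ((OLxb hL hkN (by omega)).mpr (by omega)))
    (cmp_sing.mpr ((OLba hL (by omega) (by omega)).mpr rfl))
    (cmp_sing.mpr ((OLxb hL hkN (by omega)).mpr (by omega)))
    (cmp_sing.mpr ((OLba hL (by omega) (by omega)).mpr rfl))
    (cmp_sing.mpr ((OLxb hL hkN (by omega)).mpr (by omega)))
    (cmp_sing.mpr ((OLba hL (by omega) (by omega)).mpr rfl))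
    ?_
    (Finset.disjoint_singleton.mpr (OLnxa hL (by omega) (by omega)))
    (Finset.disjoint_singleton.mpr (OLnxa hL (by omega) (by omega)))
    (Finset.disjoint_singleton.mpr (OLnxa hL (by omega) (by omega)))
    (Finset.disjoint_singleton.mpr (OLnbb hL (by omega) (by omega) (by omega)))
    (Finset.disjoint_singleton.mpr (OLnbb hL (by omega) (by omega) (by omega)))
    (Finset.disjoint_singleton.mpr (OLnbb hL (by omega) (by omega) (by omega)))
    ?_
    (nZ' (vnx _ (by omega)).symm (OLnxw hL (by omega) (by omega)) (sy (vx k le_rfl)))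
    (n1 (OLnab hL (by omega) (by omega)).symm (fun h => by
      have := (OLba hL (by omega) (by omega)).mp h
      omega))
    (n1 (OLnab hL (by omega) (by omega)).symm (fun h => by
      have := (OLba hL (by omega) (by omega)).mp h
      omega))
    (nZ (vnb _ (by omega)).symm (OLnwb hL (by omega) (by omega) (by omega)).symm
      (sy (OLwb hL (by omega) (by omega))))
    (n1 (OLnab hL (by omega) (by omega)).symm (fun h => by
      have := (OLba hL (by omega) (by omega)).mp h
      omega))
    (n1 (OLnab hL (by omega) (by omega)).symm (fun h => by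
      have := (OLba hL (by omega) (by omega)).mp h
      omega))
    (nZ (vnb _ (by omega)).symm (OLnwb hL (by omega) (by omega) (by omega)).symm
      (sy (OLwb hL (by omega) (by omega))))
    (n1 (OLnab hL (by omega) (by omega)).symm (fun h => by
      have := (OLba hL (by omega) (by omega)).mp h
      omega))
    (n1 (OLnab hL (by omega) (by omega)).symm (fun h => by
      have := (OLba hL (by omega) (by omega)).mp h
      omega))
    (n1 (OLnaa hL (by omega) (by omega) (by omega)) (OLaa hL (by omega) (by omega)))
    (n1 (OLnaa hL (by omega) (by omega) (by omega)) (OLaa hL (by omega) (by omega)))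
    (nZ (vna _ (by omega)).symm (OLnwa hL (by omega) (by omega)).symm (fun h => by
      have := (OLwa hL (by omega) (by omega)).mp h.symm
      omega))
    (n1 (OLnaa hL (by omega) (by omega) (by omega)) (OLaa hL (by omega) (by omega)))
    (nZ (vna _ (by omega)).symm (OLnwa hL (by omega) (by omega)).symm (fun h => by
      have := (OLwa hL (by omega) (by omega)).mp h.symm
      omega))
    ?_ ?_ ?_ ?_ ?_ ?_ ?_ ?_ ?_ ?_ ?_ ?_
  · -- `a j` complete to `{v, w j}`
    intro u hu z hz
    rw [Finset.mem_singleton] at hu
    subst hu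
    rw [Finset.mem_insert, Finset.mem_singleton] at hz
    rcases hz with rfl | rfl
    · exact hvj.symm
    · exact ((OLwa hL (by omega) (by omega)).mpr le_rfl).symm
  · -- `b j`, `{v, w j}` disjoint
    rw [Finset.disjoint_singleton_left]
    simp [(vnb j (by omega)).symm, (OLnwb hL (i := j) (j := j) (by omega) (by omega) (by omega)).symm]
  · -- the separate edges
    intro q hq u hu z hz
    rw [Finset.mem_insert, Finset.mem_singleton] at hu
    rw [Finset.mem_singleton] at hz
    subst hz
    rcases hu with rfl | rfl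
    · exact (OLab hL (by omega) (by omega)).mpr rfl
    · exact (OLxb hL (by omega) (by omega)).mpr le_rfl
  · intro q hq q' hq' hne
    refine nd_of ?_ (u := L.a q) (v := L.a q') (by simp) (by simp) (OLaa hL (by omega) (by omega))
    rw [Finset.disjoint_left]
    intro z hz hz'
    rw [Finset.mem_insert, Finset.mem_singleton] at hz hz'
    rcases hz with rfl | rfl <;> rcases hz' with h | h
    · exact OLnaa hL (by omega) (by omega) hne h
    · exact OLnxa hL (by omega) (by omega) h.symm
    · exact OLnxa hL (by omega) (by omega) h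
    · exact OLnxx hL (by omega) (by omega) hne h
  · intro q hq q' hq' hne
    refine (nP (OLnab hL (by omega) (by omega)).symm (OLnxb hL (by omega) (by omega)).symm
      (fun h => ?_)).symm
    have := (OLba hL (by omega) (by omega)).mp h
    omega
  · intro q hq q' hq' hne
    exact n1 (OLnbb hL (by omega) (by omega) hne) (OLbb hL (by omega) (by omega))
  · intro q hq
    refine ⟨nP (OLnxa hL (by omega) (by omega)) (OLnxx hL (by omega) (by omega) (by omega))
      (OLxa hL (by omega) (by omega)), n1 (OLnxb hL (by omega) (by omega)) (fun h => ?_)⟩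
    have := (OLxb hL (by omega) (by omega)).mp h
    omega
  · intro q hq
    refine ⟨nP (OLnab hL (by omega) (by omega)).symm (OLnxb hL (by omega) (by omega)).symm
      (fun h => ?_), n1 (OLnbb hL (by omega) (by omega) (by omega)) (OLbb hL (by omega) (by omega))⟩
    have := (OLba hL (by omega) (by omega)).mp h
    omega
  · intro q hq
    refine ⟨nP (OLnaa hL (by omega) (by omega) (by omega)) (OLnxa hL (by omega) (by omega)).symm
      (OLaa hL (by omega) (by omega)), n1 (OLnab hL (by omega) (by omega)) (fun h => ?_)⟩
    have := (OLab hL (by omega) (by omega)).mp h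
    omega
  · intro q hq
    refine ⟨nP (OLnab hL (by omega) (by omega)).symm (OLnxb hL (by omega) (by omega)).symm
      (fun h => ?_), n1 (OLnbb hL (by omega) (by omega) (by omega)) (OLbb hL (by omega) (by omega))⟩
    have := (OLba hL (by omega) (by omega)).mp h
    omega
  · intro q hq
    refine ⟨nP (OLnaa hL (by omega) (by omega) (by omega)) (OLnxa hL (by omega) (by omega)).symm
      (OLaa hL (by omega) (by omega)), n1 (OLnab hL (by omega) (by omega)) (fun h => ?_)⟩
    have := (OLab hL (by omega) (by omega)).mp h
    omega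
  · intro q hq
    refine ⟨nP (OLnab hL (by omega) (by omega)).symm (OLnxb hL (by omega) (by omega)).symm
      (fun h => ?_), n1 (OLnbb hL (by omega) (by omega) (by omega)) (OLbb hL (by omega) (by omega))⟩
    have := (OLba hL (by omega) (by omega)).mp h
    omega
  · intro q hq
    refine ⟨nP (OLnaa hL (by omega) (by omega) (by omega)) (OLnxa hL (by omega) (by omega)).symm
      (OLaa hL (by omega) (by omega)), n1 (OLnab hL (by omega) (by omega)) (fun h => ?_)⟩
    have := (OLab hL (by omega) (by omega)).mp h
    omega
  · intro q hq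
    constructor
    · -- `{v, w j}` and `{a q, x q}`: `v ≁ x q`
      refine nd_of ?_ (u := v) (v := L.x q) (by simp) (by simp) (vx q (by omega))
      rw [Finset.disjoint_left]
      intro z hz hz'
      rw [Finset.mem_insert, Finset.mem_singleton] at hz hz'
      rcases hz with rfl | rfl <;> rcases hz' with h | h
      · exact vna q (by omega) h
      · exact vnx q (by omega) h
      · exact OLnwa hL (by omega) (by omega) h
      · exact OLnxw hL (by omega) (by omega) h.symm
    · exact (nZ (vnb q (by omega)).symm (OLnwb hL (by omega) (by omega) (by omega)).symm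
        (sy (OLwb hL (by omega) (by omega)))).symm

end Pool.Agent.MPd439b2.OP
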