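import Pool.Agent.Lib.MP_d439b2_co.OP.SpecF

/-!
# MP_d439b2_co, OP: assembly of the opposite case (helper99)
-/

set_option autoImplicit false

namespace Pool.Agent.MPd439b2.OP

open Pool.Agent.MPd439b2 Pool.Agent.MPd439b2.W Pool.Agent.MPd439b2.SA Pool.Agent.MPd439b2.Rep

theorem link_mono {V : Type} {D : SimpleGraph V} {β : ℕ → ℕ} {c c' : ℕ} (h : Link β c D)
    (hc : c' ≤ c) : Link β c' D := fun d hd X hX => h d (hd.trans hc) X hX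

/-- the size of an opposite ladder is at most the number of the vertices -/
theorem ol_le {V : Type} [Finite V] {D : SimpleGraph V} {n : ℕ} {a b x w : ℕ → V}
    (h : OL D n a b x w) : n ≤ Nat.card V := by
  classical
  have hinj : Set.InjOn a (Set.Iio n) := by
    intro i hi j hj hij
    by_contra hne
    exact OLnaa h hi hj hne hij
  have h1 : (a '' Set.Iio n).ncard = n := by
    rw [Set.ncard_image_of_injOn hinj, Set.ncard_eq_toFinset_card']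
    simp
  have h2 := Set.ncard_le_ncard (Set.subset_univ (a '' Set.Iio n)) (Set.toFinite _)
  rw [h1, Set.ncard_univ] at h2
  exact h2

/-- an opposite ladder of maximal size -/
theorem exMax {V : Type} [Finite V] {D : SimpleGraph V} {N₀ : ℕ}
    (h : ∃ a b x w : ℕ → V, OL D N₀ a b x w) :
    ∃ N, N₀ ≤ N ∧ (∃ a b x w : ℕ → V, OL D N a b x w) ∧ NoOLn D (N + 1) := by
  classical
  let P : ℕ → Prop := fun n => ∃ a b x w : ℕ → V, OL D n a b x w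
  have hle : ∀ n, P n → n ≤ Nat.card V := by
    rintro n ⟨a, b, x, w, h1⟩
    exact ol_le h1
  refine ⟨Nat.findGreatest P (Nat.card V), Nat.le_findGreatest (hle _ h) h, ?_, ?_⟩
  · exact Nat.findGreatest_spec (P := P) (hle _ h) h
  · intro a b x w h1
    have h2 : P (Nat.findGreatest P (Nat.card V) + 1) := ⟨a, b, x, w, h1⟩
    have h3 := Nat.le_findGreatest (hle _ h2) h2
    omega

theorem pOpp (hFar : S_Far) (hWin : S_Win) (hBlk : S_Blk) (hZs : S_Zs) (hP : S_ExtP)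
    (hQ' : S_ExtQ) (hR' : S_ExtR) (hCnt : S_Cnt) (hExt : S_Ext) (hSz : S_Sz) : S_Opp := by
  intro Q k m₀ r β hk hNO
  obtain ⟨R, ρ, hR, hF⟩ := hFar k m₀ hk
  obtain ⟨ℓ, N₁, hN₁, hW⟩ := hWin k r R hk hR
  obtain ⟨c₁, n₁, h1⟩ := hNO (4 * k + 32)
  obtain ⟨C, hC⟩ : ∃ C, C = n₁ + 7 * k + 50 := ⟨_, rfl⟩
  obtain ⟨e, he⟩ : ∃ e, e = 4 * ℓ * C + 2 * (k + 3) := ⟨_, rfl⟩
  obtain ⟨c, hc⟩ : ∃ c, c = 2 * r + 10 * ρ + 2 * e + 6 := ⟨_, rfl⟩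
  obtain ⟨B, hB⟩ : ∃ B, B = β c := ⟨_, rfl⟩
  obtain ⟨la, hla⟩ : ∃ la, la = tt k + k + B + 2 := ⟨_, rfl⟩
  obtain ⟨lb, hlb⟩ : ∃ lb, lb = la + N₁ + R + B + 2 := ⟨_, rfl⟩
  obtain ⟨N₀, hN₀⟩ : ∃ N₀, N₀ = lb + N₁ + tt k + 2 := ⟨_, rfl⟩
  obtain ⟨c₂, n₂, h2⟩ := hNO N₀
  refine ⟨max c₁ (max c₂ c), n₂, fun V _ D hQ ht hns hcm hL hbc a b hIM => ?_⟩
  have hL1 : Link β c₁ D := link_mono hL (le_max_left _ _)
  have hL2 : Link β c₂ D := link_mono hL ((le_max_left _ _).trans (le_max_right _ _))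
  have hc0 : c ≤ max c₁ (max c₂ c) := (le_max_right _ _).trans (le_max_right _ _)
  obtain ⟨σ, x, w, -, -, hOL⟩ := h2 V D hQ ht hns hcm hL2 a b hIM
  obtain ⟨N, hN, ⟨a', b', x', w', hOL'⟩, hmax⟩ := exMax ⟨_, _, _, _, hOL⟩
  let L : LD V := ⟨k, N, a', b', x', w'⟩
  have hLk : L.k = k := rfl
  have hLN : L.N = N := rfl
  have hctx : Ctx D m₀ L := ⟨hk, ht, hns, hcm, hOL'⟩
  have hblk := hBlk V D m₀ L n₁ hctx hmax (h1 V D hQ ht hns hcm hL1)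
  have hBC : ∀ l h : ℕ, tt k ≤ l → h + tt k < N → BC D r (D3 D L l h) := fun l h hl hh =>
    hbc _ (hZs V D m₀ L hctx l h hl hh)
  obtain ⟨l₁, h₁, S₁, hl₁, hh₁, hs₁, hw₁⟩ := hW V D m₀ L hctx hLk la (by omega)
    (by rw [hLN]; omega) (hBC _ _ (by omega) (by omega))
  obtain ⟨l₂, h₂, S₂, hl₂, hh₂, hs₂, hw₂⟩ := hW V D m₀ L hctx hLk lb (by omega)
    (by rw [hLN]; omega) (hBC _ _ (by omega) (by omega))
  have hex : EX D m₀ L r R ℓ l₁ h₁ l₂ h₂ S₁ S₂ := ⟨hctx, hR, hw₁, hw₂, hs₁, hs₂, by omega⟩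
  have hfar : FarP D L R ρ := hF V D L hctx hLk
  have hcnt := hCnt V D m₀ L r R ℓ l₁ h₁ l₂ h₂ (n₁ + 7 * L.k + 50) S₁ S₂ hex hblk.1 hblk.2
  have hcr := hExt V D m₀ L r R ρ ℓ l₁ h₁ l₂ h₂ (4 * ℓ * (n₁ + 7 * L.k + 50) + 2 * (L.k + 3)) S₁
    S₂ hex (hP V D m₀ L r R ρ ℓ l₁ h₁ l₂ h₂ S₁ S₂ hex hfar)
    (hQ' V D m₀ L r R ℓ l₁ h₁ l₂ h₂ S₁ S₂ hex)
    (hR' V D m₀ L r R ℓ l₁ h₁ l₂ h₂ _ S₁ S₂ hex hcnt)
  obtain ⟨hz1, hz2⟩ := hSz V D m₀ L r R ℓ l₁ h₁ l₂ h₂ S₁ S₂ hex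
  rw [hLk] at hcr hz2
  have hcc : 2 * r + 10 * ρ + 2 * (4 * ℓ * (n₁ + 7 * k + 50) + 2 * (k + 3)) + 6 = c := by
    rw [hc, he, hC]
  rw [hcc] at hcr
  exact link_false hL hc0 hcr (by omega) (by omega)

end Pool.Agent.MPd439b2.OP
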