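import Pool.Agent.Lib.MP_d439b2_co.OP.SpecA

/-!
# MP_d439b2_co, OP, Ovl: overlap
-/

set_option autoImplicit false

namespace Pool.Agent.MPd439b2.OP

open Pool.Agent.MPd439b2 Pool.Agent.MPd439b2.W Pool.Agent.MPd439b2.SA

namespace POvl

variable {V : Type}

/-- `k` different elements of a finite set -/
theorem pick (A : Finset ℕ) (k : ℕ) (h : k ≤ A.card) : ∃ m : ℕ → ℕ, (∀ t < k, m t ∈ A) ∧
    ∀ t < k, ∀ u < k, m t = m u → t = u := by
  obtain ⟨B, hB, hc⟩ := Finset.exists_subset_card_eq h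
  refine ⟨fun t => if ht : t < k then B.orderEmbOfFin hc ⟨t, ht⟩ else 0, fun t ht => ?_,
    fun t ht u hu htu => ?_⟩
  · dsimp only
    rw [dif_pos ht]
    exact hB (B.orderEmbOfFin_mem hc _)
  · dsimp only at htu
    rw [dif_pos ht, dif_pos hu] at htu
    have h1 := (B.orderEmbOfFin hc).injective htu
    exact congrArg Fin.val h1

/-- the index touched by a light vertex -/
theorem exS (hLtt : S_Ltt) {D : SimpleGraph V} {m₀ : ℕ} {L : LD V} (hC : Ctx D m₀ L) {v : V}
    (hv : v ∈ Lg D L) : ∃ s, ∀ m, L.k + 3 ≤ m → m + L.k + 3 < L.N → m ≠ s →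
      ¬ D.Adj v (L.a m) ∧ ¬ D.Adj v (L.b m) := by
  have key : ∃ s, ∀ m, L.k + 3 ≤ m → m + L.k + 3 < L.N → tc D L v m → m = s := by
    by_cases h : ∃ s, L.k + 3 ≤ s ∧ s + L.k + 3 < L.N ∧ tc D L v s
    · obtain ⟨s, h1, h2, h3⟩ := h
      exact ⟨s, fun m hm1 hm2 hm3 => hLtt V D m₀ L hC v m s hv hm1 hm2 h1 h2 hm3 h3⟩
    · exact ⟨0, fun m hm1 hm2 hm3 => absurd ⟨m, hm1, hm2, hm3⟩ h⟩
  obtain ⟨s, hs⟩ := key
  exact ⟨s, fun m h1 h2 h3 => ⟨fun h => h3 (hs m h1 h2 (Or.inl h)),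
    fun h => h3 (hs m h1 h2 (Or.inr h))⟩⟩

theorem first (hTXa : S_TXa) (hLtt : S_Ltt) (hGap : S_Gap) {D : SimpleGraph V} {m₀ : ℕ} {L : LD V}
    (hC : Ctx D m₀ L) {u v z z' : V} {p q : ℕ} (hu : u ∈ Lg D L) (hv : v ∈ Lg D L)
    (huv : D.Adj u v) (hz : TX D L p z) (hz' : TW D L q z') (hvz : D.Adj v z) (huz' : D.Adj u z')
    (hqp : q + L.k + 5 ≤ p) (hp : Md L p) : False := by
  classical
  obtain ⟨hp1, hp2⟩ := hp
  have hk := hC.hk
  have hol := hC.ol
  have hq0 := hz'.ge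
  obtain ⟨su, hsu⟩ := exS hLtt hC hu
  obtain ⟨sv, hsv⟩ := exS hLtt hC hv
  -- the legs
  obtain ⟨mr, hmr, hmri⟩ := pick (Finset.Icc (p + 2) (p + 6) \ {su, sv}) 2 (by
    have h1 := Finset.le_card_sdiff ({su, sv} : Finset ℕ) (Finset.Icc (p + 2) (p + 6))
    have h2 : (Finset.Icc (p + 2) (p + 6)).card = 5 := by
      rw [Nat.card_Icc]
      omega
    have h3 : ({su, sv} : Finset ℕ).card ≤ 2 := Finset.card_le_two
    omega)
  have hrr : mr 0 ≠ mr 1 := fun h => by
    have := hmri 0 (by omega) 1 (by omega) h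
    omega
  have hr0 := hmr 0 (by omega)
  have hr1 := hmr 1 (by omega)
  generalize mr 0 = r at hr0 hrr
  generalize mr 1 = r' at hr1 hrr
  simp only [Finset.mem_sdiff, Finset.mem_Icc, Finset.mem_insert, Finset.mem_singleton,
    not_or] at hr0 hr1
  obtain ⟨⟨hr1', hr2⟩, hr3, hr4⟩ := hr0
  obtain ⟨⟨hr'1, hr'2⟩, hr'3, hr'4⟩ := hr1
  -- the separate edges
  obtain ⟨m, hm, hmi⟩ := pick (Finset.Ioo q p \ {su, sv}) L.k (by
    have h1 := Finset.le_card_sdiff ({su, sv} : Finset ℕ) (Finset.Ioo q p)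
    have h2 : (Finset.Ioo q p).card = p - q - 1 := Nat.card_Ioo _ _
    have h3 : ({su, sv} : Finset ℕ).card ≤ 2 := Finset.card_le_two
    omega)
  have hm' : ∀ t < L.k, q < m t ∧ m t < p ∧ m t ≠ su ∧ m t ≠ sv := by
    intro t ht
    have h := hm t ht
    simp only [Finset.mem_sdiff, Finset.mem_Ioo, Finset.mem_insert, Finset.mem_singleton,
      not_or] at h
    exact ⟨h.1.1, h.1.2, h.2.1, h.2.2⟩
  have xa : ∀ m, m + 2 < L.N → ¬ D.Adj z (L.a m) := fun m hm => (hTXa V D m₀ L hC).1 z p m hz hm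
  have wb : ∀ m, 2 ≤ m → m < L.N → ¬ D.Adj z' (L.b m) := fun m h1 h2 =>
    (hTXa V D m₀ L hC).2 z' q m hz' h1 h2
  have sy : ∀ {a b : V}, ¬ D.Adj a b → ¬ D.Adj b a := fun h h' => h h'.symm
  have ur := hsu r (by omega) (by omega) hr3
  have ur' := hsu r' (by omega) (by omega) hr'3
  have vr := hsv r (by omega) (by omega) hr4
  have vr' := hsv r' (by omega) (by omega) hr'4
  refine eng1 hC.tri hC.ns z (L.b r) (L.a r) (L.b r') (L.a r') v u z'
    (fun t => L.a (m t)) (fun t => L.b (m t))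
    (hz.adj (by omega) (by omega) (by omega)) ((OLba hol (by omega) (by omega)).mpr rfl)
    (hz.adj (by omega) (by omega) (by omega)) ((OLba hol (by omega) (by omega)).mpr rfl)
    hvz.symm huv.symm huz'
    (hGap V D m₀ L hC z z' p q hz hz' (by omega) (Or.inl (by omega)))
    (fun h => hrr ((OLba hol (by omega) (by omega)).mp h))
    (sy ur.2) (sy (wb r (by omega) (by omega)))
    (fun h => hrr ((OLba hol (by omega) (by omega)).mp h).symm)
    (sy ur'.2) (sy (wb r' (by omega) (by omega)))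
    vr.1 vr'.1 (OLaa hol (by omega) (by omega))
    (sy ur.1) (sy (hz'.nadj (by omega) (by omega)))
    (sy ur'.1) (sy (hz'.nadj (by omega) (by omega))) ?_ ?_
  · intro t ht l hl
    obtain ⟨h1, h2, h3, h4⟩ := hm' t ht
    obtain ⟨h5, h6, h7, h8⟩ := hm' l hl
    refine ⟨?_, OLaa hol (by omega) (by omega), OLbb hol (by omega) (by omega)⟩
    show D.Adj (L.a (m t)) (L.b (m l)) ↔ t = l
    rw [OLab hol (by omega) (by omega)]
    exact ⟨hmi t ht l hl, fun h => by rw [h]⟩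
  · intro t ht y hy
    obtain ⟨h1, h2, h3, h4⟩ := hm' t ht
    simp only [List.mem_cons, List.not_mem_nil, or_false] at hy
    show ¬ D.Adj y (L.a (m t)) ∧ ¬ D.Adj y (L.b (m t))
    rcases hy with rfl | rfl | rfl | rfl | rfl | rfl | rfl | rfl
    · exact ⟨xa _ (by omega), hz.nadj (by omega) h2⟩
    · exact ⟨fun h => by have := (OLba hol (by omega) (by omega)).mp h; omega,
        OLbb hol (by omega) (by omega)⟩
    · exact ⟨OLaa hol (by omega) (by omega),
        fun h => by have := (OLab hol (by omega) (by omega)).mp h; omega⟩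
    · exact ⟨fun h => by have := (OLba hol (by omega) (by omega)).mp h; omega,
        OLbb hol (by omega) (by omega)⟩
    · exact ⟨OLaa hol (by omega) (by omega),
        fun h => by have := (OLab hol (by omega) (by omega)).mp h; omega⟩
    · exact hsv _ (by omega) (by omega) h4
    · exact hsu _ (by omega) (by omega) h3
    · exact ⟨hz'.nadj h1 (by omega), wb _ (by omega) (by omega)⟩

end POvl

theorem pOvl : S_TXa → S_Ltt → S_Gap → S_Ovl := by
  intro hTXa hLtt hGap V D m₀ L hC u v z z' p q hu hv huv hz hz' hvz huz' hqp hM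
  rcases hM with hM | hM
  · exact POvl.first hTXa hLtt hGap hC hu hv huv hz hz' hvz huz' hqp hM
  · have h1 := hz'.1
    have h2 := hz.le
    obtain ⟨h3, h4⟩ := hM
    refine POvl.first (L := L.rev) hTXa hLtt hGap hC.rev (u := v) (v := u) (z := z') (z' := z)
      (p := L.N - 1 - q) (q := L.N - 1 - p) (by rw [Lg_rev]; exact hv) (by rw [Lg_rev]; exact hu)
      huv.symm (show TX D L.rev (L.N - 1 - q) z' from hz'.2) ?_ huz' hvz ?_ ?_
    · rw [TW_rev (by omega), Nat.sub_sub_self (by omega)]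
      exact hz
    · rw [rev_k]
      omega
    · unfold Md
      rw [rev_k, rev_N]
      omega

end Pool.Agent.MPd439b2.OP
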