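import Pool.Agent.Lib.MP_d439b2_co.OP.SpecE

/-!
# MP_d439b2_co, OP: a place with two colours contains a differently coloured pair
-/

set_option autoImplicit false

namespace Pool.Agent.MPd439b2.OP

open Pool.Agent.MPd439b2 Pool.Agent.MPd439b2.W Pool.Agent.MPd439b2.SA

/-- **Pr.** A place with two colours contains a differently coloured pair. -/
theorem pPr : S_Pr := by
  intro V D m₀ L hC S p R s₀ t₀ hR hp hpR hs ht hsS htS
  have htt : tt L.k = 6 * L.k + 60 := rfl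
  have hx : TX D L p (L.x p) := TX_x hC.ol (by omega) (by omega)
  have hw : TW D L p (L.w p) := TW_w hC.ol (by omega) (by omega)
  have hxD : L.x p ∈ D3 D L p (p + R - 1) := ⟨p, le_rfl, by omega, Or.inl hx⟩
  have hwD : L.w p ∈ D3 D L p (p + R - 1) := ⟨p, le_rfl, by omega, Or.inr (Or.inl hw)⟩
  by_cases hA : L.x p ∈ S ↔ L.w p ∉ S
  · exact ⟨p, p, L.x p, L.w p, le_rfl, by omega, le_rfl, by omega, Or.inl ⟨hx, hw⟩, hxD, hwD, hA⟩
  obtain ⟨v, hv, hvS⟩ : ∃ v ∈ D3 D L p (p + R - 1), (v ∈ S ↔ L.x p ∉ S) := by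
    by_cases h : L.x p ∈ S
    · exact ⟨t₀, ht, iff_of_false htS (fun h1 => h1 h)⟩
    · exact ⟨s₀, hs, iff_of_true hsS h⟩
  have e1 : v ∈ S ↔ L.w p ∉ S := by tauto
  have e2 : L.x p ∈ S ↔ v ∉ S := by tauto
  obtain ⟨i, hi1, hi2, hi⟩ := hv
  have hvD : v ∈ D3 D L p (p + R - 1) := ⟨i, hi1, hi2, hi⟩
  rcases hi with h | h | h | h
  · exact ⟨i, p, v, L.w p, hi1, by omega, le_rfl, by omega, Or.inl ⟨h, hw⟩, hvD, hwD, e1⟩
  · exact ⟨p, i, L.x p, v, le_rfl, by omega, hi1, by omega, Or.inl ⟨hx, h⟩, hxD, hvD, e2⟩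
  · exact ⟨p, i, L.x p, v, le_rfl, by omega, hi1, by omega, Or.inr (Or.inl ⟨hx, h.1, h.2⟩), hxD, hvD,
      e2⟩
  · exact ⟨i, p, v, L.w p, hi1, by omega, le_rfl, by omega, Or.inr (Or.inr ⟨h.1, h.2, hw⟩), hvD, hwD,
      e1⟩

end Pool.Agent.MPd439b2.OP
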