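import Pool.Agent.Lib.MP_d439b2_co.OP.SpecA

/-!
# MP_d439b2_co, OP: purity (helper25)
-/

set_option autoImplicit false

namespace Pool.Agent.MPd439b2.OP

open Pool.Agent.MPd439b2 Pool.Agent.MPd439b2.W Pool.Agent.MPd439b2.SA

/-- `m` different elements of a finite set with at least `m` elements -/
private theorem pur_seq {s : Finset ℕ} {m : ℕ} (h : m ≤ s.card) :
    ∃ e : ℕ → ℕ, (∀ t < m, e t ∈ s) ∧ ∀ t < m, ∀ u < m, e t = e u → t = u := by
  classical
  refine ⟨fun t => if ht : t < s.card then s.orderEmbOfFin rfl ⟨t, ht⟩ else 0, ?_, ?_⟩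
  · intro t ht
    have h1 : t < s.card := by omega
    simp only [h1, dite_true]
    exact Finset.orderEmbOfFin_mem s rfl _
  · intro t ht u hu h2
    have h1 : t < s.card := by omega
    have h3 : u < s.card := by omega
    simp only [h1, h3, dite_true] at h2
    have h4 := (s.orderEmbOfFin rfl).injective h2
    exact congrArg Fin.val h4

/-- three properties with at most one index each: the remaining indices of an interval -/
private theorem pur_card {P Q R : ℕ → Prop} {lo hi l h : ℕ}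
    (hP : ∀ j j', lo ≤ j → j < hi → lo ≤ j' → j' < hi → P j → P j' → j = j')
    (hQ : ∀ j j', lo ≤ j → j < hi → lo ≤ j' → j' < hi → Q j → Q j' → j = j')
    (hR : ∀ j j', lo ≤ j → j < hi → lo ≤ j' → j' < hi → R j → R j' → j = j')
    (h1 : lo ≤ l) (h2 : h ≤ hi) {m : ℕ} (h3 : l + m + 3 ≤ h) :
    ∃ e : ℕ → ℕ, (∀ t < m, l ≤ e t ∧ e t < h ∧ ¬ P (e t) ∧ ¬ Q (e t) ∧ ¬ R (e t)) ∧
      ∀ t < m, ∀ u < m, e t = e u → t = u := by
  classical
  have hone : ∀ S : ℕ → Prop, (∀ j j', lo ≤ j → j < hi → lo ≤ j' → j' < hi → S j → S j' → j = j') →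
      ((Finset.Ico l h).filter S).card ≤ 1 := by
    intro S hS
    refine Finset.card_le_one.mpr fun x hx y hy => ?_
    rw [Finset.mem_filter, Finset.mem_Ico] at hx hy
    exact hS x y (by omega) (by omega) (by omega) (by omega) hx.2 hy.2
  have hcard : (Finset.Ico l h).card = h - l := Nat.card_Ico l h
  have hsub : Finset.Ico l h ⊆
      (((Finset.Ico l h).filter fun j => ¬ P j ∧ ¬ Q j ∧ ¬ R j) ∪ (Finset.Ico l h).filter P) ∪
        ((Finset.Ico l h).filter Q ∪ (Finset.Ico l h).filter R) := by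
    intro j hj
    simp only [Finset.mem_union, Finset.mem_filter]
    by_cases p1 : P j
    · exact Or.inl (Or.inr ⟨hj, p1⟩)
    · by_cases p2 : Q j
      · exact Or.inr (Or.inl ⟨hj, p2⟩)
      · by_cases p3 : R j
        · exact Or.inr (Or.inr ⟨hj, p3⟩)
        · exact Or.inl (Or.inl ⟨hj, p1, p2, p3⟩)
  have hle := Finset.card_le_card hsub
  have hu1 := Finset.card_union_le
    (((Finset.Ico l h).filter fun j => ¬ P j ∧ ¬ Q j ∧ ¬ R j) ∪ (Finset.Ico l h).filter P)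
    ((Finset.Ico l h).filter Q ∪ (Finset.Ico l h).filter R)
  have hu2 := Finset.card_union_le
    ((Finset.Ico l h).filter fun j => ¬ P j ∧ ¬ Q j ∧ ¬ R j) ((Finset.Ico l h).filter P)
  have hu3 := Finset.card_union_le ((Finset.Ico l h).filter Q) ((Finset.Ico l h).filter R)
  have c1 := hone P hP
  have c2 := hone Q hQ
  have c3 := hone R hR
  obtain ⟨e, he, hinj⟩ := pur_seq
    (s := (Finset.Ico l h).filter fun j => ¬ P j ∧ ¬ Q j ∧ ¬ R j) (m := m) (by omega)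
  refine ⟨e, fun t ht => ?_, hinj⟩
  have h4 := he t ht
  rw [Finset.mem_filter, Finset.mem_Ico] at h4
  exact ⟨h4.1.1, h4.1.2, h4.2⟩

/-- the first part of `S_Pur` -/
private theorem pur_one (hTXa : S_TXa) (hLtt : S_Ltt) (V : Type) (D : SimpleGraph V) (m₀ : ℕ)
    (L : LD V) (hC : Ctx D m₀ L) (z u y y' : V) (i : ℕ) (hz : TX D L i z)
    (h1 : 2 * L.k + 6 ≤ i) (h2 : i + L.k + 12 ≤ L.N) (hu : u ∈ Lg D L) (hy : y ∈ Lg D L)
    (hy' : y' ∈ Lg D L) (huy : D.Adj u y) (huy' : D.Adj u y') (hzy : D.Adj z y) : D.Adj z y' := by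
  by_contra hn
  have hlt : ∀ v : V, v ∈ Lg D L → ∀ j j', L.k + 3 ≤ j → j < L.N - L.k - 3 → L.k + 3 ≤ j' →
      j' < L.N - L.k - 3 → tc D L v j → tc D L v j' → j = j' := by
    intro v hv j j' p1 p2 p3 p4 p5 p6
    exact hLtt V D m₀ L hC v j j' hv p1 (by omega) p3 (by omega) p5 p6
  obtain ⟨e, he, hei⟩ := pur_card (hlt u hu) (hlt y hy) (hlt y' hy') (l := i + 2)
    (h := L.N - L.k - 3) (m := 2) (by omega) le_rfl (by omega)
  obtain ⟨q, hq, hqi⟩ := pur_card (hlt u hu) (hlt y hy) (hlt y' hy') (l := L.k + 3)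
    (h := i) (m := L.k) le_rfl (by omega) (by omega)
  have ol := hC.ol
  have ht := hC.tri
  obtain ⟨r1, r2, r3, r4, r5⟩ := he 0 (by omega)
  obtain ⟨s1, s2, s3, s4, s5⟩ := he 1 (by omega)
  have hrs : e 0 ≠ e 1 := fun h => absurd (hei 0 (by omega) 1 (by omega) h) (by omega)
  have sy : ∀ {p q : V}, ¬ D.Adj p q → ¬ D.Adj q p := fun h h' => h h'.symm
  have zna : ∀ j, j + 2 < L.N → ¬ D.Adj z (L.a j) := fun j hj =>
    (hTXa V D m₀ L hC).1 z i j hz hj
  have ua : ∀ {v : V} {j : ℕ}, ¬ tc D L v j → ¬ D.Adj v (L.a j) := fun h h' => h (Or.inl h')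
  have ub : ∀ {v : V} {j : ℕ}, ¬ tc D L v j → ¬ D.Adj v (L.b j) := fun h h' => h (Or.inr h')
  have hr : e 0 < L.N := by omega
  have hs : e 1 < L.N := by omega
  refine eng1 ht hC.ns z (L.b (e 0)) (L.a (e 0)) (L.b (e 1)) (L.a (e 1)) y u y'
    (fun t => L.a (q t)) (fun t => L.b (q t))
    (hz.adj (by omega) hr (by omega)) ((OLba ol hr hr).mpr rfl)
    (hz.adj (by omega) hs (by omega)) ((OLba ol hs hs).mpr rfl)
    hzy huy.symm huy' hn
    (fun h => hrs ((OLba ol hr hs).mp h)) (sy (ub r3)) (sy (ub r5))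
    (fun h => hrs ((OLba ol hs hr).mp h).symm) (sy (ub s3)) (sy (ub s5))
    (ua r4) (ua s4) (OLaa ol hr hs) (sy (ua r3)) (sy (ua r5)) (sy (ua s3)) (sy (ua s5)) ?_ ?_
  · intro t ht' t' ht''
    obtain ⟨p1, p2, _⟩ := hq t ht'
    obtain ⟨p3, p4, _⟩ := hq t' ht''
    have p5 : q t < L.N := by omega
    have p6 : q t' < L.N := by omega
    refine ⟨?_, OLaa ol p5 p6, OLbb ol p5 p6⟩
    rw [OLab ol p5 p6]
    exact ⟨fun h => hqi t ht' t' ht'' h, fun h => by rw [h]⟩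
  · intro t ht' v hv
    obtain ⟨p1, p2, p3, p4, p5⟩ := hq t ht'
    have p6 : q t < L.N := by omega
    have n1 : e 0 ≠ q t := by omega
    have n2 : e 1 ≠ q t := by omega
    simp only [List.mem_cons, List.not_mem_nil, or_false] at hv
    rcases hv with rfl | rfl | rfl | rfl | rfl | rfl | rfl | rfl
    · exact ⟨zna _ (by omega), hz.nadj (by omega) p2⟩
    · exact ⟨fun h => n1 ((OLba ol hr p6).mp h), OLbb ol hr p6⟩
    · exact ⟨OLaa ol hr p6, fun h => n1 ((OLab ol hr p6).mp h)⟩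
    · exact ⟨fun h => n2 ((OLba ol hs p6).mp h), OLbb ol hs p6⟩
    · exact ⟨OLaa ol hs p6, fun h => n2 ((OLab ol hs p6).mp h)⟩
    · exact ⟨ua p4, ub p4⟩
    · exact ⟨ua p3, ub p3⟩
    · exact ⟨ua p5, ub p5⟩

/-- **Pur.** -/
theorem pPur : S_TXa → S_Ltt → S_Pur := by
  intro hTXa hLtt V D m₀ L hC
  refine ⟨pur_one hTXa hLtt V D m₀ L hC, ?_⟩
  intro z u y y' i hz h1 h2 hu hy hy' huy huy' hzy
  have hi := hz.1
  refine pur_one hTXa hLtt V D m₀ L.rev hC.rev z u y y' (L.N - 1 - i) hz.2 ?_ ?_ ?_ ?_ ?_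
    huy huy' hzy
  · rw [rev_k]
    omega
  · rw [rev_k, rev_N]
    omega
  · rw [Lg_rev]
    exact hu
  · rw [Lg_rev]
    exact hy
  · rw [Lg_rev]
    exact hy'

end Pool.Agent.MPd439b2.OP
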