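import Pool.Agent.Lib.MP_d439b2_co.OP.SpecA
import Pool.Agent.Lib.MP_d439b2_co.Rep.Pat3

/-!
# MP_d439b2_co, OP: bounded rank between the two sides of a ladder (helper6)
-/

set_option autoImplicit false

namespace Pool.Agent.MPd439b2.OP

open Pool.Agent.MPd439b2 Pool.Agent.MPd439b2.W Pool.Agent.MPd439b2.SA

/-- an increasing enumeration of a large finite set of numbers -/
private theorem enumI (T : Finset ℕ) (m : ℕ) (hT : m ≤ T.card) :
    ∃ σ : ℕ → ℕ, (∀ i < m, σ i ∈ T) ∧ ∀ i < m, ∀ j < m, (σ i ≤ σ j ↔ i ≤ j) := by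
  classical
  obtain ⟨S, hS, hSc⟩ := Finset.exists_subset_card_eq hT
  refine ⟨fun i => if h : i < m then S.orderEmbOfFin hSc ⟨i, h⟩ else 0,
    fun i hi => ?_, fun i hi j hj => ?_⟩
  · show (if h : i < m then S.orderEmbOfFin hSc ⟨i, h⟩ else 0) ∈ T
    rw [dif_pos hi]
    exact hS (Finset.orderEmbOfFin_mem S hSc _)
  · show (if h : i < m then S.orderEmbOfFin hSc ⟨i, h⟩ else 0) ≤
      (if h : j < m then S.orderEmbOfFin hSc ⟨j, h⟩ else 0) ↔ i ≤ j
    rw [dif_pos hi, dif_pos hj, OrderEmbedding.le_iff_le]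
    exact Fin.mk_le_mk

theorem pRkH (hT2 : S_T2) : S_RkH := by
  classical
  intro k m₀ hk
  obtain ⟨ρ, hρ⟩ := Rep.rk3 (max m₀ (k + 11))
  refine ⟨(k + 11) * k + k + 11, ρ, ?_⟩
  intro V _ D P Q c d ht hn hco hcd hP hQ
  refine hρ V D P Q ?_
  have hm1 : m₀ ≤ max m₀ (k + 11) := le_max_left _ _
  have hm2 : k + 11 ≤ max m₀ (k + 11) := le_max_right _ _
  generalize hm : max m₀ (k + 11) = m at *
  rintro ⟨f, w, hfw⟩
  have hfP : ∀ i < m, f i ∈ P := by
    rcases hfw with h | h | h <;> exact h.1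
  have hwQ : ∀ i < m, w i ∈ Q := by
    rcases hfw with h | h | h <;> exact h.2.1
  -- bad indices
  have hE : ((Finset.range (k + 11)).biUnion fun s =>
      (Finset.range ((k + 11) * k + k + 11)).filter fun j => ¬ D.Adj (w s) (c j)).card ≤
      (k + 11) * k := by
    have h := Finset.card_biUnion_le_card_mul (Finset.range (k + 11)) (fun s =>
      (Finset.range ((k + 11) * k + k + 11)).filter fun j => ¬ D.Adj (w s) (c j)) k
      (fun s hs => hQ (w s) (hwQ s (by have := Finset.mem_range.1 hs; omega)) _ fun j hj => by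
        rw [Finset.mem_filter, Finset.mem_range] at hj
        exact hj)
    rwa [Finset.card_range] at h
  have h4 := Finset.le_card_sdiff ((Finset.range (k + 11)).biUnion fun s =>
      (Finset.range ((k + 11) * k + k + 11)).filter fun j => ¬ D.Adj (w s) (c j))
    (Finset.range ((k + 11) * k + k + 11))
  rw [Finset.card_range] at h4
  obtain ⟨σ, hσ, hord⟩ := enumI _ (k + 11) (le_trans (by omega) h4)
  have hlt : ∀ i < k + 11, σ i < (k + 11) * k + k + 11 := fun i hi =>
    Finset.mem_range.1 (Finset.mem_sdiff.1 (hσ i hi)).1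
  have hcw : ∀ i < k + 11, ∀ j < k + 11, D.Adj (c (σ i)) (w j) := by
    intro i hi j hj
    by_contra h
    refine (Finset.mem_sdiff.1 (hσ i hi)).2 (Finset.mem_biUnion.2 ⟨j, Finset.mem_range.2 hj, ?_⟩)
    rw [Finset.mem_filter, Finset.mem_range]
    exact ⟨hlt i hi, fun h' => h h'.symm⟩
  have hcd' : ∀ i < k + 11, ∀ j < k + 11, (D.Adj (c (σ i)) (d (σ j)) ↔ i ≤ j) :=
    fun i hi j hj => (hcd _ (hlt i hi) _ (hlt j hj)).trans (hord i hi j hj)
  have hfd : ∀ i < k + 11, ∀ j < k + 11, D.Adj (f i) (d (σ j)) := fun i hi j hj =>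
    hP _ (hfP i (by omega)) _ (hlt j hj)
  have h2 := hT2 V D k f w (fun i => c (σ i)) (fun i => d (σ i)) hk ht hn hcd' hfd hcw
  rcases hfw with h | h | h
  · exact h2.2 fun i hi j hj => h.2.2 i (by omega) j (by omega)
  · exact hco ⟨f, w, fun i hi j hj => h.2.2 i (by omega) j (by omega)⟩
  · exact h2.1 fun i hi j hj => h.2.2 i (by omega) j (by omega)

end Pool.Agent.MPd439b2.OP
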