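import Pool.Agent.Lib.MP_d439b2_co.OP.SpecE

/-!
# MP_d439b2_co, OP, Sel: selection (helper91)
-/

set_option autoImplicit false

namespace Pool.Agent.MPd439b2.OP

open Pool.Agent.MPd439b2 Pool.Agent.MPd439b2.W Pool.Agent.MPd439b2.SA

namespace PSelAux

theorem colour (k n : ℕ) (R : ℕ → ℕ → Prop)
    (h : ∀ j < n, ∀ J : Finset ℕ, (∀ i ∈ J, i < j ∧ R i j) → J.card ≤ k) :
    ∃ c : ℕ → Fin (k + 1), ∀ i j, i < j → j < n → R i j → c i ≠ c j := by
  classical
  induction n with
  | zero => exact ⟨fun _ => 0, fun i j _ hj => absurd hj (Nat.not_lt_zero _)⟩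
  | succ n ih =>
    obtain ⟨c, hc⟩ := ih fun j hj => h j (by omega)
    have h1 : ((Finset.range n).filter fun i => R i n).card ≤ k :=
      h n (Nat.lt_succ_self n) _ fun i hi => by
        rw [Finset.mem_filter, Finset.mem_range] at hi
        exact hi
    have h2 : (((Finset.range n).filter fun i => R i n).image c).card <
        (Finset.univ : Finset (Fin (k + 1))).card := by
      rw [Finset.card_univ, Fintype.card_fin]
      exact Nat.lt_succ_of_le (Finset.card_image_le.trans h1)
    obtain ⟨y, _, hy⟩ := Finset.exists_mem_notMem_of_card_lt_card h2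
    refine ⟨Function.update c n y, fun i j hij hj hR => ?_⟩
    rw [Function.update_of_ne (by omega : i ≠ n)]
    by_cases hjn : j = n
    · subst hjn
      rw [Function.update_self]
      intro he
      apply hy
      rw [← he]
      exact Finset.mem_image_of_mem c (Finset.mem_filter.2 ⟨Finset.mem_range.2 hij, hR⟩)
    · rw [Function.update_of_ne hjn]
      exact hc i j hij (by omega) hR

end PSelAux

/-- **Sel.** -/
theorem pSel : S_Sel := by
  classical
  intro k m R h
  obtain ⟨c, hc⟩ := PSelAux.colour k ((k + 1) * m) R h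
  have h1 := Finset.exists_le_card_fiber_of_mul_le_card_of_maps_to
    (s := Finset.range ((k + 1) * m)) (t := (Finset.univ : Finset (Fin (k + 1)))) (f := c) (n := m)
    (fun a _ => Finset.mem_univ _) Finset.univ_nonempty (by
      rw [Finset.card_univ, Fintype.card_fin, Finset.card_range])
  obtain ⟨y, _, hy⟩ := h1
  obtain ⟨S, hS⟩ : ∃ S : Finset ℕ, S = (Finset.range ((k + 1) * m)).filter fun x => c x = y :=
    ⟨_, rfl⟩
  rw [← hS] at hy
  have hmem : ∀ x ∈ S, x < (k + 1) * m ∧ c x = y := by
    intro x hx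
    rw [hS, Finset.mem_filter, Finset.mem_range] at hx
    exact hx
  have hlt : ∀ i j (hi : i < S.card) (hj : j < S.card), i < j →
      S.orderEmbOfFin rfl ⟨i, hi⟩ < S.orderEmbOfFin rfl ⟨j, hj⟩ := fun i j hi hj hij =>
    (S.orderEmbOfFin rfl).strictMono hij
  have hin : ∀ i (hi : i < S.card), S.orderEmbOfFin rfl ⟨i, hi⟩ ∈ S := fun i hi =>
    Finset.orderEmbOfFin_mem _ _ _
  refine ⟨fun i => if h : i < S.card then S.orderEmbOfFin rfl ⟨i, h⟩ else 0, fun i j hij hj => ?_,
    fun i hi => ?_, fun i j hij hj => ?_⟩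
  · dsimp only
    rw [dif_pos (by omega), dif_pos (by omega)]
    exact hlt i j _ _ hij
  · dsimp only
    rw [dif_pos (by omega)]
    exact (hmem _ (hin i _)).1
  · dsimp only
    rw [dif_pos (by omega), dif_pos (by omega)]
    intro hR
    have h2 := hmem _ (hin i (by omega))
    have h3 := hmem _ (hin j (by omega))
    exact hc _ _ (hlt i j (by omega) (by omega) hij) h3.1 hR (h2.2.trans h3.2.symm)

end Pool.Agent.MPd439b2.OP
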