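import Pool.Agent.Lib.MP_d439b2_co.OP.SpecA

/-!
# MP_d439b2_co, OP: a light vertex does not see both types (helper6)
-/

set_option autoImplicit false

namespace Pool.Agent.MPd439b2.OP

open Pool.Agent.MPd439b2 Pool.Agent.MPd439b2.W Pool.Agent.MPd439b2.SA

private theorem nd1 {V : Type} {D : SimpleGraph V} {u x y : V} (h1 : u ≠ x) (h2 : u ≠ y)
    (h : ¬ D.Adj u x ∨ ¬ D.Adj u y) [DecidableEq V] : Nd D {u} ({x, y} : Finset V) := by
  constructor
  · rw [Finset.disjoint_singleton_left]
    simp [h1, h2]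
  · intro h3
    rcases h with h | h
    · exact h (h3 u (by simp) x (by simp))
    · exact h (h3 u (by simp) y (by simp))

private theorem nd2 {V : Type} {D : SimpleGraph V} {u v x y : V} (h1 : u ≠ x) (h2 : u ≠ y)
    (h3 : v ≠ x) (h4 : v ≠ y)
    (h : ¬ D.Adj u x) [DecidableEq V] : Nd D ({u, v} : Finset V) ({x, y} : Finset V) := by
  constructor
  · rw [Finset.disjoint_left]
    intro a ha hb
    simp only [Finset.mem_insert, Finset.mem_singleton] at ha hb
    rcases ha with rfl | rfl <;> rcases hb with rfl | rfl <;> simp_all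
  · intro h5
    exact h (h5 u (by simp) x (by simp))

private theorem sid1 (hTXa : S_TXa) (hFR : S_FR1) {V : Type} {D : SimpleGraph V} {m₀ : ℕ}
    {L : LD V} (hc : Ctx D m₀ L) {v z z' : V} {i i' : ℕ} (hv : v ∈ Lg D L) (hz : TX D L i z)
    (hz' : TW D L i' z') (hvz : D.Adj v z) (hvz' : D.Adj v z') (h1 : i + 3 * L.k + 9 ≤ L.N)
    (h2 : i' + 3 * L.k + 12 ≤ L.N) : False := by
  classical
  have ho := hc.ol
  have ht := hc.tri
  have hk := hc.hk
  have hge := hz'.ge
  have hzw : ∀ m, i' + 5 ≤ m → m + L.k + 1 ≤ L.N → ¬ D.Adj z (L.w m) := by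
    intro m hm hm'
    have h3 : D.Adj v (L.w m) := (hFR V D m₀ L hc).2 v (L.w m) z' m i' hv
      (TW_w ho (by omega) hm') hz' hm (by omega) hvz'
    exact ht v z (L.w m) hvz h3
  have hza : ∀ j, j + 2 < L.N → ¬ D.Adj z (L.a j) := fun j hj =>
    (hTXa V D m₀ L hc).1 z i j hz hj
  obtain ⟨j0, hj0⟩ : ∃ j0, j0 = max (i + 2) (i' + 5) := ⟨_, rfl⟩
  have e1 : i + 2 ≤ j0 := by omega
  have e2 : i' + 5 ≤ j0 := by omega
  have e3 : j0 + 3 * L.k + 7 ≤ L.N := by omega
  have hzb : ∀ j, j0 ≤ j → j < L.N → D.Adj z (L.b j) := fun j hj hj' =>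
    hz.adj (by omega) hj' (by omega)
  have sy : ∀ {u v : V}, ¬ D.Adj u v → ¬ D.Adj v u := fun h h' => h h'.symm
  have zb0 := hzb j0 le_rfl (by omega)
  have nza : ∀ j, j < L.N → z ≠ L.a j := by
    intro j hj
    by_cases h : j0 = j
    · subst h
      exact ne_of (hzb (j0 + 1) (by omega) (by omega)) (fun h' => by
        have := (OLab ho hj (by omega)).mp h'
        omega)
    · exact ne_of zb0 (fun h' => h ((OLab ho hj (by omega)).mp h').symm)
  have nzb : ∀ j, j < L.N → z ≠ L.b j := fun j hj => ne_of zb0 (OLbb ho hj (by omega))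
  have nzw : ∀ j, j < L.N → z ≠ L.w j := fun j hj => ne_of zb0 (OLwb ho hj (by omega))
  refine eng ht hc.ns {z} {L.b (j0 + 1)} {L.a (j0 + 1)} {L.b (j0 + 2)} {L.a (j0 + 2)} {L.b j0}
    {L.a j0} {L.w j0} (fun t => {L.a (j0 + 3 + t)})
    (fun t => {L.b (j0 + 3 + t), L.w (j0 + 3 + t)})
    (Finset.singleton_nonempty _) (Finset.singleton_nonempty _) (Finset.singleton_nonempty _)
    (Finset.singleton_nonempty _) (Finset.singleton_nonempty _) (Finset.singleton_nonempty _)
    (Finset.singleton_nonempty _) (Finset.singleton_nonempty _)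
    (fun t _ => Finset.singleton_nonempty _) (fun t _ => Finset.insert_nonempty _ _)
    (cmp_sing.mpr (hzb _ (by omega) (by omega)))
    (cmp_sing.mpr ((OLba ho (by omega) (by omega)).mpr rfl))
    (cmp_sing.mpr (hzb _ (by omega) (by omega)))
    (cmp_sing.mpr ((OLba ho (by omega) (by omega)).mpr rfl))
    (cmp_sing.mpr zb0)
    (cmp_sing.mpr ((OLba ho (by omega) (by omega)).mpr rfl))
    (cmp_sing.mpr ((OLwa ho (by omega) (by omega)).mpr le_rfl).symm)
    (Finset.disjoint_singleton.mpr (nza _ (by omega)))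
    (Finset.disjoint_singleton.mpr (nza _ (by omega)))
    (Finset.disjoint_singleton.mpr (nza _ (by omega)))
    (Finset.disjoint_singleton.mpr (OLnbb ho (by omega) (by omega) (by omega)))
    (Finset.disjoint_singleton.mpr (OLnbb ho (by omega) (by omega) (by omega)))
    (Finset.disjoint_singleton.mpr (OLnbb ho (by omega) (by omega) (by omega)))
    (Finset.disjoint_singleton.mpr (OLnwb ho (by omega) (by omega) (by omega)).symm)
    (nd_sing.mpr ⟨nzw _ (by omega), hzw _ (by omega) (by omega)⟩)
    (nd_sing.mpr ⟨(OLnab ho (by omega) (by omega)).symm, fun h => by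
      have := (OLba ho (by omega) (by omega)).mp h
      omega⟩)
    (nd_sing.mpr ⟨(OLnab ho (by omega) (by omega)).symm, fun h => by
      have := (OLba ho (by omega) (by omega)).mp h
      omega⟩)
    (nd_sing.mpr ⟨(OLnwb ho (by omega) (by omega) (by omega)).symm,
      sy (OLwb ho (by omega) (by omega))⟩)
    (nd_sing.mpr ⟨(OLnab ho (by omega) (by omega)).symm, fun h => by
      have := (OLba ho (by omega) (by omega)).mp h
      omega⟩)
    (nd_sing.mpr ⟨(OLnab ho (by omega) (by omega)).symm, fun h => by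
      have := (OLba ho (by omega) (by omega)).mp h
      omega⟩)
    (nd_sing.mpr ⟨(OLnwb ho (by omega) (by omega) (by omega)).symm,
      sy (OLwb ho (by omega) (by omega))⟩)
    (nd_sing.mpr ⟨(OLnab ho (by omega) (by omega)).symm, fun h => by
      have := (OLba ho (by omega) (by omega)).mp h
      omega⟩)
    (nd_sing.mpr ⟨(OLnab ho (by omega) (by omega)).symm, fun h => by
      have := (OLba ho (by omega) (by omega)).mp h
      omega⟩)
    (nd_sing.mpr ⟨OLnaa ho (by omega) (by omega) (by omega), OLaa ho (by omega) (by omega)⟩)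
    (nd_sing.mpr ⟨OLnaa ho (by omega) (by omega) (by omega), OLaa ho (by omega) (by omega)⟩)
    (nd_sing.mpr ⟨(OLnwa ho (by omega) (by omega)).symm, fun h => by
      have := (OLwa ho (by omega) (by omega)).mp h.symm
      omega⟩)
    (nd_sing.mpr ⟨OLnaa ho (by omega) (by omega) (by omega), OLaa ho (by omega) (by omega)⟩)
    (nd_sing.mpr ⟨(OLnwa ho (by omega) (by omega)).symm, fun h => by
      have := (OLwa ho (by omega) (by omega)).mp h.symm
      omega⟩)
    ?_ ?_ ?_ ?_ ?_ ?_ ?_ ?_ ?_ ?_ ?_ ?_
  · intro t ht' p hp q hq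
    simp only [Finset.mem_insert, Finset.mem_singleton] at hp hq
    subst hp
    rcases hq with rfl | rfl
    · exact (OLab ho (by omega) (by omega)).mpr rfl
    · exact ((OLwa ho (by omega) (by omega)).mpr le_rfl).symm
  · intro t ht' u hu hne
    exact nd_sing.mpr ⟨OLnaa ho (by omega) (by omega) (by omega), OLaa ho (by omega) (by omega)⟩
  · intro t ht' u hu hne
    refine nd1 (OLnab ho (by omega) (by omega)) (OLnwa ho (by omega) (by omega)).symm
      (Or.inl fun h => ?_)
    have := (OLab ho (by omega) (by omega)).mp h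
    omega
  · intro t ht' u hu hne
    exact nd2 (OLnbb ho (by omega) (by omega) (by omega))
      (OLnwb ho (by omega) (by omega) (by omega)).symm
      (OLnwb ho (by omega) (by omega) (by omega))
      (OLnww ho (by omega) (by omega) (by omega)) (OLbb ho (by omega) (by omega))
  · intro t ht'
    exact ⟨nd_sing.mpr ⟨nza _ (by omega), hza _ (by omega)⟩,
      nd1 (nzb _ (by omega)) (nzw _ (by omega)) (Or.inr (hzw _ (by omega) (by omega)))⟩
  · intro t ht'
    exact ⟨nd_sing.mpr ⟨(OLnab ho (by omega) (by omega)).symm, fun h => by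
      have := (OLba ho (by omega) (by omega)).mp h
      omega⟩, nd1 (OLnbb ho (by omega) (by omega) (by omega))
      (OLnwb ho (by omega) (by omega) (by omega)).symm (Or.inl (OLbb ho (by omega) (by omega)))⟩
  · intro t ht'
    exact ⟨nd_sing.mpr ⟨OLnaa ho (by omega) (by omega) (by omega), OLaa ho (by omega) (by omega)⟩,
      nd1 (OLnab ho (by omega) (by omega)) (OLnwa ho (by omega) (by omega)).symm
      (Or.inl fun h => by
        have := (OLab ho (by omega) (by omega)).mp h
        omega)⟩
  · intro t ht'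
    exact ⟨nd_sing.mpr ⟨(OLnab ho (by omega) (by omega)).symm, fun h => by
      have := (OLba ho (by omega) (by omega)).mp h
      omega⟩, nd1 (OLnbb ho (by omega) (by omega) (by omega))
      (OLnwb ho (by omega) (by omega) (by omega)).symm (Or.inl (OLbb ho (by omega) (by omega)))⟩
  · intro t ht'
    exact ⟨nd_sing.mpr ⟨OLnaa ho (by omega) (by omega) (by omega), OLaa ho (by omega) (by omega)⟩,
      nd1 (OLnab ho (by omega) (by omega)) (OLnwa ho (by omega) (by omega)).symm
      (Or.inl fun h => by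
        have := (OLab ho (by omega) (by omega)).mp h
        omega)⟩
  · intro t ht'
    exact ⟨nd_sing.mpr ⟨(OLnab ho (by omega) (by omega)).symm, fun h => by
      have := (OLba ho (by omega) (by omega)).mp h
      omega⟩, nd1 (OLnbb ho (by omega) (by omega) (by omega))
      (OLnwb ho (by omega) (by omega) (by omega)).symm (Or.inl (OLbb ho (by omega) (by omega)))⟩
  · intro t ht'
    exact ⟨nd_sing.mpr ⟨OLnaa ho (by omega) (by omega) (by omega), OLaa ho (by omega) (by omega)⟩,
      nd1 (OLnab ho (by omega) (by omega)) (OLnwa ho (by omega) (by omega)).symm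
      (Or.inl fun h => by
        have := (OLab ho (by omega) (by omega)).mp h
        omega)⟩
  · intro t ht'
    exact ⟨nd_sing.mpr ⟨OLnwa ho (by omega) (by omega), fun h => by
      have := (OLwa ho (by omega) (by omega)).mp h
      omega⟩, nd1 (OLnwb ho (by omega) (by omega) (by omega))
      (OLnww ho (by omega) (by omega) (by omega)) (Or.inl (OLwb ho (by omega) (by omega)))⟩

theorem pSid (hTXa : S_TXa) (hFR : S_FR1) : S_Sid := by
  intro V D m₀ L hc v z z' i i' hv hz hz' hvz hvz' h
  rcases h with ⟨h1, h2⟩ | ⟨h1, h2⟩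
  · exact sid1 hTXa hFR hc hv hz hz' hvz hvz' h1 h2
  · have hi := hz.le
    have hi' := hz'.1
    have h3 : TX D L.rev (L.N - 1 - i') z' := by
      rw [TX_rev (by omega), Nat.sub_sub_self (by omega)]
      exact hz'
    have h4 : TW D L.rev (L.N - 1 - i) z := by
      rw [TW_rev (by omega), Nat.sub_sub_self (by omega)]
      exact hz
    refine sid1 hTXa hFR hc.rev (v := v) (by rw [Lg_rev]; exact hv) h3 h4 hvz' hvz ?_ ?_
    · simp only [rev_k, rev_N]
      omega
    · simp only [rev_k, rev_N]
      omega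

end Pool.Agent.MPd439b2.OP
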