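import Pool.Agent.Lib.MP_d439b2_co.OP.SpecE

/-!
# MP_d439b2_co, OP: both sides of the extended cut are large (helper12)
-/

set_option autoImplicit false

namespace Pool.Agent.MPd439b2.OP

open Pool.Agent.MPd439b2 Pool.Agent.MPd439b2.W Pool.Agent.MPd439b2.SA

theorem pSz : S_Unq → S_Sz := by
  intro hUnq V _ D m₀ L r R ℓ l₁ h₁ l₂ h₂ S₁ S₂ hE
  have hC := hE.ctx
  have ho := hC.ol
  have hlo := hE.w₁.lo
  have hhi := hE.w₂.hi
  have hlen1 := hE.w₁.len
  have hlen2 := hE.w₂.len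
  have hgap := hE.gap
  have hR := hE.hR
  have htt : tt L.k = 6 * L.k + 60 := rfl
  have hinj : ∀ i < L.N, ∀ j < L.N, L.x i = L.x j → i = j := by
    intro i hi j hj he
    by_contra h
    exact OLnxx ho hi hj h he
  have hcard : ∀ (F : Finset ℕ) (Y : Set V), (∀ i ∈ F, i < L.N ∧ L.x i ∈ Y) → F.card ≤ Y.ncard := by
    intro F Y hF
    have h1 : (L.x '' (F : Set ℕ)).ncard = F.card := by
      rw [Set.ncard_image_of_injOn, Set.ncard_coe_finset]
      intro i hi j hj he
      exact hinj i (hF i hi).1 j (hF j hj).1 he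
    rw [← h1]
    refine Set.ncard_le_ncard ?_ (Set.toFinite _)
    rintro v ⟨i, hi, rfl⟩
    exact (hF i hi).2
  constructor
  · have h1 := hcard (Finset.Ioo h₁ l₂) (YS D L h₁ l₂ h₂ S₁ S₂ ∪ YK D L h₁ l₂) (by
      intro i hi
      rw [Finset.mem_Ioo] at hi
      refine ⟨by omega, Or.inl (Or.inl (Or.inr ⟨i, by omega, by omega, Or.inl ?_⟩))⟩
      exact TX_x ho (by omega) (by omega))
    rw [Nat.card_Ioo] at h1
    omega
  · have h1 := hcard (Finset.Ico L.k l₁) (YS D L h₁ l₂ h₂ S₁ S₂ ∪ YK D L h₁ l₂)ᶜ (by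
      intro i hi
      rw [Finset.mem_Ico] at hi
      have hT : TX D L i (L.x i) := TX_x ho (by omega) (by omega)
      have hno : ∀ l h, l₁ ≤ l → L.x i ∉ D3 D L l h := by
        rintro l h hl ⟨j, hj1, hj2, hj⟩
        have := hUnq V D m₀ L hC (L.x i) i j (Or.inl hT) hj
        omega
      refine ⟨by omega, ?_⟩
      rintro (((h | h) | h) | ⟨K, hK, hv, -⟩)
      · exact hno _ _ le_rfl (hE.w₁.sub h)
      · exact hno _ _ (by omega) h
      · exact hno _ _ (by omega) h.1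
      · exact notX_of_Lg (hK.1.1 hv) hT)
    rw [Nat.card_Ico] at h1
    omega

end Pool.Agent.MPd439b2.OP
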