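import Pool.Agent.Lib.MP_d439b2_co.OP.SpecA

/-!
# MP_d439b2_co, OP: two crossing patterns (helper6)
-/

set_option autoImplicit false

namespace Pool.Agent.MPd439b2.OP

open Pool.Agent.MPd439b2 Pool.Agent.MPd439b2.W Pool.Agent.MPd439b2.SA

/-- the common assumptions -/
private structure TB {V : Type} (D : SimpleGraph V) (n : ℕ) (R : ℕ → ℕ → Prop)
    (f w c d : ℕ → V) : Prop where
  h0 : 10 < n
  tri : TriFree D
  cd : ∀ i < n, ∀ j < n, (D.Adj (c i) (d j) ↔ i ≤ j)
  fd : ∀ i < n, ∀ j < n, D.Adj (f i) (d j)
  cw : ∀ i < n, ∀ j < n, D.Adj (c i) (w j)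
  fw : ∀ i < n, ∀ j < n, (D.Adj (f i) (w j) ↔ R i j)
  Rr : ∀ i, R i i
  Ra : ∀ i j, R i j → R j i → i = j

section

variable {V : Type} {D : SimpleGraph V} {n : ℕ} {R : ℕ → ℕ → Prop} {f w c d : ℕ → V}

private theorem TB.ff (h : TB D n R f w c d) {s t : ℕ} (hs : s < n) (ht : t < n) :
    ¬ D.Adj (f s) (f t) :=
  h.tri (d 0) _ _ (h.fd s hs 0 (by omega)).symm (h.fd t ht 0 (by omega)).symm

private theorem TB.cc (h : TB D n R f w c d) {s t : ℕ} (hs : s < n) (ht : t < n) :
    ¬ D.Adj (c s) (c t) :=
  h.tri (w 0) _ _ (h.cw s hs 0 (by omega)).symm (h.cw t ht 0 (by omega)).symm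

private theorem TB.ww (h : TB D n R f w c d) {s t : ℕ} (hs : s < n) (ht : t < n) :
    ¬ D.Adj (w s) (w t) :=
  h.tri (c 0) _ _ (h.cw 0 (by omega) s hs) (h.cw 0 (by omega) t ht)

private theorem TB.dd (h : TB D n R f w c d) {s t : ℕ} (hs : s < n) (ht : t < n) :
    ¬ D.Adj (d s) (d t) :=
  h.tri (f 0) _ _ (h.fd 0 (by omega) s hs) (h.fd 0 (by omega) t ht)

private theorem TB.fc (h : TB D n R f w c d) {s t : ℕ} (hs : s < n) (ht : t < n) :
    ¬ D.Adj (f s) (c t) :=
  h.tri (w s) _ _ ((h.fw s hs s hs).mpr (h.Rr s)).symm (h.cw t ht s hs).symm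

private theorem TB.wd (h : TB D n R f w c d) {s t : ℕ} (hs : s < n) (ht : t < n) :
    ¬ D.Adj (w s) (d t) :=
  h.tri (c 0) _ _ (h.cw 0 (by omega) s hs) ((h.cd 0 (by omega) t ht).mpr (by omega))

private theorem TB.nfc (h : TB D n R f w c d) {s t : ℕ} (hs : s < n) (h1 : 1 ≤ t) (ht : t < n) :
    f s ≠ c t :=
  ne_of (h.fd s hs 0 (by omega)) fun h2 => by
    have := (h.cd t ht 0 (by omega)).mp h2
    omega

private theorem TB.nwd (h : TB D n R f w c d) {s t : ℕ} (hs : s < n) (ht : t + 1 < n) :
    w s ≠ d t :=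
  ne_of (h.cw (t + 1) (by omega) s hs).symm fun h2 => by
    have := (h.cd (t + 1) (by omega) t (by omega)).mp h2.symm
    omega

private theorem TB.nfw (h : TB D n R f w c d) {s t : ℕ} (hs : s < n) (ht : t < n) :
    f s ≠ w t := ne_of (h.fd s hs 0 (by omega)) (h.wd ht (by omega))

private theorem TB.nfd (h : TB D n R f w c d) {s t : ℕ} (hs : s < n) (ht : t < n) :
    f s ≠ d t := ne_of (h.fd s hs 0 (by omega)) (h.dd ht (by omega))

private theorem TB.ncw (h : TB D n R f w c d) {s t : ℕ} (hs : s < n) (ht : t < n) :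
    c s ≠ w t := ne_of (h.cw s hs 0 (by omega)) (h.ww ht (by omega))

private theorem TB.ncd (h : TB D n R f w c d) {s t : ℕ} (hs : s < n) (ht : t < n) :
    c s ≠ d t := ne_of (h.cw s hs 0 (by omega)) fun h2 => h.wd (by omega) ht h2.symm

private theorem TB.ncc (h : TB D n R f w c d) {s t : ℕ} (hs : s < n) (ht : t < n) (hst : s ≠ t) :
    c s ≠ c t := by
  have key : ∀ s t, s < n → t < n → s < t → c s ≠ c t := fun s t hs ht hst =>
    ne_of ((h.cd s hs s hs).mpr le_rfl) fun h2 => by
      have := (h.cd t ht s hs).mp h2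
      omega
  rcases lt_or_gt_of_ne hst with h1 | h1
  · exact key s t hs ht h1
  · exact (key t s ht hs h1).symm

private theorem TB.ndd (h : TB D n R f w c d) {s t : ℕ} (hs : s < n) (ht : t < n) (hst : s ≠ t) :
    d s ≠ d t := by
  have key : ∀ s t, s < n → t < n → s < t → d t ≠ d s := fun s t hs ht hst =>
    ne_of ((h.cd t ht t ht).mpr le_rfl).symm fun h2 => by
      have := (h.cd t ht s hs).mp h2.symm
      omega
  rcases lt_or_gt_of_ne hst with h1 | h1
  · exact (key s t hs ht h1).symm
  · exact key t s ht hs h1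

private theorem TB.nff (h : TB D n R f w c d) {s t : ℕ} (hs : s < n) (ht : t < n) (hst : s ≠ t) :
    f s ≠ f t := by
  intro he
  have h1 : R s t := (h.fw s hs t ht).mp (he ▸ (h.fw t ht t ht).mpr (h.Rr t))
  have h2 : R t s := (h.fw t ht s hs).mp (he ▸ (h.fw s hs s hs).mpr (h.Rr s))
  exact hst (h.Ra s t h1 h2)

private theorem TB.nww (h : TB D n R f w c d) {s t : ℕ} (hs : s < n) (ht : t < n) (hst : s ≠ t) :
    w s ≠ w t := by
  intro he
  have h1 : R s t := (h.fw s hs t ht).mp (he ▸ (h.fw s hs s hs).mpr (h.Rr s))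
  have h2 : R t s := (h.fw t ht s hs).mp (he ▸ (h.fw t ht t ht).mpr (h.Rr t))
  exact hst (h.Ra s t h1 h2)

variable [DecidableEq V]

private theorem nd22 {u v x y : V} (h1 : u ≠ x) (h2 : u ≠ y) (h3 : v ≠ x) (h4 : v ≠ y)
    (h : ¬ (D.Adj u x ∧ D.Adj u y ∧ D.Adj v x ∧ D.Adj v y)) :
    Nd D ({u, v} : Finset V) ({x, y} : Finset V) := by
  constructor
  · rw [Finset.disjoint_left]
    intro a ha hb
    simp only [Finset.mem_insert, Finset.mem_singleton] at ha hb
    rcases ha with rfl | rfl <;> rcases hb with rfl | rfl <;> simp_all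
  · intro h5
    exact h ⟨h5 u (by simp) x (by simp), h5 u (by simp) y (by simp), h5 v (by simp) x (by simp),
      h5 v (by simp) y (by simp)⟩

private theorem cmp22 {u v x y : V} (h1 : D.Adj u x) (h2 : D.Adj u y) (h3 : D.Adj v x)
    (h4 : D.Adj v y) : Cmp D ({u, v} : Finset V) ({x, y} : Finset V) := by
  intro a ha b hb
  simp only [Finset.mem_insert, Finset.mem_singleton] at ha hb
  rcases ha with rfl | rfl <;> rcases hb with rfl | rfl <;> assumption

private theorem TB.AA (h : TB D n R f w c d) {s t s' t' : ℕ} (hs : s < n) (ht : t < n)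
    (hs' : s' < n) (ht' : t' < n) (h1 : s ≠ s') (h2 : t ≠ t') (h3 : 1 ≤ t) (h4 : 1 ≤ t') :
    Nd D ({f s, c t} : Finset V) ({f s', c t'} : Finset V) :=
  nd22 (h.nff hs hs' h1) (h.nfc hs h4 ht') (h.nfc hs' h3 ht).symm (h.ncc ht ht' h2)
    fun h5 => h.ff hs hs' h5.1

private theorem TB.BB (h : TB D n R f w c d) {s t s' t' : ℕ} (hs : s < n) (ht : t + 1 < n)
    (hs' : s' < n) (ht' : t' + 1 < n) (h1 : s ≠ s') (h2 : t ≠ t') :
    Nd D ({w s, d t} : Finset V) ({w s', d t'} : Finset V) :=
  nd22 (h.nww hs hs' h1) (h.nwd hs ht') (h.nwd hs' ht).symm (h.ndd (by omega) (by omega) h2)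
    fun h5 => h.ww hs hs' h5.1

private theorem TB.AB (h : TB D n R f w c d) {s t s' t' : ℕ} (hs : s < n) (ht : t < n)
    (hs' : s' < n) (ht' : t' < n) (h1 : ¬ (R s s' ∧ t ≤ t')) :
    Nd D ({f s, c t} : Finset V) ({w s', d t'} : Finset V) :=
  nd22 (h.nfw hs hs') (h.nfd hs ht') (h.ncw ht hs') (h.ncd ht ht')
    fun h5 => h1 ⟨(h.fw s hs s' hs').mp h5.1, (h.cd t ht t' ht').mp h5.2.2.2⟩

private theorem TB.BA (h : TB D n R f w c d) {s t s' t' : ℕ} (hs : s < n) (ht : t < n)
    (hs' : s' < n) (ht' : t' < n) (h1 : ¬ (R s s' ∧ t ≤ t')) :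
    Nd D ({w s', d t'} : Finset V) ({f s, c t} : Finset V) := (h.AB hs ht hs' ht' h1).symm

private theorem TB.cAB (h : TB D n R f w c d) {s t s' t' : ℕ} (hs : s < n) (ht : t < n)
    (hs' : s' < n) (ht' : t' < n) (h1 : R s s') (h2 : t ≤ t') :
    Cmp D ({f s, c t} : Finset V) ({w s', d t'} : Finset V) :=
  cmp22 ((h.fw s hs s' hs').mpr h1) (h.fd s hs t' ht') (h.cw t ht s' hs')
    ((h.cd t ht t' ht').mpr h2)

private theorem TB.cBA (h : TB D n R f w c d) {s t s' t' : ℕ} (hs : s < n) (ht : t < n)
    (hs' : s' < n) (ht' : t' < n) (h1 : R s s') (h2 : t ≤ t') :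
    Cmp D ({w s', d t'} : Finset V) ({f s, c t} : Finset V) :=
  cmp_symm (h.cAB hs ht hs' ht' h1 h2)

end

private theorem ne2 {V : Type} [DecidableEq V] (u v : V) : ({u, v} : Finset V).Nonempty :=
  Finset.insert_nonempty _ _

private theorem hh {V : Type} {D : SimpleGraph V} {k : ℕ} {f w c d : ℕ → V} (hk : 1 ≤ k)
    (hn : NoSpi k D) (h : TB D (k + 11) (fun i j => i ≤ j) f w c d) : False := by
  classical
  refine eng h.tri hn {f 3, c (k + 1)} {w 6, d (k + 4)} {f 5, c (k + 3)} {w 8, d (k + 2)}
    {f 7, c (k + 2)} {w 4, d (k + 6)} {f 1, c (k + 5)} {w 2, d (k + 8)}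
    (fun t => {f (9 + t), c (k - t)}) (fun t => {w (9 + t), d (k - t)})
    (ne2 _ _) (ne2 _ _) (ne2 _ _) (ne2 _ _) (ne2 _ _) (ne2 _ _) (ne2 _ _) (ne2 _ _)
    (fun t _ => ne2 _ _) (fun t _ => ne2 _ _)
    (h.cAB (by omega) (by omega) (by omega) (by omega) (by omega) (by omega))
    (h.cBA (by omega) (by omega) (by omega) (by omega) (by omega) (by omega))
    (h.cAB (by omega) (by omega) (by omega) (by omega) (by omega) (by omega))
    (h.cBA (by omega) (by omega) (by omega) (by omega) (by omega) (by omega))
    (h.cAB (by omega) (by omega) (by omega) (by omega) (by omega) (by omega))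
    (h.cBA (by omega) (by omega) (by omega) (by omega) (by omega) (by omega))
    (h.cAB (by omega) (by omega) (by omega) (by omega) (by omega) (by omega))
    (h.AA (by omega) (by omega) (by omega) (by omega) (by omega) (by omega) (by omega)
      (by omega)).1
    (h.AA (by omega) (by omega) (by omega) (by omega) (by omega) (by omega) (by omega)
      (by omega)).1
    (h.AA (by omega) (by omega) (by omega) (by omega) (by omega) (by omega) (by omega)
      (by omega)).1
    (h.BB (by omega) (by omega) (by omega) (by omega) (by omega) (by omega)).1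
    (h.BB (by omega) (by omega) (by omega) (by omega) (by omega) (by omega)).1
    (h.BB (by omega) (by omega) (by omega) (by omega) (by omega) (by omega)).1
    (h.BB (by omega) (by omega) (by omega) (by omega) (by omega) (by omega)).1
    (h.AB (by omega) (by omega) (by omega) (by omega) (by omega))
    (h.BA (by omega) (by omega) (by omega) (by omega) (by omega))
    (h.BA (by omega) (by omega) (by omega) (by omega) (by omega))
    (h.BB (by omega) (by omega) (by omega) (by omega) (by omega) (by omega))
    (h.BA (by omega) (by omega) (by omega) (by omega) (by omega))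
    (h.BA (by omega) (by omega) (by omega) (by omega) (by omega))
    (h.BB (by omega) (by omega) (by omega) (by omega) (by omega) (by omega))
    (h.BA (by omega) (by omega) (by omega) (by omega) (by omega))
    (h.BA (by omega) (by omega) (by omega) (by omega) (by omega))
    (h.AA (by omega) (by omega) (by omega) (by omega) (by omega) (by omega) (by omega)
      (by omega))
    (h.AA (by omega) (by omega) (by omega) (by omega) (by omega) (by omega) (by omega)
      (by omega))
    (h.AB (by omega) (by omega) (by omega) (by omega) (by omega))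
    (h.AA (by omega) (by omega) (by omega) (by omega) (by omega) (by omega) (by omega)
      (by omega))
    (h.AB (by omega) (by omega) (by omega) (by omega) (by omega))
    ?_ ?_ ?_ ?_ ?_ ?_ ?_ ?_ ?_ ?_ ?_ ?_
  · intro t ht
    exact h.cAB (by omega) (by omega) (by omega) (by omega) le_rfl (by omega)
  · intro t ht u hu hne
    exact h.AA (by omega) (by omega) (by omega) (by omega) (by omega) (by omega) (by omega)
      (by omega)
  · intro t ht u hu hne
    exact h.AB (by omega) (by omega) (by omega) (by omega) (by omega)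
  · intro t ht u hu hne
    exact h.BB (by omega) (by omega) (by omega) (by omega) (by omega) (by omega)
  · intro t ht
    exact ⟨h.AA (by omega) (by omega) (by omega) (by omega) (by omega) (by omega) (by omega)
      (by omega), h.AB (by omega) (by omega) (by omega) (by omega) (by omega)⟩
  · intro t ht
    exact ⟨h.BA (by omega) (by omega) (by omega) (by omega) (by omega),
      h.BB (by omega) (by omega) (by omega) (by omega) (by omega) (by omega)⟩
  · intro t ht
    exact ⟨h.AA (by omega) (by omega) (by omega) (by omega) (by omega) (by omega) (by omega)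
      (by omega), h.AB (by omega) (by omega) (by omega) (by omega) (by omega)⟩
  · intro t ht
    exact ⟨h.BA (by omega) (by omega) (by omega) (by omega) (by omega),
      h.BB (by omega) (by omega) (by omega) (by omega) (by omega) (by omega)⟩
  · intro t ht
    exact ⟨h.AA (by omega) (by omega) (by omega) (by omega) (by omega) (by omega) (by omega)
      (by omega), h.AB (by omega) (by omega) (by omega) (by omega) (by omega)⟩
  · intro t ht
    exact ⟨h.BA (by omega) (by omega) (by omega) (by omega) (by omega),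
      h.BB (by omega) (by omega) (by omega) (by omega) (by omega) (by omega)⟩
  · intro t ht
    exact ⟨h.AA (by omega) (by omega) (by omega) (by omega) (by omega) (by omega) (by omega)
      (by omega), h.AB (by omega) (by omega) (by omega) (by omega) (by omega)⟩
  · intro t ht
    exact ⟨h.BA (by omega) (by omega) (by omega) (by omega) (by omega),
      h.BB (by omega) (by omega) (by omega) (by omega) (by omega) (by omega)⟩

private theorem mh {V : Type} {D : SimpleGraph V} {k : ℕ} {f w c d : ℕ → V} (hk : 1 ≤ k)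
    (hn : NoSpi k D) (h : TB D (k + 11) (fun i j => i = j) f w c d) : False := by
  classical
  -- the centre `{c (k + 4)}`
  have cB : ∀ s t, s < k + 11 → t < k + 11 → k + 4 ≤ t →
      Cmp D ({c (k + 4), c (k + 4)} : Finset V) {w s, d t} := fun s t hs ht h1 =>
    cmp22 (h.cw _ (by omega) _ hs) ((h.cd _ (by omega) _ ht).mpr h1) (h.cw _ (by omega) _ hs)
      ((h.cd _ (by omega) _ ht).mpr h1)
  have nCA : ∀ s t, s < k + 11 → t < k + 11 → t ≠ k + 4 →
      Nd D ({c (k + 4), c (k + 4)} : Finset V) {f s, c t} := fun s t hs ht h1 =>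
    nd22 (h.nfc hs (by omega) (by omega)).symm (h.ncc (by omega) ht (Ne.symm h1))
      (h.nfc hs (by omega) (by omega)).symm (h.ncc (by omega) ht (Ne.symm h1))
      fun h5 => h.fc hs (by omega) h5.1.symm
  have nCB : ∀ s t, s < k + 11 → t < k + 11 → t < k + 4 →
      Nd D ({c (k + 4), c (k + 4)} : Finset V) {w s, d t} := fun s t hs ht h1 =>
    nd22 (h.ncw (by omega) hs) (h.ncd (by omega) ht) (h.ncw (by omega) hs)
      (h.ncd (by omega) ht) fun h5 => by
        have := (h.cd _ (by omega) _ ht).mp h5.2.1
        omega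
  -- the end `{d 3}`
  have cA : ∀ s t, s < k + 11 → t < k + 11 → t ≤ 3 →
      Cmp D ({f s, c t} : Finset V) {d 3, d 3} := fun s t hs ht h1 =>
    cmp22 (h.fd _ hs _ (by omega)) (h.fd _ hs _ (by omega))
      ((h.cd _ ht _ (by omega)).mpr h1) ((h.cd _ ht _ (by omega)).mpr h1)
  have nZA : ∀ s t, s < k + 11 → t < k + 11 → 3 < t →
      Nd D ({d 3, d 3} : Finset V) {f s, c t} := fun s t hs ht h1 =>
    nd22 (h.nfd hs (by omega)).symm (h.ncd ht (by omega)).symm (h.nfd hs (by omega)).symm
      (h.ncd ht (by omega)).symm fun h5 => by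
        have := (h.cd _ ht _ (by omega)).mp h5.2.1.symm
        omega
  have nZB : ∀ s t, s < k + 11 → t < k + 11 → t ≠ 3 →
      Nd D ({d 3, d 3} : Finset V) {w s, d t} := fun s t hs ht h1 =>
    nd22 (h.nwd hs (by omega)).symm (h.ndd (by omega) ht (Ne.symm h1))
      (h.nwd hs (by omega)).symm (h.ndd (by omega) ht (Ne.symm h1))
      fun h5 => h.wd hs (by omega) h5.1.symm
  refine eng h.tri hn {c (k + 4), c (k + 4)} {w 1, d (k + 8)} {f 1, c (k + 5)} {w 2, d (k + 9)}
    {f 2, c (k + 6)} {w 3, d (k + 7)} {f 3, c 2} {d 3, d 3}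
    (fun t => {f (4 + t), c (4 + t)}) (fun t => {w (4 + t), d (4 + t)})
    (ne2 _ _) (ne2 _ _) (ne2 _ _) (ne2 _ _) (ne2 _ _) (ne2 _ _) (ne2 _ _) (ne2 _ _)
    (fun t _ => ne2 _ _) (fun t _ => ne2 _ _)
    (cB _ _ (by omega) (by omega) (by omega))
    (h.cBA (by omega) (by omega) (by omega) (by omega) rfl (by omega))
    (cB _ _ (by omega) (by omega) (by omega))
    (h.cBA (by omega) (by omega) (by omega) (by omega) rfl (by omega))
    (cB _ _ (by omega) (by omega) (by omega))
    (h.cBA (by omega) (by omega) (by omega) (by omega) rfl (by omega))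
    (cA _ _ (by omega) (by omega) (by omega))
    (nCA _ _ (by omega) (by omega) (by omega)).1
    (nCA _ _ (by omega) (by omega) (by omega)).1
    (nCA _ _ (by omega) (by omega) (by omega)).1
    (h.BB (by omega) (by omega) (by omega) (by omega) (by omega) (by omega)).1
    (h.BB (by omega) (by omega) (by omega) (by omega) (by omega) (by omega)).1
    (h.BB (by omega) (by omega) (by omega) (by omega) (by omega) (by omega)).1
    (nZB _ _ (by omega) (by omega) (by omega)).symm.1
    (nd22 (h.ncd (by omega) (by omega)) (h.ncd (by omega) (by omega)) (h.ncd (by omega) (by omega))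
      (h.ncd (by omega) (by omega)) fun h5 => by
        have := (h.cd _ (by omega) _ (by omega)).mp h5.1
        omega)
    (h.BA (by omega) (by omega) (by omega) (by omega) (by omega))
    (h.BA (by omega) (by omega) (by omega) (by omega) (by omega))
    (nZB _ _ (by omega) (by omega) (by omega)).symm
    (h.BA (by omega) (by omega) (by omega) (by omega) (by omega))
    (h.BA (by omega) (by omega) (by omega) (by omega) (by omega))
    (nZB _ _ (by omega) (by omega) (by omega)).symm
    (h.BA (by omega) (by omega) (by omega) (by omega) (by omega))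
    (h.BA (by omega) (by omega) (by omega) (by omega) (by omega))
    (h.AA (by omega) (by omega) (by omega) (by omega) (by omega) (by omega) (by omega)
      (by omega))
    (h.AA (by omega) (by omega) (by omega) (by omega) (by omega) (by omega) (by omega)
      (by omega))
    (nZA _ _ (by omega) (by omega) (by omega)).symm
    (h.AA (by omega) (by omega) (by omega) (by omega) (by omega) (by omega) (by omega)
      (by omega))
    (nZA _ _ (by omega) (by omega) (by omega)).symm
    ?_ ?_ ?_ ?_ ?_ ?_ ?_ ?_ ?_ ?_ ?_ ?_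
  · intro t ht
    exact h.cAB (by omega) (by omega) (by omega) (by omega) rfl le_rfl
  · intro t ht u hu hne
    exact h.AA (by omega) (by omega) (by omega) (by omega) (by omega) (by omega) (by omega)
      (by omega)
  · intro t ht u hu hne
    exact h.AB (by omega) (by omega) (by omega) (by omega) (by omega)
  · intro t ht u hu hne
    exact h.BB (by omega) (by omega) (by omega) (by omega) (by omega) (by omega)
  · intro t ht
    exact ⟨nCA _ _ (by omega) (by omega) (by omega), nCB _ _ (by omega) (by omega) (by omega)⟩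
  · intro t ht
    exact ⟨h.BA (by omega) (by omega) (by omega) (by omega) (by omega),
      h.BB (by omega) (by omega) (by omega) (by omega) (by omega) (by omega)⟩
  · intro t ht
    exact ⟨h.AA (by omega) (by omega) (by omega) (by omega) (by omega) (by omega) (by omega)
      (by omega), h.AB (by omega) (by omega) (by omega) (by omega) (by omega)⟩
  · intro t ht
    exact ⟨h.BA (by omega) (by omega) (by omega) (by omega) (by omega),
      h.BB (by omega) (by omega) (by omega) (by omega) (by omega) (by omega)⟩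
  · intro t ht
    exact ⟨h.AA (by omega) (by omega) (by omega) (by omega) (by omega) (by omega) (by omega)
      (by omega), h.AB (by omega) (by omega) (by omega) (by omega) (by omega)⟩
  · intro t ht
    exact ⟨h.BA (by omega) (by omega) (by omega) (by omega) (by omega),
      h.BB (by omega) (by omega) (by omega) (by omega) (by omega) (by omega)⟩
  · intro t ht
    exact ⟨h.AA (by omega) (by omega) (by omega) (by omega) (by omega) (by omega) (by omega)
      (by omega), h.AB (by omega) (by omega) (by omega) (by omega) (by omega)⟩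
  · intro t ht
    exact ⟨nZA _ _ (by omega) (by omega) (by omega), nZB _ _ (by omega) (by omega) (by omega)⟩

theorem pT2 : S_T2 := by
  intro V D k f w c d hk ht hn hcd hfd hcw
  constructor
  · intro hfw
    exact hh hk hn ⟨by omega, ht, hcd, hfd, hcw, hfw, fun i => le_rfl,
      fun i j h1 h2 => le_antisymm h1 h2⟩
  · intro hfw
    exact mh hk hn ⟨by omega, ht, hcd, hfd, hcw, hfw, fun i => rfl, fun i j h1 _ => h1⟩

end Pool.Agent.MPd439b2.OP
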