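import Pool.Agent.Lib.MP_d439b2_co.OP.SpecA

/-!
# MP_d439b2_co, OP: types X and W see only one side (helper12)
-/

set_option autoImplicit false

namespace Pool.Agent.MPd439b2.OP

open Pool.Agent.MPd439b2 Pool.Agent.MPd439b2.W Pool.Agent.MPd439b2.SA

theorem pTXa : S_Mix → S_TXa := by
  intro hMix V D m₀ L hC
  have key : ∀ L : LD V, Ctx D m₀ L → ∀ (v : V) (i j : ℕ), TX D L i v → j + 2 < L.N →
      ¬ D.Adj v (L.a j) := by
    intro L hC v i j hv hj hva
    have hk := hC.hk
    have hge := hv.ge
    have hle := hv.le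
    by_cases h : L.k ≤ j
    · exact hMix V D m₀ L hC v j i h hj hge (by omega) hva hv.self
    · refine hMix V D m₀ L.rev hC.rev v (L.N - 1 - (i + 2)) (L.N - 1 - j) ?_ ?_ ?_ ?_ ?_ ?_
      · rw [rev_k]
        omega
      · rw [rev_N]
        omega
      · rw [rev_k]
        omega
      · rw [rev_N]
        omega
      · rw [rev_a, Nat.sub_sub_self (by omega)]
        exact hv.adj (by omega) (by omega) (by omega)
      · rw [rev_b, Nat.sub_sub_self (by omega)]
        exact hva
  refine ⟨fun v i j hv hj => key L hC v i j hv hj, fun v i j hv hj hjN hvb => ?_⟩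
  have h1 := key L.rev hC.rev v (L.N - 1 - i) (L.N - 1 - j) hv.2 (by rw [rev_N]; omega)
  rw [rev_a, Nat.sub_sub_self (by omega)] at h1
  exact h1 hvb

end Pool.Agent.MPd439b2.OP
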