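import Pool.Agent.Lib.MP_d439b2_co.OP.SpecA

/-!
# MP_d439b2_co, OP: the traces on the ladder are exact (Tb) (helper24)
-/

set_option autoImplicit false

namespace Pool.Agent.MPd439b2.OP

open Pool.Agent.MPd439b2 Pool.Agent.MPd439b2.W Pool.Agent.MPd439b2.SA

private theorem n1 {V : Type} {D : SimpleGraph V} {u w : V} (h1 : u ≠ w) (h2 : ¬ D.Adj u w) :
    Nd D {u} {w} := nd_sing.mpr ⟨h1, h2⟩

private theorem n2l {V : Type} [DecidableEq V] {D : SimpleGraph V} {u w w' : V} (h1 : u ≠ w)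
    (h2 : u ≠ w') (h3 : ¬ D.Adj u w) : Nd D {u} {w, w'} := by
  refine nd_of ?_ (Finset.mem_singleton_self u) (by simp) h3
  rw [Finset.disjoint_singleton_left]
  simp [h1, h2]

private theorem n2r {V : Type} [DecidableEq V] {D : SimpleGraph V} {u w w' : V} (h1 : u ≠ w)
    (h2 : u ≠ w') (h3 : ¬ D.Adj u w') : Nd D {u} {w, w'} := by
  refine nd_of ?_ (Finset.mem_singleton_self u) (by simp) h3
  rw [Finset.disjoint_singleton_left]
  simp [h1, h2]

/-- (A) -/
private theorem casA {V : Type} {D : SimpleGraph V} {m₀ : ℕ} {L : LD V} (hC : Ctx D m₀ L) (v : V)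
    {t l s r r' : ℕ} (ht : L.k ≤ t) (htl : t < l) (hls : l ≤ s) (hs : s < L.N) (hlr : l ≤ r)
    (hr : r < L.N) (hlr' : l ≤ r') (hr' : r' < L.N) (hne : r ≠ r') (vt : D.Adj v (L.b t))
    (vs : D.Adj v (L.b s)) (vr : ¬ D.Adj v (L.b r)) (vr' : ¬ D.Adj v (L.b r')) : False := by
  classical
  have htri := hC.tri
  have hL := hC.ol
  have sy : ∀ {u v : V}, ¬ D.Adj u v → ¬ D.Adj v u := fun h h' => h h'.symm
  set k := L.k with hkdef
  set N := L.N with hNdef
  have hsr : s ≠ r := fun h => vr (h ▸ vs)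
  have hsr' : s ≠ r' := fun h => vr' (h ▸ vs)
  have vna : ∀ i < N, v ≠ L.a i := by
    intro i hi h
    rw [h] at vt vs
    have h1 := (OLab hL hi (by omega)).mp vt
    have h2 := (OLab hL hi (by omega)).mp vs
    omega
  have vnb : ∀ i < N, v ≠ L.b i := fun i hi => ne_of vs (OLbb hL hi hs)
  have xl : ∀ j < N, l ≤ j → D.Adj (L.x l) (L.b j) := fun j hj h => (OLxb hL (by omega) hj).mpr h
  have xl' : ∀ j < N, j < l → ¬ D.Adj (L.x l) (L.b j) := fun j hj h h' => by
    have := (OLxb hL (by omega) hj).mp h'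
    omega
  have xk : ∀ j < N, k ≤ j → D.Adj (L.x k) (L.b j) := fun j hj h => (OLxb hL (by omega) hj).mpr h
  have xk' : ∀ j < N, j < k → ¬ D.Adj (L.x k) (L.b j) := fun j hj h h' => by
    have := (OLxb hL (by omega) hj).mp h'
    omega
  have ba : ∀ i < N, ∀ j < N, i ≠ j → Nd D {L.b i} {L.a j} := fun i hi j hj h =>
    n1 (OLnab hL hj hi).symm fun h' => h ((OLba hL hi hj).mp h')
  have ab : ∀ i < N, ∀ j < N, i ≠ j → Nd D {L.a i} {L.b j} := fun i hi j hj h =>
    n1 (OLnab hL hi hj) fun h' => h ((OLab hL hi hj).mp h')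
  have bb : ∀ i < N, ∀ j < N, i ≠ j → Nd D {L.b i} {L.b j} := fun i hi j hj h =>
    n1 (OLnbb hL hi hj h) (OLbb hL hi hj)
  have aa : ∀ i < N, ∀ j < N, i ≠ j → Nd D {L.a i} {L.a j} := fun i hi j hj h =>
    n1 (OLnaa hL hi hj h) (OLaa hL hi hj)
  have edge : ∀ i < N, Cmp D {L.b i} {L.a i} := fun i hi => cmp_sing.mpr ((OLba hL hi hi).mpr rfl)
  have hl1 : l + 1 < N := by
    rcases lt_or_gt_of_ne hne with h | h <;> omega
  have vxl : L.x l ≠ v := (ne_of vt (xl' t (by omega) htl)).symm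
  -- the block `{v, x k}`
  have bl_b : ∀ j < N, ¬ D.Adj v (L.b j) → Nd D {L.b j} {v, L.x k} := fun j hj h =>
    n2l (vnb j hj).symm (OLnxb hL (by omega) hj).symm (sy h)
  have bl_b' : ∀ j < k, Nd D {L.b j} {v, L.x k} := fun j hj =>
    n2r (vnb j (by omega)).symm (OLnxb hL (by omega) (by omega)).symm (sy (xk' j (by omega) hj))
  have bl_a : ∀ j < N, Nd D {L.a j} {v, L.x k} := fun j hj =>
    n2r (vna j hj).symm (OLnxa hL (by omega) hj).symm (sy (OLxa hL (by omega) hj))
  refine eng htri hC.ns {L.x l} {L.b r} {L.a r} {L.b r'} {L.a r'} {L.b s} {v, L.x k} {L.b t}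
    (fun q => {L.a q}) (fun q => {L.b q})
    (by simp) (by simp) (by simp) (by simp) (by simp) (by simp) (by simp) (by simp)
    (fun _ _ => by simp) (fun _ _ => by simp)
    (cmp_sing.mpr (xl r hr hlr)) (edge r hr) (cmp_sing.mpr (xl r' hr' hlr')) (edge r' hr')
    (cmp_sing.mpr (xl s hs hls)) ?_ ?_
    (Finset.disjoint_singleton.mpr (OLnxa hL (by omega) (by omega)))
    (Finset.disjoint_singleton.mpr (OLnxa hL (by omega) (by omega)))
    ?_ (bb r hr r' hr' hne).1 (bb r hr s hs hsr.symm).1 (bb r' hr' s hs hsr'.symm).1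
    (bb s hs t (by omega) (by omega)).1
    (n1 (OLnxb hL (by omega) (by omega)) (xl' t (by omega) htl))
    (ba r hr r' hr' hne) (bl_b r hr vr) (bb r hr t (by omega) (by omega))
    (ba r' hr' r hr hne.symm) (bl_b r' hr' vr') (bb r' hr' t (by omega) (by omega))
    (ba s hs r hr hsr) (ba s hs r' hr' hsr') (aa r hr r' hr' hne) (bl_a r hr)
    (ab r hr t (by omega) (by omega)) (bl_a r' hr') (ab r' hr' t (by omega) (by omega))
    (fun q hq => cmp_sing.mpr ((OLab hL (by omega) (by omega)).mpr rfl))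
    (fun q hq q' hq' h => aa q (by omega) q' (by omega) h)
    (fun q hq q' hq' h => ab q (by omega) q' (by omega) h)
    (fun q hq q' hq' h => bb q (by omega) q' (by omega) h)
    (fun q hq => ⟨n1 (OLnxa hL (by omega) (by omega)) (OLxa hL (by omega) (by omega)),
      n1 (OLnxb hL (by omega) (by omega)) (xl' q (by omega) (by omega))⟩)
    (fun q hq => ⟨ba r hr q (by omega) (by omega), bb r hr q (by omega) (by omega)⟩)
    (fun q hq => ⟨aa r hr q (by omega) (by omega), ab r hr q (by omega) (by omega)⟩)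
    (fun q hq => ⟨ba r' hr' q (by omega) (by omega), bb r' hr' q (by omega) (by omega)⟩)
    (fun q hq => ⟨aa r' hr' q (by omega) (by omega), ab r' hr' q (by omega) (by omega)⟩)
    (fun q hq => ⟨ba s hs q (by omega) (by omega), bb s hs q (by omega) (by omega)⟩)
    (fun q hq => ⟨(bl_a q (by omega)).symm, (bl_b' q hq).symm⟩)
    (fun q hq => ⟨ba t (by omega) q (by omega) (by omega),
      bb t (by omega) q (by omega) (by omega)⟩)
  · intro u hu z hz
    rw [Finset.mem_singleton] at hu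
    rw [Finset.mem_insert, Finset.mem_singleton] at hz
    subst hu
    rcases hz with rfl | rfl
    · exact vs.symm
    · exact (xk s hs (by omega)).symm
  · intro u hu z hz
    rw [Finset.mem_singleton] at hz
    rw [Finset.mem_insert, Finset.mem_singleton] at hu
    subst hz
    rcases hu with rfl | rfl
    · exact vt
    · exact xk t (by omega) ht
  · rw [Finset.disjoint_singleton_left]
    simp [vxl, OLnxx hL (i := l) (j := k) (by omega) (by omega) (by omega)]

/-- (B) -/
private theorem casB {V : Type} {D : SimpleGraph V} {m₀ : ℕ} {L : LD V} (hC : Ctx D m₀ L) (v : V)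
    {t t' l s u : ℕ} (ht : L.k ≤ t) (ht' : L.k ≤ t') (htt : t ≠ t') (htl : t < l) (htl' : t' < l)
    (hls : l ≤ s) (hs : s < L.N) (hlu : l ≤ u) (hu : u < L.N) (vt : D.Adj v (L.b t))
    (vt' : D.Adj v (L.b t')) (vs : D.Adj v (L.b s)) (vu : ¬ D.Adj v (L.b u)) : False := by
  classical
  have htri := hC.tri
  have hL := hC.ol
  have sy : ∀ {u v : V}, ¬ D.Adj u v → ¬ D.Adj v u := fun h h' => h h'.symm
  set k := L.k with hkdef
  set N := L.N with hNdef
  have hsu : s ≠ u := fun h => vu (h ▸ vs)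
  have vna : ∀ i < N, v ≠ L.a i := by
    intro i hi h
    rw [h] at vt vs
    have h1 := (OLab hL hi (by omega)).mp vt
    have h2 := (OLab hL hi (by omega)).mp vs
    omega
  have vnb : ∀ i < N, v ≠ L.b i := fun i hi => ne_of vs (OLbb hL hi hs)
  have xl : ∀ j < N, l ≤ j → D.Adj (L.x l) (L.b j) := fun j hj h => (OLxb hL (by omega) hj).mpr h
  have xl' : ∀ j < N, j < l → ¬ D.Adj (L.x l) (L.b j) := fun j hj h h' => by
    have := (OLxb hL (by omega) hj).mp h'
    omega
  have xk : ∀ j < N, k ≤ j → D.Adj (L.x k) (L.b j) := fun j hj h => (OLxb hL (by omega) hj).mpr h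
  have xk' : ∀ j < N, j < k → ¬ D.Adj (L.x k) (L.b j) := fun j hj h h' => by
    have := (OLxb hL (by omega) hj).mp h'
    omega
  have ba : ∀ i < N, ∀ j < N, i ≠ j → Nd D {L.b i} {L.a j} := fun i hi j hj h =>
    n1 (OLnab hL hj hi).symm fun h' => h ((OLba hL hi hj).mp h')
  have ab : ∀ i < N, ∀ j < N, i ≠ j → Nd D {L.a i} {L.b j} := fun i hi j hj h =>
    n1 (OLnab hL hi hj) fun h' => h ((OLab hL hi hj).mp h')
  have bb : ∀ i < N, ∀ j < N, i ≠ j → Nd D {L.b i} {L.b j} := fun i hi j hj h =>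
    n1 (OLnbb hL hi hj h) (OLbb hL hi hj)
  have aa : ∀ i < N, ∀ j < N, i ≠ j → Nd D {L.a i} {L.a j} := fun i hi j hj h =>
    n1 (OLnaa hL hi hj h) (OLaa hL hi hj)
  have edge : ∀ i < N, Cmp D {L.b i} {L.a i} := fun i hi => cmp_sing.mpr ((OLba hL hi hi).mpr rfl)
  have hl1 : l + 1 < N := by
    rcases lt_or_gt_of_ne hsu with h | h <;> omega
  have vxl : v ≠ L.x l := ne_of vt (xl' t (by omega) htl)
  have bl_b : ∀ j < N, ¬ D.Adj v (L.b j) → Nd D {L.b j} {v, L.x k} := fun j hj h =>
    n2l (vnb j hj).symm (OLnxb hL (by omega) hj).symm (sy h)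
  have bl_b' : ∀ j < k, Nd D {L.b j} {v, L.x k} := fun j hj =>
    n2r (vnb j (by omega)).symm (OLnxb hL (by omega) (by omega)).symm (sy (xk' j (by omega) hj))
  have bl_a : ∀ j < N, Nd D {L.a j} {v, L.x k} := fun j hj =>
    n2r (vna j hj).symm (OLnxa hL (by omega) hj).symm (sy (OLxa hL (by omega) hj))
  have cC : ∀ j < N, k ≤ j → D.Adj v (L.b j) → Cmp D {v, L.x k} {L.b j} := by
    intro j hj hkj hv y hy z hz
    rw [Finset.mem_singleton] at hz
    rw [Finset.mem_insert, Finset.mem_singleton] at hy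
    subst hz
    rcases hy with rfl | rfl
    · exact hv
    · exact xk j hj hkj
  refine eng htri hC.ns {v, L.x k} {L.b t} {L.a t} {L.b t'} {L.a t'} {L.b s} {L.x l} {L.b u}
    (fun q => {L.a q}) (fun q => {L.b q})
    (by simp) (by simp) (by simp) (by simp) (by simp) (by simp) (by simp) (by simp)
    (fun _ _ => by simp) (fun _ _ => by simp)
    (cC t (by omega) ht vt) (edge t (by omega)) (cC t' (by omega) ht' vt') (edge t' (by omega))
    (cC s hs (by omega) vs) (cmp_sing.mpr (xl s hs hls).symm) (cmp_sing.mpr (xl u hu hlu))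
    (bl_a t (by omega)).1.symm (bl_a t' (by omega)).1.symm ?_
    (bb t (by omega) t' (by omega) htt).1 (bb t (by omega) s hs (by omega)).1
    (bb t' (by omega) s hs (by omega)).1 (bb s hs u hu hsu).1
    (bl_b u hu vu).symm
    (ba t (by omega) t' (by omega) htt)
    (n1 (OLnxb hL (by omega) (by omega)).symm (sy (xl' t (by omega) htl)))
    (bb t (by omega) u hu (by omega))
    (ba t' (by omega) t (by omega) htt.symm)
    (n1 (OLnxb hL (by omega) (by omega)).symm (sy (xl' t' (by omega) htl')))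
    (bb t' (by omega) u hu (by omega))
    (ba s hs t (by omega) (by omega)) (ba s hs t' (by omega) (by omega))
    (aa t (by omega) t' (by omega) htt)
    (n1 (OLnxa hL (by omega) (by omega)).symm (sy (OLxa hL (by omega) (by omega))))
    (ab t (by omega) u hu (by omega))
    (n1 (OLnxa hL (by omega) (by omega)).symm (sy (OLxa hL (by omega) (by omega))))
    (ab t' (by omega) u hu (by omega))
    (fun q hq => cmp_sing.mpr ((OLab hL (by omega) (by omega)).mpr rfl))
    (fun q hq q' hq' h => aa q (by omega) q' (by omega) h)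
    (fun q hq q' hq' h => ab q (by omega) q' (by omega) h)
    (fun q hq q' hq' h => bb q (by omega) q' (by omega) h)
    (fun q hq => ⟨(bl_a q (by omega)).symm, (bl_b' q hq).symm⟩)
    (fun q hq => ⟨ba t (by omega) q (by omega) (by omega), bb t (by omega) q (by omega) (by omega)⟩)
    (fun q hq => ⟨aa t (by omega) q (by omega) (by omega), ab t (by omega) q (by omega) (by omega)⟩)
    (fun q hq => ⟨ba t' (by omega) q (by omega) (by omega),
      bb t' (by omega) q (by omega) (by omega)⟩)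
    (fun q hq => ⟨aa t' (by omega) q (by omega) (by omega),
      ab t' (by omega) q (by omega) (by omega)⟩)
    (fun q hq => ⟨ba s hs q (by omega) (by omega), bb s hs q (by omega) (by omega)⟩)
    (fun q hq => ⟨n1 (OLnxa hL (by omega) (by omega)) (OLxa hL (by omega) (by omega)),
      n1 (OLnxb hL (by omega) (by omega)) (xl' q (by omega) (by omega))⟩)
    (fun q hq => ⟨ba u hu q (by omega) (by omega), bb u hu q (by omega) (by omega)⟩)
  rw [Finset.disjoint_singleton_right]
  simp [vxl.symm, OLnxx hL (i := l) (j := k) (by omega) (by omega) (by omega)]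

theorem pTb : S_Tb := by
  classical
  intro V D m₀ L hC v
  by_contra hcon
  push Not at hcon
  obtain ⟨hcon1, j, j', hkj, hjj, hjN, vj, vj', hN⟩ := hcon
  -- the least element
  have hex : ∃ t, L.k ≤ t ∧ D.Adj v (L.b t) := ⟨j, hkj, vj⟩
  obtain ⟨ht, vt⟩ := Nat.find_spec hex
  have hmin : ∀ i, L.k ≤ i → i < Nat.find hex → ¬ D.Adj v (L.b i) := fun i h1 h2 h3 =>
    Nat.find_min hex h2 ⟨h1, h3⟩
  have htj : Nat.find hex ≤ j := Nat.find_min' hex ⟨hkj, vj⟩
  generalize Nat.find hex = t at ht vt hmin htj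
  have hA : ∀ r r', t < r → r < L.N → t < r' → r' < L.N → r ≠ r' → ¬ D.Adj v (L.b r) →
      D.Adj v (L.b r') := by
    intro r r' h1 h2 h3 h4 h5 h6
    by_contra h7
    exact casA hC v ht (Nat.lt_succ_self t) (show t.succ ≤ j' by omega) hjN h1 h2 h3 h4 h5 vt vj'
      h6 h7
  obtain ⟨h1, h2⟩ := hcon1 t ht (by omega)
  obtain ⟨u, hu1, hu2, hu3⟩ := h1
  have hut : t < u ∧ ¬ D.Adj v (L.b u) := by
    rcases hu3 with ⟨h3, h4⟩ | ⟨h3, h4⟩
    · exact absurd h3 (hmin u hu1 h4)
    · rcases Nat.lt_or_ge t u with h5 | h5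
      · exact ⟨h5, h3⟩
      · have h6 : u = t := by omega
        subst h6
        exact absurd vt h3
  obtain ⟨htu, vu⟩ := hut
  have hall : ∀ r, t < r → r < L.N → r ≠ u → D.Adj v (L.b r) := fun r h3 h4 h5 =>
    hA u r htu hu2 h3 h4 h5.symm vu
  have hu4 : u ≠ t + 1 := by
    intro h3
    subst h3
    obtain ⟨r, hr1, hr2, hr3⟩ := h2
    rcases hr3 with ⟨h3, h4⟩ | ⟨h3, h4⟩
    · rcases Nat.lt_or_ge r t with h5 | h5
      · exact hmin r hr1 h5 h3
      · have h6 := h4 h5
        rw [h6] at h3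
        exact vu h3
    · rcases lt_or_eq_of_le h4.1 with h5 | h5
      · exact h3 (hall r h5 hr2 h4.2)
      · subst h5
        exact h3 vt
  have vt1 : D.Adj v (L.b (t + 1)) := hall (t + 1) (by omega) (by omega) (Ne.symm hu4)
  rcases Nat.lt_or_ge (u + 1) L.N with h3 | h3
  · exact casB hC v ht (show L.k ≤ t + 1 by omega) (by omega) (show t < u by omega)
      (by omega) (show u ≤ L.N - 1 by omega) (by omega) le_rfl hu2 vt vt1
      (hall _ (by omega) (by omega) (by omega)) vu
  · exact casB hC v ht (show L.k ≤ t + 1 by omega) (by omega) (show t < L.N - 2 by omega)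
      (by omega) le_rfl (by omega) (show L.N - 2 ≤ u by omega) hu2 vt vt1
      (hall _ (by omega) (by omega) (by omega)) vu

end Pool.Agent.MPd439b2.OP
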