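import Pool.Agent.Lib.MP_d439b2_co.OP.SpecB

/-!
# MP_d439b2_co, OP: uniqueness of the position (`S_Unq`)
-/

set_option autoImplicit false

namespace Pool.Agent.MPd439b2.OP

open Pool.Agent.MPd439b2 Pool.Agent.MPd439b2.W Pool.Agent.MPd439b2.SA

namespace PUnqAux

variable {V : Type} {D : SimpleGraph V} {L : LD V}

theorem uW {i j : ℕ} {v : V} (h : TW D L i v) (h' : TW D L j v) : i = j := by
  have h1 := TX.uniq (L := L.rev) (show TX D L.rev (L.N - 1 - i) v from h.2)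
    (show TX D L.rev (L.N - 1 - j) v from h'.2)
  have h2 := h.1
  have h3 := h'.1
  omega

theorem uPB {i j : ℕ} {v : V} (h : PB D L i v) (h' : PB D L j v) : i = j := by
  obtain ⟨_, a1, a2, a3, a4⟩ := h
  obtain ⟨_, b1, b2, b3, b4⟩ := h'
  rcases lt_trichotomy i j with h1 | h1 | h1
  · exact absurd b3 (a4 j h1 b2)
  · exact h1
  · exact absurd a3 (b4 i h1 a2)

theorem uPA {i j : ℕ} {v : V} (h : PA D L i v) (h' : PA D L j v) : i = j := by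
  obtain ⟨_, a1, a2, a3, a4⟩ := h
  obtain ⟨_, b1, b2, b3, b4⟩ := h'
  rcases lt_trichotomy i j with h1 | h1 | h1
  · exact absurd a3 (b4 i a1 h1)
  · exact h1
  · exact absurd b3 (a4 j b1 h1)

theorem lX {v : V} (h : v ∈ Lg D L) (h' : v ∈ XX D L) : False := h (Or.inl h')

theorem lW {v : V} (h : v ∈ Lg D L) (h' : v ∈ WW D L) : False := h (Or.inr h')

end PUnqAux

open PUnqAux

theorem pUnq : S_Bpt → S_Unq := by
  intro hB V D m₀ L hc v i j hi hj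
  have h0 := (hB V D m₀ L hc).1 v
  rcases hi with hi | hi | ⟨hi, hi'⟩ | ⟨hi, hi'⟩ <;>
    rcases hj with hj | hj | ⟨hj, hj'⟩ | ⟨hj, hj'⟩
  · exact hi.uniq hj
  · exact absurd ⟨Or.inl ⟨i, hi⟩, Or.inl ⟨j, hj⟩⟩ h0
  · exact (lX hj.1 ⟨i, hi⟩).elim
  · exact (lX hj.1 ⟨i, hi⟩).elim
  · exact absurd ⟨Or.inl ⟨j, hj⟩, Or.inl ⟨i, hi⟩⟩ h0
  · exact uW hi hj
  · exact (lW hj.1 ⟨i, hi⟩).elim
  · exact (lW hj.1 ⟨i, hi⟩).elim
  · exact (lX hi.1 ⟨j, hj⟩).elim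
  · exact (lW hi.1 ⟨j, hj⟩).elim
  · exact uPB hi' hj'
  · exact absurd ⟨Or.inr ⟨hi, j, hj'⟩, Or.inr ⟨hi, i, hi'⟩⟩ h0
  · exact (lX hi.1 ⟨j, hj⟩).elim
  · exact (lW hi.1 ⟨j, hj⟩).elim
  · exact absurd ⟨Or.inr ⟨hi, i, hi'⟩, Or.inr ⟨hi, j, hj'⟩⟩ h0
  · exact uPA hi' hj'

end Pool.Agent.MPd439b2.OP
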