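import Pool.Agent.Lib.MP_d439b2_co.OP.SpecB

/-!
# MP_d439b2_co, OP: k + 2 edges of type X-W (Z3) (helper49)
-/

set_option autoImplicit false

namespace Pool.Agent.MPd439b2.OP

open Pool.Agent.MPd439b2 Pool.Agent.MPd439b2.W Pool.Agent.MPd439b2.SA

theorem pZ3 (hTXa : S_TXa) : S_Z3 := by
  classical
  intro V D m₀ L hC l h c d y hl hh hc hd hcd hyd hy
  have ht := hC.tri
  have hL := hC.ol
  have hk := hC.hk
  have sy : ∀ {u v : V}, ¬ D.Adj u v → ¬ D.Adj v u := fun h h' => h h'.symm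
  have htt : tt L.k = 6 * L.k + 60 := rfl
  have hTX := (hTXa V D m₀ L hC).1
  have hTW := (hTXa V D m₀ L hC).2
  have hlh : l ≤ h := by
    obtain ⟨p, h1, h2, _⟩ := hc 0 (by omega)
    omega
  have n1 : ∀ {u w : V}, u ≠ w → ¬ D.Adj u w → Nd D {u} {w} := fun h1 h2 => nd_sing.mpr ⟨h1, h2⟩
  -- facts on the `c i`
  have cb : ∀ i < L.k + 2, ∀ j, h + 2 ≤ j → j < L.N → D.Adj (c i) (L.b j) := by
    intro i hi j h1 h2
    obtain ⟨p, h3, h4, h5⟩ := hc i hi
    exact h5.adj (by omega) h2 (by omega)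
  have ca : ∀ i < L.k + 2, ∀ j, j + 2 < L.N → ¬ D.Adj (c i) (L.a j) := by
    intro i hi j h1
    obtain ⟨p, h3, h4, h5⟩ := hc i hi
    exact hTX _ _ _ h5 h1
  have cna : ∀ i < L.k + 2, ∀ j, j + 2 < L.N → c i ≠ L.a j := by
    intro i hi j h1
    refine ne_of (cb i hi (L.N - 1) (by omega) (by omega)) (fun h => ?_)
    have := (OLab hL (by omega) (by omega)).mp h
    omega
  have cnb : ∀ i < L.k + 2, ∀ j < L.N, c i ≠ L.b j := fun i hi j hj =>
    ne_of (cb i hi (L.N - 1) (by omega) (by omega)) (OLbb hL (by omega) (by omega))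
  have cc' : ∀ i < L.k + 2, ∀ j < L.k + 2, ¬ D.Adj (c i) (c j) := fun i hi j hj => by
    obtain ⟨p, _, _, hv⟩ := hc i hi
    obtain ⟨p', _, _, hv'⟩ := hc j hj
    exact TX_TX ht hv hv'
  -- facts on the `d i`
  have da : ∀ i < L.k + 2, ∀ j, j ≤ L.k + 11 → D.Adj (d i) (L.a j) := by
    intro i hi j h1
    obtain ⟨p, h3, h4, h5⟩ := hd i hi
    exact h5.adj (by omega) (by omega)
  have dna : ∀ i < L.k + 2, ∀ j, h < j → j + L.k + 1 ≤ L.N → ¬ D.Adj (d i) (L.a j) := by
    intro i hi j h1 h2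
    obtain ⟨p, h3, h4, h5⟩ := hd i hi
    exact h5.nadj (by omega) (by omega)
  have db : ∀ i < L.k + 2, ∀ j, 2 ≤ j → j < L.N → ¬ D.Adj (d i) (L.b j) := by
    intro i hi j h1 h2
    obtain ⟨p, h3, h4, h5⟩ := hd i hi
    exact hTW _ _ _ h5 h1 h2
  have dd' : ∀ i < L.k + 2, ∀ j < L.k + 2, ¬ D.Adj (d i) (d j) := fun i hi j hj => by
    obtain ⟨p, _, _, hv⟩ := hd i hi
    obtain ⟨p', _, _, hv'⟩ := hd j hj
    exact TW_TW ht hv hv'
  have hcd1 : ∀ i < L.k + 2, D.Adj (c i) (d i) := fun i hi => (hcd i hi i hi).mpr rfl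
  have hcd2 : ∀ i < L.k + 2, ∀ j < L.k + 2, i ≠ j → ¬ D.Adj (c i) (d j) :=
    fun i hi j hj hne h => hne ((hcd i hi j hj).mp h)
  have dd : ∀ i < L.k + 2, ∀ j < L.k + 2, i ≠ j → Nd D {d i} {d j} := fun i hi j hj hne =>
    n1 (ne_of (hcd1 i hi).symm (fun h => hcd2 i hi j hj hne h.symm)) (dd' i hi j hj)
  have cc : ∀ i < L.k + 2, ∀ j < L.k + 2, i ≠ j → c i ≠ c j := fun i hi j hj hne =>
    ne_of (hcd1 i hi) (hcd2 j hj i hi (Ne.symm hne))
  have cd : ∀ i < L.k + 2, ∀ j < L.k + 2, i ≠ j → Nd D {c i} {d j} := fun i hi j hj hne =>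
    n1 (ne_of (hcd1 i hi) (dd' j hj i hi)) (hcd2 i hi j hj hne)
  -- facts on `y`
  have ynab : ∀ j < L.N, y ≠ L.a j ∧ y ≠ L.b j := by
    intro j hj
    have h1 := (OLab hL hj hj).mpr rfl
    rcases hy with ⟨i, hi⟩ | hy
    · constructor
      · rintro rfl
        exact notX_of_Lg (Lg_a hk hL hj) hi
      · rintro rfl
        exact notX_of_Lg (Lg_b hk hL hj) hi
    · have h2 := hy.na hk hL hj
      exact ⟨(ne_of h1 h2.2).symm, (ne_of h1.symm h2.1).symm⟩
  have yk : D.Adj y (d L.k) := (hyd _ (by omega)).mpr le_rfl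
  have yk1 : D.Adj y (d (L.k + 1)) := (hyd _ (by omega)).mpr (by omega)
  have ync : ∀ i ≤ L.k, y ≠ c i := fun i hi =>
    ne_of yk1 (hcd2 i (by omega) _ (by omega) (by omega))
  have ynd : ∀ i < L.k + 2, y ≠ d i := fun i hi => ne_of yk (dd' i hi _ (by omega))
  have yds : ∀ i < L.k, ¬ D.Adj y (d i) := fun i hi h => by
    have := (hyd i (by omega)).mp h
    omega
  have hyda : ∀ i < L.k + 2, ∀ j, j ≤ L.k + 11 → L.a j ≠ d i := fun i hi j hj =>
    (da i hi j hj).ne.symm
  -- a single vertex against `{y, a 10}`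
  have nY : ∀ {w : V}, w ≠ y → w ≠ L.a 10 → ¬ D.Adj w (L.a 10) → Nd D {w} {y, L.a 10} := by
    intro w h1 h2 h3
    refine nd_of ?_ (Finset.mem_singleton_self w) (by simp) h3
    rw [Finset.disjoint_singleton_left]
    simp [h1, h2]
  have nY' : ∀ {w : V}, w ≠ y → w ≠ L.a 10 → ¬ D.Adj w y → Nd D {w} {y, L.a 10} := by
    intro w h1 h2 h3
    refine nd_of ?_ (Finset.mem_singleton_self w) (by simp) h3
    rw [Finset.disjoint_singleton_left]
    simp [h1, h2]
  -- a single vertex against `{c t, a (11 + t)}`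
  have nP : ∀ {w : V} {t : ℕ}, w ≠ c t → w ≠ L.a (11 + t) → ¬ D.Adj w (L.a (11 + t)) →
      Nd D {w} {c t, L.a (11 + t)} := by
    intro w t h1 h2 h3
    refine nd_of ?_ (Finset.mem_singleton_self w) (by simp) h3
    rw [Finset.disjoint_singleton_left]
    simp [h1, h2]
  have nP' : ∀ {w : V} {t : ℕ}, w ≠ c t → w ≠ L.a (11 + t) → ¬ D.Adj w (c t) →
      Nd D {w} {c t, L.a (11 + t)} := by
    intro w t h1 h2 h3
    refine nd_of ?_ (Finset.mem_singleton_self w) (by simp) h3
    rw [Finset.disjoint_singleton_left]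
    simp [h1, h2]
  have ba : ∀ {i j : ℕ}, i < L.N → j < L.N → i ≠ j → ¬ D.Adj (L.b i) (L.a j) := fun hi hj hne h =>
    hne ((OLba hL hi hj).mp h)
  have hkk : L.k < L.k + 2 := by omega
  have hk1 : L.k + 1 < L.k + 2 := by omega
  -- the rows of the legs against everything
  have bY : ∀ r, h + 2 ≤ r → r < L.N → Nd D {L.b r} {y, L.a 10} := fun r h1 h2 =>
    nY (ynab r h2).2.symm (OLnab hL (by omega) h2).symm (ba h2 (by omega) (by omega))
  have aY : ∀ r, h + 2 ≤ r → r < L.N → Nd D {L.a r} {y, L.a 10} := fun r h1 h2 =>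
    nY (ynab r h2).1.symm (OLnaa hL h2 (by omega) (by omega)) (OLaa hL h2 (by omega))
  have bd : ∀ r, h + 2 ≤ r → r + L.k + 1 ≤ L.N → ∀ i < L.k + 2, Nd D {L.b r} {d i} :=
    fun r h1 h2 i hi => n1 (ne_of (da i hi 10 (by omega)) (ba (by omega) (by omega)
      (by omega))).symm (sy (db i hi r (by omega) (by omega)))
  have ad : ∀ r, h + 2 ≤ r → r + L.k + 1 ≤ L.N → ∀ i < L.k + 2, Nd D {L.a r} {d i} :=
    fun r h1 h2 i hi => n1 (ne_of (da i hi 10 (by omega)) (OLaa hL (by omega) (by omega))).symm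
      (sy (dna i hi r (by omega) h2))
  have bP : ∀ r, h + 2 ≤ r → r < L.N → ∀ t < L.k, Nd D {L.b r} {c t, L.a (11 + t)} :=
    fun r h1 h2 t ht' => nP (cnb t (by omega) r h2).symm (OLnab hL (by omega) h2).symm
      (ba h2 (by omega) (by omega))
  have aP : ∀ r, h + 2 ≤ r → r + 2 < L.N → ∀ t < L.k, Nd D {L.a r} {c t, L.a (11 + t)} :=
    fun r h1 h2 t ht' => nP (cna t (by omega) r h2).symm
      (OLnaa hL (by omega) (by omega) (by omega)) (OLaa hL (by omega) (by omega))
  have dP : ∀ i < L.k + 2, ∀ t < L.k, i ≠ t → Nd D {d i} {c t, L.a (11 + t)} :=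
    fun i hi t ht' hne => nP' (nd_sing.mp (cd t (by omega) i hi (Ne.symm hne))).1.symm
      (hyda i hi _ (by omega)).symm (fun h => hcd2 t (by omega) i hi (Ne.symm hne) h.symm)
  have cka : ∀ r, r + 2 < L.N → Nd D {c L.k} {L.a r} := fun r h2 =>
    n1 (cna L.k hkk r h2) (ca L.k hkk r h2)
  refine eng ht hC.ns {c L.k} {L.b (h + 2)} {L.a (h + 2)} {L.b (h + 3)} {L.a (h + 3)} {d L.k}
    {y, L.a 10} {d (L.k + 1)} (fun t => {c t, L.a (11 + t)}) (fun t => {d t})
    (by simp) (by simp) (by simp) (by simp) (by simp) (by simp) (by simp) (by simp)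
    (fun _ _ => by simp) (fun _ _ => by simp)
    (cmp_sing.mpr (cb _ hkk _ (by omega) (by omega)))
    (cmp_sing.mpr ((OLba hL (by omega) (by omega)).mpr rfl))
    (cmp_sing.mpr (cb _ hkk _ (by omega) (by omega)))
    (cmp_sing.mpr ((OLba hL (by omega) (by omega)).mpr rfl))
    (cmp_sing.mpr (hcd1 _ hkk)) ?_ ?_
    (cka _ (by omega)).1 (cka _ (by omega)).1 ?_
    (Finset.disjoint_singleton.mpr (OLnbb hL (by omega) (by omega) (by omega)))
    (bd _ le_rfl (by omega) _ hkk).1 (bd _ (by omega) (by omega) _ hkk).1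
    (dd _ hkk _ hk1 (by omega)).1
    (cd _ hkk _ hk1 (by omega))
    (n1 (OLnab hL (by omega) (by omega)).symm (ba (by omega) (by omega) (by omega)))
    (bY _ le_rfl (by omega))
    (bd _ le_rfl (by omega) _ hk1)
    (n1 (OLnab hL (by omega) (by omega)).symm (ba (by omega) (by omega) (by omega)))
    (bY _ (by omega) (by omega))
    (bd _ (by omega) (by omega) _ hk1)
    (ad _ le_rfl (by omega) _ hkk).symm (ad _ (by omega) (by omega) _ hkk).symm
    (n1 (OLnaa hL (by omega) (by omega) (by omega)) (OLaa hL (by omega) (by omega)))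
    (aY _ le_rfl (by omega)) (ad _ le_rfl (by omega) _ hk1)
    (aY _ (by omega) (by omega)) (ad _ (by omega) (by omega) _ hk1)
    ?_ ?_ ?_ (fun t ht' s hs hne => dd t (by omega) s (by omega) hne)
    ?_
    (fun t ht' => ⟨bP _ le_rfl (by omega) t ht', bd _ le_rfl (by omega) t (by omega)⟩)
    (fun t ht' => ⟨aP _ le_rfl (by omega) t ht', ad _ le_rfl (by omega) t (by omega)⟩)
    (fun t ht' => ⟨bP _ (by omega) (by omega) t ht', bd _ (by omega) (by omega) t (by omega)⟩)
    (fun t ht' => ⟨aP _ (by omega) (by omega) t ht', ad _ (by omega) (by omega) t (by omega)⟩)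
    (fun t ht' => ⟨dP _ hkk t ht' (by omega), dd _ hkk t (by omega) (by omega)⟩)
    ?_
    (fun t ht' => ⟨dP _ hk1 t ht' (by omega), dd _ hk1 t (by omega) (by omega)⟩)
  · -- `d k` complete to `{y, a 10}`
    intro v hv w hw
    rw [Finset.mem_singleton] at hv
    subst hv
    rw [Finset.mem_insert, Finset.mem_singleton] at hw
    rcases hw with rfl | rfl
    · exact yk.symm
    · exact da _ hkk _ (by omega)
  · -- `{y, a 10}` complete to `d (k + 1)`
    intro v hv w hw
    rw [Finset.mem_singleton] at hw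
    subst hw
    rw [Finset.mem_insert, Finset.mem_singleton] at hv
    rcases hv with rfl | rfl
    · exact yk1
    · exact (da _ hk1 _ (by omega)).symm
  · -- `c k` is not in `{y, a 10}`
    exact (nY (ync _ le_rfl).symm (cna _ hkk _ (by omega)) (ca _ hkk _ (by omega))).1
  · -- the separate edges
    intro t ht' v hv w hw
    rw [Finset.mem_singleton] at hw
    subst hw
    rw [Finset.mem_insert, Finset.mem_singleton] at hv
    rcases hv with rfl | rfl
    · exact hcd1 t (by omega)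
    · exact (da t (by omega) _ (by omega)).symm
  · intro t ht' s hs hne
    refine nd_of ?_ (u := c t) (v := c s) (by simp) (by simp) (cc' t (by omega) s (by omega))
    rw [Finset.disjoint_left]
    intro v hv hw
    rw [Finset.mem_insert, Finset.mem_singleton] at hv hw
    rcases hv with rfl | rfl <;> rcases hw with h1 | h1
    · exact cc t (by omega) s (by omega) hne h1
    · exact cna t (by omega) _ (by omega) h1
    · exact cna s (by omega) _ (by omega) h1.symm
    · exact OLnaa hL (by omega) (by omega) (by omega) h1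
  · intro t ht' s hs hne
    exact (dP s (by omega) t ht' (Ne.symm hne)).symm
  · intro t ht'
    exact ⟨nP (cc _ hkk t (by omega) (by omega)) (cna _ hkk _ (by omega)) (ca _ hkk _ (by omega)),
      cd _ hkk t (by omega) (by omega)⟩
  · intro t ht'
    constructor
    · refine nd_of ?_ (u := L.a 10) (v := L.a (11 + t)) (by simp) (by simp)
        (OLaa hL (by omega) (by omega))
      rw [Finset.disjoint_left]
      intro v hv hw
      rw [Finset.mem_insert, Finset.mem_singleton] at hv hw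
      rcases hv with rfl | rfl <;> rcases hw with h1 | h1
      · exact ync t (by omega) h1
      · exact (ynab _ (by omega)).1 h1
      · exact cna t (by omega) _ (by omega) h1.symm
      · exact OLnaa hL (by omega) (by omega) (by omega) h1
    · exact (nY' (ynd t (by omega)).symm (hyda t (by omega) _ (by omega)).symm
        (sy (yds t ht'))).symm

end Pool.Agent.MPd439b2.OP
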