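import Pool.Agent.Lib.MP_d439b2_co.OP.SpecB

/-!
# MP_d439b2_co, OP: the window contains no long opposite ladder (helper84)
-/

set_option autoImplicit false

namespace Pool.Agent.MPd439b2.OP

open Pool.Agent.MPd439b2 Pool.Agent.MPd439b2.W Pool.Agent.MPd439b2.SA

namespace ZsAux

variable {V : Type}

/-- an increasing enumeration of a large set of indices -/
private theorem enum (F : Finset ℕ) (m : ℕ) (h : m ≤ F.card) :
    ∃ t : ℕ → ℕ, (∀ i < m, t i ∈ F) ∧ ∀ i < m, ∀ j < m, (t i ≤ t j ↔ i ≤ j) := by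
  classical
  obtain ⟨F', hF', hc⟩ := Finset.exists_subset_card_eq h
  refine ⟨fun i => if hi : i < m then F'.orderEmbOfFin hc ⟨i, hi⟩ else 0, ?_, ?_⟩
  · intro i hi
    simp only [dif_pos hi]
    exact hF' (Finset.orderEmbOfFin_mem F' hc ⟨i, hi⟩)
  · intro i hi j hj
    simp only [dif_pos hi, dif_pos hj]
    rw [OrderEmbedding.le_iff_le]
    exact Iff.rfl

/-- one of the three types is frequent -/
private theorem count (k : ℕ) (p q r : ℕ → Prop) (h : ∀ t < k + 8, p t ∨ q t ∨ r t) :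
    (∃ t : ℕ → ℕ, (∀ i < k + 2, t i < k + 8 ∧ p (t i)) ∧
      ∀ i < k + 2, ∀ j < k + 2, (t i ≤ t j ↔ i ≤ j)) ∨
    (∃ t : ℕ → ℕ, (∀ i < 4, t i < k + 8 ∧ q (t i)) ∧ ∀ i < 4, ∀ j < 4, (t i ≤ t j ↔ i ≤ j)) ∨
    ∃ t : ℕ → ℕ, (∀ i < 4, t i < k + 8 ∧ r (t i)) ∧ ∀ i < 4, ∀ j < 4, (t i ≤ t j ↔ i ≤ j) := by
  classical
  have hex : ∀ (s : ℕ → Prop) (m : ℕ), m ≤ ((Finset.range (k + 8)).filter s).card →
      ∃ t : ℕ → ℕ, (∀ i < m, t i < k + 8 ∧ s (t i)) ∧ ∀ i < m, ∀ j < m, (t i ≤ t j ↔ i ≤ j) := by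
    intro s m hm
    obtain ⟨t, h1, h2⟩ := enum _ m hm
    refine ⟨t, fun i hi => ?_, h2⟩
    have := h1 i hi
    rw [Finset.mem_filter, Finset.mem_range] at this
    exact this
  by_cases h1 : k + 2 ≤ ((Finset.range (k + 8)).filter p).card
  · exact Or.inl (hex p _ h1)
  by_cases h2 : 4 ≤ ((Finset.range (k + 8)).filter q).card
  · exact Or.inr (Or.inl (hex q _ h2))
  by_cases h3 : 4 ≤ ((Finset.range (k + 8)).filter r).card
  · exact Or.inr (Or.inr (hex r _ h3))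
  exfalso
  have hsub : Finset.range (k + 8) ⊆ (Finset.range (k + 8)).filter p ∪
      ((Finset.range (k + 8)).filter q ∪ (Finset.range (k + 8)).filter r) := by
    intro t ht
    have h4 := h t (Finset.mem_range.1 ht)
    simp only [Finset.mem_union, Finset.mem_filter]
    tauto
  have h4 := Finset.card_le_card hsub
  have h5 := Finset.card_union_le ((Finset.range (k + 8)).filter p)
    ((Finset.range (k + 8)).filter q ∪ (Finset.range (k + 8)).filter r)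
  have h6 := Finset.card_union_le ((Finset.range (k + 8)).filter q)
    ((Finset.range (k + 8)).filter r)
  rw [Finset.card_range] at h4
  omega

/-- a positioned vertex has a side -/
private theorem side {D : SimpleGraph V} {L : LD V} {i : ℕ} {v : V} (h : Pos D L i v) :
    SdA D L v ∨ SdB D L v := by
  rcases h with h | h | h | h
  · exact Or.inl (Or.inl ⟨i, h⟩)
  · exact Or.inr (Or.inl ⟨i, h⟩)
  · exact Or.inr (Or.inr ⟨h.1, i, h.2⟩)
  · exact Or.inl (Or.inr ⟨h.1, i, h.2⟩)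

private theorem ed_side {D : SimpleGraph V} {L : LD V} {u v : V} (h : Ed D L u v) :
    SdA D L u ∧ SdB D L v := by
  rcases h with h | h | h
  · exact ⟨Or.inl h.1, Or.inl h.2⟩
  · exact ⟨Or.inl h.1, Or.inr h.2⟩
  · exact ⟨Or.inr ⟨h.1, h.2.1⟩, Or.inl h.2.2⟩

private theorem posX {D : SimpleGraph V} {m₀ : ℕ} {L : LD V} (hB : S_Bpt) (hc : Ctx D m₀ L)
    {l h : ℕ} {v : V} (hv : v ∈ D3 D L l h) (hx : v ∈ XX D L) :
    ∃ i, l ≤ i ∧ i ≤ h ∧ TX D L i v := by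
  obtain ⟨i, h1, h2, h3⟩ := hv
  refine ⟨i, h1, h2, ?_⟩
  rcases h3 with h3 | h3 | h3 | h3
  · exact h3
  · exact absurd ⟨Or.inl hx, Or.inl ⟨i, h3⟩⟩ ((hB V D m₀ L hc).1 v)
  · exact absurd (Or.inl hx) h3.1.1
  · exact absurd (Or.inl hx) h3.1.1

private theorem posW {D : SimpleGraph V} {m₀ : ℕ} {L : LD V} (hB : S_Bpt) (hc : Ctx D m₀ L)
    {l h : ℕ} {v : V} (hv : v ∈ D3 D L l h) (hx : v ∈ WW D L) :
    ∃ i, l ≤ i ∧ i ≤ h ∧ TW D L i v := by
  obtain ⟨i, h1, h2, h3⟩ := hv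
  refine ⟨i, h1, h2, ?_⟩
  rcases h3 with h3 | h3 | h3 | h3
  · exact absurd ⟨Or.inl ⟨i, h3⟩, Or.inl hx⟩ ((hB V D m₀ L hc).1 v)
  · exact h3
  · exact absurd (Or.inr hx) h3.1.1
  · exact absurd (Or.inr hx) h3.1.1

/-- the edge between a vertex of side `A` and a vertex of the window -/
private theorem edA {D : SimpleGraph V} {m₀ : ℕ} {L : LD V} (hB : S_Bpt) (hc : Ctx D m₀ L)
    {l h : ℕ} {u v : V} (hu : u ∈ D3 D L l h) (hv : v ∈ D3 D L l h) (hA : SdA D L u)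
    (huv : D.Adj u v) : Ed D L u v := by
  obtain ⟨i, -, -, hi⟩ := hu
  obtain ⟨j, -, -, hj⟩ := hv
  rcases (hB V D m₀ L hc).2 u v ⟨i, hi⟩ ⟨j, hj⟩ huv with h1 | h1
  · exact h1
  · exact absurd ⟨hA, (ed_side h1).2⟩ ((hB V D m₀ L hc).1 u)

/-- the edge between a vertex of side `B` and a vertex of the window -/
private theorem edB {D : SimpleGraph V} {m₀ : ℕ} {L : LD V} (hB : S_Bpt) (hc : Ctx D m₀ L)
    {l h : ℕ} {u v : V} (hu : u ∈ D3 D L l h) (hv : v ∈ D3 D L l h) (hs : SdB D L v)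
    (huv : D.Adj u v) : Ed D L u v := by
  obtain ⟨i, -, -, hi⟩ := hu
  obtain ⟨j, -, -, hj⟩ := hv
  rcases (hB V D m₀ L hc).2 u v ⟨i, hi⟩ ⟨j, hj⟩ huv with h1 | h1
  · exact h1
  · exact absurd ⟨(ed_side h1).1, hs⟩ ((hB V D m₀ L hc).1 v)

/-- the case that the `a t` are on side `A` -/
private theorem core (hB : S_Bpt) (hZ1 : S_Z1) (hZ3 : S_Z3) {D : SimpleGraph V} {m₀ : ℕ}
    {L : LD V} (hc : Ctx D m₀ L) {l h : ℕ} (hl : tt L.k ≤ l) (hh : h + tt L.k < L.N)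
    {a b x w : ℕ → V} (ho : OL D (L.k + 8) a b x w)
    (ma : ∀ t, a t ∈ D3 D L l h) (mb : ∀ t, b t ∈ D3 D L l h)
    (mx : ∀ t, x t ∈ D3 D L l h) (mw : ∀ t, w t ∈ D3 D L l h)
    (sa : ∀ t < L.k + 8, SdA D L (a t)) (sb : ∀ t < L.k + 8, SdB D L (b t)) : False := by
  have hab : ∀ t < L.k + 8, Ed D L (a t) (b t) := fun t ht =>
    edA hB hc (ma t) (mb t) (sa t ht) ((OLab ho ht ht).2 rfl)
  have hxs : ∀ t < L.k + 8, Ed D L (x t) (b t) := fun t ht =>
    edB hB hc (mx t) (mb t) (sb t ht) ((OLxb ho ht ht).2 le_rfl)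
  have hws : ∀ t < L.k + 8, Ed D L (a t) (w t) := fun t ht =>
    edA hB hc (ma t) (mw t) (sa t ht) ((OLwa ho ht ht).2 le_rfl).symm
  rcases count L.k (fun t => a t ∈ XX D L ∧ b t ∈ WW D L)
    (fun t => a t ∈ XX D L ∧ Iso D L (b t))
    (fun t => Iso D L (a t) ∧ b t ∈ WW D L) (by
      intro t ht
      rcases hab t ht with h1 | h1 | h1
      · exact Or.inl h1
      · exact Or.inr (Or.inl ⟨h1.1, h1.2.1⟩)
      · exact Or.inr (Or.inr ⟨h1.1, h1.2.2⟩)) with ⟨t, t1, t2⟩ | ⟨t, t1, t2⟩ | ⟨t, t1, t2⟩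
  · -- many edges of type X-W
    have hk0 : L.k < L.k + 2 := by omega
    refine hZ3 V D m₀ L hc l h (fun i => a (t i)) (fun i => b (t i)) (x (t L.k)) hl hh ?_ ?_ ?_ ?_ ?_
    · exact fun i hi => posX hB hc (ma _) (t1 i hi).2.1
    · exact fun i hi => posW hB hc (mb _) (t1 i hi).2.2
    · intro i hi j hj
      show D.Adj (a (t i)) (b (t j)) ↔ i = j
      rw [OLab ho (t1 i hi).1 (t1 j hj).1]
      have e1 := t2 i hi j hj
      have e2 := t2 j hj i hi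
      omega
    · intro j hj
      show D.Adj (x (t L.k)) (b (t j)) ↔ L.k ≤ j
      rw [OLxb ho (t1 _ hk0).1 (t1 j hj).1]
      exact t2 _ hk0 j hj
    · rcases (ed_side (hxs _ (t1 _ hk0).1)).1 with h1 | h1
      · exact Or.inl h1
      · exact Or.inr h1.1
  · -- four edges of type X-B
    have h1 : (1 : ℕ) < 4 := by omega
    refine hZ1 V D m₀ L hc (fun i => a (t i)) (fun i => b (t i)) (x (t 1)) (w (t 1))
      ?_ ?_ ?_ ?_ ?_ ?_ ?_ ?_
    · intro i hi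
      obtain ⟨p, p1, -, p3⟩ := posX hB hc (ma (t i)) (t1 i hi).2.1
      exact ⟨p, by omega, p3⟩
    · exact fun i hi => (t1 i hi).2.2
    · have h2 : x (t 1) ∈ XX D L := by
        rcases hxs _ (t1 1 h1).1 with h3 | h3 | h3
        · exact h3.1
        · exact h3.1
        · exact absurd (Or.inr h3.2.2) (t1 1 h1).2.2.1
      obtain ⟨p, p1, -, p3⟩ := posX hB hc (mx (t 1)) h2
      exact ⟨p, by omega, p3⟩
    · intro i hi j hj
      show D.Adj (a (t i)) (b (t j)) ↔ i = j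
      rw [OLab ho (t1 i hi).1 (t1 j hj).1]
      have e1 := t2 i hi j hj
      have e2 := t2 j hj i hi
      omega
    · intro j hj
      show D.Adj (x (t 1)) (b (t j)) ↔ 1 ≤ j
      rw [OLxb ho (t1 1 h1).1 (t1 j hj).1]
      exact t2 1 h1 j hj
    · intro j hj
      show D.Adj (w (t 1)) (a (t j)) ↔ j ≤ 1
      rw [OLwa ho (t1 1 h1).1 (t1 j hj).1]
      exact t2 j hj 1 h1
    · intro j hj
      exact OLwb ho (t1 1 h1).1 (t1 j hj).1
    · rcases (ed_side (hws _ (t1 1 h1).1)).2 with h2 | h2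
      · exact Or.inl h2
      · exact Or.inr h2.1
  · -- four edges of type A-W
    have h2 : (2 : ℕ) < 4 := by omega
    have h3 : ∀ i, 3 - i < 4 := fun i => by omega
    have hk : ∀ i p, l ≤ p → p ≤ h → TW D L p i → TX D L.rev (L.N - 1 - p) i := by
      intro i p p1 p2 p3
      rw [TX_rev (by omega), Nat.sub_sub_self (by omega)]
      exact p3
    refine hZ1 V D m₀ L.rev hc.rev (fun i => b (t (3 - i))) (fun i => a (t (3 - i))) (w (t 2))
      (x (t 2)) ?_ ?_ ?_ ?_ ?_ ?_ ?_ ?_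
    · intro i hi
      obtain ⟨p, p1, p2, p3⟩ := posW hB hc (mb (t (3 - i))) (t1 _ (h3 i)).2.2
      exact ⟨L.N - 1 - p, by rw [rev_k]; omega, hk _ p p1 p2 p3⟩
    · exact fun i hi => Iso_rev.2 (t1 _ (h3 i)).2.1
    · have h4 : w (t 2) ∈ WW D L := by
        rcases hws _ (t1 2 h2).1 with h5 | h5 | h5
        · exact h5.2
        · exact absurd (Or.inl h5.1) (t1 2 h2).2.1.1
        · exact h5.2.2
      obtain ⟨p, p1, p2, p3⟩ := posW hB hc (mw (t 2)) h4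
      exact ⟨L.N - 1 - p, by rw [rev_k]; omega, hk _ p p1 p2 p3⟩
    · intro i hi j hj
      show D.Adj (b (t (3 - i))) (a (t (3 - j))) ↔ i = j
      rw [OLba ho (t1 _ (h3 i)).1 (t1 _ (h3 j)).1]
      have e1 := t2 _ (h3 i) _ (h3 j)
      have e2 := t2 _ (h3 j) _ (h3 i)
      omega
    · intro j hj
      show D.Adj (w (t 2)) (a (t (3 - j))) ↔ 1 ≤ j
      rw [OLwa ho (t1 2 h2).1 (t1 _ (h3 j)).1]
      have e1 := t2 _ (h3 j) 2 h2
      omega
    · intro j hj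
      show D.Adj (x (t 2)) (b (t (3 - j))) ↔ j ≤ 1
      rw [OLxb ho (t1 2 h2).1 (t1 _ (h3 j)).1]
      have e1 := t2 2 h2 _ (h3 j)
      omega
    · intro j hj
      exact OLxa ho (t1 2 h2).1 (t1 _ (h3 j)).1
    · rcases (ed_side (hxs _ (t1 2 h2).1)).1 with h4 | h4
      · exact Or.inl (by rw [WW_rev]; exact h4)
      · exact Or.inr (Iso_rev.2 h4.1)

end ZsAux

theorem pZs : S_Bpt → S_Z1 → S_Z3 → S_Zs := by
  intro hB hZ1 hZ3 V D m₀ L hc l h hl hh a b x w ho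
  have ho' : OL D (L.k + 8) (fun t => (a t : V)) (fun t => (b t : V)) (fun t => (x t : V))
      (fun t => (w t : V)) := ⟨⟨ho.lad.im, ho.lad.xb, ho.lad.xa⟩, ho.wa, ho.wb⟩
  have h0 : 0 < L.k + 8 := by omega
  obtain ⟨i, -, -, hi⟩ := (x 0).2
  rcases ZsAux.side hi with hs | hs
  · have sb : ∀ t < L.k + 8, SdB D L (b t : V) := fun t ht =>
      (ZsAux.ed_side (ZsAux.edA hB hc (x 0).2 (b t).2 hs ((OLxb ho' h0 ht).2 (Nat.zero_le t)))).2
    have sa : ∀ t < L.k + 8, SdA D L (a t : V) := fun t ht =>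
      (ZsAux.ed_side (ZsAux.edB hB hc (a t).2 (b t).2 (sb t ht) ((OLab ho' ht ht).2 rfl))).1
    exact ZsAux.core hB hZ1 hZ3 hc hl hh ho' (fun t => (a t).2) (fun t => (b t).2)
      (fun t => (x t).2) (fun t => (w t).2) sa sb
  · have sb : ∀ t < L.k + 8, SdA D L (b t : V) := fun t ht =>
      (ZsAux.ed_side (ZsAux.edB hB hc (b t).2 (x 0).2 hs
        ((OLxb ho' h0 ht).2 (Nat.zero_le t)).symm)).1
    have sa : ∀ t < L.k + 8, SdB D L (a t : V) := fun t ht =>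
      (ZsAux.ed_side (ZsAux.edA hB hc (b t).2 (a t).2 (sb t ht)
        ((OLab ho' ht ht).2 rfl).symm)).2
    exact ZsAux.core hB hZ1 hZ3 hc hl hh (OLrev ho') (fun t => (b _).2) (fun t => (a _).2)
      (fun t => (w _).2) (fun t => (x _).2) (fun t ht => sb _ (by omega))
      (fun t ht => sa _ (by omega))

end Pool.Agent.MPd439b2.OP
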