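import Pool.Agent.Lib.MP_d439b2_co.OP.Fin
import Pool.Agent.Lib.MP_d439b2_co.OP.PTb
import Pool.Agent.Lib.MP_d439b2_co.OP.PMix
import Pool.Agent.Lib.MP_d439b2_co.OP.PTXa
import Pool.Agent.Lib.MP_d439b2_co.OP.PLtt
import Pool.Agent.Lib.MP_d439b2_co.OP.PPur
import Pool.Agent.Lib.MP_d439b2_co.OP.PFR1
import Pool.Agent.Lib.MP_d439b2_co.OP.PEx
import Pool.Agent.Lib.MP_d439b2_co.OP.PGap
import Pool.Agent.Lib.MP_d439b2_co.OP.PSid
import Pool.Agent.Lib.MP_d439b2_co.OP.PNoW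
import Pool.Agent.Lib.MP_d439b2_co.OP.PT2
import Pool.Agent.Lib.MP_d439b2_co.OP.PRkH
import Pool.Agent.Lib.MP_d439b2_co.OP.PCmp
import Pool.Agent.Lib.MP_d439b2_co.OP.PKE
import Pool.Agent.Lib.MP_d439b2_co.OP.PKB
import Pool.Agent.Lib.MP_d439b2_co.OP.PKD
import Pool.Agent.Lib.MP_d439b2_co.OP.PCrs
import Pool.Agent.Lib.MP_d439b2_co.OP.POvl
import Pool.Agent.Lib.MP_d439b2_co.OP.PBpt
import Pool.Agent.Lib.MP_d439b2_co.OP.PUnq
import Pool.Agent.Lib.MP_d439b2_co.OP.PZ1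
import Pool.Agent.Lib.MP_d439b2_co.OP.PZ3
import Pool.Agent.Lib.MP_d439b2_co.OP.PZs
import Pool.Agent.Lib.MP_d439b2_co.OP.PInsX
import Pool.Agent.Lib.MP_d439b2_co.OP.PInsT
import Pool.Agent.Lib.MP_d439b2_co.OP.PIns
import Pool.Agent.Lib.MP_d439b2_co.OP.PBlk
import Pool.Agent.Lib.MP_d439b2_co.OP.PHG
import Pool.Agent.Lib.MP_d439b2_co.OP.PSel
import Pool.Agent.Lib.MP_d439b2_co.OP.PBadR
import Pool.Agent.Lib.MP_d439b2_co.OP.PPr
import Pool.Agent.Lib.MP_d439b2_co.OP.PWin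
import Pool.Agent.Lib.MP_d439b2_co.OP.PExtP
import Pool.Agent.Lib.MP_d439b2_co.OP.PExtQ
import Pool.Agent.Lib.MP_d439b2_co.OP.PExtR
import Pool.Agent.Lib.MP_d439b2_co.OP.PExt
import Pool.Agent.Lib.MP_d439b2_co.OP.PSz
import Pool.Agent.Lib.MP_d439b2_co.OP.POpp

/-!
# MP_d439b2_co, OP: all modules together (helper99)
-/

set_option autoImplicit false

namespace Pool.Agent.MPd439b2.OP

open Pool.Agent.MPd439b2 Pool.Agent.MPd439b2.W Pool.Agent.MPd439b2.SA Pool.Agent.MPd439b2.Rep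

theorem okTXa : S_TXa := pTXa pMix

theorem okLtt : S_Ltt := pLtt pTb pMix

theorem okPur : S_Pur := pPur okTXa okLtt

theorem okFR1 : S_FR1 := pFR1 okTXa okLtt

theorem okEx : S_Ex := pEx okTXa

theorem okGap : S_Gap := pGap okTXa

theorem okNoW : S_NoW := pNoW (pSid okTXa okFR1)

theorem okRkH : S_RkH := pRkH pT2

theorem okKE : S_KE := pKE okPur pCmp

theorem okKB : S_KB := pKB okKE okFR1 pCmp

theorem okKD : S_KD := pKD okKE okNoW pCmp

theorem okCrs : S_Crs := pCrs pCmp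

theorem okOvl : S_Ovl := pOvl okTXa okLtt okGap

theorem okBpt : S_Bpt := pBpt okTXa okNoW

theorem okUnq : S_Unq := pUnq okBpt

theorem okZs : S_Zs := pZs okBpt (pZ1 okTXa) (pZ3 okTXa)

theorem okInsT : S_InsT := pInsT pInsX okFR1 okNoW okOvl pCmp

theorem okIns : S_Ins := pIns okInsT okFR1 okNoW okOvl okTXa

theorem okBlk : S_Blk := pBlk okIns okCrs okKB okKD pCmp

theorem okBadR : S_BadR := pBadR pHG pSel okEx okGap okFR1

theorem okWin : S_Win := pWin okBadR pPr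

theorem okExtP : S_ExtP := pExtP okFR1 okUnq

theorem okExtQ : S_ExtQ := pExtQ okFR1 okNoW okKD

theorem okExtR : S_ExtR := pExtR okFR1 okKB okUnq

theorem okExt : S_Ext := pExt pCmp

theorem okSz : S_Sz := pSz okUnq

/-- the opposite case from the two remaining modules -/
theorem oppOf (hFar : S_RkH → S_Ex → S_Gap → S_FR1 → S_NoW → S_Bpt → S_Far)
    (hCnt : S_Crs → S_Ovl → S_KD → S_Cmp → S_Cnt) : S_Opp :=
  pOpp (hFar okRkH okEx okGap okFR1 okNoW okBpt) okWin okBlk okZs okExtP okExtQ okExtR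
    (hCnt okCrs okOvl okKD pCmp) okExt okSz

end Pool.Agent.MPd439b2.OP
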