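import Pool.Agent.Lib.MP_d439b2_co.SA.Defs
import Pool.Agent.Lib.MP_d439b2_co.Rep.Cut

/-!
# MP_d439b2_co, OP: the opposite case of the row `S_{2,2,3} + k P_2`, definitions (helper99)

Notes 2693 (4), 2764 (E), 2766.  An opposite ladder `L` of size `N` in the triangle-free graph `D` without a
merged `S_{2,2,3} + k P_2`; thresholds, light vertices, positions, the window `D3 l h`.
-/

set_option autoImplicit false

namespace Pool.Agent.MPd439b2.OP

open Pool.Agent.MPd439b2 Pool.Agent.MPd439b2.W Pool.Agent.MPd439b2.SA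

variable {V : Type}

/-- a sequence of length `N` in the reversed order -/
def rv (N : ℕ) (f : ℕ → V) : ℕ → V := fun j => f (N - 1 - j)

/-- the data of an opposite ladder (`k` is the number of spare edges, `N` the size) -/
structure LD (V : Type) where
  k : ℕ
  N : ℕ
  a : ℕ → V
  b : ℕ → V
  x : ℕ → V
  w : ℕ → V

/-- the reversed ladder -/
def LD.rev (L : LD V) : LD V := ⟨L.k, L.N, rv L.N L.b, rv L.N L.a, rv L.N L.w, rv L.N L.x⟩

/-- the standing assumptions -/
structure Ctx (D : SimpleGraph V) (m₀ : ℕ) (L : LD V) : Prop where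
  hk : 1 ≤ L.k
  tri : TriFree D
  ns : NoSpi L.k D
  com : ¬ CoM D m₀
  ol : OL D L.N L.a L.b L.x L.w

/-- `v` has the threshold `i` on the sequence `b`: among the indices in `[k, N)` it sees exactly `i, i + 1, ...`, or
exactly `i, i + 2, i + 3, ...` -/
def TXb (D : SimpleGraph V) (N k : ℕ) (b : ℕ → V) (i : ℕ) (v : V) : Prop :=
  k ≤ i ∧ i + k + 3 ≤ N ∧ ((∀ j, k ≤ j → j < N → (D.Adj v (b j) ↔ i ≤ j)) ∨
    ∀ j, k ≤ j → j < N → (D.Adj v (b j) ↔ i ≤ j ∧ j ≠ i + 1))

/-- type `X` with threshold `i` -/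
def TX (D : SimpleGraph V) (L : LD V) (i : ℕ) (v : V) : Prop := TXb D L.N L.k L.b i v

/-- type `W` with threshold `i`: among the `a j`, `j ≤ N - 1 - k`, it sees exactly those with `j ≤ i`, or exactly those
with `j = i` or `j + 2 ≤ i` -/
def TW (D : SimpleGraph V) (L : LD V) (i : ℕ) (v : V) : Prop :=
  i < L.N ∧ TXb D L.N L.k (rv L.N L.a) (L.N - 1 - i) v

/-- the vertices of type `X` -/
def XX (D : SimpleGraph V) (L : LD V) : Set V := {v | ∃ i, TX D L i v}

/-- the vertices of type `W` -/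
def WW (D : SimpleGraph V) (L : LD V) : Set V := {v | ∃ i, TW D L i v}

/-- the light vertices -/
def Lg (D : SimpleGraph V) (L : LD V) : Set V := (XX D L ∪ WW D L)ᶜ

/-- `v` touches the index `j` -/
def tc (D : SimpleGraph V) (L : LD V) (v : V) (j : ℕ) : Prop := D.Adj v (L.a j) ∨ D.Adj v (L.b j)

/-- light vertices without light neighbours -/
def Iso (D : SimpleGraph V) (L : LD V) (v : V) : Prop := v ∈ Lg D L ∧ ∀ u ∈ Lg D L, ¬ D.Adj v u

/-- the margin -/
def tt (k : ℕ) : ℕ := 6 * k + 60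

/-- `x p` is the last `x j`, `tt ≤ j < N - tt`, which sees the light vertex `v` -/
def PB (D : SimpleGraph V) (L : LD V) (p : ℕ) (v : V) : Prop :=
  v ∈ Lg D L ∧ tt L.k ≤ p ∧ p + tt L.k < L.N ∧ D.Adj v (L.x p) ∧
    ∀ j, p < j → j + tt L.k < L.N → ¬ D.Adj v (L.x j)

/-- `w q` is the first `w j`, `tt ≤ j < N - tt`, which sees the light vertex `v` -/
def PA (D : SimpleGraph V) (L : LD V) (q : ℕ) (v : V) : Prop :=
  v ∈ Lg D L ∧ tt L.k ≤ q ∧ q + tt L.k < L.N ∧ D.Adj v (L.w q) ∧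
    ∀ j, tt L.k ≤ j → j < q → ¬ D.Adj v (L.w j)

/-- `v` is a positioned vertex with the position `i`: of type `X` or `W` with threshold `i`, or isolated light with
`PB i` or `PA i` -/
def Pos (D : SimpleGraph V) (L : LD V) (i : ℕ) (v : V) : Prop :=
  TX D L i v ∨ TW D L i v ∨ (Iso D L v ∧ PB D L i v) ∨ (Iso D L v ∧ PA D L i v)

/-- the positioned vertices with a position in `[l, h]` -/
def D3 (D : SimpleGraph V) (L : LD V) (l h : ℕ) : Set V := {v | ∃ i, l ≤ i ∧ i ≤ h ∧ Pos D L i v}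

/-- the components of the graph of the light vertices with at least one edge -/
def Kp (D : SimpleGraph V) (L : LD V) (K : Set V) : Prop :=
  IsComp D (Lg D L) K ∧ ∃ u ∈ K, ∃ v ∈ K, D.Adj u v

/-- `K` is seen by `x i` -/
def sx (D : SimpleGraph V) (L : LD V) (i : ℕ) (K : Set V) : Prop := ∃ v ∈ K, D.Adj v (L.x i)

/-- `K` is seen by `w i` -/
def sw (D : SimpleGraph V) (L : LD V) (i : ℕ) (K : Set V) : Prop := ∃ v ∈ K, D.Adj v (L.w i)

/-- middle indices -/
def Md (L : LD V) (i : ℕ) : Prop := 3 * L.k + 20 ≤ i ∧ i + 3 * L.k + 20 < L.N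

/-- no opposite ladder of size `n` in `D` -/
def NoOLn (D : SimpleGraph V) (n : ℕ) : Prop := ∀ a b x w : ℕ → V, ¬ OL D n a b x w

/-- disjoint and not complete to each other -/
def Nd (D : SimpleGraph V) (A B : Finset V) : Prop := Disjoint A B ∧ ¬ Cmp D A B

end Pool.Agent.MPd439b2.OP
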