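import Pool.Agent.Lib.MP_d439b2_co.OP.SpecF
import Pool.Agent.Lib.MP_d439b2_co.SA.AllC

/-!
# MP_d439b2_co, OP: the row `(3 P_1, K_s ∨ co(F))` for `F = F2, F3` from `S_NO` and `S_Opp` (helper99)
-/

set_option autoImplicit false

namespace Pool.Agent.MPd439b2.OP

open Pool.Agent.MPd439b2 Pool.Agent.MPd439b2.W Pool.Agent.MPd439b2.SA Pool.Agent.MPd439b2.Rep

/-- the properties of `F` which are used -/
structure GoodF {n : ℕ} (F : SimpleGraph (Fin n)) : Prop where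
  ex : ∀ (s : ℕ) (V : Type) (D : SimpleGraph V), ¬ IsIndMinor (KCo s F) Dᶜ → Excl s D
  f0 : ∀ (s : ℕ) (V : Type) (D : SimpleGraph V), ¬ IsIndMinor (KCo s F) Dᶜ →
    ¬ IsIndMinor (KCo s F0) Dᶜ
  col : ∃ col : Fin n → Bool, ∀ i j, F.Adj i j → col i ≠ col j

theorem goodF2 : GoodF F2 :=
  ⟨fun _ _ _ h => Or.inr (Or.inl h), fun s V D h h0 => h (fSub s V Dᶜ h0).2.1, ⟨_, colF2⟩⟩

theorem goodF3 : GoodF F3 :=
  ⟨fun _ _ _ h => Or.inr (Or.inr h), fun s V D h h0 => h (fSub s V Dᶜ h0).2.2, ⟨_, colF3⟩⟩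

/-- `NOP` from `S_NO` -/
theorem nop (hNO : SA.S_NO) {n : ℕ} {F : SimpleGraph (Fin n)} (hF : GoodF F) (s k m₀ : ℕ)
    (β : ℕ → ℕ) : NOP (QB s F) k m₀ β := by
  intro N'
  obtain ⟨c₀, n₁, h⟩ := hNO s k m₀ N' β
  exact ⟨c₀, n₁, fun V _ D hQ ht hns hcm hL => h V D ht (hF.ex s V D hQ.2) hns hcm hL⟩

/-- the graphs of the base class without long opposite ladders have bounded layouts -/
theorem r1 (hNO : SA.S_NO) (hNOc : S_NOc) {n : ℕ} {F : SimpleGraph (Fin n)} (hF : GoodF F)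
    (s : ℕ) : ∃ r : ℕ, ∀ (V : Type) [Finite V] (D : SimpleGraph V), QB s F V D →
      NoOLn D (4 + 2 * s + 8) → Lay D r Set.univ := by
  obtain ⟨col, hcol⟩ := hF.col
  obtain ⟨m₀, hm₀⟩ := coM n s
  have hc : ∀ (V : Type) (D : SimpleGraph V), QB s F V D → ¬ CoM D m₀ :=
    fun V D hD hcm => hD.2 (hm₀ V D F col hcol hD.1 hcm)
  have h1 := hNOc (4 + 2 * s + 8) (by omega)
  obtain ⟨r, hr⟩ := rowQ (fun V D => QB s F V D ∧ NoOLn D (4 + 2 * s + 8))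
    ((fsAnd _ _).1 (fsQB s F).1 h1.1) ((fsAnd _ _).2 (fsQB s F).2 h1.2) s m₀
    (fun V _ D hD => ⟨hD.1.1, hF.ex s V D hD.1.2, hc V D hD.1⟩) (fun β => by
      obtain ⟨c₀, n₁, h⟩ := nop hNO hF s (4 + 2 * s) m₀ β (4 + 2 * s + 8)
      refine ⟨c₀, n₁, fun V _ D hD hL a b hIM => ?_⟩
      obtain ⟨σ, x, w, -, -, hOL⟩ := h V D hD.1 hD.1.1
        (okLink s V D hD.1.1 (hF.f0 s V D hD.1.2)) (hc V D hD.1) hL a b hIM
      exact hD.2 _ _ _ _ hOL)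
  exact ⟨r, fun V _ D h2 h3 => hr V D ⟨h2, h3⟩⟩

/-- no large induced matchings -/
theorem r2 (hNO : SA.S_NO) (hNOc : S_NOc) (hLc : S_Lc) (hHer : S_Her) (hOpp : S_Opp) {n : ℕ}
    {F : SimpleGraph (Fin n)} (hF : GoodF F) (s m₀ : ℕ) (β : ℕ → ℕ) : ∃ c₀ n₀ : ℕ, ∀ (V : Type)
      [Finite V] (D : SimpleGraph V), TriFree D → ¬ IsIndMinor (KCo s F) Dᶜ → ¬ CoM D m₀ →
      Link β c₀ D → ∀ a b, ¬ IM D n₀ a b := by
  obtain ⟨r, hr⟩ := r1 hNO hNOc hF s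
  obtain ⟨c₀, n₀, h⟩ := hOpp (QB s F) (4 + 2 * s) m₀ r β (by omega)
    (nop hNO hF s (4 + 2 * s) m₀ β)
  refine ⟨c₀, n₀, fun V _ D ht hno hcm hL => ?_⟩
  exact h V D ⟨ht, hno⟩ ht (okLink s V D ht (hF.f0 s V D hno)) hcm hL
    (fun X hX => hLc V D X r (hr X (D.induce X) (hHer s n F V D X ⟨ht, hno⟩) hX))

/-- **The rows `S_{1,2,3} + 3 P_2` and `S_{2,2,3} + 2 P_2`** -/
theorem rows (hNO : SA.S_NO) (hNOc : S_NOc) (hLc : S_Lc) (hHer : S_Her) (hOpp : S_Opp) :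
    (∀ s : ℕ, BoundedCW (⊥ : SimpleGraph (Fin 3)) (KCo s F2)) ∧
      ∀ s : ℕ, BoundedCW (⊥ : SimpleGraph (Fin 3)) (KCo s F3) :=
  ⟨rowF2 (r2 hNO hNOc hLc hHer hOpp goodF2), rowF3 (r2 hNO hNOc hLc hHer hOpp goodF3)⟩

end Pool.Agent.MPd439b2.OP
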