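import Pool.Agent.Lib.MP_d439b2_co.OP.SpecA

/-!
# MP_d439b2_co, OP: a middle light vertex does not see both types (helper6)
-/

set_option autoImplicit false

namespace Pool.Agent.MPd439b2.OP

open Pool.Agent.MPd439b2 Pool.Agent.MPd439b2.W Pool.Agent.MPd439b2.SA

theorem pNoW (hSid : S_Sid) : S_NoW := by
  intro V D m₀ L hc
  constructor
  · intro v z z' i i' hv hz hi hvz hz' hvz'
    unfold Md at hi
    refine hSid V D m₀ L hc v z z' i i' hv hz hz' hvz hvz' ?_
    omega
  · intro v z z' i i' hv hz hi hvz hz' hvz'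
    unfold Md at hi
    refine hSid V D m₀ L hc v z' z i' i hv hz' hz hvz' hvz ?_
    omega

end Pool.Agent.MPd439b2.OP
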