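import Pool.Agent.Lib.MP_d439b2_co.OP.SpecE

/-!
# MP_d439b2_co, OP/PWin: short windows
-/

set_option autoImplicit false

namespace Pool.Agent.MPd439b2.OP

open Pool.Agent.MPd439b2 Pool.Agent.MPd439b2.W Pool.Agent.MPd439b2.SA

namespace PWinAux

/-- Every second element of a finite set. -/
theorem second (g : ℕ) (F : Finset ℕ) (h : 2 * g ≤ F.card) :
    ∃ c : ℕ → ℕ, (∀ i < g, c i ∈ F) ∧ ∀ i j, i < j → j < g → c i + 2 ≤ c j := by
  obtain ⟨F', hF', hc⟩ := Finset.exists_subset_card_eq h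
  let e := F'.orderEmbOfFin hc
  refine ⟨fun i => if h : 2 * i < 2 * g then e ⟨2 * i, h⟩ else 0, ?_, ?_⟩
  · intro i hi
    have h2 : 2 * i < 2 * g := by omega
    show (if h : 2 * i < 2 * g then e ⟨2 * i, h⟩ else 0) ∈ F
    rw [dif_pos h2]
    exact hF' (Finset.orderEmbOfFin_mem F' hc _)
  · intro i j hij hj
    have h2 : 2 * i < 2 * g := by omega
    have h3 : 2 * j < 2 * g := by omega
    have h4 : 2 * i + 1 < 2 * g := by omega
    show (if h : 2 * i < 2 * g then e ⟨2 * i, h⟩ else 0) + 2 ≤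
      (if h : 2 * j < 2 * g then e ⟨2 * j, h⟩ else 0)
    rw [dif_pos h2, dif_pos h3]
    have e1 : e ⟨2 * i, h2⟩ < e ⟨2 * i + 1, h4⟩ := by
      apply e.strictMono
      exact Fin.mk_lt_mk.2 (by omega)
    have e2 : e ⟨2 * i + 1, h4⟩ < e ⟨2 * j, h3⟩ := by
      apply e.strictMono
      exact Fin.mk_lt_mk.2 (by omega)
    omega

/-- Two close blocks of different colours. -/
theorem close (n : ℕ) (A1 A0 bad : ℕ → Prop) [DecidablePred bad]
    (hd : ∀ c < n, A1 c ∨ A0 c ∨ bad c) (h1 : ∃ c < n, A1 c) (h0 : ∃ c < n, A0 c)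
    (hne : ∀ c < n, ¬ (A1 c ∧ A0 c)) :
    ∃ c c', c < c' ∧ c' < n ∧ c' ≤ c + ((Finset.range n).filter bad).card + 1 ∧
      ((A1 c ∧ A0 c') ∨ (A0 c ∧ A1 c')) := by
  classical
  have hex : ∃ d, ∃ c, c + d < n ∧ ((A1 c ∧ A0 (c + d)) ∨ (A0 c ∧ A1 (c + d))) := by
    obtain ⟨c1, hc1, a1⟩ := h1
    obtain ⟨c0, hc0, a0⟩ := h0
    rcases le_total c1 c0 with h | h
    · refine ⟨c0 - c1, c1, by omega, Or.inl ⟨a1, ?_⟩⟩
      rw [Nat.add_sub_cancel' h]
      exact a0
    · refine ⟨c1 - c0, c0, by omega, Or.inr ⟨a0, ?_⟩⟩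
      rw [Nat.add_sub_cancel' h]
      exact a1
  obtain ⟨c, hc, hcc⟩ := Nat.find_spec hex
  have hmin : ∀ d < Nat.find hex, ∀ c, c + d < n →
      ¬ ((A1 c ∧ A0 (c + d)) ∨ (A0 c ∧ A1 (c + d))) := by
    intro d hd c h1 h2
    exact Nat.find_min hex hd ⟨c, h1, h2⟩
  obtain ⟨d, hd0⟩ : ∃ d, d = Nat.find hex := ⟨_, rfl⟩
  rw [← hd0] at hc hcc hmin
  have hpos : 0 < d := by
    rcases Nat.eq_zero_or_pos d with h | h
    · exfalso
      subst h
      rcases hcc with h | h
      · exact hne c (by omega) ⟨h.1, h.2⟩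
      · exact hne c (by omega) ⟨h.2, h.1⟩
    · exact h
  refine ⟨c, c + d, by omega, hc, ?_, hcc⟩
  have hsub : Finset.Ioo c (c + d) ⊆ (Finset.range n).filter bad := by
    intro e he
    rw [Finset.mem_Ioo] at he
    rw [Finset.mem_filter, Finset.mem_range]
    refine ⟨by omega, ?_⟩
    have e1 : e + (c + d - e) = c + d := by omega
    have e2 : c + (e - c) = e := by omega
    rcases hd e (by omega) with h | h | h
    · exfalso
      rcases hcc with h' | h'
      · refine hmin (c + d - e) (by omega) e (by omega) (Or.inl ⟨h, ?_⟩)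
        rw [e1]
        exact h'.2
      · refine hmin (e - c) (by omega) c (by omega) (Or.inr ⟨h'.1, ?_⟩)
        rw [e2]
        exact h
    · exfalso
      rcases hcc with h' | h'
      · refine hmin (e - c) (by omega) c (by omega) (Or.inl ⟨h'.1, ?_⟩)
        rw [e2]
        exact h
      · refine hmin (c + d - e) (by omega) e (by omega) (Or.inr ⟨h, ?_⟩)
        rw [e1]
        exact h'.2
    · exact h
  have hcard := Finset.card_le_card hsub
  rw [Nat.card_Ioo] at hcard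
  omega

/-- If less than `2 g` blocks are bad and many indices have the property `Q` then some block, which is not bad, has an
index with `Q`. -/
theorem good (n R l g : ℕ) (hR : 1 ≤ R) (hn : n = 6 * (g + 1) + 3) (bad : ℕ → Prop)
    [DecidablePred bad] (hbad : ((Finset.range n).filter bad).card < 2 * g) (Q : ℕ → Prop)
    [DecidablePred Q] (hQ : n * R ≤ 3 * ((Finset.Ico l (l + n * R)).filter Q).card) :
    ∃ c < n, ¬ bad c ∧ ∃ i, l + c * R ≤ i ∧ i < l + c * R + R ∧ Q i := by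
  by_contra hcon
  push Not at hcon
  have hsub : (Finset.Ico l (l + n * R)).filter Q ⊆
      ((Finset.range n).filter bad).biUnion (fun c => Finset.Ico (l + c * R) (l + c * R + R)) := by
    intro i hi
    rw [Finset.mem_filter, Finset.mem_Ico] at hi
    obtain ⟨⟨h1, h2⟩, h3⟩ := hi
    have hm := Nat.div_add_mod (i - l) R
    have hlt := Nat.mod_lt (i - l) (show 0 < R by omega)
    have hcn : (i - l) / R < n := by
      rw [Nat.div_lt_iff_lt_mul (by omega)]
      omega
    obtain ⟨c, hc⟩ : ∃ c, c = (i - l) / R := ⟨_, rfl⟩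
    rw [← hc] at hm hcn
    have hm2 : R * c = c * R := Nat.mul_comm _ _
    have b1 : l + c * R ≤ i := by omega
    have b2 : i < l + c * R + R := by omega
    rw [Finset.mem_biUnion]
    refine ⟨c, ?_, Finset.mem_Ico.2 ⟨b1, b2⟩⟩
    rw [Finset.mem_filter, Finset.mem_range]
    refine ⟨hcn, ?_⟩
    by_contra hb
    exact hcon c hcn hb i b1 b2 h3
  have h1 := Finset.card_le_card hsub
  have h2 : (((Finset.range n).filter bad).biUnion
      (fun c => Finset.Ico (l + c * R) (l + c * R + R))).card ≤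
      ((Finset.range n).filter bad).card * R := by
    refine Finset.card_biUnion_le_card_mul _ _ _ ?_
    intro c _
    rw [Nat.card_Ico]
    omega
  have h3 : n * R ≤ (3 * ((Finset.range n).filter bad).card) * R := by
    calc n * R ≤ 3 * ((Finset.Ico l (l + n * R)).filter Q).card := hQ
      _ ≤ 3 * (((Finset.range n).filter bad).card * R) := Nat.mul_le_mul_left 3 (h1.trans h2)
      _ = _ := by ring
  have h4 := Nat.le_of_mul_le_mul_right h3 (by omega)
  omega

/-- Products. -/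
theorem mulb {c n R : ℕ} (h : c + 1 ≤ n) : c * R + R ≤ n * R := by
  have := Nat.mul_le_mul_right R h
  rw [Nat.succ_mul] at this
  exact this

end PWinAux

open PWinAux in
theorem pWin : S_BadR → S_Pr → S_Win := by
  intro hBad hPr k r R hk hR
  obtain ⟨g, hg⟩ := hBad k r hk
  obtain ⟨n, hn⟩ : ∃ n, n = 6 * (g + 1) + 3 := ⟨_, rfl⟩
  have hnR : R ≤ n * R := Nat.le_mul_of_pos_left R (by omega)
  refine ⟨(2 * g + 2) * R, n * R, by omega, ?_⟩
  intro V _ D m₀ L hC hLk l hl hlN hBC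
  classical
  subst hLk
  -- the whole interval
  obtain ⟨X₀, hX₀⟩ : ∃ X₀, X₀ = D3 D L l (l + n * R - 1) := ⟨_, rfl⟩
  rw [← hX₀] at hBC
  have htt : tt L.k = 6 * L.k + 60 := rfl
  have hxT : ∀ i, l ≤ i → i < l + n * R → TX D L i (L.x i) := by
    intro i h1 h2
    exact TX_x hC.ol (by omega) (by omega)
  have hinj : ∀ i, l ≤ i → i < l + n * R → ∀ j, l ≤ j → j < l + n * R → L.x i = L.x j → i = j := by
    intro i h1 h2 j h3 h4 h5
    by_contra hne
    exact OLnxx hC.ol (by omega) (by omega) hne h5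
  have hxD : ∀ i, l ≤ i → i < l + n * R → ∀ p q, p ≤ i → i ≤ q → L.x i ∈ D3 D L p q := by
    intro i h1 h2 p q h3 h4
    exact ⟨i, h3, h4, Or.inl (hxT i h1 h2)⟩
  obtain ⟨M, hM⟩ : ∃ M : Set V, M = L.x '' (Finset.Ico l (l + n * R) : Finset ℕ) := ⟨_, rfl⟩
  have hMc : M.ncard = n * R := by
    rw [hM, Set.ncard_image_of_injOn, Set.ncard_coe_finset, Nat.card_Ico]
    · omega
    · intro i hi j hj hij
      rw [Finset.mem_coe, Finset.mem_Ico] at hi hj
      exact hinj i hi.1 hi.2 j hj.1 hj.2 hij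
  have hMX : M ⊆ X₀ := by
    rw [hM, hX₀]
    rintro _ ⟨i, hi, rfl⟩
    rw [Finset.mem_coe, Finset.mem_Ico] at hi
    exact hxD i hi.1 hi.2 _ _ hi.1 (by omega)
  obtain ⟨S₀, hS₀, hrk, hc1, hc0⟩ := hBC M hMX (by rw [hMc]; omega)
  rw [hMc] at hc1 hc0
  -- blocks
  have hblk : ∀ c < n, D3 D L (l + c * R) (l + c * R + R - 1) ⊆ X₀ := by
    intro c hc
    rw [hX₀]
    have := mulb (R := R) (Nat.succ_le_of_lt hc)
    exact D3_mono (by omega) (by omega)
  let bad : ℕ → Prop := fun c => (∃ v ∈ D3 D L (l + c * R) (l + c * R + R - 1), v ∈ S₀) ∧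
    ∃ v ∈ D3 D L (l + c * R) (l + c * R + R - 1), v ∉ S₀
  have hbad : ((Finset.range n).filter bad).card < 2 * g := by
    by_contra hcon
    rw [not_lt] at hcon
    obtain ⟨c, hcF, hcc⟩ := second g _ hcon
    have hex : ∀ i, ∃ (P Q : ℕ) (s t : V), i < g → l + c i * R ≤ P ∧ P < l + c i * R + R ∧
        l + c i * R ≤ Q ∧ Q < l + c i * R + R ∧ Typ D L P Q s t ∧ s ∈ X₀ ∧ t ∈ X₀ ∧
        (s ∈ S₀ ↔ t ∉ S₀) := by
      intro i
      by_cases hi : i < g
      · have h1 := hcF i hi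
        rw [Finset.mem_filter, Finset.mem_range] at h1
        obtain ⟨hcn, ⟨v, hv, hvS⟩, u, hu, huS⟩ := h1
        have h2 := mulb (R := R) (Nat.succ_le_of_lt hcn)
        obtain ⟨P, Q, s, t, p1, p2, p3, p4, p5, p6, p7, p8⟩ :=
          hPr V D m₀ L hC S₀ (l + c i * R) R v u (by omega) (by omega) (by omega) hv hu hvS huS
        exact ⟨P, Q, s, t, fun _ => ⟨p1, p2, p3, p4, p5, hblk _ hcn p6, hblk _ hcn p7, p8⟩⟩
      · exact ⟨0, 0, L.x 0, L.x 0, fun h => absurd h hi⟩
    choose P Q s t hPQ using hex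
    have hlt := hg V D m₀ L hC rfl S₀ (X₀ \ S₀) s t P Q ?_ ?_ ?_
    · exact absurd hrk (by omega)
    · intro i hi
      obtain ⟨-, -, -, -, -, p6, p7, p8⟩ := hPQ i hi
      by_cases hs : s i ∈ S₀
      · exact Or.inl ⟨hs, p7, p8.1 hs⟩
      · refine Or.inr ⟨⟨p6, hs⟩, ?_⟩
        by_contra ht
        exact hs (p8.2 ht)
    · intro i hi
      obtain ⟨p1, p2, p3, p4, p5, -⟩ := hPQ i hi
      have h1 := hcF i hi
      rw [Finset.mem_filter, Finset.mem_range] at h1
      have h2 := mulb (R := R) (Nat.succ_le_of_lt h1.1)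
      exact ⟨p5, by omega, by omega, by omega, by omega⟩
    · intro i j hij hj
      obtain ⟨p1, p2, p3, p4, -⟩ := hPQ i (by omega)
      obtain ⟨q1, q2, q3, q4, -⟩ := hPQ j hj
      have h1 := Nat.mul_le_mul_right R (hcc i j hij hj)
      have h2 : (c i + 2) * R = c i * R + 2 * R := by ring
      rw [h2] at h1
      exact ⟨by omega, by omega, by omega, by omega⟩
  -- a block inside S₀ and a block outside S₀
  have hF1 : n * R ≤ 3 * ((Finset.Ico l (l + n * R)).filter (fun i => L.x i ∈ S₀)).card := by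
    refine hc1.trans (Nat.mul_le_mul_left 3 ?_)
    have h1 : M ∩ S₀ ⊆ (((Finset.Ico l (l + n * R)).filter (fun i => L.x i ∈ S₀)).image L.x :
        Finset V) := by
      rintro v ⟨hv, hvS⟩
      rw [hM] at hv
      obtain ⟨i, hi, rfl⟩ := hv
      rw [Finset.mem_coe]
      exact Finset.mem_image_of_mem _ (Finset.mem_filter.2 ⟨Finset.mem_coe.1 hi, hvS⟩)
    have h2 := Set.ncard_le_ncard h1 (Set.toFinite _)
    rw [Set.ncard_coe_finset] at h2
    exact h2.trans Finset.card_image_le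
  have hF0 : n * R ≤ 3 * ((Finset.Ico l (l + n * R)).filter (fun i => L.x i ∉ S₀)).card := by
    refine hc0.trans (Nat.mul_le_mul_left 3 ?_)
    have h1 : M \ S₀ ⊆ (((Finset.Ico l (l + n * R)).filter (fun i => L.x i ∉ S₀)).image L.x :
        Finset V) := by
      rintro v ⟨hv, hvS⟩
      rw [hM] at hv
      obtain ⟨i, hi, rfl⟩ := hv
      rw [Finset.mem_coe]
      exact Finset.mem_image_of_mem _ (Finset.mem_filter.2 ⟨Finset.mem_coe.1 hi, hvS⟩)
    have h2 := Set.ncard_le_ncard h1 (Set.toFinite _)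
    rw [Set.ncard_coe_finset] at h2
    exact h2.trans Finset.card_image_le
  have hxblk : ∀ c < n, ∀ i, l + c * R ≤ i → i < l + c * R + R →
      L.x i ∈ D3 D L (l + c * R) (l + c * R + R - 1) := by
    intro c hc i h1 h2
    have h3 := mulb (R := R) (Nat.succ_le_of_lt hc)
    exact hxD i (by omega) (by omega) _ _ h1 (by omega)
  have hg1 : ∃ c < n, ∀ v ∈ D3 D L (l + c * R) (l + c * R + R - 1), v ∈ S₀ := by
    obtain ⟨c, hc, hcb, i, h1, h2, h3⟩ := good n R l g (by omega) hn bad hbad _ hF1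
    refine ⟨c, hc, ?_⟩
    by_contra hcon
    push Not at hcon
    exact hcb ⟨⟨L.x i, hxblk c hc i h1 h2, h3⟩, hcon⟩
  have hg0 : ∃ c < n, ∀ v ∈ D3 D L (l + c * R) (l + c * R + R - 1), v ∉ S₀ := by
    obtain ⟨c, hc, hcb, i, h1, h2, h3⟩ := good n R l g (by omega) hn bad hbad _ hF0
    refine ⟨c, hc, ?_⟩
    by_contra hcon
    push Not at hcon
    exact hcb ⟨hcon, ⟨L.x i, hxblk c hc i h1 h2, h3⟩⟩
  obtain ⟨c, c', hcc, hc'n, hclose, hcol⟩ := close n
    (fun c => ∀ v ∈ D3 D L (l + c * R) (l + c * R + R - 1), v ∈ S₀)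
    (fun c => ∀ v ∈ D3 D L (l + c * R) (l + c * R + R - 1), v ∉ S₀) bad
    (by
      intro c hc
      by_cases h1 : ∀ v ∈ D3 D L (l + c * R) (l + c * R + R - 1), v ∈ S₀
      · exact Or.inl h1
      · by_cases h2 : ∀ v ∈ D3 D L (l + c * R) (l + c * R + R - 1), v ∉ S₀
        · exact Or.inr (Or.inl h2)
        · push Not at h1 h2
          exact Or.inr (Or.inr ⟨h2, h1⟩))
    hg1 hg0
    (by
      rintro c hc ⟨h1, h2⟩
      have h3 := hxblk c hc (l + c * R) le_rfl (by omega)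
      exact h2 _ h3 (h1 _ h3))
  have m1 := mulb (R := R) (Nat.succ_le_of_lt hc'n)
  have m2 := mulb (R := R) (Nat.succ_le_of_lt hcc)
  have m3 : c' * R + R ≤ c * R + (2 * g + 2) * R := by
    have h1 : c' + 1 ≤ c + (2 * g + 2) := by omega
    have h2 := Nat.mul_le_mul_right R h1
    rw [Nat.succ_mul, Nat.add_mul] at h2
    exact h2
  have hsubX : D3 D L (l + c * R) (l + c' * R + R - 1) ⊆ X₀ := by
    rw [hX₀]
    exact D3_mono (by omega) (by omega)
  have hblk' : D3 D L (l + c' * R + R - 1 + 1 - R) (l + c' * R + R - 1) =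
      D3 D L (l + c' * R) (l + c' * R + R - 1) := by
    congr 1
    omega
  have hin : D3 D L (l + c' * R) (l + c' * R + R - 1) ⊆
      D3 D L (l + c * R) (l + c' * R + R - 1) := D3_mono (by omega) le_rfl
  rcases hcol with ⟨a1, a0⟩ | ⟨a0, a1⟩
  · refine ⟨l + c * R, l + c' * R + R - 1, D3 D L (l + c * R) (l + c' * R + R - 1) \ S₀,
      by omega, by omega, by omega, ?_⟩
    refine ⟨by omega, by omega, by omega, Set.diff_subset, ?_, ?_, ?_⟩
    · refine le_trans ?_ hrk
      rw [Rep.rk_symm]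
      refine Rep.rk_mono D ?_ ?_
      · intro v hv
        by_contra h
        exact hv.2 ⟨hv.1, h⟩
      · intro v hv
        exact ⟨hsubX hv.1, hv.2⟩
    · intro v hv hvS
      exact hvS.2 (a1 v hv)
    · intro v hv
      rw [hblk'] at hv
      exact ⟨hin hv, a0 v hv⟩
  · refine ⟨l + c * R, l + c' * R + R - 1, S₀ ∩ D3 D L (l + c * R) (l + c' * R + R - 1),
      by omega, by omega, by omega, ?_⟩
    refine ⟨by omega, by omega, by omega, Set.inter_subset_right, ?_, ?_, ?_⟩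
    · refine le_trans ?_ hrk
      refine Rep.rk_mono D Set.inter_subset_left ?_
      intro v hv
      exact ⟨hsubX hv.1, fun h => hv.2 ⟨h, hv.1⟩⟩
    · intro v hv hvS
      exact a0 v hv hvS.1
    · intro v hv
      rw [hblk'] at hv
      exact ⟨a1 v hv, hin hv⟩

end Pool.Agent.MPd439b2.OP
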