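import Pool.Agent.Lib.MP_d439b2_co.OP.SpecB

/-!
# MP_d439b2_co, OP: four edges of type X-B (Z1) (helper49)
-/

set_option autoImplicit false

namespace Pool.Agent.MPd439b2.OP

open Pool.Agent.MPd439b2 Pool.Agent.MPd439b2.W Pool.Agent.MPd439b2.SA

theorem pZ1 (hTXa : S_TXa) : S_Z1 := by
  classical
  intro V D m₀ L hC c d y u hc hd hy hcd hyd huc hud hu
  have ht := hC.tri
  have hL := hC.ol
  have hk := hC.hk
  have sy : ∀ {u v : V}, ¬ D.Adj u v → ¬ D.Adj v u := fun h h' => h h'.symm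
  have htt : tt L.k = 6 * L.k + 60 := rfl
  obtain ⟨py, hpy, hyX⟩ := hy
  have hN0 := hyX.le
  have hTX := (hTXa V D m₀ L hC).1
  -- facts on the ladder part
  have hXq : ∀ {v : V} {p : ℕ}, tt L.k ≤ p → TX D L p v → ∀ t < L.k,
      ¬ D.Adj v (L.a (L.k + 3 + t)) ∧ ¬ D.Adj v (L.b (L.k + 3 + t)) ∧ D.Adj v (L.b (L.N - 1)) := by
    intro v p hp hv t ht'
    have h1 := hv.le
    exact ⟨hTX v p _ hv (by omega), hv.nadj (by omega) (by omega), hv.last⟩
  have hXN : ∀ {v : V} {p : ℕ}, tt L.k ≤ p → TX D L p v → ∀ t < L.k,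
      Nd D {v} {L.a (L.k + 3 + t)} ∧ Nd D {v} {L.b (L.k + 3 + t)} := by
    intro v p hp hv t ht'
    obtain ⟨h1, h2, h3⟩ := hXq hp hv t ht'
    rw [nd_sing, nd_sing]
    refine ⟨⟨ne_of h3 (fun h => ?_), h1⟩, ne_of h3 (OLbb hL (by omega) (by omega)), h2⟩
    have := (OLab hL (by omega) (by omega)).mp h
    omega
  have hdN : ∀ i < 4, ∀ t < L.k,
      Nd D {d i} {L.a (L.k + 3 + t)} ∧ Nd D {d i} {L.b (L.k + 3 + t)} := by
    intro i hi t ht'
    have h1 := (hd i hi).na hk hL (j := L.k + 3 + t) (by omega)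
    have h2 := (OLab hL (i := L.k + 3 + t) (j := L.k + 3 + t) (by omega) (by omega)).mpr rfl
    rw [nd_sing, nd_sing]
    exact ⟨⟨(ne_of h2 h1.2).symm, h1.1⟩, (ne_of h2.symm h1.1).symm, h1.2⟩
  have hcN : ∀ i < 4, ∀ t < L.k,
      Nd D {c i} {L.a (L.k + 3 + t)} ∧ Nd D {c i} {L.b (L.k + 3 + t)} := by
    intro i hi t ht'
    obtain ⟨p, hp, hv⟩ := hc i hi
    exact hXN hp hv t ht'
  have hyN := hXN hpy hyX
  set bl := L.b (L.N - 1) with hbl
  have hcb : ∀ i < 4, D.Adj (c i) bl := fun i hi => by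
    obtain ⟨p, hp, hv⟩ := hc i hi
    exact hv.last
  have hyb : D.Adj y bl := hyX.last
  have hcc : ∀ i < 4, ∀ j < 4, ¬ D.Adj (c i) (c j) := fun i hi j hj => by
    obtain ⟨p, hp, hv⟩ := hc i hi
    obtain ⟨p', hp', hv'⟩ := hc j hj
    exact TX_TX ht hv hv'
  have hyc : ∀ i < 4, ¬ D.Adj y (c i) := fun i hi => by
    obtain ⟨p, hp, hv⟩ := hc i hi
    exact TX_TX ht hyX hv
  have hdd : ∀ i < 4, ∀ j < 4, ¬ D.Adj (d i) (d j) := fun i hi j hj =>
    (hd i hi).2 _ (hd j hj).1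
  have hdb : ∀ i < 4, ¬ D.Adj (d i) bl := fun i hi => ((hd i hi).na hk hL (by omega)).2
  have hda : ∀ i < 4, ¬ D.Adj (d i) (L.a (L.N - 1)) := fun i hi =>
    ((hd i hi).na hk hL (by omega)).1
  have hba : D.Adj bl (L.a (L.N - 1)) := (OLba hL (by omega) (by omega)).mpr rfl
  have hdnb : ∀ i < 4, d i ≠ bl := fun i hi => (ne_of hba (hda i hi)).symm
  have hcd1 : ∀ i < 4, D.Adj (c i) (d i) := fun i hi => (hcd i hi i hi).mpr rfl
  have hcd2 : ∀ i < 4, ∀ j < 4, i ≠ j → ¬ D.Adj (c i) (d j) := fun i hi j hj hne h =>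
    hne ((hcd i hi j hj).mp h)
  -- `u`
  have huc1 : ∀ i ≤ 1, D.Adj u (c i) := fun i hi => (huc i (by omega)).mpr hi
  have huc2 : ∀ i < 4, 2 ≤ i → ¬ D.Adj u (c i) := fun i hi h2 h => by
    have := (huc i hi).mp h
    omega
  have hunc : ∀ i < 4, u ≠ c i := fun i hi => (ne_of (hcd1 i hi) (hud i hi)).symm
  have hund : ∀ i < 4, u ≠ d i := fun i hi => by
    rcases Nat.eq_zero_or_pos i with h0 | h0
    · subst h0
      exact ne_of (huc1 1 le_rfl) (fun h => hcd2 1 (by omega) 0 (by omega) (by omega) h.symm)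
    · exact ne_of (huc1 0 (by omega)) (fun h => hcd2 0 (by omega) i hi (by omega) h.symm)
  have huny : u ≠ y := (ne_of ((hyd 1 (by omega)).mpr le_rfl) (hud 1 (by omega))).symm
  have hLgab : ∀ j < L.N, u ≠ L.a j ∧ u ≠ L.b j := by
    intro j hj
    have h1 := (OLab hL hj hj).mpr rfl
    rcases hu with ⟨i, hi⟩ | hu
    · constructor
      · rintro rfl
        exact notW_of_Lg (Lg_a hk hL hj) hi
      · rintro rfl
        exact notW_of_Lg (Lg_b hk hL hj) hi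
    · have h2 := hu.na hk hL hj
      exact ⟨(ne_of h1 h2.2).symm, (ne_of h1.symm h2.1).symm⟩
  -- blocks
  have n1 : ∀ {u w : V}, u ≠ w → ¬ D.Adj u w → Nd D {u} {w} := fun h1 h2 => nd_sing.mpr ⟨h1, h2⟩
  -- single vertex against `{u, bl}`
  have nU : ∀ {w : V}, w ≠ u → w ≠ bl → ¬ D.Adj w u → Nd D {w} {u, bl} := by
    intro w h1 h2 h3
    refine nd_of ?_ (Finset.mem_singleton_self w) (by simp) h3
    rw [Finset.disjoint_singleton_left]
    simp [h1, h2]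
  have nB : ∀ {w : V}, w ≠ u → w ≠ bl → ¬ D.Adj w bl → Nd D {w} {u, bl} := by
    intro w h1 h2 h3
    refine nd_of ?_ (Finset.mem_singleton_self w) (by simp) h3
    rw [Finset.disjoint_singleton_left]
    simp [h1, h2]
  have hUN : ∀ t < L.k, Nd D {u, bl} {L.a (L.k + 3 + t)} ∧ Nd D {u, bl} {L.b (L.k + 3 + t)} := by
    intro t ht'
    refine ⟨(nB (hLgab _ (by omega)).1.symm (OLnab hL (by omega) (by omega)) (fun h => ?_)).symm,
      (nB (hLgab _ (by omega)).2.symm (OLnbb hL (by omega) (by omega) (by omega))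
        (OLbb hL (by omega) (by omega))).symm⟩
    have := (OLab hL (by omega) (by omega)).mp h
    omega
  -- pairs of single vertices
  have dd : ∀ i < 4, ∀ j < 4, i ≠ j → Nd D {d i} {d j} := fun i hi j hj hne =>
    n1 (ne_of (hcd1 i hi).symm (fun h => hcd2 i hi j hj hne h.symm)) (hdd i hi j hj)
  have cc : ∀ i < 4, ∀ j < 4, i ≠ j → Nd D {c i} {c j} := fun i hi j hj hne =>
    n1 (ne_of (hcd1 i hi) (hcd2 j hj i hi (Ne.symm hne))) (hcc i hi j hj)
  have dc : ∀ i < 4, ∀ j < 4, i ≠ j → Nd D {d i} {c j} := fun i hi j hj hne =>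
    n1 (ne_of (hcd1 j hj) (hdd i hi j hj)).symm (fun h => hcd2 j hj i hi (Ne.symm hne) h.symm)
  have ync : ∀ i < 4, y ≠ c i := fun i hi => by
    by_cases h : i = 3
    · subst h
      exact ne_of ((hyd 2 (by omega)).mpr (by omega)) (hcd2 3 (by omega) 2 (by omega) (by omega))
    · exact ne_of ((hyd 3 (by omega)).mpr (by omega)) (hcd2 i hi 3 (by omega) h)
  have yc : ∀ i < 4, Nd D {y} {c i} := fun i hi => n1 (ync i hi) (hyc i hi)
  have ynd : ∀ i < 4, y ≠ d i := fun i hi =>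
    ne_of ((hyd 2 (by omega)).mpr (by omega)) (hdd i hi 2 (by omega))
  have cU : ∀ i < 4, 2 ≤ i → Nd D {c i} {u, bl} := fun i hi h2 =>
    nU (hunc i hi).symm (hcb i hi).ne (sy (huc2 i hi h2))
  have dU : ∀ i < 4, Nd D {d i} {u, bl} := fun i hi =>
    nU (hund i hi).symm (hdnb i hi) (sy (hud i hi))
  have yd : ∀ i < 4, 1 ≤ i → Cmp D {y} {d i} := fun i hi h1 => cmp_sing.mpr ((hyd i hi).mpr h1)
  have dc1 : ∀ i < 4, Cmp D {d i} {c i} := fun i hi => cmp_sing.mpr (hcd1 i hi).symm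
  have cUc : ∀ i ≤ 1, Cmp D {c i} {u, bl} := by
    intro i hi v hv w hw
    rw [Finset.mem_singleton] at hv
    subst hv
    rw [Finset.mem_insert, Finset.mem_singleton] at hw
    rcases hw with rfl | rfl
    · exact (huc1 i hi).symm
    · exact hcb i (by omega)
  have PQ : ∀ t < L.k, Cmp D {L.a (L.k + 3 + t)} {L.b (L.k + 3 + t)} := fun t ht' =>
    cmp_sing.mpr ((OLab hL (by omega) (by omega)).mpr rfl)
  have PP : ∀ t < L.k, ∀ s < L.k, t ≠ s → Nd D {L.a (L.k + 3 + t)} {L.a (L.k + 3 + s)} :=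
    fun t ht' s hs hne => n1 (OLnaa hL (by omega) (by omega) (by omega))
      (OLaa hL (by omega) (by omega))
  have PX : ∀ t < L.k, ∀ s < L.k, t ≠ s → Nd D {L.a (L.k + 3 + t)} {L.b (L.k + 3 + s)} :=
    fun t ht' s hs hne => n1 (OLnab hL (by omega) (by omega)) (fun h => by
      have := (OLab hL (by omega) (by omega)).mp h
      omega)
  have QQ : ∀ t < L.k, ∀ s < L.k, t ≠ s → Nd D {L.b (L.k + 3 + t)} {L.b (L.k + 3 + s)} :=
    fun t ht' s hs hne => n1 (OLnbb hL (by omega) (by omega) (by omega))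
      (OLbb hL (by omega) (by omega))
  have q0 : (0 : ℕ) < 4 := by omega
  have q1 : (1 : ℕ) < 4 := by omega
  have q2 : (2 : ℕ) < 4 := by omega
  have q3 : (3 : ℕ) < 4 := by omega
  by_cases huy : D.Adj u y
  · -- first model
    refine eng ht hC.ns {y} {d 2} {c 2} {d 3} {c 3} {u, bl} {c 0} {d 0}
      (fun t => {L.a (L.k + 3 + t)}) (fun t => {L.b (L.k + 3 + t)})
      (by simp) (by simp) (by simp) (by simp) (by simp) (by simp) (by simp) (by simp)
      (fun _ _ => by simp) (fun _ _ => by simp)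
      (yd 2 q2 (by omega)) (dc1 2 q2) (yd 3 q3 (by omega)) (dc1 3 q3) ?_
      (cmp_symm (cUc 0 (by omega))) (cmp_symm (dc1 0 q0))
      (yc 2 q2).1 (yc 3 q3).1 (yc 0 q0).1
      (dd 2 q2 3 q3 (by omega)).1 (dU 2 q2).1 (dU 3 q3).1 (dU 0 q0).symm.1
      (n1 (ynd 0 q0) (fun h => by
        have := (hyd 0 q0).mp h
        omega))
      (dc 2 q2 3 q3 (by omega)) (dc 2 q2 0 q0 (by omega)) (dd 2 q2 0 q0 (by omega))
      (dc 3 q3 2 q2 (by omega)) (dc 3 q3 0 q0 (by omega)) (dd 3 q3 0 q0 (by omega))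
      (cU 2 q2 (by omega)).symm (cU 3 q3 (by omega)).symm
      (cc 2 q2 3 q3 (by omega)) (cc 2 q2 0 q0 (by omega)) (dc 0 q0 2 q2 (by omega)).symm
      (cc 3 q3 0 q0 (by omega)) (dc 0 q0 3 q3 (by omega)).symm
      PQ PP PX QQ hyN (hdN 2 q2) (hcN 2 q2) (hdN 3 q3) (hcN 3 q3) hUN (hcN 0 q0) (hdN 0 q0)
    intro v hv w hw
    rw [Finset.mem_singleton] at hv
    subst hv
    rw [Finset.mem_insert, Finset.mem_singleton] at hw
    rcases hw with rfl | rfl
    · exact huy.symm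
    · exact hyb
  · -- second model
    exact eng ht hC.ns {y} {d 2} {c 2} {d 3} {c 3} {d 1} {c 1} {u, bl}
      (fun t => {L.a (L.k + 3 + t)}) (fun t => {L.b (L.k + 3 + t)})
      (by simp) (by simp) (by simp) (by simp) (by simp) (by simp) (by simp) (by simp)
      (fun _ _ => by simp) (fun _ _ => by simp)
      (yd 2 q2 (by omega)) (dc1 2 q2) (yd 3 q3 (by omega)) (dc1 3 q3) (yd 1 q1 (by omega))
      (dc1 1 q1) (cUc 1 le_rfl)
      (yc 2 q2).1 (yc 3 q3).1 (yc 1 q1).1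
      (dd 2 q2 3 q3 (by omega)).1 (dd 2 q2 1 q1 (by omega)).1 (dd 3 q3 1 q1 (by omega)).1
      (dU 1 q1).1
      (nU huny.symm hyb.ne (sy huy))
      (dc 2 q2 3 q3 (by omega)) (dc 2 q2 1 q1 (by omega)) (dU 2 q2)
      (dc 3 q3 2 q2 (by omega)) (dc 3 q3 1 q1 (by omega)) (dU 3 q3)
      (dc 1 q1 2 q2 (by omega)) (dc 1 q1 3 q3 (by omega))
      (cc 2 q2 3 q3 (by omega)) (cc 2 q2 1 q1 (by omega)) (cU 2 q2 (by omega))
      (cc 3 q3 1 q1 (by omega)) (cU 3 q3 (by omega))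
      PQ PP PX QQ hyN (hdN 2 q2) (hcN 2 q2) (hdN 3 q3) (hcN 3 q3) (hdN 1 q1) (hcN 1 q1) hUN

end Pool.Agent.MPd439b2.OP
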