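import Pool.Agent.Lib.MP_d439b2_co.OP.Base

/-!
# MP_d439b2_co, OP, Spec A: traces, light vertices, components (helper99)

Every `S_...` is a statement to be proved in its own file; the docstring contains the complete proof.
`x ~ y` means `D.Adj x y`; `k = L.k`, `N = L.N`, `a j = L.a j` and so on.  The models of `S_{2,2,3} + k P_2` are written
as `centre C; legs (X₁, Y₁), (X₂, Y₂), (X₃, Y₃, Z₃); P2's (P t, Q t)`; use `eng1` (single vertices) or `eng` (blocks of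
one or two vertices) of `OP/Base.lean`.  All ranges of the indices have been checked by computer for small `k`.
Facts used in all models without mention: `OLab ... OLnww` (adjacencies and differences in the ladder), `TX.adj`,
`TX.nadj`, `TW.adj`, `TW.nadj`; different rows of the ladder: `x i ≠ b j`, `x i ≠ a j` (`i + 1 < N`), `w i ≠ a j`,
`w i ≠ b j` (`1 ≤ i`).  A vertex is different from another one if it has a neighbour which is not a neighbour of
the other one (`ne_of`).  The light vertices are different from those of type `X` or `W` (`notX_of_Lg`).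
-/

set_option autoImplicit false

namespace Pool.Agent.MPd439b2.OP

open Pool.Agent.MPd439b2 Pool.Agent.MPd439b2.W Pool.Agent.MPd439b2.SA

/-- **Tb.** The trace on the `b j` is exact: `T = {j ∈ [k, N) | v ~ b j}` is `[i, N)` or `[i, N)` without `i + 1`, or any two
of its elements are at least `N - 3`.

Proof. We may assume that `T` has two elements.  Then `v` is not adjacent to `x k` (`x k ~ b j` for `j ≥ k`, no triangle).
(A) `t < l ≤ s`, `t, s ∈ T`, `l ≤ r`, `l ≤ r'`, `r ≠ r'`, `r, r' ∉ T` (all indices in `[k, N)`) is impossible.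
Model (`eng`): centre `{x l}`; legs `({b r}, {a r})`, `({b r'}, {a r'})`, `({b s}, {v, x k}, {b t})`; P2's
`({a q}, {b q})`, `q < k`.  Here `x l ~ b j` iff `l ≤ j`, `x k ~ b j` iff `k ≤ j`, `x ≁ a`; the block `{v, x k}` is complete to
`b s` and `b t`; it is not complete to `b r, b r'` (`v`), not to `b q` (`x k`), not to `a r, a r', a q` (`x k`), not to `x l` by
`OLxx`.  Differences: `v ≠ x l` (`v ~ b t`), `v ≠ b j` (`v ~ b s`, and `b` is independent), `v ≠ a j` (`v` sees the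
two vertices `b s, b t`, and `a j` sees only `b j`).
(B) `t, t' < l ≤ s`, `l ≤ u`, `t ≠ t'`, `t, t', s ∈ T`, `u ∉ T` is impossible.  Model: centre `{v, x k}`; legs
`({b t}, {a t})`, `({b t'}, {a t'})`, `({b s}, {x l}, {b u})`; P2's `({a q}, {b q})`, `q < k`.  `{v, x k}` is not complete to
`b u` (`v`); `x l ≁ b t, b t'`; the rest as before (`v ≠ b u` since `v ~ b s`).
Now let `t` be the least element of `T`.  If `t ≥ N - 3` we are done (second alternative: `j ≥ t`).  So let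
`t ≤ N - 4`.  By (A) with `l = t + 1` (some `s ∈ T`, `s > t`) at most one element of `[t + 1, N)` is not in `T`.  If there is
none, the first alternative holds with `i = t`, first form (`t + 3 ≤ N`).  If it is `u = t + 1`: second form.  Otherwise
`u ≥ t + 2`, so `t + 1 ∈ T`.  If `u ≤ N - 2` apply (B) with `t, t' = t + 1, l = u, s = N - 1`.  If `u = N - 1` apply (B)
with `t, t' = t + 1`, `l = s = N - 2` (note `t + 1 < N - 2`). -/
def S_Tb : Prop := ∀ (V : Type) (D : SimpleGraph V) (m₀ : ℕ) (L : LD V), Ctx D m₀ L → ∀ v : V,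
  (∃ i, L.k ≤ i ∧ i + 3 ≤ L.N ∧
    ((∀ j, L.k ≤ j → j < L.N → (D.Adj v (L.b j) ↔ i ≤ j)) ∨
      ∀ j, L.k ≤ j → j < L.N → (D.Adj v (L.b j) ↔ i ≤ j ∧ j ≠ i + 1))) ∨
  ∀ j j', L.k ≤ j → j < j' → j' < L.N → D.Adj v (L.b j) → D.Adj v (L.b j') → L.N ≤ j + 3

/-- **Mix.** No vertex sees an `a j` and a `b l` in the middle.

Proof. Suppose `v ~ a j`, `v ~ b l`.  Model (`eng`): centre `{x k}`; legs `({b (j+1)}, {a (j+1)})`,
`({b (j+2)}, {a (j+2)})`, `({b j}, {a j}, {v, w j})`; P2's `({a q, x q}, {b q})`, `q < k`.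
`x k ~ b j, b (j+1), b (j+2)` as `k ≤ j`.  `a j ~ v`, `a j ~ w j`.  The block `{v, w j}`: `v ≁ x k` (common neighbour `b l`,
`k ≤ l`); `w j ≁ b _`; `w j ≁ a (j+1), a (j+2)`; `v ≁ x q` for `q < k` (common neighbour `b l`); `w j ≁ b q`.  The block
`{a q, x q}`: complete to `b q`; `a q ≁ b _` (other index), `a q ≁ a _`, `a q ≁ x k`; `x q ≁ a _`.  `b q ≁ x k` (`q < k`).
Differences: `v` is no `a` (`v ~ a j`), no `b` (`v ~ b l`), no `x` (`v ~ a j`), not `w j` (`v ~ b l`); `w j` and `x q`,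
`x k`: `OLnxw`; `x q ≠ x k`, `x q ≠ a _` (`q + 1 < N`), `w j ≠ b _` as `j ≥ k ≥ 1`. -/
def S_Mix : Prop := ∀ (V : Type) (D : SimpleGraph V) (m₀ : ℕ) (L : LD V), Ctx D m₀ L →
  ∀ (v : V) (j l : ℕ), L.k ≤ j → j + 2 < L.N → L.k ≤ l → l < L.N → D.Adj v (L.a j) →
  ¬ D.Adj v (L.b l)

/-- **TXa.** (Uses Mix.)

Proof. First part: let `TX i v`, `j + 2 < N` and suppose `v ~ a j`.  If `k ≤ j` use `Mix` with `l = i`.  If `j < k` use `Mix`
for the reversed ladder `L.rev` (`Ctx.rev`): there `v` sees `L.rev.a j' = b (N - 1 - j')` with `j' = N - 1 - (i + 2)` and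
`L.rev.b l' = a j` with `l' = N - 1 - j`.  Conditions: `k ≤ j'` as `i + k + 3 ≤ N`; `j' + 2 < N` as `i ≥ k ≥ 1`; `k ≤ l'` as
`j < k` and `N ≥ 2 k + 3`; and `v ~ b (i + 2)` by `TX.adj` (`i + 2 < N`).
Second part: the first part for `L.rev` with `j' = N - 1 - j` (`TX_rev`; `TW i v` gives `TX D L.rev (N - 1 - i) v`
by the definition). -/
def S_TXa : Prop := ∀ (V : Type) (D : SimpleGraph V) (m₀ : ℕ) (L : LD V), Ctx D m₀ L →
  (∀ (v : V) (i j : ℕ), TX D L i v → j + 2 < L.N → ¬ D.Adj v (L.a j)) ∧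
  ∀ (v : V) (i j : ℕ), TW D L i v → 2 ≤ j → j < L.N → ¬ D.Adj v (L.b j)

/-- **Ltt.** A light vertex touches at most one index in the middle.  (Uses Tb, Mix.)

Proof. By `Tb` for `L`: (1) `v` is adjacent to at most one `b j` with `k ≤ j < N - 3`, and to none with
`j < N - k - 3` if the first alternative holds: the first alternative holds with some `i`; as `v` is not of type `X`
we have `i + k + 3 > N`, and `v ≁ b j` for `k ≤ j < i`.  In all cases at most one `b j` with `k + 3 ≤ j`, `j + k + 3 < N` is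
adjacent to `v`.  By `Tb` for `L.rev` the same for the `a j` (`Lg_rev`; index `N - 1 - j`).  Finally `v ~ a j` and
`v ~ b l` with `j ≠ l` in this range is impossible by `Mix`. -/
def S_Ltt : Prop := ∀ (V : Type) (D : SimpleGraph V) (m₀ : ℕ) (L : LD V), Ctx D m₀ L →
  ∀ (v : V) (j j' : ℕ), v ∈ Lg D L → L.k + 3 ≤ j → j + L.k + 3 < L.N → L.k + 3 ≤ j' →
  j' + L.k + 3 < L.N → tc D L v j → tc D L v j' → j = j'

/-- **Pur.** Purity.  (Uses TXa, Ltt.)

Proof. First part.  Suppose `z ≁ y'`.  Each of `u, y, y'` touches at most one index in `[k + 3, N - k - 3)` (`Ltt`).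
Choose `r ≠ r'` in `[i + 2, N - k - 3)` (at least 7 indices) not touched by `u, y, y'`, and `k` indices `q t` in `[k + 3, i)` (at
least `k + 3` indices) not touched by them.  `eng1`: centre `z`; legs `(b r, a r)`, `(b r', a r')`, `(y, u, y')`; P2's
`(a (q t), b (q t))`.  `z ~ b r, b r', y`; `z ≁ a _` (`TXa`), `z ≁ b (q t)`; `z ≁ y'` by assumption.
The `k` indices: an increasing enumeration of a finite set with at least `k` elements (`Finset.orderEmbOfFin`), or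
any injection.  Second part: the first part for `L.rev` (threshold `N - 1 - i`). -/
def S_Pur : Prop := ∀ (V : Type) (D : SimpleGraph V) (m₀ : ℕ) (L : LD V), Ctx D m₀ L →
  (∀ (z u y y' : V) (i : ℕ), TX D L i z → 2 * L.k + 6 ≤ i → i + L.k + 12 ≤ L.N → u ∈ Lg D L →
    y ∈ Lg D L → y' ∈ Lg D L → D.Adj u y → D.Adj u y' → D.Adj z y → D.Adj z y') ∧
  ∀ (z u y y' : V) (i : ℕ), TW D L i z → L.k + 11 ≤ i → i + 2 * L.k + 7 ≤ L.N → u ∈ Lg D L →
    y ∈ Lg D L → y' ∈ Lg D L → D.Adj u y → D.Adj u y' → D.Adj z y → D.Adj z y'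

/-- **FR1.** A light vertex which sees a vertex of type `X` sees all vertices of type `X` with smaller thresholds (up
to a window).  (Uses TXa, Ltt.)

Proof. First part.  Suppose `v ≁ z`.  Let `j = max i (2 k + 4)`.  `v` touches at most one index in `[k + 3, N - k - 3)`.
Legs: two indices `r, r'` among `j, j + 1, j + 2, j + 3, j + 4`, different from `i + 1`, not touched by `v`; then `z ~ b r`
(`TX.adj`), `r < i'`, so `z' ≁ b r` (`TX.nadj`).  P2's: `k` indices `q` in `[k + 3, j)` (at least `k + 1` indices), not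
touched by `v`.  Model (`eng`): centre `{z, x j}`; legs `({b r}, {a r})`, `({b r'}, {a r'})`,
`({b (N - 1)}, {z'}, {v})`; P2's `({a q}, {b q})`.  `z, x j, z'` all see `b (N - 1)` (`TX.last`, `OLxb`); `z' ~ v`;
`{z, x j}` is not complete to `v` (`z ≁ v`) and not to `b q` (`x j ≁ b q`, `q < j`); `z, x j, z' ≁ a _` (`TXa`, indices
`< N - 2`); `z' ≁ b q` (`k ≤ q < j < i'`); `v ≁ b (N - 1)` (common neighbour `z'`).  Differences: `z' ≠ z, x j`
(`z ~ b r`, `x j ~ b r`, `z' ≁ b r`); `v` is light, so `v ≠ z, x j, z'` (`x j` has type `X`: `TX_x`); `v ≠ b (N - 1)`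
(`z ~ b (N - 1)`, `z ≁ v`).  Second part: the first part for `L.rev`. -/
def S_FR1 : Prop := ∀ (V : Type) (D : SimpleGraph V) (m₀ : ℕ) (L : LD V), Ctx D m₀ L →
  (∀ (v z z' : V) (i i' : ℕ), v ∈ Lg D L → TX D L i z → TX D L i' z' → i + 5 ≤ i' →
    2 * L.k + 9 ≤ i' → D.Adj v z' → D.Adj v z) ∧
  ∀ (v z z' : V) (i i' : ℕ), v ∈ Lg D L → TW D L i z → TW D L i' z' → i' + 5 ≤ i →
    i' + 2 * L.k + 10 ≤ L.N → D.Adj v z' → D.Adj v z

/-- **Ex.** A vertex of type `W` misses at most `k` smaller thresholds of type `X`.  (Uses TXa.)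

Proof. First part.  Suppose `J` has at least `k + 1` elements; let `j₀` be the largest element of `J`, and let
`q t`, `t < k`, be different elements of `J` smaller than `j₀`.  Model (`eng`): centre `{ζ j₀}`; legs
`({b (i+1)}, {a (i+1)})`, `({b (i+2)}, {a (i+2)})`, `({b j₀}, {a j₀}, {z})`; P2's `({a q, ζ q}, {b q})`, `q = q t`.
`ζ j₀ ~ b (i+1), b (i+2)` as `i + 1 ≥ j₀ + 3`; `ζ j₀ ~ b j₀`; `a j₀ ~ z` as `j₀ ≤ i`, `j₀ + 1 ≠ i`; `ζ j₀ ≁ z`;
`z ≁ a (i+1), a (i+2)` (`TW.nadj`, `i + 2 + k + 1 ≤ N`: from `i + k + 4 ≤ N`); `z ≁ b _` (`TXa` second part, indices `≥ 2`);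
`ζ q ≁ a _` (`TXa`); `ζ q ≁ z`; `a q ≁ b _, a _, ζ j₀`; `b q ≁ ζ j₀` (`k ≤ q < j₀`).  Differences: `ζ q ≠ ζ q'`
(thresholds: `TX.uniq`), `ζ q` sees two of the `b` (`b q`, `b (N-1)`), so it is no `a` and no `b`; `ζ q ≠ z` (`z ≁ b q`);
`z` is no `b` (`z ~ a i, a 0`) and no `a`.  Second part: the first part for `L.rev` and `J' = {N - 1 - j | j ∈ J}`. -/
def S_Ex : Prop := ∀ (V : Type) (D : SimpleGraph V) (m₀ : ℕ) (L : LD V), Ctx D m₀ L →
  (∀ (z : V) (i : ℕ) (J : Finset ℕ) (ζ : ℕ → V), TW D L i z → i + L.k + 4 ≤ L.N →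
    (∀ j ∈ J, L.k + 2 ≤ j ∧ j + 2 ≤ i ∧ TX D L j (ζ j) ∧ ¬ D.Adj (ζ j) z) → J.card ≤ L.k) ∧
  ∀ (z : V) (i : ℕ) (J : Finset ℕ) (ζ : ℕ → V), TX D L i z → L.k + 3 ≤ i →
    (∀ j ∈ J, j + L.k + 3 ≤ L.N ∧ i + 2 ≤ j ∧ TW D L j (ζ j) ∧ ¬ D.Adj (ζ j) z) → J.card ≤ L.k

/-- **Gap.** Type `X` to the right of type `W`: not adjacent.  (Uses TXa.)

Proof. Suppose `z ~ z'`.  First let `i + k + 8 ≤ N`.  `eng1`: centre `z`; legs `(b (i+2), a (i+2))`,
`(b (i+3), a (i+3))`, `(z', a i', b i')`; P2's `(a m, b m)`, `m = i' + 1, ..., i' + k`.  `z ~ b (i+2), b (i+3), z'`;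
`z' ~ a i'`; `z ≁ b i'` (`k ≤ i' < i`), `z ≁ b m` (`m ≤ i' + k < i`); `z ≁ a _` (`TXa`); `z' ≁ a m, a (i+2), a (i+3)`
(`TW.nadj`, `i + 3 + k + 1 ≤ N`); `z' ≁ b _` (`TXa`, indices `≥ 2`).  If `k + 7 ≤ i'` use this for `L.rev` (there
`z'` has type `X` with threshold `N - 1 - i'` and `z` has type `W` with threshold `N - 1 - i`). -/
def S_Gap : Prop := ∀ (V : Type) (D : SimpleGraph V) (m₀ : ℕ) (L : LD V), Ctx D m₀ L →
  ∀ (z z' : V) (i i' : ℕ), TX D L i z → TW D L i' z' → i' + L.k + 3 ≤ i →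
  (i + L.k + 8 ≤ L.N ∨ L.k + 7 ≤ i') → ¬ D.Adj z z'

/-- **Sid.** A light vertex does not see both types.  (Uses TXa, FR1.)

Proof. First case: `i + 3 k + 9 ≤ N`, `i' + 3 k + 12 ≤ N`.  By FR1 (second part) `v ~ w m` for all `m ≥ i' + 5` with
`m + k + 1 ≤ N` (`TW_w`; `k + 2 ≤ m`), so `z ≁ w m` (no triangle `v, z, w m`).  Let `j₀ = max (i + 2) (i' + 5)`.  Model (`eng`): centre
`{z}`; legs `({b (j₀+1)}, {a (j₀+1)})`, `({b (j₀+2)}, {a (j₀+2)})`, `({b j₀}, {a j₀}, {w j₀})`; P2's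
`({a m}, {b m, w m})`, `m = j₀ + 3, ..., j₀ + 2 + k`.  `z ~ b j` for `j ≥ j₀ ≥ i + 2`; `z ≁ w j₀, w m`; `w j ~ a m` iff
`m ≤ j`; the block `{b m, w m}` is complete to `a m`, not complete to `z` (`w m`), not to `a j` with `j ≠ m` (`b m`), not to
`b _` (`b m`), not to `w j₀` (`b m`).  Differences: `w m ≠ z` (`z ~ b j₀`), `w m ≠ b _`, `w m ≠ a _`.
Second case: the first case for `L.rev`. -/
def S_Sid : Prop := ∀ (V : Type) (D : SimpleGraph V) (m₀ : ℕ) (L : LD V), Ctx D m₀ L →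
  ∀ (v z z' : V) (i i' : ℕ), v ∈ Lg D L → TX D L i z → TW D L i' z' → D.Adj v z → D.Adj v z' →
  ((i + 3 * L.k + 9 ≤ L.N ∧ i' + 3 * L.k + 12 ≤ L.N) ∨
    (3 * L.k + 8 ≤ i' ∧ 3 * L.k + 11 ≤ i)) → False

/-- **NoW.** A light vertex which sees a middle vertex of type `X` sees no vertex of type `W` at all, and conversely.
(Uses Sid.)

Proof. First part.  Let `z'` have the threshold `i'`.  If `i' + 3 k + 12 ≤ N` use the first case of `Sid`; otherwise
`i' ≥ N - 3 k - 11 ≥ 3 k + 8` and `i ≥ 3 k + 11`: the second case.  Second part: the first part for `L.rev`. -/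
def S_NoW : Prop := ∀ (V : Type) (D : SimpleGraph V) (m₀ : ℕ) (L : LD V), Ctx D m₀ L →
  (∀ (v z z' : V) (i i' : ℕ), v ∈ Lg D L → TX D L i z → Md L i → D.Adj v z → TW D L i' z' →
    ¬ D.Adj v z') ∧
  ∀ (v z z' : V) (i i' : ℕ), v ∈ Lg D L → TW D L i z → Md L i → D.Adj v z → TX D L i' z' →
    ¬ D.Adj v z'

/-- **T2.** Two crossing patterns.

Proof. Let `n = k + 11`.  No triangles gives in both cases `f s ≁ f t` (common neighbour `d 0`), `c s ≁ c t` (`w 0`),
`w s ≁ w t` (`c 0`), `d s ≁ d t` (`f 0`), `f s ≁ c t` (`w s`), `w s ≁ d t` (`c 0`).  The four families are injective (different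
neighbours).  `f s ≠ c t` for `t ≥ 1` (`c t ≁ d 0`); `w s ≠ d t` for `t + 1 < n` (`d t ≁ c (t + 1)`); `f, c` are
different from `w, d` (adjacent to some `d` resp. `w`).  The models use only `c t` with `t ≥ 1` and `d t` with `t + 1 < n`.
(HH) `f s ~ w t` iff `s ≤ t`.  Put `A (s, t) = {f s, c t}`, `B (s, t) = {w s, d t}`; `A (s, t)` is complete to `B (s', t')` iff
`s ≤ s'` and `t ≤ t'`; `A`'s are not complete to `A`'s, `B`'s not to `B`'s.  Model with `κ = k`: centre `A (3, κ+1)`; legs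
`(B (6, κ+4), A (5, κ+3))`, `(B (8, κ+2), A (7, κ+2))`, `(B (4, κ+6), A (1, κ+5), B (2, κ+8))`; P2's
`(A (9 + t, κ - t), B (9 + t, κ - t))`, `t < k`.
(MH) `f s ~ w t` iff `s = t`.  Model: centre `{c (κ+4)}`; legs `({w 1, d (κ+8)}, {f 1, c (κ+5)})`,
`({w 2, d (κ+9)}, {f 2, c (κ+6)})`, `({w 3, d (κ+7)}, {f 3, c 2}, {d 3})`; P2's `({f (4+t), c (4+t)}, {w (4+t), d (4+t)})`,
`t < k`.  (Checked by computer for `k ≤ 7`.) -/
def S_T2 : Prop := ∀ (V : Type) (D : SimpleGraph V) (k : ℕ) (f w c d : ℕ → V), 1 ≤ k → TriFree D →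
  NoSpi k D → (∀ i < k + 11, ∀ j < k + 11, (D.Adj (c i) (d j) ↔ i ≤ j)) →
  (∀ i < k + 11, ∀ j < k + 11, D.Adj (f i) (d j)) →
  (∀ i < k + 11, ∀ j < k + 11, D.Adj (c i) (w j)) →
  ¬ (∀ i < k + 11, ∀ j < k + 11, (D.Adj (f i) (w j) ↔ i ≤ j)) ∧
  ¬ ∀ i < k + 11, ∀ j < k + 11, (D.Adj (f i) (w j) ↔ i = j)

/-- **RkH.** (Uses T2 and `Rep.rk3`.)

Proof. Let `m = max m₀ (k + 11)`, `n₂ = (k + 11) * k + k + 11` and `ρ` the number of `Rep.rk3 m`.  If the rank is greater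
than `ρ` there are `f s ∈ P`, `w s ∈ Q` (`s < m`) with `f s ~ w t` iff `s = t`, iff `s ≠ t`, or iff `s ≤ t`.  The second case is
`CoM D m₀`.  In the other cases consider only `s, t < k + 11`.  At most `(k + 11) * k` indices `j < n₂` satisfy `w s ≁ c j` for some
`s < k + 11`; the remaining at least `k + 11` indices, in increasing order `σ 0 < σ 1 < ...`, give the ladder
`c (σ i) ~ d (σ j)` iff `i ≤ j`, complete to the `w s` resp. `f s`: contradiction to `T2`. -/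
def S_RkH : Prop := ∀ k m₀ : ℕ, 1 ≤ k → ∃ n₂ ρ : ℕ, ∀ (V : Type) [Finite V] (D : SimpleGraph V)
  (P Q : Set V) (c d : ℕ → V), TriFree D → NoSpi k D → ¬ CoM D m₀ →
  (∀ i < n₂, ∀ j < n₂, (D.Adj (c i) (d j) ↔ i ≤ j)) → (∀ p ∈ P, ∀ j < n₂, D.Adj p (d j)) →
  (∀ q ∈ Q, ∀ J : Finset ℕ, (∀ j ∈ J, j < n₂ ∧ ¬ D.Adj q (c j)) → J.card ≤ k) →
  LK.rk D P Q ≤ ρ

/-- **Cmp.** Components of a set `U`.

Proof. `K` = the set of the vertices which can be reached from `v` by paths inside `U` (`Relation.ReflTransGen` of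
`fun u w => u ∈ U ∧ w ∈ U ∧ D.Adj u w`).  Cut version of connectedness (`Conn`): if `B` is a proper nonempty subset of `K`
without an edge to `K \ B` then reachability (symmetric) inside `U` does not leave `B`.  Two components
with a common vertex are equal: if `K ∩ K'` is a proper nonempty subset of `K` there is an edge from it to `K \ K'`, but
`K'` is closed; so `K ⊆ K'`, and conversely.  (`Pool/Agent/Lib/MP_d439b2_co/W` may contain some of this.) -/
def S_Cmp : Prop := ∀ (V : Type) (D : SimpleGraph V) (U : Set V),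
  (∀ v ∈ U, ∃ K, IsComp D U K ∧ v ∈ K) ∧
  (∀ K K', IsComp D U K → IsComp D U K' → ∀ v, v ∈ K → v ∈ K' → K = K') ∧
  (∀ K K', IsComp D U K → IsComp D U K' → K ≠ K' → ∀ u ∈ K, ∀ v ∈ K', ¬ D.Adj u v) ∧
  (∀ K, IsComp D U K → (∃ u ∈ K, ∃ v ∈ K, D.Adj u v) → ∀ v ∈ K, ∃ u ∈ K, D.Adj v u) ∧
  ∀ K, IsComp D U K → ∀ E : Set V, (∃ v ∈ K, v ∈ E) →
    (∀ u ∈ K, ∀ v ∈ K, D.Adj u v → u ∈ E → v ∈ E) → K ⊆ E

/-- **KE.** A middle vertex of type `X` which sees a component sees exactly one end of each of its edges.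
(Uses Pur, Cmp.)

Proof. First part.  Let `S` be the set of the neighbours of `z` in `K`, and `E` the set of the `u ∈ K` such that `u ∈ S` or
some neighbour of `u` in `K` is in `S`.  `v ∈ E`.  `E` is closed: let `u ∈ E`, `u' ∈ K`, `u ~ u'`; if `u ∈ S` then `u'` has the
neighbour `u` in `S`; if `u` has a neighbour `s ∈ S` in `K` then `u' ∈ S` by `Pur` (`u ~ s`, `u ~ u'`, `z ~ s`).  So `K ⊆ E` (`Cmp`).
Now let `u ~ u'` in `K`.  Not both are in `S` (no triangle).  If `u ∉ S` then `u` has a neighbour `s ∈ S`, and `u' ∈ S` by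
`Pur`.  Second part: the first part for `L.rev`. -/
def S_KE : Prop := ∀ (V : Type) (D : SimpleGraph V) (m₀ : ℕ) (L : LD V), Ctx D m₀ L →
  (∀ (K : Set V) (z : V) (i : ℕ), IsComp D (Lg D L) K → TX D L i z → Md L i →
    (∃ v ∈ K, D.Adj z v) → ∀ u ∈ K, ∀ u' ∈ K, D.Adj u u' → (D.Adj z u ↔ ¬ D.Adj z u')) ∧
  ∀ (K : Set V) (z : V) (i : ℕ), IsComp D (Lg D L) K → TW D L i z → Md L i →
    (∃ v ∈ K, D.Adj z v) → ∀ u ∈ K, ∀ u' ∈ K, D.Adj u u' → (D.Adj z u ↔ ¬ D.Adj z u')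

/-- **KB.** Two middle vertices of type `X` which see a component have the same neighbours in it.  (Uses KE, FR1,
Cmp.)

Proof. First part.  Let `S, S'` be the sets of the neighbours of `z, z'` in `K`.  If `K` has no edge then `K = {v}` (closed
set `{v}` in `Cmp`, last part), and `S = S' = K`.  Otherwise, by `KE`, `S` and `S'` contain exactly one end of each edge
of `K`.  The set `E = {u ∈ K | u ∈ S ↔ u ∈ S'}` is closed under adjacency in `K` (`KE` twice).  If `E` is nonempty then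
`E = K` and we are done.  Otherwise take an edge `u ~ u'` of `K` with `u ∈ S`; then `u ∉ S'`, so `u' ∈ S'`.  Let
`j = min i i' - 5`.  By `FR1` (`v = u`, `z := x j`, `z' := z`; `j + 5 ≤ i`, `2 k + 9 ≤ i`) `u ~ x j`, and in the same
way `u' ~ x j`: a triangle.  Second part: the first part for `L.rev`. -/
def S_KB : Prop := ∀ (V : Type) (D : SimpleGraph V) (m₀ : ℕ) (L : LD V), Ctx D m₀ L →
  (∀ (K : Set V) (z z' : V) (i i' : ℕ), IsComp D (Lg D L) K → TX D L i z → Md L i →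
    TX D L i' z' → Md L i' → (∃ v ∈ K, D.Adj z v) → (∃ v ∈ K, D.Adj z' v) →
    ∀ u ∈ K, (D.Adj z u ↔ D.Adj z' u)) ∧
  ∀ (K : Set V) (z z' : V) (i i' : ℕ), IsComp D (Lg D L) K → TW D L i z → Md L i →
    TW D L i' z' → Md L i' → (∃ v ∈ K, D.Adj z v) → (∃ v ∈ K, D.Adj z' v) →
    ∀ u ∈ K, (D.Adj z u ↔ D.Adj z' u)

/-- **KD.** Doubly seen components.  (Uses KE, NoW, Cmp.)

Proof. Let `u ∈ K`; it has a neighbour `u' ∈ K` (`Cmp`).  If `z ~ u` then `z' ≁ u` by `NoW`.  If `z ≁ u` then `z ~ u'` (`KE`),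
so `z' ≁ u'` (`NoW`), so `z' ~ u` (`KE` second part). -/
def S_KD : Prop := ∀ (V : Type) (D : SimpleGraph V) (m₀ : ℕ) (L : LD V), Ctx D m₀ L →
  ∀ (K : Set V) (z z' : V) (i i' : ℕ), Kp D L K → TX D L i z → Md L i → TW D L i' z' → Md L i' →
  (∃ v ∈ K, D.Adj z v) → (∃ v ∈ K, D.Adj z' v) → ∀ u ∈ K, (D.Adj z u ↔ ¬ D.Adj z' u)

/-- **Crs.** Few components are unseen by `x i` and by `w j`, `i + 2 ≤ j`.  (Uses Cmp.)

Proof. Suppose there are more than `k + 3` such components.  The vertices `a r, b r` are light and adjacent, so they are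
in one component; so at most four of the components contain `a r` or `b r` for some `r ∈ {i - 1, i, j + 1, j + 2}`.
Choose `k` different ones `K t` which do not, with an edge `u t ~ v t`.  The vertices `u t, v t` are not adjacent to `x i`, `w j`,
to those `a r, b r` (light and not in `K t`; `K t` is closed) and to the vertices of `K t'`, `t' ≠ t`.  `eng1`, P2's
`(u t, v t)`.  If `x i ~ w j`: centre `x i`; legs `(b (j+1), a (j+1))`, `(b (j+2), a (j+2))`,
`(w j, a (i-1), b (i-1))`.  If `x i ≁ w j`: third leg `(b i, a i, w j)`. -/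
def S_Crs : Prop := ∀ (V : Type) (D : SimpleGraph V) (m₀ : ℕ) (L : LD V), Ctx D m₀ L →
  ∀ i j : ℕ, Md L i → Md L j → i + 2 ≤ j →
  {K : Set V | Kp D L K ∧ ¬ sx D L i K ∧ ¬ sw D L j K}.encard ≤ ((L.k + 3 : ℕ) : ℕ∞)

/-- **Ovl.** (Uses TXa, Ltt, Gap.)

Proof. Let first `Md L p`.  `z ≁ z'` by `Gap` (`q + k + 3 ≤ p`, `p + k + 8 ≤ N`).  `u, v` touch at most one index each in
`[k + 3, N - k - 3)`.  `eng1`: centre `z`; legs `(b r, a r)`, `(b r', a r')` with `r ≠ r'` in `{p + 2, ..., p + 6}`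
untouched by `u, v`; `(v, u, z')`; P2's `(a m, b m)` for `k` indices `m` in `(q, p)` (at least `k + 4` indices, all
`≥ k + 3`) untouched by `u, v`.  `z ≁ b m` (`k ≤ m < p`), `z ≁ a _` (`TXa`), `z ≁ u` (common neighbour `v`), `z' ≁ v`
(common neighbour `u`), `z' ≁ a m, a r, a r'` (`TW.nadj`), `z' ≁ b _` (`TXa`).  If `Md L q` use this for `L.rev`, with
`u, v` exchanged. -/
def S_Ovl : Prop := ∀ (V : Type) (D : SimpleGraph V) (m₀ : ℕ) (L : LD V), Ctx D m₀ L →
  ∀ (u v z z' : V) (p q : ℕ), u ∈ Lg D L → v ∈ Lg D L → D.Adj u v → TX D L p z → TW D L q z' →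
  D.Adj v z → D.Adj u z' → q + L.k + 5 ≤ p → (Md L p ∨ Md L q) → False

end Pool.Agent.MPd439b2.OP
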