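import Pool.Agent.Lib.MP_d439b2_co.OP.SpecA

/-!
# MP_d439b2_co, OP, Spec B: the window has no long opposite ladder; blocks of components are small (helper99)

Every `S_...` is a statement to be proved in its own file; the docstring contains the complete proof.
Conventions as in `SpecA`.
-/

set_option autoImplicit false

namespace Pool.Agent.MPd439b2.OP

open Pool.Agent.MPd439b2 Pool.Agent.MPd439b2.W Pool.Agent.MPd439b2.SA

variable {V : Type}

/-! ### Part Z: the window -/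

/-- the three kinds of edges between positioned vertices: `X-W`, `X-B`, `A-W` -/
def Ed (D : SimpleGraph V) (L : LD V) (u v : V) : Prop :=
  (u ∈ XX D L ∧ v ∈ WW D L) ∨ (u ∈ XX D L ∧ Iso D L v ∧ ∃ p, PB D L p v) ∨
    (Iso D L u ∧ (∃ q, PA D L q u) ∧ v ∈ WW D L)

/-- the side of the vertices of type `X` -/
def SdA (D : SimpleGraph V) (L : LD V) (v : V) : Prop :=
  v ∈ XX D L ∨ (Iso D L v ∧ ∃ q, PA D L q v)

/-- the side of the vertices of type `W` -/
def SdB (D : SimpleGraph V) (L : LD V) (v : V) : Prop :=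
  v ∈ WW D L ∨ (Iso D L v ∧ ∃ p, PB D L p v)

/-- **Bpt.** The positioned vertices form a bipartite graph.  (Uses TXa, NoW.)

Proof. (1) `v` of type `X` and of type `W` (threshold `i'`): `v ~ a 0` by `TW.first` and `v ≁ a 0` by `TXa` (`2 < N` as
`N ≥ 2 k + 3`).  `v` light is neither `X` nor `W`.  `PA q v` and `PB p v`: `v ~ w q`, `v ~ x p`, and `w q`, `x p` have the types
`W, X` with the middle thresholds `q, p` (`TW_w`, `TX_x`; `tt k ≤ q`, `q + tt k < N`): contradiction to `NoW`.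
(2) `u, v` positioned, `u ~ v`.  Both `X`: `TX_TX`; both `W`: `TW_TW`; both isolated light: not adjacent by the
definition of `Iso`.  `X` and `Iso`, `PA q`: the light vertex sees `w q` (middle), so it sees no vertex of type `X` by
`NoW`.  `W` and `Iso`, `PB p`: the same.  The remaining cases are `Ed u v` or `Ed v u`. -/
def S_Bpt : Prop := ∀ (V : Type) (D : SimpleGraph V) (m₀ : ℕ) (L : LD V), Ctx D m₀ L →
  (∀ v, ¬ (SdA D L v ∧ SdB D L v)) ∧
  ∀ u v, (∃ i, Pos D L i u) → (∃ j, Pos D L j v) → D.Adj u v → Ed D L u v ∨ Ed D L v u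

/-- **Unq.** The position is unique.  (Uses Bpt.)

Proof. `TX i v`, `TX j v`: `TX.uniq`; `TW`: the same for `L.rev`.  `PB i v`, `PB j v`: if `i < j` then `v ≁ x j` by `PB i v`
(`j + tt k < N` by `PB j v`): contradiction.  `PA`: in the same way (or by `L.rev`, `PB_rev`).  Mixed
cases: light vertices are not of type `X`, `W` (`notX_of_Lg`, `notW_of_Lg`); `X` and `W`, `PB` and `PA`: first part of
`Bpt`. -/
def S_Unq : Prop := ∀ (V : Type) (D : SimpleGraph V) (m₀ : ℕ) (L : LD V), Ctx D m₀ L →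
  ∀ (v : V) (i j : ℕ), Pos D L i v → Pos D L j v → i = j

/-- **Z1.** Four edges of type `X-B`.  (Uses TXa.)

Proof. P2's in both models: `({a q}, {b q})`, `q = k + 3 + t`, `t < k`: the `c i` and `y` have thresholds `≥ tt k > q`, so they do
not see `b q` (`TX.nadj`), nor `a q` (`TXa`); the `d i` are isolated light (`Iso.na`); the block `{u, b (N-1)}` is not
complete to `a q, b q` because of `b (N-1)`.
If `u ~ y`: centre `{y}`; legs `({d 2}, {c 2})`, `({d 3}, {c 3})`, `({u, b (N-1)}, {c 0}, {d 0})`.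
If `u ≁ y`: centre `{y}`; legs `({d 2}, {c 2})`, `({d 3}, {c 3})`, `({d 1}, {c 1}, {u, b (N-1)})`.
`y, c i ~ b (N-1)` (`TX.last`), so `y ≁ c i`, `c i ≁ c j` (`TX_TX`), `d i ≁ d j` (light, isolated), `b (N-1) ≁ d i`.
Differences: `u ≠ c i` (`u ≁ d i`), `u ≠ d i` (`u ~ c 0, c 1`, and `d i` sees only `c i` of them), `u ≠ y` (`u ≁ d 1`),
`b (N-1)` is light and not isolated (`a (N-1)`), so it is not `d i`; `u` is not one of the `a q, b q` (these are light, not
of type `W`, and not isolated). -/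
def S_Z1 : Prop := ∀ (V : Type) (D : SimpleGraph V) (m₀ : ℕ) (L : LD V), Ctx D m₀ L →
  ∀ (c d : ℕ → V) (y u : V), (∀ i < 4, ∃ p, tt L.k ≤ p ∧ TX D L p (c i)) →
  (∀ i < 4, Iso D L (d i)) → (∃ p, tt L.k ≤ p ∧ TX D L p y) →
  (∀ i < 4, ∀ j < 4, (D.Adj (c i) (d j) ↔ i = j)) → (∀ j < 4, (D.Adj y (d j) ↔ 1 ≤ j)) →
  (∀ j < 4, (D.Adj u (c j) ↔ j ≤ 1)) → (∀ j < 4, ¬ D.Adj u (d j)) → (u ∈ WW D L ∨ Iso D L u) →
  False

/-- **Z3.** `k + 2` edges of type `X-W`.  (Uses TXa.)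

Proof. Let `r = h + 2`, `r' = h + 3`, `m = 10`, `m s = 11 + s` (`s < k`).  Model (`eng`): centre `{c k}`; legs
`({b r}, {a r})`, `({b r'}, {a r'})`, `({d k}, {y, a m}, {d (k+1)})`; P2's `({c s, a (m s)}, {d s})`, `s < k`.
The thresholds of the `c i`, `d i` are in `[l, h]`; so `c i ~ b r, b r'`, `c i ≁ a _` (`TXa`), `d i ~ a m, a (m s)`
(`TW.adj`: `m s + 1 < tt k ≤ l`), `d i ≁ a r, a r'` (`TW.nadj`), `d i ≁ b _` (`TXa`); `c i ≁ c j`, `d i ≁ d j`; `y ~ d k, d (k+1)`,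
`y ≁ d s` for `s < k`.  The block `{y, a m}` is not complete to `c k`, `b r`, `b r'`, `a r`, `a r'`, `{c s, a (m s)}` because of
`a m`, and not to `d s` (`y`).  The block `{c s, a (m s)}` is complete to `d s`, not complete to `c k, b r, b r', a r, a r'`
(`a (m s)`), to `d k, d (k+1), d s'` (`c s`), to `{c s', a (m s')}`.  Differences: `y ≠ c i` (`i ≤ k`: `y ~ d (k+1)`), `y` is no `a`
and no `b`: these are light and not isolated. -/
def S_Z3 : Prop := ∀ (V : Type) (D : SimpleGraph V) (m₀ : ℕ) (L : LD V), Ctx D m₀ L →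
  ∀ (l h : ℕ) (c d : ℕ → V) (y : V), tt L.k ≤ l → h + tt L.k < L.N →
  (∀ i < L.k + 2, ∃ p, l ≤ p ∧ p ≤ h ∧ TX D L p (c i)) →
  (∀ i < L.k + 2, ∃ p, l ≤ p ∧ p ≤ h ∧ TW D L p (d i)) →
  (∀ i < L.k + 2, ∀ j < L.k + 2, (D.Adj (c i) (d j) ↔ i = j)) →
  (∀ j < L.k + 2, (D.Adj y (d j) ↔ L.k ≤ j)) → (y ∈ XX D L ∨ Iso D L y) → False

/-- **Zs.** The window contains no opposite ladder of size `k + 8`.  (Uses Bpt, Z1, Z3.)

Proof. An opposite ladder `a' b' x' w'` of size `k + 8` in the induced graph is one of `D` all of whose vertices are in `D3`.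
Every vertex of `D3` is `SdA` or `SdB`, not both, and adjacent ones are on different sides (`Bpt`: `Ed u v` implies
`SdA u`, `SdB v`).  `x' 0` sees all `b' t`.  If `SdB (x' 0)` then all `b' t` are `SdA` and all `a' t` are `SdB`; replace the
opposite ladder by `OLrev` (sequences `rv _ b', rv _ a', rv _ w', rv _ x'`).  So we may assume that all `a' t` are `SdA` and all
`b' t` are `SdB`.  Then `Ed (a' t) (b' t)` for all `t < k + 8` (three types).
(2) Four indices `t 0 < t 1 < t 2 < t 3` of the type `a' t ∈ XX`, `b' t` isolated light with `PB`: `Z1` with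
`c i = a' (t i)`, `d i = b' (t i)`, `y = x' (t 1)`, `u = w' (t 1)`.  `y` is in `XX` (`y ~ d 1`; `Ed y (d 1)` since `SdB (d 1)`; `d 1 ∉ WW`);
`u ~ c 0`, so `SdB u`, `u ∈ WW` or `Iso u`.  The thresholds are `≥ l ≥ tt k`.
(3) Four indices of the type `a' t` isolated light with `PA`, `b' t ∈ WW`: `Z1` for `L.rev` with `c i = b' (t (3 - i))`,
`d i = a' (t (3 - i))`, `y = w' (t 2)`, `u = x' (t 2)` (`XX_rev`, `WW_rev`, `Iso_rev`; the threshold `q ≤ h` becomes
`N - 1 - q ≥ tt k`).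
(1) `k + 2` indices of the type `X-W`: `Z3` with `y = x' (t k)` (`y ~ d k`, so `SdA y`).
Since `3 + 3 + (k + 1) < k + 8` one of the three cases occurs. -/
def S_Zs : Prop := ∀ (V : Type) (D : SimpleGraph V) (m₀ : ℕ) (L : LD V), Ctx D m₀ L →
  ∀ l h : ℕ, tt L.k ≤ l → h + tt L.k < L.N → NoOLn (D.induce (D3 D L l h)) (L.k + 8)

/-! ### Part I: blocks of components -/

/-- a new opposite ladder `u v x' w'` of size `n`: its edges are in different components `Ks s` which are seen by `x i`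
and not by `x (i + 1)` -/
structure NB (D : SimpleGraph V) (m₀ : ℕ) (L : LD V) (i n : ℕ) (u v x' w' : ℕ → V)
    (Ks : ℕ → Set V) : Prop where
  ctx : Ctx D m₀ L
  mi : Md L i
  mi' : Md L (i + 3)
  ol' : OL D n u v x' w'
  ku : ∀ s < n, IsComp D (Lg D L) (Ks s) ∧ u s ∈ Ks s ∧ v s ∈ Ks s
  kn : ∀ s < n, ∀ t < n, s ≠ t → Ks s ≠ Ks t
  vx : ∀ s < n, D.Adj (v s) (L.x i)
  nvx : ∀ s < n, ¬ D.Adj (v s) (L.x (i + 1))
  uw : ∀ s < n, D.Adj (u s) (L.w (i + 3))
  na : ∀ s < n, ∀ j < L.N, L.a j ∉ Ks s ∧ L.b j ∉ Ks s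

/-- **InsX.** (Uses nothing.)

Proof. `b (N-1)` is light and in no `Ks s`, so it is not adjacent to the `u s, v s` (`IsComp`: light neighbours of a
vertex of `Ks s` are in `Ks s`).  `eng1`: centre `w' q`; legs `(u 0, v 0)`, `(u 1, v 1)`, `(b (N-1), x' p, v p)`; P2's
`(u m, v m)`, `m = q + 1, ..., q + k` (all `< p`).  `w' q ~ u s` iff `s ≤ q`; `w' q ≁ v _`; `x' p ~ v s` iff `p ≤ s`;
`x' p ≁ u _`; `w' q, x' p ~ b (N-1)` (`TX.last`), so `w' q ≁ x' p`; `b (N-1) ≁ v p` by the above. -/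
def S_InsX : Prop := ∀ (V : Type) (D : SimpleGraph V) (m₀ : ℕ) (L : LD V) (i n : ℕ)
  (u v x' w' : ℕ → V) (Ks : ℕ → Set V), NB D m₀ L i n u v x' w' Ks → ∀ q p, 1 ≤ q →
  q + L.k + 1 ≤ p → p < n → w' q ∈ XX D L → x' p ∈ XX D L → False

/-- **InsT.** The thresholds of the new ladder vertices are near `i`.  (Uses InsX, FR1, NoW, Ovl, Cmp.)

Proof. All `u s, v s` are light.  A light vertex cannot see vertices of two different components.  Let `1 ≤ m`,
`m + 1 < n`.  `x' m` sees `v m` and `v (m + 1)`, so it is not light; it is not of type `W` by `NoW` (`v m ~ x i`, `Md L i`).  So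
`TX t (x' m)` for some `t`.  If `t ≥ i + 6`: `FR1` (`z := x (i+1)`, `z' := x' m`) gives `v m ~ x (i + 1)`: contradiction to `nvx`.  If
`t + 5 ≤ i`: `FR1` (`z := x' m`, `z' := x i`) gives `v 0 ~ x' m`: contradiction (`0 < m`).
Now let `m + k + 3 ≤ n`.  `w' m` sees `u 0` and `u 1`, so it is not light.  It is not of type `X` by `InsX` with `q = m`,
`p = m + k + 1` (`x' p ∈ XX` by the above, `p + 1 < n`).  So `TW t (w' m)`.  If `t ≥ i + 8`: `FR1` (second part, `z := w' m`,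
`z' := w (i+3)`) gives `u (m + 1) ~ w' m`: contradiction.  If `t + k + 5 ≤ i`: `Ovl` with `u 0, v 0`, `z := x i`, `z' := w' m`,
`p := i`, `q := t`: contradiction. -/
def S_InsT : Prop := ∀ (V : Type) (D : SimpleGraph V) (m₀ : ℕ) (L : LD V) (i n : ℕ)
  (u v x' w' : ℕ → V) (Ks : ℕ → Set V), NB D m₀ L i n u v x' w' Ks → ∀ m, 1 ≤ m →
  m + L.k + 3 ≤ n → (∃ t, i < t + 5 ∧ t ≤ i + 5 ∧ TX D L t (x' m)) ∧
    ∃ t, i < t + L.k + 5 ∧ t < i + 8 ∧ TW D L t (w' m)

/-- **Ins.** The new ladder can be inserted.  (Uses InsT, FR1, NoW, Ovl, TXa.)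

Proof. Put `c₁ = i - 2 k - 13`, `c₂ = c₁ + 3 k + 29`, and for `t < N + 1`: if `t < c₁` the old index `j = k + 2 + t` (left,
`k + 2 ≤ j ≤ i - k - 12`); if `c₁ ≤ t < c₂` the new index `m = 1 + (t - c₁)` (`1 ≤ m ≤ 3 k + 29`, so `m + k + 3 ≤ n`); if
`c₂ ≤ t` the old index `j = i + 13 + (t - c₂)` (right, `i + 13 ≤ j ≤ N - k - 3`).  The sequences `a''` (`a j` or `u m`), `b''`
(`b j` or `v m`), `x''` (`x j` or `x' m`), `w''` (`w j` or `w' m`) form an opposite ladder.  Pairs of old or of new indices: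
clear.  Old `j` and new `m, s`: `a j, b j ≁ u s, v s` (light, not in `Ks s`).  Left `j`: `x j ~ v s` (`FR1`, `z := x j`,
`z' := x i`); `x j ≁ u s` (no triangle); `w j ≁ u s` (`Ovl` with `z := x i`, `z' := w j`); `w j ≁ v s` (`NoW`); with the
thresholds of `InsT`: `x' m ≁ b j` (`TX.nadj`: `k ≤ j < t`), `x' m ≁ a j` (`TXa`), `w' m ~ a j` (`TW.adj`), `w' m ≁ b j` (`TXa`).
Right `j`: `x j ≁ v s` (otherwise `v s ~ x (i+1)` by `FR1`); `x j ≁ u s` (otherwise `u s ~ x (i-5)` and `v s ~ x (i-5)` by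
`FR1`: triangle); `w j ~ u s` (`FR1` second part, `z := w j`, `z' := w (i+3)`); `w j ≁ v s` (`NoW`); `x' m ~ b j` (`TX.adj`),
`x' m ≁ a j`, `w' m ≁ a j` (`TW.nadj`), `w' m ≁ b j`. -/
def S_Ins : Prop := ∀ (V : Type) (D : SimpleGraph V) (m₀ : ℕ) (L : LD V) (i : ℕ)
  (u v x' w' : ℕ → V) (Ks : ℕ → Set V), NB D m₀ L i (4 * L.k + 32) u v x' w' Ks →
  ∃ a'' b'' x'' w'' : ℕ → V, OL D (L.N + 1) a'' b'' x'' w''

/-- in `D` every induced matching of size `n₁` contains an opposite ladder of size `N'` -/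
def HNO (D : SimpleGraph V) (N' n₁ : ℕ) : Prop := ∀ a b : ℕ → V, IM D n₁ a b →
  ∃ (σ : ℕ → ℕ) (x w : ℕ → V), (∀ i < N', σ i < n₁) ∧ (∀ i < N', ∀ j < N', σ i = σ j → i = j) ∧
    OL D N' (fun i => a (σ i)) (fun i => b (σ i)) x w

/-- **Blk.** Blocks of components are small if the ladder has maximal size.  (Uses Ins, Crs, KB, KD, Cmp.)

Proof. First part.  Suppose there are `n₁ + 7 k + 51` such components.  (1) At most `k + 3` of them are not seen by
`w (i + 3)` (`Crs` for `x (i + 1)`, `w (i + 3)`).  (2) Those which contain `a j` or `b j` for some `j < N`: `a j, b j` are light and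
adjacent, so they are in the same component, and different such components have different `j`.  If `Md L j` then `b j ∈ K`, `x j ~ b j`,
so `x i ~ b j` by `KB`, so `i ≤ j`; and `j ≤ i` since `x (i+1)` does not see `K`; so `j = i`.  The other `j < N` (not `Md`) are
at most `6 k + 40`.  So at most `6 k + 41` components contain some `a j` or `b j`.  The remaining ones are at least `n₁`;
take `K s`, `s < n₁`.  Let `v s ∈ K s`, `v s ~ x i`, and `u s ∈ K s` a neighbour of `v s` (`Cmp`).  `IM D n₁ u v` (`Cmp`: no edges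
between different components; `x i` sees no `u s`).  By `HNO` there is an opposite ladder of size `4 k + 32` on a
sub-matching (components `K (σ s)`); it satisfies `NB`: `uw`: `K` is seen by `w (i+3)`, and `x i ≁ u s`, so
`w (i+3) ~ u s` by `KD`.  `Ins` gives an opposite ladder of size `N + 1`: contradiction.
Second part: the first part for `L.rev` and `N - 1 - i` (`sx_rev`, `sw_rev`, `Kp_rev`). -/
def S_Blk : Prop := ∀ (V : Type) (D : SimpleGraph V) (m₀ : ℕ) (L : LD V) (n₁ : ℕ), Ctx D m₀ L →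
  NoOLn D (L.N + 1) → HNO D (4 * L.k + 32) n₁ →
  (∀ i, Md L i → Md L (i + 3) →
    {K : Set V | Kp D L K ∧ sx D L i K ∧ ¬ sx D L (i + 1) K}.encard ≤
      ((n₁ + 7 * L.k + 50 : ℕ) : ℕ∞)) ∧
  ∀ i, Md L i → Md L (i - 3) →
    {K : Set V | Kp D L K ∧ sw D L i K ∧ ¬ sw D L (i - 1) K}.encard ≤
      ((n₁ + 7 * L.k + 50 : ℕ) : ℕ∞)

end Pool.Agent.MPd439b2.OP
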