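import Pool.Agent.Lib.MP_d439b2_co.OP.SpecB

/-!
# MP_d439b2_co, OP, Spec E: from a cut of the window to a cut of `D` (helper99)

Every `S_...` is a statement to be proved in its own file; the docstring contains the complete proof.
Conventions as in `SpecA`.  Rank calculus: `Rep/Cut.lean` (`rk_blocks`, `rk_anti`, `rk_comp`, `rk_one`, `rk_col`, `rk_row`,
`rk_tr`, `rk_union`, `rk_mono`, `rk_symm`, `cr_compl`).
-/

set_option autoImplicit false

namespace Pool.Agent.MPd439b2.OP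

open Pool.Agent.MPd439b2 Pool.Agent.MPd439b2.W Pool.Agent.MPd439b2.SA

/-! ### ranks and selection -/

/-- **HG.** A half graph of size `m` has rank at least `m`.

Proof. The rows of `a 0, ..., a (m-1)` on `B` (`LK.row D B (a i) : V → ZMod 2`) are linearly independent: if a nontrivial linear
combination is zero let `i` be the smallest index with a nonzero coefficient; at the column `b i` exactly the rows
`a j`, `j ≤ i`, have the value one, so the value of the combination is the coefficient of `a i`: contradiction.  So the span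
of the rows has dimension at least `m` (`LinearIndependent`, `Submodule.finrank_mono`, `finrank_span_eq_card`).
(Compare the files on half graphs in `H1M/`.) -/
def S_HG : Prop := ∀ (V : Type) [Finite V] (D : SimpleGraph V) (A B : Set V) (m : ℕ)
  (a b : ℕ → V), (∀ i < m, a i ∈ A) → (∀ i < m, b i ∈ B) →
  (∀ i < m, ∀ j < m, (D.Adj (a i) (b j) ↔ i ≤ j)) → m ≤ LK.rk D A B

/-- **Sel.** Selection.

Proof. Colour `0, 1, ..., (k + 1) m - 1` one after the other with `k + 1` colours such that `j` gets a colour different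
from those of the `i < j` with `R i j` (at most `k` of them).  Some colour class has at least `m` elements; `f` is its increasing
enumeration (`Finset.orderEmbOfFin`, extended arbitrarily). -/
def S_Sel : Prop := ∀ (k m : ℕ) (R : ℕ → ℕ → Prop),
  (∀ j < (k + 1) * m, ∀ J : Finset ℕ, (∀ i ∈ J, i < j ∧ R i j) → J.card ≤ k) →
  ∃ f : ℕ → ℕ, (∀ i j, i < j → j < m → f i < f j) ∧ (∀ i < m, f i < (k + 1) * m) ∧
    ∀ i j, i < j → j < m → ¬ R (f i) (f j)

/-- the three kinds of pairs, with positions -/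
def Typ {V : Type} (D : SimpleGraph V) (L : LD V) (P Q : ℕ) (s t : V) : Prop :=
  (TX D L P s ∧ TW D L Q t) ∨ (TX D L P s ∧ Iso D L t ∧ PB D L Q t) ∨
    (Iso D L s ∧ PA D L P s ∧ TW D L Q t)

/-- **BadR.** Many differently coloured pairs at different places give a large rank.  (Uses HG, Sel, Ex, Gap, FR1.)

Proof. Let `M = 2 (r + 1)` and `g = 6 (k + 1) M`.  By pigeonhole `(k + 1) M` indices have the same type and the same
colouring (`s i ∈ S, t i ∈ T`, or `s i ∈ T, t i ∈ S`); restrict to them (increasing enumeration).  As `rk D S T = rk D T S` we may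
assume `s i ∈ S`, `t i ∈ T`.
(a) For `i < j` the vertices `s i, t j` are adjacent, except for at most `k` indices `i` for every `j`.  Type `X-W`: `Ex` (first
part, `z = t j` with the threshold `Q j`, `ζ (P i) = s i`, `J = {P i | i < j, s i ≁ t j}`; `P i + 2 ≤ Q j`; the `P i` are different).  Type
`X-B`: `t j ~ x (Q j)`, which has type `X` and threshold `Q j ≥ P i + 5`, so `t j ~ s i` by `FR1`.  Type `A-W`: `s i ~ w (P i)`,
`Q j ≥ P i + 5`, so `s i ~ t j` by `FR1` (second part).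
(b) For `i > j` the vertices `s i, t j` are not adjacent.  Type `X-W`: `Gap` (`Q j + k + 3 ≤ P i`).  Type `X-B`: otherwise
`t j ~ x (Q j + 1)` by `FR1` (`z := x (Q j + 1)`, `z' := s i`, `Q j + 6 ≤ P i`), but `PB (Q j) (t j)` and `Q j + 1 + tt k < N` (as
`Q j + 1 ≤ P i`): contradiction.  Type `A-W`: otherwise `s i ~ w (P i - 1)` by `FR1` (second part, `z' := t j`,
`Q j + 5 ≤ P i - 1`), against `PA (P i) (s i)` (`tt k ≤ Q j ≤ P i - 1`).
By `Sel` (with `R i j` iff `s i ≁ t j`) there are `M` indices `e 0 < e 1 < ...` for which (a) holds without exception.  Then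
`s (e (2 p))`, `t (e (2 q + 1))`, `p, q ≤ r`, are adjacent iff `p ≤ q`, and `HG` gives the rank `r + 1`. -/
def S_BadR : Prop := ∀ k r : ℕ, 1 ≤ k → ∃ g : ℕ, ∀ (V : Type) [Finite V] (D : SimpleGraph V)
  (m₀ : ℕ) (L : LD V), Ctx D m₀ L → L.k = k → ∀ (S T : Set V) (s t : ℕ → V) (P Q : ℕ → ℕ),
  (∀ i < g, (s i ∈ S ∧ t i ∈ T) ∨ (s i ∈ T ∧ t i ∈ S)) →
  (∀ i < g, Typ D L (P i) (Q i) (s i) (t i) ∧ tt k ≤ P i ∧ P i + tt k < L.N ∧ tt k ≤ Q i ∧
    Q i + tt k < L.N) →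
  (∀ i j, i < j → j < g → P i + k + 10 ≤ P j ∧ P i + k + 10 ≤ Q j ∧ Q i + k + 10 ≤ P j ∧
    Q i + k + 10 ≤ Q j) → r < LK.rk D S T

/-- **Pr.** A place with two colours contains a differently coloured pair.

Proof. `x p` and `w p` have the types `X, W` and the threshold `p` (`TX_x`, `TW_w`), so they are in `D3 p (p + R - 1)`.  If exactly
one of them is in `S` take the pair `(x p, w p)` (first type, `P = Q = p`).  Otherwise let `v ∈ {s₀, t₀}` be the one with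
(`v ∈ S` iff `x p ∉ S`); let `i` be its position in `[p, p + R - 1]`.  `TX i v`: pair `(v, w p)`, first type.  `TW i v`: pair
`(x p, v)`.  `Iso v`, `PB i v`: pair `(x p, v)`, second type.  `Iso v`, `PA i v`: pair `(v, w p)`, third type. -/
def S_Pr : Prop := ∀ (V : Type) (D : SimpleGraph V) (m₀ : ℕ) (L : LD V), Ctx D m₀ L →
  ∀ (S : Set V) (p R : ℕ) (s₀ t₀ : V), 1 ≤ R → tt L.k ≤ p → p + R + tt L.k ≤ L.N →
  s₀ ∈ D3 D L p (p + R - 1) → t₀ ∈ D3 D L p (p + R - 1) → s₀ ∈ S → t₀ ∉ S →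
  ∃ P Q s t, p ≤ P ∧ P < p + R ∧ p ≤ Q ∧ Q < p + R ∧ Typ D L P Q s t ∧
    s ∈ D3 D L p (p + R - 1) ∧ t ∈ D3 D L p (p + R - 1) ∧ (s ∈ S ↔ t ∉ S)

/-- **Windows**: `S` is a part of `D3 l h` with rank at most `r` in `D3 l h`; the first `R` positions are outside `S`, the
last `R` positions are inside -/
structure Wn {V : Type} (D : SimpleGraph V) (L : LD V) (r R l h : ℕ) (S : Set V) : Prop where
  lo : tt L.k < l
  hi : h + tt L.k + 1 < L.N
  len : l + 2 * R ≤ h + 1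
  sub : S ⊆ D3 D L l h
  rk : LK.rk D S (D3 D L l h \ S) ≤ r
  fst : ∀ v ∈ D3 D L l (l + R - 1), v ∉ S
  lst : ∀ v ∈ D3 D L (h + 1 - R) h, v ∈ S

/-- every subset of `X` with at least two elements is divided in a balanced way by a part of `X` of rank at most
`r` -/
def BC {V : Type} (D : SimpleGraph V) (r : ℕ) (X : Set V) : Prop :=
  ∀ M ⊆ X, 2 ≤ M.ncard → ∃ S ⊆ X, LK.rk D S (X \ S) ≤ r ∧ M.ncard ≤ 3 * (M ∩ S).ncard ∧
    M.ncard ≤ 3 * (M \ S).ncard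

/-- **Win.** Short windows exist in long intervals.  (Uses BadR, Pr.)

Proof. Let `g` be the number of `BadR k r`, `n = 6 (g + 1) + 3`, `N₁ = n R`, `ℓ = (2 g + 2) R`.  Blocks: `β c = D3 (l + c R) (l + c R + R - 1)`, `c < n`.
Let `S₀` be a part as in `BC` for `M = {x i | l ≤ i < l + N₁}` (the `x i` are different: `OLnxx`; they are in `D3`), `T₀` the rest of
`D3 l (l + N₁ - 1)`.  A block is bad if it meets `S₀` and `T₀`.  There are at most `2 g` bad blocks: otherwise take every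
second one, `g` blocks, with the pairs of `Pr`; the positions of pairs in blocks `c`, `c' ≥ c + 2` differ by
at least `R + 1 ≥ k + 10`; `BadR` gives `rk D S₀ T₀ > r`: contradiction.  At least `N₁ / 3` of the `x i` are in `S₀`, so at least
`n / 3 > 2 g` blocks meet `S₀`, so some block is contained in `S₀`; in the same way some block is contained in `T₀`.
Choose two blocks `c < c'`, one contained in `S₀` and one in `T₀`, with `c' - c` minimal: all blocks between them are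
bad, so `c' - c ≤ 2 g + 1`.  Let `l' = l + c R`, `h' = l + c' R + R - 1` (`h' < l' + ℓ`).  If the block `c` is in `T₀` let
`S = S₀ ∩ D3 l' h'`; if it is in `S₀` let `S = D3 l' h' \ S₀`.  `rk D S (D3 l' h' \ S) ≤ rk D S₀ T₀ ≤ r` (`rk_mono`, `rk_symm`;
`D3 l' h' ⊆ D3 l (l + N₁ - 1)`). -/
def S_Win : Prop := ∀ k r R : ℕ, 1 ≤ k → k + 10 ≤ R → ∃ ℓ N₁ : ℕ, 1 ≤ N₁ ∧ ∀ (V : Type) [Finite V]
  (D : SimpleGraph V) (m₀ : ℕ) (L : LD V), Ctx D m₀ L → L.k = k → ∀ l, tt k < l →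
  l + N₁ + tt k + 1 < L.N → BC D r (D3 D L l (l + N₁ - 1)) →
  ∃ l' h' S, l ≤ l' ∧ h' < l + N₁ ∧ h' < l' + ℓ ∧ Wn D L r R l' h' S

/-- far parts have bounded rank -/
def FarP {V : Type} (D : SimpleGraph V) (L : LD V) (R ρ : ℕ) : Prop :=
  ∀ (c : ℕ) (A B : Set V), tt L.k ≤ c → c + R + tt L.k < L.N → A ⊆ D3 D L 0 c →
    B ⊆ D3 D L (c + R) L.N →
    (A ⊆ D3 D L (tt L.k) c ∨ B ⊆ D3 D L (c + R) (L.N - 1 - tt L.k)) → LK.rk D A B ≤ ρ

/-- **Far.** (Uses RkH, Ex, Gap, FR1, NoW, Bpt.)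

Proof. Let `n₂, ρ₀` be the numbers of `RkH k m₀`, `R = n₂ + k + 20`, `ρ = ρ₀ + 2`.
Case 1: `B ⊆ D3 (c + R) (N - 1 - tt k)`.  Divide `A` and `B` into the vertices of type `X`, of type `W`, isolated light with `PB`,
isolated light with `PA` (`rk_blocks`, 4 times 4).  The positions `i` in `A` are `≤ c`, the positions `j` in `B` are
`≥ c + R`.  (X, X), (W, W), (X, PA), (W, PB), (PA, X), (PB, W) and light-light: not adjacent (`Bpt` and its proof).
(X, W): `RkH` with `P` = the vertices of type `X` in `A`, `Q` = those of type `W` in `B`, `c j = x (c + 2 + j)`,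
`d j = b (c + 2 + j)`, `j < n₂` (`TX.adj`; `Ex` with the set `{c + 2 + j | j ∈ J}`, `ζ j = x j`, `k + 2 ≤ c + 2`, `c + 2 + n₂ + 2 ≤ c + R`,
the threshold of `q ∈ Q` is `≤ N - 1 - tt k`): rank at most `ρ₀`.  (X, PB): complete by `FR1` (`z' := x p`, `i + 5 ≤ p`):
rank at most 1.  (PA, W): complete by `FR1` (second part): rank at most 1.  (W, X): not adjacent by `Gap`
(`j + k + 8 ≤ N`).  (PB, X): `v` with `PB p v`, `p ≤ c`, `z` with `TX j z`, `j ≥ c + R`: if `v ~ z` then `v ~ x (p + 1)` by `FR1`,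
against `PB` (`p + 1 + tt k < N`).  (W, PA): `TW i z`, `PA q v`, `q ≥ c + R`: if `v ~ z` then `v ~ w (q - 1)` by `FR1` (second
part), against `PA` (`tt k ≤ c ≤ q - 1`).
Case 2: `A ⊆ D3 (tt k) c`.  Case 1 for `L.rev`, `c' = N - 1 - (c + R)`, with `B, A` instead of `A, B` (`D3_rev`, or directly
`Pos_rev`; positions are `< N`), and `rk_symm`. -/
def S_Far : Prop := ∀ k m₀ : ℕ, 1 ≤ k → ∃ R ρ : ℕ, k + 10 ≤ R ∧ ∀ (V : Type) [Finite V]
  (D : SimpleGraph V) (L : LD V), Ctx D m₀ L → L.k = k → FarP D L R ρ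

/-! ### the extension -/

/-- **Two windows.** -/
structure EX {V : Type} (D : SimpleGraph V) (m₀ : ℕ) (L : LD V) (r R ℓ l₁ h₁ l₂ h₂ : ℕ)
    (S₁ S₂ : Set V) : Prop where
  ctx : Ctx D m₀ L
  hR : L.k + 10 ≤ R
  w₁ : Wn D L r R l₁ h₁ S₁
  w₂ : Wn D L r R l₂ h₂ S₂
  s₁ : h₁ < l₁ + ℓ
  s₂ : h₂ < l₂ + ℓ
  gap : h₁ + R < l₂

section ext

variable {V : Type} (D : SimpleGraph V) (L : LD V)

/-- the positioned part of the cut: the inner side of both windows and everything between them -/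
def YS (h₁ l₂ h₂ : ℕ) (S₁ S₂ : Set V) : Set V :=
  S₁ ∪ D3 D L (h₁ + 1) (l₂ - 1) ∪ (D3 D L l₂ h₂ \ S₂)

/-- `x p` is the last middle `x j` which sees `K` -/
def LX (p : ℕ) (K : Set V) : Prop :=
  tt L.k ≤ p ∧ p + tt L.k < L.N ∧ sx D L p K ∧ ∀ j, p < j → j + tt L.k < L.N → ¬ sx D L j K

/-- `w q` is the first middle `w j` which sees `K` -/
def LW (q : ℕ) (K : Set V) : Prop :=
  tt L.k ≤ q ∧ q + tt L.k < L.N ∧ sw D L q K ∧ ∀ j, tt L.k ≤ j → j < q → ¬ sw D L j K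

/-- both positions of `K` are between the windows -/
def KM (h₁ l₂ : ℕ) (K : Set V) : Prop :=
  (∃ p, h₁ < p ∧ p < l₂ ∧ LX D L p K) ∧ ∃ q, h₁ < q ∧ q < l₂ ∧ LW D L q K

/-- no position of `K` is in `[l₁, h₂]` -/
def Rg (l₁ h₂ : ℕ) (K : Set V) : Prop :=
  (∀ p, LX D L p K → p < l₁ ∨ h₂ < p) ∧ ∀ q, LW D L q K → q < l₁ ∨ h₂ < q

/-- the vertices of the components between the windows -/
def YK (h₁ l₂ : ℕ) : Set V := {v | ∃ K, Kp D L K ∧ v ∈ K ∧ KM D L h₁ l₂ K}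

end ext

/-- **ExtP.** The positioned vertices.  (Uses FR1, Unq, and Far as `FarP`.)

Proof. The vertices outside `YS` of type `X`, `W` or isolated light are: `Lo`, `Hi` (positioned, some position `< l₁`,
`> h₂`), `T₁ = D3 l₁ h₁ \ S₁`, `S₂`, and the isolated light vertices without position (`Nu`).  (Positions in
`[h₁ + 1, l₂ - 1]` are in `YS`.)  By `fst`, `lst`: `S₁ ⊆ D3 (l₁ + R) h₁`, `T₁ ⊆ D3 l₁ (h₁ - R)`, `S₂ ⊆ D3 (l₂ + R) h₂`,
`T₂ = D3 l₂ h₂ \ S₂ ⊆ D3 l₂ (h₂ - R)`.  `rk_blocks` with the rows `S₁, M = D3 (h₁+1) (l₂-1), T₂` and the columns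
`Lo, T₁, S₂, Hi, Nu`:
`S₁`: with `Lo` (FarP at `c = l₁`, `A = Lo`), `T₁` (`≤ r`), `S₂` (FarP at `c = h₁`), `Hi` (FarP at `c = h₁`);
`M`: with `Lo` (`c = l₁`), `T₁` (`c = h₁ - R`, `A = T₁`), `S₂` (`c = l₂ - 1`), `Hi` (`c = l₂ - 1`);
`T₂`: with `Lo` (`c = l₁`), `T₁` (`c = h₁ - R`), `S₂` (`≤ r`), `Hi` (`c = h₂ - R`).
In all uses of FarP one of the sets has only positions between `tt k` and `N - 1 - tt k`.
`Nu`: a vertex `v ∈ Nu` is not adjacent to `YS`: to light vertices: isolated.  If `v ~ z`, `TX i z`, `z ∈ YS`, then `i` is the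
position of `z` (`Unq`), so `l₁ + R ≤ i ≤ h₂`, and `v ~ x (i - 5)` by `FR1` (`z := x (i - 5)`, `z' := z`), `tt k ≤ i - 5`; let `p` be the
largest `p` with `p + tt k < N`, `v ~ x p`; then `PB p v`: contradiction.  The same for `W`: `l₁ + R ≤ i ≤ h₂ - R` or `i < l₂`, so
`v ~ w (i + 5)` (`FR1` second part), smallest `q`.  Total: `2 r + 10 ρ`. -/
def S_ExtP : Prop := ∀ (V : Type) [Finite V] (D : SimpleGraph V) (m₀ : ℕ) (L : LD V)
  (r R ρ ℓ l₁ h₁ l₂ h₂ : ℕ) (S₁ S₂ : Set V), EX D m₀ L r R ℓ l₁ h₁ l₂ h₂ S₁ S₂ →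
  FarP D L R ρ → LK.rk D (YS D L h₁ l₂ h₂ S₁ S₂)
    ((XX D L ∪ WW D L ∪ {v | Iso D L v}) \ YS D L h₁ l₂ h₂ S₁ S₂) ≤ 2 * r + 10 * ρ

/-- **ExtQ.** The components between the windows.  (Uses FR1, NoW, KD.)

Proof. `rk (YK) (XX \ YS) ≤ 1` and `rk (YK) (WW \ YS) ≤ 1`.  Let `v ∈ K`, `KM K`, with the positions `p, q ∈ (h₁, l₂)`.  `x p` and
`w q` see `K`, so by `KD` `v ~ x p` or `v ~ w q`.  Let `z ∈ XX \ YS`, `TX t z`.  Then `t ≤ h₁ - R` or `t ≥ l₂ + R`: `t` is not in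
`[h₁ + 1, l₂ - 1]` (then `z ∈ YS`), not in `[h₁ + 1 - R, h₁]` (`lst` of the first window: `z ∈ S₁`), and not in `[l₂, l₂ + R - 1]`
(`fst` of the second window: `z ∉ S₂`, so `z ∈ YS`).  If `v ~ x p`: for `t ≤ h₁ - R` we have `v ~ z` (`FR1`, `t + 5 ≤ p`), for
`t ≥ l₂ + R` we have `v ≁ z` (otherwise `v ~ x (p + 1)` by `FR1`, against `LX p K`; `p + 1 ≤ l₂ ≤ h₂`).  If `v ~ w q`: `v` sees no
vertex of type `X` (`NoW`).  So every row is zero or the set of the `z` with threshold `≤ h₁ - R` (`rk_one`).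
The second claim: in the same way, or by reversal: `z ∈ WW \ YS` with `TW t z`: `t ≤ h₁ - R` or `t ≥ l₂ + R`; `v ~ w q` is
adjacent to `z` if `t ≥ l₂ + R` and not adjacent if `t ≤ h₁ - R` (otherwise `v ~ w (q - 1)`). -/
def S_ExtQ : Prop := ∀ (V : Type) [Finite V] (D : SimpleGraph V) (m₀ : ℕ) (L : LD V)
  (r R ℓ l₁ h₁ l₂ h₂ : ℕ) (S₁ S₂ : Set V), EX D m₀ L r R ℓ l₁ h₁ l₂ h₂ S₁ S₂ →
  LK.rk D (YK D L h₁ l₂) ((XX D L ∪ WW D L) \ YS D L h₁ l₂ h₂ S₁ S₂) ≤ 2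

/-- **ExtR.** The components outside.  (Uses FR1, KB, Unq.)

Proof. Let `F` be the set of the components `K` (`Kp K`) with `¬ KM K` and `¬ Rg K` (at most `e`), `U₀` the union of the components
with `¬ KM K`, `Rg K`, `U₁` the union of the elements of `F`.  `YS = (YS ∩ XX) ∪ (YS ∩ WW) ∪ (YS ∩ Iso)`.
`YS ∩ Iso`: isolated light vertices have no light neighbours: rank 0.
`YS ∩ XX` and `U₀`: every column is constant (`rk_col`).  Let `u ∈ K`, `Rg K`, `u ~ z`, `z ∈ YS`, `TX t z`, `l₁ + R ≤ t ≤ h₂ - R`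
(`t` is the position of `z` by `Unq`; `fst` of the first window, `lst` of the second one).  By `FR1` `u ~ x (t - 5)`, so `x (t - 5)` sees `K`; let `p` be the last
middle index such that `x p` sees `K`: `LX p K`, `p ≥ t - 5 ≥ l₁`, so `p > h₂`.  By `KB` (`z` and `x p`) `u ~ x p`, so `u` is adjacent to
all `z' ∈ YS ∩ XX` (`FR1`, threshold `≤ h₂ - R ≤ p - 5`).  `YS ∩ WW` and `U₀`: the same by reversal (or directly: `w (t + 5)`,
`q ≤ t + 5 ≤ h₂`, so `q < l₁`).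
`YS ∩ XX` and `U₁`: the trace of `u ∈ K ∈ F` on `YS ∩ XX` is empty or the set of the `z` which see `K` (by `KB`: if `z ~ u` and
`z'` sees `K` then `z' ~ u`).  So there are at most `e + 1` traces, and the rank is at most `e + 1` (`rk_symm`, `rk_tr`).  The same
for `WW`.  Total `2 + 2 (e + 1)`. -/
def S_ExtR : Prop := ∀ (V : Type) [Finite V] (D : SimpleGraph V) (m₀ : ℕ) (L : LD V)
  (r R ℓ l₁ h₁ l₂ h₂ e : ℕ) (S₁ S₂ : Set V), EX D m₀ L r R ℓ l₁ h₁ l₂ h₂ S₁ S₂ →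
  {K : Set V | Kp D L K ∧ ¬ KM D L h₁ l₂ K ∧ ¬ Rg D L l₁ h₂ K}.encard ≤ (e : ℕ∞) →
  LK.rk D (YS D L h₁ l₂ h₂ S₁ S₂) {v | ∃ K, Kp D L K ∧ v ∈ K ∧ ¬ KM D L h₁ l₂ K} ≤
    2 + 2 * (e + 1)

/-- **Cnt.** Few exceptional components.  (Uses Crs, Ovl, KE or KD.)

Proof. Let `Kp K`, `¬ Rg K`, `¬ KM K`.  The possible positions `p` (`LX p K`) and `q` (`LW q K`) are unique.
(1) `p` exists and `p ∈ [l₁, h₁]` or `p ∈ [l₂, h₂]`: `sx p K`, `¬ sx (p + 1) K` (`p + 1 + tt k < N` by `Wn.hi`): at most `2 ℓ C` components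
(at most `ℓ` values `p` in each window).  (2) The same for `q`: `sw q K`, `¬ sw (q - 1) K` (`tt k ≤ q - 1` by `Wn.lo`): at most `2 ℓ C`.
Suppose now that neither (1) nor (2) holds.  As `Rg K` is false, (3) `p ∈ (h₁, l₂)`, or (4) `q ∈ (h₁, l₂)`.
(3) As `KM K` is false `q` does not exist or `q < l₁` or `q > h₂`.  The case `q < l₁` is impossible: `x p ~ v`, `w q ~ u'`
with `v, u' ∈ K`; by `KD` (`x p`, `w q` middle) every neighbour `u ∈ K` of `v` (exists, `Cmp`) satisfies: `x p ≁ u` (triangle), so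
`w q ~ u`; `Ovl` (`q + k + 5 ≤ p` since `p > h₁ ≥ l₁ + 2 R - 1`): contradiction.  So `K` is not seen by `x l₂` (`p < l₂`,
`l₂ + tt k < N`) and not by `w (l₂ + 2)` (`l₂ + 2 ≤ h₂ < q`, or `q` does not exist; if `w (l₂ + 2)` saw `K` then the first one
would exist and be `≤ l₂ + 2`): at most `k + 3` components by `Crs`.
(4) (and not (3)) `p` does not exist or `p < l₁` or `p > h₂`.  `p > h₂`: impossible by `KD` and `Ovl` as before
(`q + k + 5 ≤ p` since `q < l₂ ≤ h₂ + 1 - 2 R`).  So `K` is not seen by `x (h₁ - 2)` and not by `w h₁` (`q > h₁`): at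
most `k + 3` components by `Crs`.  Total: `4 ℓ C + 2 (k + 3)` (union of finitely many sets, `Set.encard_union_le`). -/
def S_Cnt : Prop := ∀ (V : Type) (D : SimpleGraph V) (m₀ : ℕ) (L : LD V)
  (r R ℓ l₁ h₁ l₂ h₂ C : ℕ) (S₁ S₂ : Set V), EX D m₀ L r R ℓ l₁ h₁ l₂ h₂ S₁ S₂ →
  (∀ i, Md L i → Md L (i + 3) →
    {K : Set V | Kp D L K ∧ sx D L i K ∧ ¬ sx D L (i + 1) K}.encard ≤ (C : ℕ∞)) →
  (∀ i, Md L i → Md L (i - 3) →
    {K : Set V | Kp D L K ∧ sw D L i K ∧ ¬ sw D L (i - 1) K}.encard ≤ (C : ℕ∞)) →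
  {K : Set V | Kp D L K ∧ ¬ KM D L h₁ l₂ K ∧ ¬ Rg D L l₁ h₂ K}.encard ≤
    ((4 * ℓ * C + 2 * (L.k + 3) : ℕ) : ℕ∞)

/-- **Ext.** The cut-rank of the extended cut.  (Uses Cmp.)

Proof. Let `Y = YS ∪ YK`.  Every light vertex is isolated or in a component with an edge (`Cmp`: its component `K`;
if `v` has a light neighbour then `K` has an edge).  So `Yᶜ` is contained in `((XX ∪ WW ∪ Iso) \ YS) ∪ {v | ∃ K, Kp K ∧ v ∈ K ∧ ¬ KM K}`.
`rk YS` with the first set: `2 r + 10 ρ` (hypothesis); with the second set: `2 + 2 (e + 1)` (hypothesis); `rk YK` with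
`(XX ∪ WW) \ YS`: `2`; `rk YK` with the isolated light vertices: 0 (`YK` is light); `rk YK` with the other components: 0
(`Cmp`: different components; a component is not `KM` and not `KM` at the same time). -/
def S_Ext : Prop := ∀ (V : Type) [Finite V] (D : SimpleGraph V) (m₀ : ℕ) (L : LD V)
  (r R ρ ℓ l₁ h₁ l₂ h₂ e : ℕ) (S₁ S₂ : Set V), EX D m₀ L r R ℓ l₁ h₁ l₂ h₂ S₁ S₂ →
  LK.rk D (YS D L h₁ l₂ h₂ S₁ S₂)
    ((XX D L ∪ WW D L ∪ {v | Iso D L v}) \ YS D L h₁ l₂ h₂ S₁ S₂) ≤ 2 * r + 10 * ρ →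
  LK.rk D (YK D L h₁ l₂) ((XX D L ∪ WW D L) \ YS D L h₁ l₂ h₂ S₁ S₂) ≤ 2 →
  LK.rk D (YS D L h₁ l₂ h₂ S₁ S₂) {v | ∃ K, Kp D L K ∧ v ∈ K ∧ ¬ KM D L h₁ l₂ K} ≤
    2 + 2 * (e + 1) →
  LK.cr D (YS D L h₁ l₂ h₂ S₁ S₂ ∪ YK D L h₁ l₂) ≤ 2 * r + 10 * ρ + 2 * e + 6

/-- **Sz.** Both sides are large.  (Uses Unq.)

Proof. `x i ∈ D3 (h₁+1) (l₂-1) ⊆ YS` for `h₁ < i < l₂` (`TX_x`), and the `x i` are different (`OLnxx`).  `x i`, `k ≤ i < l₁`, is not in `YS`:
its position is `i` (`Unq`), and all elements of `YS` have a position in `[l₁, h₂]`; and it is not in `YK`, whose elements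
are light. -/
def S_Sz : Prop := ∀ (V : Type) [Finite V] (D : SimpleGraph V) (m₀ : ℕ) (L : LD V)
  (r R ℓ l₁ h₁ l₂ h₂ : ℕ) (S₁ S₂ : Set V), EX D m₀ L r R ℓ l₁ h₁ l₂ h₂ S₁ S₂ →
  l₂ ≤ (YS D L h₁ l₂ h₂ S₁ S₂ ∪ YK D L h₁ l₂).ncard + h₁ + 1 ∧
  l₁ ≤ (YS D L h₁ l₂ h₂ S₁ S₂ ∪ YK D L h₁ l₂)ᶜ.ncard + L.k

end Pool.Agent.MPd439b2.OP
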