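import Pool.Agent.Lib.MP_d439b2_co.OP.SpecE
import Pool.Agent.Lib.MP_d439b2_co.Rep.RowQ

/-!
# MP_d439b2_co, OP, Spec F: the opposite case and the row (helper99)

Every `S_...` is a statement to be proved in its own file; the docstring contains the complete proof.
-/

set_option autoImplicit false

namespace Pool.Agent.MPd439b2.OP

open Pool.Agent.MPd439b2 Pool.Agent.MPd439b2.W Pool.Agent.MPd439b2.SA Pool.Agent.MPd439b2.Rep

/-- **NOc.** The graphs without an opposite ladder of size `n` form a finite-state class.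

Proof. `Inv`: transport the four sequences with `e.symm` (or `e`).  `FS` by `Rep.fsLoc_holds (4 * n)`: `Loc (4 n)`: an
opposite ladder in `G` uses the set `S` of at most `4 n` vertices `a i, b i, x i, w i` (`i < n`, `1 ≤ n`) and is one in
`G.induce S` (sequences: constant `a 0` from `n` on).  Conversely an opposite ladder in `G.induce S` gives one in `G`
(compose with the inclusion). -/
def S_NOc : Prop := ∀ n : ℕ, 1 ≤ n → Inv (fun _ D => NoOLn D n) ∧ FS (fun _ D => NoOLn D n)

/-- **Lc.** Layouts give balanced cuts.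

Proof. For a layout of a subset `A` of `↥X` with `2 ≤ |M'|` (`M'` = the preimage of `M` in `↥X`) and `2 |M'| < 3 |M' ∩ A|` (this
holds for `A = univ`; induction on `Lay`): `A` is not empty and not a single vertex (`|M' ∩ {v}| ≤ 1` and `2 |M'| ≥ 4 > 3`), so `A = A₁ ∪ A₂` disjoint; let
`A₁` be the one with more elements of `M'`; if `2 |M'| < 3 |M' ∩ A₁|` use the induction hypothesis for `A₁`; otherwise
`3 |M' ∩ A₁| ≤ 2 |M'|` and `2 |M' ∩ A₁| ≥ |M' ∩ A| > 2 |M'| / 3`, so `|M'| ≤ 3 |M' ∩ A₁|`; take `S = A₁` (as a set of `V`).  For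
`A₁` we need `(Types (D.induce X) A₁).encard ≤ r`: every set `A` with `Lay G r A` has at most `r` types (empty set:
no types; the other two cases by definition).  `rk D S (X \ S) ≤ r`: the traces of the vertices of `S` on `X \ S` are empty or
types (`LK.a1`, part 6, or `Rep.rk_tr` up to the empty trace; compare `Rep.cr_types`). -/
def S_Lc : Prop := ∀ (V : Type) [Finite V] (D : SimpleGraph V) (X : Set V) (r : ℕ),
  Lay (D.induce X) r Set.univ → BC D r X

/-- **Her.** The base class is hereditary.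

Proof. `TriFree`: clear.  `(D.induce X)ᶜ = Dᶜ.induce X`, and an induced minor of `Dᶜ.induce X` is an induced minor of `Dᶜ`
(branch sets: images in `V`). -/
def S_Her : Prop := ∀ (s n : ℕ) (F : SimpleGraph (Fin n)) (V : Type) [Finite V]
  (D : SimpleGraph V) (X : Set V), QB s F V D → QB s F X (D.induce X)

/-- large induced matchings contain opposite ladders, in the class of the graphs without merged spiders and with the
property `Q`, if `Link` holds -/
def NOP (Q : Cls) (k m₀ : ℕ) (β : ℕ → ℕ) : Prop := ∀ N' : ℕ, ∃ c₀ n₁ : ℕ, ∀ (V : Type) [Finite V]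
  (D : SimpleGraph V), Q V D → TriFree D → NoSpi k D → ¬ CoM D m₀ → Link β c₀ D → HNO D N' n₁

/-- **Opp.** The opposite case.  (Uses Far, Win, Blk, Zs, ExtP, ExtQ, ExtR, Cnt, Ext, Sz.)

Proof. Let `R, ρ` be the numbers of `Far k m₀`, `ℓ, N₁` those of `Win k r R`, `c₁, n₁` those of `NOP` for
`N' = 4 k + 32`, `C = n₁ + 7 k + 50`, `e = 4 ℓ C + 2 (k + 3)`, `c = 2 r + 10 ρ + 2 e + 6`, `B = β c`,
`la = tt k + k + B + 2`, `lb = la + N₁ + R + B + 2`, `N₀ = lb + N₁ + tt k + 2`, `c₂, n₂` the numbers of `NOP` for `N' = N₀`,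
`c₀ = max c₁ (max c₂ c)`, `n = n₂`.  `Link β c₀ D` implies `Link β c' D` for `c' ≤ c₀`.  Suppose `IM D n₂ a b`.  There is an
opposite ladder of size `N₀`.  The sizes of opposite ladders in `D` are at most `|V|` (the `a i` are different); let `N`
be the largest one, `L` such a ladder.  `NoOLn D (N + 1)`.  `Blk` gives the bounds `C` for the blocks.  For all
`tt k ≤ l`, `h + tt k < N`: `BC D r (D3 D L l h)` by `Zs`.  `Win` with `l = la` and with `l = lb`: windows `l₁, h₁, S₁` and
`l₂, h₂, S₂`, `EX`.  `Far`, `ExtP`, `ExtQ`, `Cnt`, `ExtR`, `Ext`: `cr D Y ≤ c`.  By `Link` one side has at most `B` elements, but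
by `Sz` `|Y| ≥ l₂ - h₁ - 1 > B` and `|Yᶜ| ≥ l₁ - k > B`. -/
def S_Opp : Prop := ∀ (Q : Cls) (k m₀ r : ℕ) (β : ℕ → ℕ), 1 ≤ k → NOP Q k m₀ β →
  ∃ c₀ n : ℕ, ∀ (V : Type) [Finite V] (D : SimpleGraph V), Q V D → TriFree D → NoSpi k D →
    ¬ CoM D m₀ → Link β c₀ D → (∀ X : Set V, NoOLn (D.induce X) (k + 8) → BC D r X) →
    ∀ a b, ¬ IM D n a b

end Pool.Agent.MPd439b2.OP
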